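import Mathlib
import Pool.Agent.MP_71daef_lc.RAlg

-- ======== part 0: formerly Pool.Agent.MP_71daef_lc.det.Spec
section MrgPart0

/-!
Definitions and statements for the deterministic girth algorithm.
-/

set_option autoImplicit false

namespace Pool.Agent.MP71

open Finset symmDiff

namespace Code

variable (c : Code)

/-- The nullity: the dimension of the space of cycles inside `X`. -/
noncomputable def nul (X : Finset ℕ) : ℕ := Nat.log 2 (c.cy X).card

/-- Contraction of `Q`. -/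
def con (Q : Finset ℕ) : Code where
  cyc Z := Disjoint Z Q ∧ ∃ P ⊆ Q, c.cyc (Z ∪ P)
  zero := ⟨disjoint_empty_left _, ∅, empty_subset _, by simpa using c.zero⟩
  add := by
    rintro X Y ⟨h1, P, h2, h3⟩ ⟨h4, R, h5, h6⟩
    refine ⟨disjoint_of_subset_left symmDiff_le_sup (disjoint_union_left.2 ⟨h1, h4⟩), P ∆ R,
      symmDiff_le_sup.trans (sup_le h2 h5), c.add' h3 h6 fun x => ?_⟩
    have := @disjoint_left.1 h1 x
    have := @disjoint_left.1 h4 x
    have := @h2 x
    have := @h5 x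
    simp only [mem_symmDiff, mem_union]
    grind

/-- The connectivity function on the ground set `E` (used for `A ⊆ E`). -/
noncomputable def lam (E A : Finset ℕ) : ℕ := c.nul E - c.nul A - c.nul (E \ A)

/-- The matrix `[I_d | all 2^d columns]` represents a minor of the restriction to `E`. -/
def Uni (E : Finset ℕ) (d : ℕ) : Prop :=
  ∃ B T : Finset ℕ, T ⊆ B ∧ B ⊆ E ∧ c.Ind B ∧ T.card = d ∧
    ∀ S ⊆ T, ∃ f ∈ E, f ∉ B ∧ ∃ L ⊆ B, c.cyc (insert f L) ∧ L ∩ T = S

/-- A clique minor on `t + 1` vertices inside `E` with contracted set `Q`; `x i` is the star. -/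
def KMq (E Q : Finset ℕ) (t : ℕ) : Prop :=
  Q ⊆ E ∧ ∃ x : Fin t → ℕ, Function.Injective x ∧ (∀ i, x i ∈ E ∧ x i ∉ Q) ∧
    c.Ind (Q ∪ univ.image x) ∧
    ∀ i j, i ≠ j → ∃ z ∈ E, ∃ L ⊆ Q, c.cyc ({z, x i, x j} ∪ L)

/-- A clique minor inside `E`. -/
def KM (E : Finset ℕ) (t : ℕ) : Prop := ∃ Q, c.KMq E Q t

/-- Nonempty cycles inside `E` have weight at least `γ`. -/
def GirW (E : Finset ℕ) (w : ℕ → ℕ) (γ : ℕ) : Prop :=
  ∀ Z ⊆ E, c.cyc Z → Z.Nonempty → γ ≤ ∑ e ∈ Z, w e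

end Code

/-- On the ground set `E` the codes `c` and `b` are orthogonal complements. -/
structure DualPair (c b : Code) (E : Finset ℕ) : Prop where
  orth : ∀ Y ⊆ E, ∀ Z ⊆ E, c.cyc Y → b.cyc Z → Even (Y ∩ Z).card
  left : ∀ Y ⊆ E, (∀ Z ⊆ E, b.cyc Z → Even (Y ∩ Z).card) → c.cyc Y
  right : ∀ Z ⊆ E, (∀ Y ⊆ E, c.cyc Y → Even (Y ∩ Z).card) → b.cyc Z

theorem DualPair.symm {c b : Code} {E : Finset ℕ} (h : DualPair c b E) : DualPair b c E :=
  ⟨fun Y hY Z hZ h1 h2 => inter_comm Z Y ▸ h.orth Z hZ Y hY h2 h1,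
    fun Y hY h1 => h.right Y hY fun Z hZ h2 => inter_comm Y Z ▸ h1 Z hZ h2,
    fun Z hZ h1 => h.left Z hZ fun Y hY h2 => inter_comm Y Z ▸ h1 Y hY h2⟩

theorem Code.Uni.mono {c : Code} {X E : Finset ℕ} {d : ℕ} (h : c.Uni X d) (hX : X ⊆ E) :
    c.Uni E d := by
  obtain ⟨B, T, h1, h2, h3, h4, h5⟩ := h
  refine ⟨B, T, h1, h2.trans hX, h3, h4, fun S hS => ?_⟩
  obtain ⟨f, h6, h7⟩ := h5 S hS
  exact ⟨f, hX h6, h7⟩

theorem Code.KM.mono {c : Code} {X E : Finset ℕ} {t : ℕ} (h : c.KM X t) (hX : X ⊆ E) :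
    c.KM E t := by
  obtain ⟨Q, h1, x, h2, h3, h4, h5⟩ := h
  refine ⟨Q, h1.trans hX, x, h2, fun i => ⟨hX (h3 i).1, (h3 i).2⟩, h4, fun i j hij => ?_⟩
  obtain ⟨z, h6, h7⟩ := h5 i j hij
  exact ⟨z, hX h6, h7⟩

/-- Edges of the complete bipartite graph `K_{a,a}`. -/
abbrev Edg (a : ℕ) := Fin a × Fin a

/-- Vertices of the complete bipartite graph `K_{a,a}`. -/
abbrev Vtx (a : ℕ) := Fin a ⊕ Fin a

/-- All degrees are even. -/
def Eul {a : ℕ} (F : Finset (Edg a)) : Prop :=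
  (∀ p, Even (F.filter (·.1 = p)).card) ∧ ∀ q, Even (F.filter (·.2 = q)).card

/-- The edges with exactly one end in `U`. -/
def cut {a : ℕ} (U : Finset (Vtx a)) : Finset (Edg a) :=
  univ.filter fun e => ¬ (Sum.inl e.1 ∈ U ↔ Sum.inr e.2 ∈ U)

/-- The elements that carry the edges. -/
def edges {a : ℕ} (ε : Edg a → ℕ) : Finset ℕ := univ.image ε

/-- After contracting `C`, the code `c` on the edges `ε` is the cycle space of `K_{a,a}`. -/
structure Model (c : Code) (E : Finset ℕ) {a : ℕ} (ε : Edg a → ℕ) (C : Finset ℕ) : Prop where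
  inj : Function.Injective ε
  mem : ∀ p, ε p ∈ E ∧ ε p ∉ C
  sub : C ⊆ E
  cyc : ∀ F : Finset (Edg a), (∃ L ⊆ C, c.cyc (F.image ε ∪ L)) ↔ Eul F

theorem Model.mono {c : Code} {X E C : Finset ℕ} {a : ℕ} {ε : Edg a → ℕ} (h : Model c X ε C)
    (h1 : ∀ p, ε p ∈ E) (h2 : C ⊆ E) : Model c E ε C :=
  ⟨h.inj, fun p => ⟨h1 p, (h.mem p).2⟩, h2, h.cyc⟩

/-- `A` contains all edges left after removing at most `r` vertices from each side. -/
def Big {a : ℕ} (ε : Edg a → ℕ) (A : Finset ℕ) (r : ℕ) : Prop :=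
  ∃ I J : Finset (Fin a), a ≤ I.card + r ∧ a ≤ J.card + r ∧ ∀ p ∈ I, ∀ q ∈ J, ε (p, q) ∈ A

/-- A model in `c` and a model in the dual `b`, disjoint from each other. -/
structure Two (c b : Code) (E : Finset ℕ) {a : ℕ} (ε₁ : Edg a → ℕ) (C : Finset ℕ)
    (ε₂ : Edg a → ℕ) (D : Finset ℕ) : Prop where
  dual : DualPair c b E
  fst : Model c E ε₁ C
  snd : Model b E ε₂ D
  disj : Disjoint (edges ε₁ ∪ C) (edges ε₂ ∪ D)

/-- The two models are not split by a separation of order less than `k`. -/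
def Sep (c : Code) (E : Finset ℕ) {a : ℕ} (ε₁ ε₂ : Edg a → ℕ) (k : ℕ) : Prop :=
  ∀ A ⊆ E, Big ε₁ A (4 * k) → Big ε₂ (E \ A) (4 * k) → k ≤ c.lam E A

/-- Disjoint groups of vertices; each group and the rest meet both sides. -/
structure Part {a : ℕ} {ι : Type} (R : ι → Finset (Vtx a)) : Prop where
  disj : ∀ i j, i ≠ j → Disjoint (R i) (R j)
  both : ∀ i, (∃ p, Sum.inl p ∈ R i) ∧ ∃ q, Sum.inr q ∈ R i
  rest : (∃ p, ∀ i, Sum.inl p ∉ R i) ∧ ∃ q, ∀ i, Sum.inr q ∉ R i

/-- The units of a weighting: `w e` copies of `e`. -/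
def units (w : ℕ → ℕ) (X : Finset ℕ) : Finset (ℕ × ℕ) :=
  X.biUnion fun e => (range (w e)).image fun i => (e, i)

/-- The sums of columns of a matrix. -/
def sums {ρ κ : Type} [Fintype ρ] [Fintype κ] [DecidableEq ρ] (Y : ρ → κ → F2) :
    Finset (ρ → F2) :=
  (univ : Finset (Finset κ)).image fun U r => ∑ v ∈ U, Y r v

/-! ### Statements -/

/-- Row NUL. -/
structure NulStmt : Prop where
  card_cy : ∀ (c : Code) (X : Finset ℕ), (c.cy X).card = 2 ^ c.nul X
  bas : ∀ (c : Code) (X B : Finset ℕ), c.Bas X B → c.nul X = (X \ B).card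
  ind : ∀ (c : Code) (X : Finset ℕ), c.nul X = 0 ↔ c.Ind X
  mono : ∀ (c : Code) (X Y : Finset ℕ), X ⊆ Y → c.nul X ≤ c.nul Y
  sup : ∀ (c : Code) (X Y : Finset ℕ), c.nul X + c.nul Y ≤ c.nul (X ∪ Y) + c.nul (X ∩ Y)
  sdiff : ∀ (c : Code) (X S : Finset ℕ), c.nul X ≤ c.nul (X \ S) + S.card
  lt : ∀ (c : Code) (X Y Z : Finset ℕ), X ⊆ Y → Z ⊆ Y → c.cyc Z → ¬ Z ⊆ X → c.nul X < c.nul Y
  eq : ∀ (c : Code) (X Y : Finset ℕ), X ⊆ Y → (∀ Z ⊆ Y, c.cyc Z → Z ⊆ X) → c.nul Y = c.nul X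
  congr : ∀ (c c' : Code) (X : Finset ℕ), (∀ Z ⊆ X, c.cyc Z ↔ c'.cyc Z) → c.nul X = c'.nul X
  con : ∀ (c : Code) (X Q : Finset ℕ), Disjoint X Q →
    (c.con Q).nul X + c.nul Q = c.nul (X ∪ Q)
  con_con : ∀ (c : Code) (P Q Z : Finset ℕ), ((c.con P).con Q).cyc Z ↔ (c.con (P ∪ Q)).cyc Z
  priv : ∀ (c : Code) (Y P : Finset ℕ), (∀ e ∈ P, ∃ Z ⊆ Y, c.cyc Z ∧ Z ∩ P = {e}) →
    c.nul (Y \ P) + P.card ≤ c.nul Y
  ext : ∀ (c : Code) (X B : Finset ℕ), B ⊆ X → c.Ind B → ∃ B', B ⊆ B' ∧ c.Bas X B'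

/-- Row LAM. -/
structure LamStmt : Prop where
  add : ∀ (c : Code) (E A : Finset ℕ), A ⊆ E → c.lam E A + c.nul A + c.nul (E \ A) = c.nul E
  compl : ∀ (c : Code) (E A : Finset ℕ), A ⊆ E → c.lam E (E \ A) = c.lam E A
  self : ∀ (c : Code) (E : Finset ℕ), c.lam E E = 0
  sub : ∀ (c : Code) (E A B : Finset ℕ), A ⊆ E → B ⊆ E →
    c.lam E (A ∩ B) + c.lam E (A ∪ B) ≤ c.lam E A + c.lam E B
  corner : ∀ (c : Code) (E X A : Finset ℕ), X ⊆ E → A ⊆ E →
    c.lam E (X ∩ A) + c.lam E (X \ A) ≤ c.lam E X + 2 * c.lam E A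
  cls : ∀ (c : Code) (E A : Finset ℕ) (𝓕 : Finset (Finset ℕ)), A ⊆ E → 𝓕 ⊆ c.cy E →
    (∀ Z ∈ 𝓕, ∀ Z' ∈ 𝓕, c.cyc ((Z ∆ Z') ∩ A) → Z = Z') → 𝓕.card ≤ 2 ^ c.lam E A
  cls' : ∀ (c : Code) (E A : Finset ℕ) (β : Type) [DecidableEq β] (κ : Finset ℕ → β), A ⊆ E →
    (∀ Z ∈ c.cy E, ∀ Z' ∈ c.cy E, κ Z = κ Z' → c.cyc ((Z ∆ Z') ∩ A)) →
    2 ^ c.lam E A ≤ ((c.cy E).image κ).card
  del : ∀ (c : Code) (E A : Finset ℕ) (e : ℕ), e ∈ E → A ⊆ E.erase e →
    c.lam E A ≤ c.lam (E.erase e) A + 1 ∧ c.lam E (insert e A) ≤ c.lam (E.erase e) A + 1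
  con : ∀ (c : Code) (E A : Finset ℕ) (e : ℕ), e ∈ E → A ⊆ E.erase e →
    c.lam E A ≤ (c.con {e}).lam (E.erase e) A + 1 ∧
      c.lam E (insert e A) ≤ (c.con {e}).lam (E.erase e) A + 1
  bc : ∀ (c : Code) (E A A' : Finset ℕ) (e : ℕ), e ∈ E → A ⊆ E.erase e → A' ⊆ E.erase e →
    c.lam E (A ∩ A') + c.lam E (insert e (A ∪ A')) ≤
      c.lam (E.erase e) A + (c.con {e}).lam (E.erase e) A' + 1

/-- Row DUAL. -/
structure DualStmt : Prop where
  ex : ∀ (c : Code) (E : Finset ℕ), ∃ b, DualPair c b E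
  bas : ∀ (c b : Code) (E B : Finset ℕ), DualPair c b E → c.Bas E B → b.Bas E (E \ B)
  con : ∀ (c b : Code) (E Q : Finset ℕ), DualPair c b E → Q ⊆ E → DualPair (c.con Q) b (E \ Q)
  nul : ∀ (c b : Code) (E X : Finset ℕ), DualPair c b E → X ⊆ E →
    b.nul X + c.nul E = X.card + c.nul (E \ X)
  lam : ∀ (c b : Code) (E A : Finset ℕ), DualPair c b E → A ⊆ E → b.lam E A = c.lam E A
  uni : ∀ (c b : Code) (E : Finset ℕ) (d : ℕ), DualPair c b E → b.Uni E (2 ^ d) → c.Uni E d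

/-- Row UNI. -/
structure UniStmt : Prop where
  con : ∀ (c : Code) (E X Q : Finset ℕ) (d : ℕ), X ⊆ E → Q ⊆ E → (c.con Q).Uni X d → c.Uni E d
  le : ∀ (c : Code) (E : Finset ℕ) (d d' : ℕ), d ≤ d' → c.Uni E d' → c.Uni E d
  emb : ∀ (c : Code) (E : Finset ℕ) (r k : ℕ) (D : ℕ → Fin r → Prop),
    c.Uni E (r + k) → c.Emb E k D
  count : ∀ d α : ℕ, ∃ V, ∀ (c : Code) (E : Finset ℕ) (g : ℕ), ¬ c.Uni E d → c.Gir E g →
    ((c.cy E).filter (·.card ≤ α * g)).card ≤ (E.card + 1) ^ V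
  fmb : ∀ d β : ℕ, ∃ F, ∀ (c : Code) (E S : Finset ℕ) (g : ℕ), ¬ c.Uni E d → c.Gir E g →
    S ⊆ E → S.card ≤ β * g → c.nul S ≤ F

/-- Row LIGHT. -/
def LightStmt : Prop :=
  ∀ t : ℕ, ∃ c₀ : ℕ, ∀ (c : Code) (S : Finset ℕ) (w : ℕ → ℝ) (g : ℝ), ¬ c.KM S t →
    (∀ e ∈ S, 0 ≤ w e) → (∀ Z ⊆ S, c.cyc Z → Z.Nonempty → g ≤ ∑ e ∈ Z, w e) →
    g * c.nul S ≤ c₀ * ∑ e ∈ S, w e

/-- Block P: witnesses for all cycles when the dual has no large clique minor. -/
def WCStmt : Prop :=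
  ∀ d t : ℕ, ∃ V, ∀ (c b : Code) (E : Finset ℕ) (G : ℕ), DualPair c b E → ¬ c.Uni E d →
    ¬ b.KM E t → c.Gir E G → 1 ≤ G → ∃ 𝓨 : Finset (Finset ℕ),
      𝓨.card ≤ (E.card + 1) ^ V * 2 ^ (V * G) ∧ (∀ Y ∈ 𝓨, Y ⊆ E ∧ G ≤ Y.card) ∧
      ∀ Z ⊆ E, c.cyc Z → Z.Nonempty → ∃ Y ∈ 𝓨, Y ⊆ Z

/-- Row SMALL. -/
def SmallStmt : Prop :=
  ∀ d a q : ℕ, ∃ T₀, ∀ T, T₀ ≤ T → ∀ (c : Code) (X Q : Finset ℕ), ¬ c.Uni X d → c.KMq X Q T →
    ∃ (ε : Edg a → ℕ) (Q' : Finset ℕ), q * Q'.card ≤ Q.card ∧ Model c X ε Q'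

/-- Row DICH. -/
def DichStmt : Prop :=
  ∀ (c : Code) (E C A : Finset ℕ) (a k : ℕ) (ε : Edg a → ℕ), Model c E ε C → A ⊆ E →
    c.lam E A ≤ k → Big ε A (2 * k) ∨ Big ε (E \ A) (2 * k)

/-- Row BAL. -/
def BalStmt : Prop :=
  ∀ k a₀ : ℕ, ∃ a₁, ∀ (c : Code) (E C A : Finset ℕ) (a : ℕ) (ε : Edg a → ℕ)
    (I J : Finset (Fin a)), Model c E ε C → A ⊆ E → c.lam E A ≤ k → Disjoint C A →
    a₁ ≤ I.card → a₁ ≤ J.card → (∀ p ∈ I, ∀ q ∈ J, ε (p, q) ∈ A) →
    ∃ f g : Fin a₀ → Fin a, Function.Injective f ∧ Function.Injective g ∧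
      Model c E (fun e : Edg a₀ => ε (f e.1, g e.2)) ∅

/-- Row LINK2: Tutte's linking theorem, keeping `c` on `K₁` and `b` on `K₂`. -/
def Link2Stmt : Prop :=
  ∀ (c b : Code) (E K₁ K₂ : Finset ℕ) (k : ℕ), DualPair c b E → K₁ ⊆ E → K₂ ⊆ E →
    Disjoint K₁ K₂ → (∀ A, K₁ ⊆ A → A ⊆ E \ K₂ → k ≤ c.lam E A) →
    ∃ c' b' : Code, DualPair c' b' (K₁ ∪ K₂) ∧ (∀ Z ⊆ K₁, c'.cyc Z ↔ c.cyc Z) ∧
      (∀ Z ⊆ K₂, b'.cyc Z ↔ b.cyc Z) ∧ k ≤ c'.lam (K₁ ∪ K₂) K₁ ∧
      ∀ d, c'.Uni (K₁ ∪ K₂) d → c.Uni E d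

/-- Row ID. -/
def IdStmt : Prop :=
  ∀ m : ℕ, ∃ k, ∀ (ρ κ : Type) [Fintype ρ] [Fintype κ] [DecidableEq ρ] [DecidableEq κ]
    (Y : ρ → κ → F2), 2 ^ k ≤ (sums Y).card →
    ∃ (R : Fin m → Finset ρ) (U : Fin m → Finset κ),
      (∀ i j, i ≠ j → Disjoint (R i) (R j) ∧ Disjoint (U i) (U j)) ∧
      (∀ i, (R i).card ≤ m + 1 ∧ (U i).card ≤ m + 1) ∧
      ∀ i j, ∑ r ∈ R i, ∑ v ∈ U j, Y r v = if i = j then 1 else 0

/-- Row GRID. -/
def GridStmt : Prop :=
  ∀ d : ℕ, ∃ k a₀, ∀ a, a₀ ≤ a → ∀ Y : Vtx a → Vtx a → F2, 2 ^ k ≤ (sums Y).card →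
    ∃ (R : Fin d → Finset (Vtx a)) (U : Finset (Fin d) → Finset (Vtx a)), Part R ∧ Part U ∧
      ∀ t S, ∑ r ∈ R t, ∑ v ∈ U S, Y r v = if t ∈ S then 1 else 0

/-- Row TREE. -/
structure TreeStmt : Prop where
  eul : ∀ (a : ℕ) (F : Finset (Edg a)), Eul F ↔ ∀ v, Even (F ∩ cut {v}).card
  par : ∀ (a : ℕ) (F : Finset (Edg a)) (U : Finset (Vtx a)),
    ((F ∩ cut U).card : F2) = ∑ v ∈ U, ((F ∩ cut {v}).card : F2)
  add : ∀ (a : ℕ) (F F' : Finset (Edg a)) (U : Finset (Vtx a)),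
    (((F ∆ F') ∩ cut U).card : F2) = (F ∩ cut U).card + (F' ∩ cut U).card
  ins : ∀ (a : ℕ) (U : Finset (Vtx a)) (v : Vtx a), v ∉ U → cut (insert v U) = cut {v} ∆ cut U
  isCut : ∀ (a : ℕ) (F : Finset (Edg a)), (∀ F', Eul F' → Even (F ∩ F').card) → ∃ U, F = cut U
  tree : ∀ (a : ℕ) (ι : Type) [Fintype ι] (R : ι → Finset (Vtx a)), Part R →
    ∃ (Tr : Finset (Edg a)) (e : ι → Edg a), Function.Injective e ∧
      (∀ F ⊆ Tr, Eul F → F = ∅) ∧ (∀ F, ∃ J ⊆ Tr, Eul (F ∆ J)) ∧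
      (∀ i, Tr ∩ cut (R i) = {e i}) ∧ ∀ U, Disjoint Tr (cut U) → cut U = ∅

/-- Row FIN. -/
def FinStmt : Prop :=
  ∀ d : ℕ, ∃ k a₀, ∀ a, a₀ ≤ a → ∀ (c b : Code) (ε₁ ε₂ : Edg a → ℕ),
    Two c b (edges ε₁ ∪ edges ε₂) ε₁ ∅ ε₂ ∅ → k ≤ c.lam (edges ε₁ ∪ edges ε₂) (edges ε₁) →
    c.Uni (edges ε₁ ∪ edges ε₂) d

/-- Row END. -/
def EndStmt : Prop :=
  ∀ d : ℕ, ∃ a k, 1 ≤ k ∧ 6 * k < a ∧ ∀ (c b : Code) (E C D A₁ A₂ : Finset ℕ)
    (ε₁ ε₂ : Edg a → ℕ), Two c b E ε₁ C ε₂ D → Sep c E ε₁ ε₂ k → A₁ ⊆ E → A₂ ⊆ E →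
    c.lam E A₁ ≤ k → c.lam E A₂ ≤ k → Big ε₁ A₁ (4 * k) → Big ε₂ A₂ (4 * k) →
    Disjoint C A₁ → Disjoint D A₂ → c.Uni E d

/-- Row LINK1. -/
def Link1Stmt : Prop :=
  ∀ d : ℕ, ∃ a k, 1 ≤ k ∧ 6 * k < a ∧ ∀ (c b : Code) (E C D : Finset ℕ)
    (ε₁ ε₂ : Edg a → ℕ), Two c b E ε₁ C ε₂ D → Sep c E ε₁ ε₂ k → c.Uni E d

/-- Row MIX. -/
def MixStmt : Prop :=
  ∀ d : ℕ, ∃ k T C, 1 ≤ k ∧ ∀ (c b : Code) (Y X : Finset ℕ) (G : ℕ), DualPair c b Y →
    ¬ c.Uni Y d → c.Gir Y G → (∀ S ⊆ Y, C * S.card + G * c.nul (Y \ S) ≤ G * c.nul Y) →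
    X ⊆ Y → c.lam Y X < k → 0 < c.nul X → (∀ X' ⊂ X, c.lam Y X' < k → c.nul X' = 0) →
    ¬ b.KM X T

/-- Row CLOSE (proved together with row W). -/
def CloseStmt : Prop :=
  ∀ (c : Code) (E U₀ : Finset ℕ) (G k : ℕ), 1 ≤ G → U₀ ⊆ E →
    (∀ U, U₀ ⊆ U → U ⊆ E → U.card < U₀.card + G → c.nul U < k) →
    ∃ U G', U₀ ⊆ U ∧ U ⊆ E ∧ U.card < U₀.card + G ∧ G ≤ k * G' ∧ G' ≤ G ∧
      (c.con U).Gir (E \ U) G'

/-- Row W: witnesses for all dense sets. -/
def WStmt : Prop :=
  ∀ d : ℕ, ∃ V q C, ∀ (c : Code) (E : Finset ℕ) (G : ℕ), ¬ c.Uni E d → c.Gir E G → 1 ≤ G →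
    ∃ 𝓨 : Finset (Finset ℕ), 𝓨.card ≤ (E.card + 1) ^ V * 2 ^ (V * G) ∧
      (∀ Y ∈ 𝓨, Y ⊆ E ∧ G ≤ q * Y.card) ∧
      ∀ S ⊆ E, (∀ Y ∈ 𝓨, ¬ Y ⊆ S) → G * c.nul S ≤ C * S.card

/-- Row SP: witnesses that avoid a small target `Z`. -/
def SPStmt : Prop :=
  ∀ d α : ℕ, ∃ V q C, ∀ (c : Code) (E Z : Finset ℕ) (γ : ℕ), ¬ c.Uni E d →
    c.Gir E γ → 1 ≤ γ → Z ⊆ E → Z.card ≤ α * γ →
    ∃ 𝓨 : Finset (Finset ℕ), 𝓨.card ≤ (E.card + 1) ^ V * 2 ^ (V * γ) ∧
      (∀ Y ∈ 𝓨, Y ⊆ E \ Z ∧ γ ≤ q * Y.card) ∧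
      ∀ X ⊆ E, (∀ Y ∈ 𝓨, ¬ Y ⊆ X) → γ * c.nul X ≤ C * X.card

/-- Row SPW: weighted witnesses that avoid a light target `Z`. -/
def SPWStmt : Prop :=
  ∀ d α : ℕ, ∃ V q C, ∀ (c : Code) (E Z : Finset ℕ) (w : ℕ → ℕ) (γ : ℕ), ¬ c.Uni E d →
    c.GirW E w γ → 1 ≤ γ → Z ⊆ E → ∑ e ∈ Z, w e ≤ α * γ →
    ∃ 𝓨 : Finset (Finset (ℕ × ℕ)), 𝓨.card ≤ (∑ e ∈ E, w e + 1) ^ V * 2 ^ (V * γ) ∧
      (∀ Y ∈ 𝓨, Y ⊆ units w E ∧ Disjoint Y (units w Z) ∧ γ ≤ q * Y.card) ∧
      ∀ X ⊆ E, (∀ Y ∈ 𝓨, ¬ Y ⊆ units w X) → γ * c.nul X ≤ C * ∑ e ∈ X, w e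

/-- Row SPW, second part: few light cycles. -/
def CountWStmt : Prop :=
  ∀ d α : ℕ, ∃ V, ∀ (c : Code) (E : Finset ℕ) (w : ℕ → ℕ) (γ : ℕ), ¬ c.Uni E d →
    c.GirW E w γ → 1 ≤ γ →
    ((c.cy E).filter fun Z => ∑ e ∈ Z, w e ≤ α * γ).card ≤ (∑ e ∈ E, w e + 1) ^ V

/-- Block A: the algorithm. -/
def TopStmt : Prop :=
  ∀ d : ℕ, ∃ f : List (List Bool) → ℕ, N68a2faeb.IsPolyTime f ∧
    ∀ (m : ℕ) (A : List (List Bool)), (A.headD []).length = m →
      ¬ (mcode m A).Uni (range A.length) d →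
      (f A ≠ 0 → ∃ Z ⊆ range A.length, (mcode m A).cyc Z ∧ Z.card = f A) ∧
      ∀ Z ⊆ range A.length, (mcode m A).cyc Z → Z.Nonempty → f A ≠ 0 ∧ f A ≤ Z.card

end Pool.Agent.MP71

end MrgPart0

-- ======== part 1: formerly Pool.Agent.MP_71daef_lc.det.Small
section MrgPart1

/-!
Row SMALL: a clique minor in a code without a universal minor contains a model of the complete
bipartite graph with a small contracted set.
-/

set_option autoImplicit false

namespace Pool.Agent.MP71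

open Finset symmDiff

namespace Small

theorem sum_cyc {ι : Type} [DecidableEq ι] (c : Code) (tri : ι → Finset ℕ)
    (h : ∀ e, c.cyc (tri e)) (F : Finset ι) :
    ∃ W, c.cyc W ∧ ∀ y, y ∈ W ↔ Odd (F.filter (y ∈ tri ·)).card := by
  induction F using Finset.induction_on with
  | empty => exact ⟨∅, c.zero, by simp⟩
  | insert e F he ih =>
    obtain ⟨W, h1, h2⟩ := ih
    refine ⟨tri e ∆ W, c.add (h e) h1, fun y => ?_⟩
    rw [filter_insert, mem_symmDiff, h2]
    split_ifs with hy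
    · rw [card_insert_of_notMem (fun h' => he (mem_filter.1 h').1), Nat.odd_add_one]
      simp [hy]
    · simp [hy]

theorem even_rows {a : ℕ} {F : Finset (Edg a)} (h : ∀ p, Even (F.filter (·.1 = p)).card)
    (A : Fin a → Prop) [DecidablePred A] : Even (F.filter fun e => A e.1).card := by
  rw [card_eq_sum_card_fiberwise (f := fun e : Edg a => e.1) (t := univ) fun _ _ => mem_univ _]
  refine even_sum _ fun p _ => ?_
  by_cases hp : A p
  · have : (F.filter fun e => A e.1).filter (fun e => e.1 = p) = F.filter (·.1 = p) := by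
      ext e
      simp only [mem_filter]
      constructor
      · exact fun h => ⟨h.1.1, h.2⟩
      · exact fun h => ⟨⟨h.1, h.2 ▸ hp⟩, h.2⟩
    rw [this]
    exact h p
  · have : (F.filter fun e => A e.1).filter (fun e => e.1 = p) = ∅ := by
      refine filter_eq_empty_iff.2 fun e he h' => hp ?_
      exact h' ▸ (mem_filter.1 he).2
    simp [this]

theorem model (c : Code) (X Q Q' : Finset ℕ) {T a : ℕ} (x : Fin T → ℕ)
    (hx : Function.Injective x) (hxQ : ∀ i, x i ∉ Q) (hI : c.Ind (Q ∪ univ.image x))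
    (r g : Fin a → Fin T) (hr : Function.Injective r) (hg : Function.Injective g)
    (hrg : ∀ p q, r p ≠ g q) (ε : Edg a → ℕ) (L : Edg a → Finset ℕ) (C : Fin a → Finset ℕ)
    (hε : ∀ e, ε e ∈ X) (hL : ∀ e, L e ⊆ Q)
    (hc : ∀ e, c.cyc ({ε e, x (r e.1), x (g e.2)} ∪ L e)) (hQ : Q' ⊆ Q) (hX : Q ⊆ X)
    (hC : ∀ e, L e ∆ C e.1 ⊆ Q') : Model c X ε Q' := by
  classical
  set B := Q ∪ univ.image x with hB
  set tri : Edg a → Finset ℕ := fun e => {ε e, x (r e.1), x (g e.2)} ∪ L e with htri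
  have hxB : ∀ i, x i ∈ B := fun i => mem_union_right _ (mem_image_of_mem _ (mem_univ _))
  have hQB : ∀ y ∈ Q, y ∈ B := fun y hy => mem_union_left _ hy
  have hεB : ∀ e, ε e ∉ B := by
    intro e he
    have h1 : tri e ⊆ B := by
      intro y hy
      simp only [htri, mem_union, mem_insert, mem_singleton] at hy
      rcases hy with (rfl | rfl | rfl) | hy
      exacts [he, hxB _, hxB _, hQB _ (hL e hy)]
    have h2 := hI _ h1 (hc e)
    have h3 : ε e ∈ tri e := by simp [htri]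
    simp [h2] at h3
  have m1 : ∀ y, y ∉ B → ∀ e, y ∈ tri e ↔ ε e = y := by
    intro y hy e
    simp only [htri, mem_union, mem_insert, mem_singleton]
    constructor
    · rintro ((rfl | rfl | rfl) | h)
      exacts [rfl, absurd (hxB _) hy, absurd (hxB _) hy, absurd (hQB _ (hL e h)) hy]
    · rintro rfl
      exact Or.inl (Or.inl rfl)
  have m2 : ∀ i e, x i ∈ tri e ↔ r e.1 = i ∨ g e.2 = i := by
    intro i e
    simp only [htri, mem_union, mem_insert, mem_singleton]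
    constructor
    · rintro ((h | h | h) | h)
      exacts [absurd (h ▸ hxB i) (hεB e), Or.inl (hx h).symm, Or.inr (hx h).symm,
        absurd (hL e h) (hxQ i)]
    · rintro (rfl | rfl)
      exacts [Or.inl (Or.inr (Or.inl rfl)), Or.inl (Or.inr (Or.inr rfl))]
  have m2r : ∀ p e, x (r p) ∈ tri e ↔ e.1 = p := fun p e =>
    (m2 _ e).trans ⟨fun h => h.elim (fun h => hr h) fun h => absurd h.symm (hrg _ _),
      fun h => Or.inl (h ▸ rfl)⟩
  have m2g : ∀ q e, x (g q) ∈ tri e ↔ e.2 = q := fun q e =>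
    (m2 _ e).trans ⟨fun h => h.elim (fun h => absurd h (hrg _ _)) fun h => hg h,
      fun h => Or.inr (h ▸ rfl)⟩
  have m3 : ∀ y ∈ Q, ∀ e, y ∈ tri e ↔ y ∈ L e := by
    intro y hy e
    simp only [htri, mem_union, mem_insert, mem_singleton]
    constructor
    · rintro ((rfl | rfl | rfl) | h)
      exacts [absurd (hQB _ hy) (hεB e), absurd hy (hxQ _), absurd hy (hxQ _), h]
    · exact Or.inr
  have inj : Function.Injective ε := by
    intro e e' hee
    have h1 : tri e ∆ tri e' ⊆ B := by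
      intro y hy
      by_contra hyB
      rw [mem_symmDiff, m1 y hyB, m1 y hyB, hee] at hy
      tauto
    have h2 : tri e = tri e' := symmDiff_eq_bot.1 (hI _ h1 (c.add (hc e) (hc e')))
    refine Prod.ext ?_ ?_
    · exact ((m2r e.1 e').1 (h2 ▸ (m2r e.1 e).2 rfl)).symm
    · exact ((m2g e.2 e').1 (h2 ▸ (m2g e.2 e).2 rfl)).symm
  refine ⟨inj, fun e => ⟨hε e, fun h => hεB e (hQB _ (hQ h))⟩, hQ.trans hX, fun F => ?_⟩
  obtain ⟨W, hW, hm⟩ := sum_cyc c tri hc F
  have w1 : ∀ y, y ∉ B → (y ∈ W ↔ y ∈ F.image ε) := by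
    intro y hy
    rw [hm, filter_congr fun e _ => m1 y hy e]
    by_cases h : y ∈ F.image ε
    · obtain ⟨e, he, rfl⟩ := mem_image.1 h
      have : F.filter (fun e' => ε e' = ε e) = {e} := by
        ext e'
        simp only [mem_filter, mem_singleton]
        exact ⟨fun h => inj h.2, fun h => by subst h; exact ⟨he, rfl⟩⟩
      simp [this, h]
    · have : F.filter (fun e' => ε e' = y) = ∅ :=
        filter_eq_empty_iff.2 fun e he h' => h (mem_image.2 ⟨e, he, h'⟩)
      simp only [this, h]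
      simp
  have w2 : ∀ p, x (r p) ∈ W ↔ Odd (F.filter (·.1 = p)).card := fun p => by
    rw [hm, filter_congr fun e _ => m2r p e]
  have w3 : ∀ q, x (g q) ∈ W ↔ Odd (F.filter (·.2 = q)).card := fun q => by
    rw [hm, filter_congr fun e _ => m2g q e]
  have hFB : ∀ y ∈ F.image ε, y ∉ B := by
    intro y hy
    obtain ⟨e, -, rfl⟩ := mem_image.1 hy
    exact hεB e
  constructor
  · rintro ⟨L₀, h1, h2⟩
    have h3 : W ∆ (F.image ε ∪ L₀) ⊆ B := by
      intro y hy
      by_contra hyB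
      have : y ∉ L₀ := fun h => hyB (hQB _ (hQ (h1 h)))
      rw [mem_symmDiff, w1 y hyB, mem_union] at hy
      tauto
    have h4 : W = F.image ε ∪ L₀ := symmDiff_eq_bot.1 (hI _ h3 (c.add hW h2))
    have h5 : ∀ i, x i ∉ W := by
      intro i hi
      rw [h4, mem_union] at hi
      exact hi.elim (fun h => hFB _ h (hxB i)) fun h => hxQ i (hQ (h1 h))
    exact ⟨fun p => Nat.not_odd_iff_even.1 fun h => h5 _ ((w2 p).2 h),
      fun q => Nat.not_odd_iff_even.1 fun h => h5 _ ((w3 q).2 h)⟩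
  · rintro ⟨h1, h2⟩
    refine ⟨W ∩ Q', inter_subset_right, ?_⟩
    have : F.image ε ∪ W ∩ Q' = W := by
      ext y
      rw [mem_union, mem_inter]
      refine ⟨fun h => h.elim (fun h => (w1 y (hFB y h)).2 h) And.left, fun hy => ?_⟩
      by_cases hyB : y ∈ B
      · refine Or.inr ⟨hy, ?_⟩
        by_contra hy'
        rcases mem_union.1 hyB with h | h
        · have h3 : ∀ e, y ∈ tri e ↔ y ∈ C e.1 := fun e => by
            have := fun h => hy' (hC e h)
            rw [mem_symmDiff] at this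
            rw [m3 y h e]
            tauto
          rw [hm, filter_congr fun e _ => h3 e] at hy
          exact Nat.not_odd_iff_even.2 (even_rows h1 fun p => y ∈ C p) hy
        · obtain ⟨i, -, rfl⟩ := mem_image.1 h
          obtain ⟨e, he⟩ := card_pos.1 ((hm _).1 hy).pos
          rcases (m2 i e).1 (mem_filter.1 he).2 with rfl | rfl
          · exact Nat.not_odd_iff_even.2 (h1 _) ((w2 _).1 hy)
          · exact Nat.not_odd_iff_even.2 (h2 _) ((w3 _).1 hy)
      · exact Or.inl ((w1 y hyB).1 hy)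
    rw [this]
    exact hW

theorem centres {ι : Type} [DecidableEq ι] (K₀ : Finset ι) (Q : Finset ℕ) (P : ι → Finset ℕ)
    {d δ : ℕ} (hδ : 0 < δ) (hP : ∀ f ∈ K₀, P f ⊆ Q)
    (htr : ∀ T ⊆ Q, T.card = d → (K₀.image (P · ∩ T)).card < 2 ^ d) :
    ∃ K ⊆ K₀, K.card ≤ 2 ^ (4 * d * Q.card / δ + 1) ∧
      ∀ f ∈ K₀, ∃ g ∈ K, (P f ∆ P g).card < δ := by
  classical
  obtain ⟨sep, hsep⟩ : ∃ sep : Finset ι → Prop, ∀ K, sep K ↔
      ∀ f ∈ K, ∀ g ∈ K, f ≠ g → δ ≤ (P f ∆ P g).card := ⟨_, fun _ => Iff.rfl⟩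
  obtain ⟨K, hK, hmax⟩ := exists_max_image (K₀.powerset.filter sep) card ⟨∅, by simp [hsep]⟩
  obtain ⟨h1, h2⟩ := mem_filter.1 hK
  rw [hsep] at h2
  rw [mem_powerset] at h1
  refine ⟨K, h1, packing_vc K Q P hδ (fun f hf => hP f (h1 hf)) h2 fun T hT hc =>
    (card_le_card (image_subset_image h1)).trans_lt (htr T hT hc), fun f hf => ?_⟩
  by_contra hno
  push Not at hno
  have hfK : f ∉ K := fun h => by
    have := hno f h
    simp at this
    omega
  have h3 := hmax (insert f K) (mem_filter.2 ⟨mem_powerset.2 (insert_subset hf h1),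
    (hsep _).2 ?_⟩)
  · rw [card_insert_of_notMem hfK] at h3
    omega
  · intro u hu v hv huv
    rcases mem_insert.1 hu with rfl | hu' <;> rcases mem_insert.1 hv with rfl | hv'
    · exact absurd rfl huv
    · exact hno v hv'
    · rw [symmDiff_comm]
      exact hno u hu'
    · exact h2 u hu' v hv' huv

end Small

theorem small_stmt : SmallStmt := by
  classical
  intro d a q
  refine ⟨a + (2 ^ (4 * d * (a * a * q + 1) + 1)) ^ a * a + 1, fun T hT c X Q hU hK => ?_⟩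
  obtain ⟨hQ, x, hx, hxX, hI, hz⟩ := hK
  choose! z hzX L hL hc using hz
  have hzB : ∀ i j, i ≠ j → z i j ∉ Q ∪ univ.image x := by
    intro i j hij h
    have h1 : {z i j, x i, x j} ∪ L i j ⊆ Q ∪ univ.image x := by
      intro y hy
      simp only [mem_union, mem_insert, mem_singleton] at hy
      rcases hy with (rfl | rfl | rfl) | hy
      exacts [h, mem_union_right _ (mem_image_of_mem _ (mem_univ _)),
        mem_union_right _ (mem_image_of_mem _ (mem_univ _)), mem_union_left _ (hL i j hij hy)]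
    have h2 := hI _ h1 (hc i j hij)
    have h3 : z i j ∈ {z i j, x i, x j} ∪ L i j := by simp
    simp [h2] at h3
  set q₂ := a * a * q + 1 with hq₂
  obtain ⟨K, hK, hκ, hcen⟩ := Small.centres (d := d) (δ := Q.card / q₂ + 1)
    (univ.filter fun f : Fin T × Fin T => f.1 ≠ f.2) Q (fun f => L f.1 f.2) (Nat.succ_pos _)
    (fun f hf => hL _ _ (mem_filter.1 hf).2) (by
      intro T' hT' hd
      by_contra hlt
      have h1 : (univ.filter fun f : Fin T × Fin T => f.1 ≠ f.2).image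
          (fun f => L f.1 f.2 ∩ T') = T'.powerset := by
        refine eq_of_subset_of_card_le (fun S hS => ?_) (by rw [card_powerset, hd]; omega)
        obtain ⟨f, -, rfl⟩ := mem_image.1 hS
        exact mem_powerset.2 inter_subset_right
      refine hU ⟨Q ∪ univ.image x, T', hT'.trans subset_union_left, union_subset hQ fun y hy => ?_,
        hI, hd, fun S hS => ?_⟩
      · obtain ⟨i, -, rfl⟩ := mem_image.1 hy
        exact (hxX i).1
      · obtain ⟨f, hf, rfl⟩ := mem_image.1 (h1 ▸ mem_powerset.2 hS)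
        have hf' := (mem_filter.1 hf).2
        refine ⟨z f.1 f.2, hzX _ _ hf', hzB _ _ hf', {x f.1, x f.2} ∪ L f.1 f.2, ?_, ?_, ?_⟩
        · intro y hy
          simp only [mem_union, mem_insert, mem_singleton] at hy
          rcases hy with (rfl | rfl) | hy
          exacts [mem_union_right _ (mem_image_of_mem _ (mem_univ _)),
            mem_union_right _ (mem_image_of_mem _ (mem_univ _)), mem_union_left _ (hL _ _ hf' hy)]
        · rw [← insert_union]
          exact hc _ _ hf'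
        · ext y
          simp only [mem_inter, mem_union, mem_insert, mem_singleton]
          refine ⟨?_, fun h => ⟨Or.inr h.1, h.2⟩⟩
          rintro ⟨(rfl | rfl) | h, h'⟩
          exacts [absurd (hT' h') (hxX _).2, absurd (hT' h') (hxX _).2, ⟨h, h'⟩])
  have hκ' : K.card ≤ 2 ^ (4 * d * q₂ + 1) := by
    refine hκ.trans (Nat.pow_le_pow_right two_pos (Nat.succ_le_succ ?_))
    refine Nat.div_le_of_le_mul ?_
    have := (Nat.lt_mul_div_succ Q.card (Nat.succ_pos (a * a * q))).le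
    calc 4 * d * Q.card ≤ 4 * d * (q₂ * (Q.card / q₂ + 1)) := Nat.mul_le_mul_left _ this
      _ = _ := by ring
  choose! cen hcK hcen using hcen
  have haT : a ≤ T := by omega
  set r : Fin a → Fin T := Fin.castLE haT with hr
  have hne : ∀ (p : Fin a) (j : Fin T), a ≤ j.val →
      (r p, j) ∈ univ.filter fun f : Fin T × Fin T => f.1 ≠ f.2 := by
    intro p j hj
    refine mem_filter.2 ⟨mem_univ _, fun h => ?_⟩
    have h1 : p.val = j.val := congrArg Fin.val h
    have := p.2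
    omega
  have hcol : T ≤ (univ.filter fun j : Fin T => a ≤ j.val).card + a := by
    have h1 := card_filter_add_card_filter_not (s := (univ : Finset (Fin T))) fun j => a ≤ j.val
    have h2 : (univ.filter fun j : Fin T => ¬ a ≤ j.val).card ≤ (range a).card :=
      card_le_card_of_injOn Fin.val (fun j hj => by
        have := (mem_filter.1 (mem_coe.1 hj)).2
        simp only [coe_range, Set.mem_Iio]
        omega) fun _ _ _ _ h => Fin.ext h
    rw [card_univ, Fintype.card_fin] at h1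
    rw [card_range] at h2
    omega
  obtain ⟨v, hv, hJ⟩ := exists_lt_card_fiber_of_mul_lt_card_of_maps_to
    (s := univ.filter fun j : Fin T => a ≤ j.val) (t := Fintype.piFinset fun _ : Fin a => K)
    (f := fun j p => cen (r p, j)) (n := a)
    (fun j hj => Fintype.mem_piFinset.2 fun p => hcK _ (hne p j (mem_filter.1 hj).2)) (by
      rw [Fintype.card_piFinset, prod_const, card_univ, Fintype.card_fin]
      have := Nat.mul_le_mul_right a (Nat.pow_le_pow_left hκ' a)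
      omega)
  set J := (univ.filter fun j : Fin T => a ≤ j.val).filter fun j => (fun p => cen (r p, j)) = v
  set g : Fin a → Fin T := fun i => J.orderEmbOfCardLe hJ.le i with hg
  have hgJ : ∀ q', a ≤ (g q').val ∧ ∀ p, cen (r p, g q') = v p := fun q' => by
    obtain ⟨h1, h2⟩ := mem_filter.1 (J.orderEmbOfCardLe_mem hJ.le q')
    exact ⟨(mem_filter.1 h1).2, fun p => congrFun h2 p⟩
  have hrg : ∀ p q', r p ≠ g q' := fun p q' => (mem_filter.1 (hne p _ (hgJ q').1)).2
  refine ⟨fun e => z (r e.1) (g e.2), univ.biUnion fun e : Edg a =>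
    L (r e.1) (g e.2) ∆ L (v e.1).1 (v e.1).2, ?_, Small.model c X Q _ x hx (fun i => (hxX i).2) hI
      r g (Fin.castLE_injective haT) (J.orderEmbOfCardLe hJ.le).injective hrg _
      (fun e => L (r e.1) (g e.2)) (fun p => L (v p).1 (v p).2) (fun e => hzX _ _ (hrg _ _))
      (fun e => hL _ _ (hrg _ _)) (fun e => hc _ _ (hrg _ _)) ?_ hQ
      fun e => subset_biUnion_of_mem (fun e : Edg a =>
        L (r e.1) (g e.2) ∆ L (v e.1).1 (v e.1).2) (mem_univ e)⟩
  · have h1 := card_biUnion_le_card_mul univ (fun e : Edg a =>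
      L (r e.1) (g e.2) ∆ L (v e.1).1 (v e.1).2) (Q.card / q₂) fun e _ => by
        have := hcen _ (hne e.1 _ (hgJ e.2).1)
        rw [(hgJ e.2).2] at this
        exact Nat.lt_succ_iff.1 this
    rw [card_univ, Fintype.card_prod, Fintype.card_fin] at h1
    calc _ ≤ q * (a * a * (Q.card / q₂)) := Nat.mul_le_mul_left _ h1
      _ = a * a * q * (Q.card / q₂) := by ring
      _ ≤ q₂ * (Q.card / q₂) := Nat.mul_le_mul_right _ (Nat.le_succ _)
      _ ≤ _ := Nat.mul_div_le _ _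
  · refine biUnion_subset.2 fun e _ => symmDiff_le_sup.trans (sup_le (hL _ _ (hrg _ _)) ?_)
    exact hL _ _ (mem_filter.1 (hK (Fintype.mem_piFinset.1 hv e.1))).2

end Pool.Agent.MP71

end MrgPart1

-- ======== part 2: formerly Pool.Agent.MP_71daef_lc.det.ATop
section MrgPart2

-- ======== part 0: formerly Pool.Agent.MP_71daef_lc.det.SpecA
section MrgPart0

/-!
Block A: the deterministic algorithm for the shortest cycle and the statements of its modules.
Numbers that bound a loop are passed as lists of that length.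
-/

set_option autoImplicit false

namespace Pool.Agent.MP71.DA

open Finset Pool.Agent.H82 Pool.Agent.PolyT

/-! ### Shift register bits -/

/-- The next bit of the shift register of length `Mu.length` with taps `f` and start `y`. -/
def nb (Mu : List Bool) (f y : ℕ) (acc : List Bool) : Bool :=
  bif ltB acc.length Mu.length then y.bits.getD acc.length false
  else ((idx Mu).filter fun i =>
    f.bits.getD i false && acc.getD (acc.length - Mu.length + i) false).length.bodd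

/-- The first `pos.length` bits of the shift register. -/
def lf (Mu : List Bool) (f y : ℕ) (pos : List Bool) : List Bool :=
  pos.foldl (fun acc _ => acc ++ [nb Mu f y acc]) []

/-- The elements all of whose `r * w e` bits vanish; element `e` owns the block `e` of length
`RH.length`. -/
def kept (A : List (List Bool)) (r : ℕ) (RH : List Bool) (w : List ℕ) (bits : List Bool) :
    List ℕ :=
  (idx A).filter fun e => (idx RH).all fun i =>
    !(ltB i (r * w.getD e 0) && bits.getD (e * RH.length + i) false)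

/-! ### Load balanced cobases for weights -/

/-- The level of `e`: load divided by weight, `R.length` for weight zero. -/
def lev (R : List Bool) (w l : List ℕ) (e : ℕ) : ℕ :=
  ((idx R).filter fun θ => !ltB (l.getD e 0) ((θ + 1) * w.getD e 0)).length

/-- The elements of `T` by decreasing level. -/
def ordW (R : List Bool) (T w l : List ℕ) : List ℕ :=
  (idx (true :: R)).reverse.flatMap fun θ => T.filter fun e => eqB (lev R w l e) θ

/-- The loads of all rounds. -/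
def histW (A : List (List Bool)) (R : List Bool) (T w : List ℕ) : List (List ℕ) :=
  R.foldl (fun hs _ => bump A (hs.headD []) (fcs A (ordW R T w (hs.headD []))) :: hs) [[]]

/-- Sums of at most `s` fundamental cycles of the cobases of all rounds. -/
def cob (s : ℕ) (A : List (List Bool)) (R : List Bool) (T w : List ℕ) : List (List Bool) :=
  (histW A R T w).flatMap fun l => cands A (fcs A (ordW R T w l)) s

/-! ### Listing light cycles -/

/-- `k` copies of a list. -/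
def rep {β : Type} (k : ℕ) (l : List β) : List β := (List.range k).flatMap fun _ => l

/-- A list of length `2 * U.length + 1`. -/
def hl (U : List Bool) : List Bool := true :: (U ++ U)

/-- All candidates; `S` bounds the seeds. -/
def find (r s κ : ℕ) (A : List (List Bool)) (U S : List Bool) (w : List ℕ) : List (List Bool) :=
  (idx S).flatMap fun f => (idx S).flatMap fun y =>
    cob s A ((hl U).flatMap fun _ => true :: A.flatMap fun _ => hl U)
      (kept A r (rep r (hl U)) w (lf (rep κ U) f y (A.flatMap fun _ => rep r (hl U)))) w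

/-- The nonempty candidates, each once. -/
def lst (r s κ : ℕ) (A : List (List Bool)) (U S : List Bool) (w : List ℕ) : List (List Bool) :=
  (((find r s κ A U S w).map fun z => xorL A z []).filter fun z => ltB 0 (wt A z)).dedup

/-! ### Local search for marker weights -/

/-- `2 ^ k` for `k ≤ u.length`. -/
def pw (u : List Bool) (k : ℕ) : ℕ := ofBits (((u.take k).map fun _ => false) ++ [true])

/-- The weight of a bit vector. -/
def ws (A : List (List Bool)) (w : List ℕ) (z : List Bool) : ℕ :=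
  ((idx A).map fun j => bif z.getD j false then w.getD j 0 else 0).sum

/-- The total price. -/
def tot (A : List (List Bool)) (π : List ℕ) : ℕ := ((idx A).map fun j => π.getD j 0).sum

/-- The price of the markers. -/
def dot (A : List (List Bool)) (π μ : List ℕ) : ℕ :=
  ((idx A).map fun j => π.getD j 0 * μ.getD j 0).sum

/-- The potential, evaluated on the list `l` of cycles. -/
def pot (A : List (List Bool)) (U : List Bool) (π : List ℕ) (l : List (List Bool))
    (μ : List ℕ) : ℕ :=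
  pw U U.length * dot A π μ + (hl U).length * tot A π *
    (l.map fun z => pw (hl U) ((hl U).length - ws A μ z) - 1).sum

/-- Add one marker or remove one marker. -/
def moves (A : List (List Bool)) (μ : List ℕ) : List (List ℕ) :=
  (idx A).flatMap fun e =>
    [(idx A).map fun j => μ.getD j 0 + bif eqB j e then 1 else 0,
     (idx A).map fun j => μ.getD j 0 - bif eqB j e then 1 else 0]

/-- The first move that lowers the potential by the total price, if there is one. -/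
def pick (A : List (List Bool)) (U : List Bool) (π : List ℕ) (l : List (List Bool))
    (μ : List ℕ) : List ℕ :=
  ((moves A μ).filter fun μ' => !ltB (pot A U π l μ) (pot A U π l μ' + tot A π)).headD μ

/-- The local search with the listing procedure `F`; `St` bounds the number of steps. -/
def orc (F : List ℕ → List (List Bool)) (A : List (List Bool)) (U St : List Bool) (π : List ℕ) :
    List ℕ :=
  St.foldl (fun μ _ => pick A U π (F μ) μ) ((idx A).map fun _ => (hl U).length)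

/-! ### Multiplicative prices and the output -/

/-- The next prices. -/
def nxt (A : List (List Bool)) (U : List Bool) (π μ : List ℕ) : List ℕ :=
  (idx A).map fun j => π.getD j 0 * ((hl U).length + μ.getD j 0)

/-- The prices of all rounds, for the marker procedure `O`. -/
def prices (O : List ℕ → List ℕ) (A : List (List Bool)) (U Ro : List Bool) : List (List ℕ) :=
  Ro.foldl (fun hs _ => nxt A U (hs.headD []) (O (hs.headD [])) :: hs) [(idx A).map fun _ => 1]

/-- The least positive member of `ν` that is at most `A.length`, zero if there is none. -/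
def least (A : List (List Bool)) (ν : List ℕ) : ℕ :=
  ((idx ([] :: A)).filter fun v => ltB 0 v && ν.any fun u => eqB u v).headD 0

/-- The algorithm for given loop bounds and listing procedure. -/
def run (F : List ℕ → List (List Bool)) (A : List (List Bool)) (U St : List Bool) : ℕ :=
  least A ((prices (orc F A U St) A U (A.flatMap fun _ => A.flatMap fun _ => hl U)).flatMap
    fun π => (F (orc F A U St π)).map (wt A))

/-- A list of length `(2 * A.length + 2) ^ j`. -/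
def big (A : List (List Bool)) : ℕ → List Bool
  | 0 => [true]
  | j + 1 => ([] :: [] :: (A ++ A)).flatMap fun _ => big A j

/-- A list of length `a` times the number of binary digits of `A.length + 1`. -/
def un (a : ℕ) (A : List (List Bool)) : List Bool := rep a (A.length + 1).bits

/-- The algorithm. -/
def alg (a r s κ : ℕ) (A : List (List Bool)) : ℕ :=
  run (lst r s κ A (un a A) (big A (κ * a))) A (un a A)
    (true :: (big A a).flatMap fun _ => hl (un a A))

/-! ### Statements -/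

/-- Every nonempty cycle inside `E` has weight at least `γ`. -/
def WG (c : Code) (E : Finset ℕ) (w : ℕ → ℕ) (γ : ℕ) : Prop :=
  ∀ X ⊆ E, c.cyc X → X.Nonempty → γ ≤ ∑ e ∈ X, w e

/-- All subsets of `T` have small corank. -/
def Sparse (c : Code) (T : Finset ℕ) (w : ℕ → ℕ) (γ s : ℕ) : Prop :=
  ∀ X ⊆ T, ∀ B, c.Bas X B → γ * (X \ B).card ≤ s * ∑ e ∈ X, w e

/-- Input from block M: witnesses that avoid a light cycle. -/
def SpwA (Fr : Code → Finset ℕ → Prop) : Prop :=
  ∃ V s k : ℕ, ∀ (c : Code) (E : Finset ℕ) (w : ℕ → ℕ) (γ : ℕ) (Z : Finset ℕ), Fr c E → 0 < γ →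
    WG c E w γ → Z ⊆ E → c.cyc Z → ∑ e ∈ Z, w e ≤ 31 * γ →
    ∃ 𝒴 : Finset (Finset ℕ), 𝒴.card ≤ (∑ e ∈ E, w e + 1) ^ V * 2 ^ (V * γ) ∧
      (∀ Y ∈ 𝒴, Y ⊆ E ∧ Disjoint Y Z ∧ γ ≤ k * ∑ e ∈ Y, w e) ∧
      ∀ T ⊆ E, (∀ Y ∈ 𝒴, ¬ Y ⊆ T) → Sparse c T w γ s

/-- Input from block M: there are few light cycles. -/
def CntA (Fr : Code → Finset ℕ → Prop) : Prop :=
  ∃ V : ℕ, ∀ (c : Code) (E : Finset ℕ) (w : ℕ → ℕ) (γ : ℕ), Fr c E → 0 < γ → WG c E w γ →
    ((c.cy E).filter fun Z => ∑ e ∈ Z, w e ≤ 3 * γ).card ≤ (∑ e ∈ E, w e + 1) ^ V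

/-- The list `l` consists of different nonempty cycles. -/
def Snd (m : ℕ) (A : List (List Bool)) (l : List (List Bool)) : Prop :=
  (l.map (sp A)).Nodup ∧ ∀ z ∈ l, (mcode m A).cyc (sp A z) ∧ (sp A z).Nonempty

/-- The list `l` contains all nonempty cycles of weight at most `b`. -/
def Cpl (m : ℕ) (A : List (List Bool)) (w : List ℕ) (b : ℕ) (l : List (List Bool)) : Prop :=
  ∀ Z ⊆ range A.length, (mcode m A).cyc Z → Z.Nonempty → ∑ e ∈ Z, w.getD e 0 ≤ b →
    ∃ z ∈ l, sp A z = Z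

/-- `F` is a listing procedure for the scale `γ`. -/
def Lister (m : ℕ) (A : List (List Bool)) (γ : ℕ) (F : List ℕ → List (List Bool)) : Prop :=
  ∀ w : List ℕ, Snd m A (F w) ∧ ((∀ e < A.length, w.getD e 0 ≤ 2 * γ + 1) →
    WG (mcode m A) (range A.length) (w.getD · 0) γ → Cpl m A w (31 * γ) (F w))

/-- Row HIT. Some seed vanishes on `S₀` and on no member of `𝒮`. -/
def HitStmt : Prop :=
  ∀ (Mu pos : List Bool) (S₀ : Finset ℕ) (𝒮 : Finset (Finset ℕ)) (b : ℕ), 0 < Mu.length →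
    S₀ ⊆ range pos.length → (∀ S ∈ 𝒮, S ⊆ range pos.length ∧ Disjoint S S₀ ∧ b ≤ S.card) →
    𝒮.card < 2 ^ b → (𝒮.card + 1) * 2 ^ (S₀.card + b) * pos.length < 2 ^ Mu.length →
    ∃ f < 2 ^ Mu.length, ∃ y < 2 ^ Mu.length,
      (∀ j ∈ S₀, (lf Mu f y pos).getD j false = false) ∧
      ∀ S ∈ 𝒮, ∃ j ∈ S, (lf Mu f y pos).getD j false = true

/-- Row MWU, part 1 (prices). -/
def Mw1Stmt : Prop :=
  ∀ (E C : Finset ℕ) (h ρ : ℕ) (π μ : ℕ → ℕ → ℕ), C ⊆ E → C.Nonempty → 0 < h →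
    (∀ e ∈ E, π 0 e = 1) → (∀ t, ∀ e ∈ E, π (t + 1) e = π t e * (h + μ t e)) →
    (∀ t < E.card * E.card * h, (∀ e ∈ E, μ t e ≤ h) ∧
      C.card * ∑ e ∈ E, π t e * μ t e ≤ ρ * h * ∑ e ∈ E, π t e) →
    ∃ t < E.card * E.card * h, ∑ e ∈ C, μ t e ≤ 2 * ρ * h

/-- Row MWU, part 2 (cobases). -/
def Mw2Stmt : Prop :=
  ∀ (E Z : Finset ℕ) (w : ℕ → ℕ) (γ s α : ℕ) (l : ℕ → ℕ → ℕ) (I : ℕ → Finset ℕ), Z ⊆ E → 0 < γ →
    ∑ e ∈ Z, w e ≤ α * γ → (∀ e ∈ E, l 0 e = 0) →
    (∀ k, ∀ e ∈ E, l (k + 1) e = l k e + if e ∈ I k then 1 else 0) →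
    (∀ k < γ * (∑ e ∈ E, w e + 1), I k ⊆ E ∧ (∀ e ∈ I k, 0 < w e) ∧
      γ * ∑ e ∈ I k, 2 ^ (l k e / w e) ≤ s * ∑ e ∈ E, w e * 2 ^ (l k e / w e)) →
    ∃ k < γ * (∑ e ∈ E, w e + 1), (I k ∩ Z).card ≤ α * (2 * s + 1)

/-- Row COB. The candidates are cycles, and they contain the light cycles of a sparse set. -/
def CobStmt : Prop :=
  ∀ (m : ℕ) (A : List (List Bool)) (R : List Bool) (T w : List ℕ), (A.headD []).length = m →
    T.Nodup → (∀ e ∈ T, e < A.length) →
    (∀ s, ∀ z ∈ cob s A R T w, (mcode m A).cyc (sp A z)) ∧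
    ∀ (γ s α : ℕ) (Z : Finset ℕ), 0 < γ → γ * (∑ e ∈ T.toFinset, w.getD e 0 + 1) ≤ R.length →
      Sparse (mcode m A) T.toFinset (w.getD · 0) γ s → Z ⊆ T.toFinset → (mcode m A).cyc Z →
      ∑ e ∈ Z, w.getD e 0 ≤ α * γ → ∃ z ∈ cob (α * (2 * s + 1)) A R T w, sp A z = Z

/-- Row FIND. -/
def FindStmt (Fr : Code → Finset ℕ → Prop) : Prop :=
  ∃ r s κ : ℕ, ∀ (m : ℕ) (A : List (List Bool)) (U S : List Bool), (A.headD []).length = m →
    Fr (mcode m A) (range A.length) → 0 < U.length →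
    A.length * (2 * U.length + 1) + 1 ≤ 2 ^ U.length → 2 ^ (κ * U.length) ≤ S.length →
    Lister m A U.length (lst r s κ A U S)

/-- The exact potential, for a family `𝒵` of cycles. -/
def Pot (E : Finset ℕ) (𝒵 : Finset (Finset ℕ)) (γ : ℕ) (π μ : ℕ → ℕ) : ℕ :=
  2 ^ γ * ∑ e ∈ E, π e * μ e +
    (2 * γ + 1) * (∑ e ∈ E, π e) * ∑ Z ∈ 𝒵, (2 ^ (2 * γ + 1 - ∑ e ∈ Z, μ e) - 1)

/-- Row LOC. A local optimum is cheap. -/
def LocStmt : Prop :=
  ∀ (E : Finset ℕ) (𝒵 : Finset (Finset ℕ)) (γ g N : ℕ) (π μ : ℕ → ℕ),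
    (∀ Z ∈ 𝒵, Z ⊆ E ∧ g ≤ Z.card) → g ≤ E.card → (∀ e ∈ E, μ e ≤ 2 * γ + 1) →
    (𝒵.filter fun Z => ∑ e ∈ Z, μ e = 2 * γ + 1).card ≤ N →
    E.card * (E.card * (2 * γ + 1) + (2 * γ + 1) ^ 2 * N) ≤ 2 ^ γ →
    (∀ e ∈ E, Pot E 𝒵 γ π μ <
      Pot E 𝒵 γ π (fun j => μ j + if j = e then 1 else 0) + ∑ e ∈ E, π e) →
    (∀ e ∈ E, Pot E 𝒵 γ π μ <
      Pot E 𝒵 γ π (fun j => μ j - if j = e then 1 else 0) + ∑ e ∈ E, π e) →
    g * ∑ e ∈ E, π e * μ e ≤ 5 * (2 * γ + 1) * ∑ e ∈ E, π e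

/-- `O` is a marker procedure for the scale `γ` and the girth `g`. -/
def Marker (m : ℕ) (A : List (List Bool)) (γ g : ℕ) (O : List ℕ → List ℕ) : Prop :=
  ∀ π : List ℕ, 0 < ∑ e ∈ range A.length, π.getD e 0 →
    (∀ e < A.length, (O π).getD e 0 ≤ 2 * γ + 1) ∧
    WG (mcode m A) (range A.length) ((O π).getD · 0) γ ∧
    g * ∑ e ∈ range A.length, π.getD e 0 * (O π).getD e 0 ≤
      5 * (2 * γ + 1) * ∑ e ∈ range A.length, π.getD e 0

/-- Row ORC. The local search is a marker procedure. -/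
def OrcStmt : Prop :=
  ∀ (m : ℕ) (A : List (List Bool)) (U St : List Bool) (F : List ℕ → List (List Bool)) (g N : ℕ),
    0 < U.length → Lister m A U.length F → (mcode m A).Gir (range A.length) g → g ≤ A.length →
    (∀ μ : ℕ → ℕ, (∀ e < A.length, μ e ≤ 2 * U.length + 1) →
      WG (mcode m A) (range A.length) μ U.length →
      (((mcode m A).cy (range A.length)).filter fun Z => ∑ e ∈ Z, μ e ≤ 3 * U.length).card ≤ N) →
    A.length * (A.length * (2 * U.length + 1) + (2 * U.length + 1) ^ 2 * N) ≤ 2 ^ U.length →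
    2 ^ U.length * (2 * U.length + 1) < St.length → Marker m A U.length g (orc F A U St)

/-- `v` is the girth, zero if there is no cycle. -/
def IsG (m : ℕ) (A : List (List Bool)) (v : ℕ) : Prop :=
  (v ≠ 0 → ∃ Z ⊆ range A.length, (mcode m A).cyc Z ∧ Z.card = v) ∧
    ∀ Z ⊆ range A.length, (mcode m A).cyc Z → Z.Nonempty → v ≠ 0 ∧ v ≤ Z.card

/-- Row RUN. -/
def RunStmt : Prop :=
  ∀ (m : ℕ) (A : List (List Bool)) (U St : List Bool) (F : List ℕ → List (List Bool)),
    0 < U.length → Lister m A U.length F →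
    (∀ g ≤ A.length, (mcode m A).Gir (range A.length) g → Marker m A U.length g (orc F A U St)) →
    IsG m A (run F A U St)

/-- Row TOP. -/
def TopStmt (Fr : Code → Finset ℕ → Prop) : Prop :=
  ∃ a r s κ : ℕ, ∀ (m : ℕ) (A : List (List Bool)), (A.headD []).length = m →
    Fr (mcode m A) (range A.length) → IsG m A (alg a r s κ A)

/-- Row PL1. Running time of the listing procedure. -/
def Pl1Stmt : Prop :=
  ∀ r s κ : ℕ, PolyT.Poly fun x : (List (List Bool) × List Bool × List Bool) × List ℕ =>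
    lst r s κ x.1.1 x.1.2.1 x.1.2.2 x.2

/-- Row PL2. Running time of the algorithm. -/
def Pl2Stmt : Prop := ∀ a r s κ : ℕ, PolyT.Poly (alg a r s κ)

end Pool.Agent.MP71.DA

end MrgPart0

-- ======== part 1: formerly Pool.Agent.MP_71daef_lc.det.ATop
section MrgPart1

/-!
Block A, row TOP: the choice of the loop bounds.
-/

set_option autoImplicit false

namespace Pool.Agent.MP71.DA

open Finset Pool.Agent.H82 Pool.Agent.PolyT

namespace ATop

theorem length_const {β δ : Type} (l : List β) (u : List δ) :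
    (l.flatMap fun _ => u).length = l.length * u.length := by
  induction l with
  | nil => simp
  | cons x l ih => simp [List.flatMap_cons, ih, add_mul, add_comm]

theorem length_big (A : List (List Bool)) (j : ℕ) :
    (big A j).length = (2 * A.length + 2) ^ j := by
  induction j with
  | zero => simp [big]
  | succ j ih =>
    rw [big, length_const, ih, pow_succ']
    congr 1
    simp only [List.length_cons, List.length_append]
    omega

theorem length_un (a : ℕ) (A : List (List Bool)) :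
    (un a A).length = a * (A.length + 1).size := by
  rw [un, rep, length_const, List.length_range, Nat.size_eq_bits_len]

theorem length_hl (U : List Bool) : (hl U).length = 2 * U.length + 1 := by
  simp only [hl, List.length_cons, List.length_append]
  omega

theorem arith (V a n q : ℕ) (ha : 0 < a) (hq : 0 < q) (hn : n + 1 ≤ 2 ^ q)
    (h : (12 * a) ^ (V + 4) ≤ 2 ^ a) :
    n * (2 * (a * q) + 1) + 1 ≤ 2 ^ (a * q) ∧
      n * (n * (2 * (a * q) + 1) + (2 * (a * q) + 1) ^ 2 * (n * (2 * (a * q) + 1) + 1) ^ V) ≤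
        2 ^ (a * q) := by
  set h' := 2 * (a * q) + 1 with hh
  set y := (12 * a) ^ q with hy
  have h1 : 0 < a * q := Nat.mul_pos ha hq
  have h2 : h' ≤ (3 * a) ^ q * 2 ^ q := by
    calc h' ≤ 3 * a * q := by rw [mul_assoc]; omega
      _ ≤ (3 * a) ^ q * 2 ^ q :=
        Nat.mul_le_mul (Nat.le_self_pow hq.ne' _) (Nat.lt_two_pow_self).le
  have h3 : (n + 1) * h' ≤ y := by
    calc (n + 1) * h' ≤ 2 ^ q * ((3 * a) ^ q * 2 ^ q) := Nat.mul_le_mul hn h2
      _ = y := by rw [hy, ← mul_pow, ← mul_pow]; congr 1; ring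
  have h4 : 1 ≤ h' := by omega
  have h5 : n * h' + 1 ≤ y := by nlinarith
  have h6 : h' ≤ y := by nlinarith
  have h7 : n ≤ y := by nlinarith
  have h8 : 2 ≤ y := by
    calc 2 ≤ 12 * a := by omega
      _ ≤ y := Nat.le_self_pow hq.ne' _
  have h9 : y ^ (V + 4) ≤ 2 ^ (a * q) := by
    rw [hy, ← pow_mul, mul_comm q, pow_mul, pow_mul]
    exact Nat.pow_le_pow_left h q
  have h10 : y ≤ y ^ (V + 4) := Nat.le_self_pow (by omega) _
  refine ⟨h5.trans (h10.trans h9), le_trans ?_ h9⟩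
  have h11 : (n * h' + 1) ^ V ≤ y ^ V := Nat.pow_le_pow_left h5 V
  have h12 : 1 ≤ y ^ V := Nat.one_le_pow _ _ (by omega)
  have h13 : n * (n * h') ≤ y * y * y ^ V := by
    calc n * (n * h') ≤ y * y * 1 := by
          rw [mul_one]; exact Nat.mul_le_mul h7 (by omega)
      _ ≤ _ := Nat.mul_le_mul_left _ h12
  have h14 : n * (h' ^ 2 * (n * h' + 1) ^ V) ≤ y * y * y ^ V := by
    calc n * (h' ^ 2 * (n * h' + 1) ^ V) = n * h' * h' * (n * h' + 1) ^ V := by ring
      _ ≤ _ := Nat.mul_le_mul (Nat.mul_le_mul (by omega) h6) h11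
  calc n * (n * h' + h' ^ 2 * (n * h' + 1) ^ V) ≤ 2 * 1 * (y * y * y ^ V) := by
        rw [mul_add]; omega
    _ ≤ y * y * (y * y * y ^ V) :=
        Nat.mul_le_mul_right _ (Nat.mul_le_mul h8 (by omega))
    _ = y ^ (V + 4) := by ring

end ATop

theorem top_thm (Fr : Code → Finset ℕ → Prop) (hC : CntA Fr) (hF : FindStmt Fr) (hO : OrcStmt)
    (hR : RunStmt) : TopStmt Fr := by
  obtain ⟨V, hV⟩ := hC
  obtain ⟨r, s, κ, hF⟩ := hF
  obtain ⟨d, hd⟩ := exists_pow_lt (12 ^ (V + 4)) (V + 4)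
  have ha : (12 * (d + 1)) ^ (V + 4) ≤ 2 ^ (d + 1) := by
    rw [mul_pow, pow_succ 2 d]; omega
  refine ⟨d + 1, r, s, κ, fun m A hm hA => ?_⟩
  set a := d + 1 with had
  set q := (A.length + 1).size with hq
  have q0 : 0 < q := Nat.size_pos.2 (by omega)
  have q1 : A.length + 1 ≤ 2 ^ q := (Nat.lt_size_self _).le
  have q2 : 2 ^ q ≤ 2 * A.length + 2 := by
    have : 2 ^ (q - 1) ≤ A.length + 1 := Nat.lt_size.1 (by omega)
    rw [show q = q - 1 + 1 by omega, pow_succ]; omega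
  have hU : (un a A).length = a * q := ATop.length_un a A
  have hγ : 0 < (un a A).length := by rw [hU]; exact Nat.mul_pos (by omega) q0
  obtain ⟨h1, h2⟩ := ATop.arith V a A.length q (by omega) q0 q1 ha
  have hL : Lister m A (un a A).length (lst r s κ A (un a A) (big A (κ * a))) := by
    refine hF m A _ _ hm hA hγ (by rw [hU]; exact h1) ?_
    rw [hU, ATop.length_big, ← mul_assoc, mul_comm _ q, pow_mul]
    exact Nat.pow_le_pow_left q2 _
  refine hR m A _ _ _ hγ hL fun g hg hG => ?_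
  refine hO m A _ _ _ g ((A.length * (2 * (a * q) + 1) + 1) ^ V) hγ hL hG hg ?_
    (by rw [hU]; exact h2) ?_
  · intro μ hμ hW
    refine (hV _ _ μ _ hA hγ hW).trans (Nat.pow_le_pow_left (Nat.succ_le_succ ?_) V)
    calc ∑ e ∈ range A.length, μ e ≤ ∑ _e ∈ range A.length, (2 * (a * q) + 1) :=
          sum_le_sum fun e he => hU ▸ hμ e (mem_range.1 he)
      _ = _ := by simp
  · rw [List.length_cons, ATop.length_const, ATop.length_big, ATop.length_hl, hU]
    refine Nat.lt_succ_of_le (Nat.mul_le_mul_right _ ?_)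
    rw [mul_comm a q, pow_mul]
    exact Nat.pow_le_pow_left q2 _

end Pool.Agent.MP71.DA

end MrgPart1

-- marker of a merged file
example : 731051 + 474671 = 731051 + 474671 := rfl

end MrgPart2

-- ======== part 3: formerly Pool.Agent.MP_71daef_lc.det.AOrc
section MrgPart3

-- ======== part 0: formerly Pool.Agent.MP_71daef_lc.det.AHit
section MrgPart0

/-!
Row HIT of block A: a shift register seed that vanishes on a given set and on no member of a
small family of large sets.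
-/

set_option autoImplicit false

namespace Pool.Agent.MP71.DA

open Finset Pool.Agent.H82 Pool.Agent.PolyT

namespace AHit

/-- A number below `2 ^ M` with prescribed low bits. -/
theorem exists_bits (M : ℕ) (g : ℕ → Bool) :
    ∃ y < 2 ^ M, ∀ i < M, y.bits.getD i false = g i := by
  refine ⟨Nat.ofBits fun i : Fin M => g i, Nat.ofBits_lt_two_pow _, fun i hi => ?_⟩
  have h1 := Nat.testBit_eq_inth (Nat.ofBits fun i : Fin M => g i) i
  rw [Nat.testBit_ofBits_lt _ _ hi] at h1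
  exact h1.symm

theorem cast_filter (M : ℕ) (p : ℕ → Bool) :
    ((((List.range M).filter p).length : ℕ) : ZMod 2) =
      ∑ i ∈ range M, if p i = true then (1 : ZMod 2) else 0 := by
  induction M with
  | zero => simp
  | succ M ih =>
    rw [List.range_succ, List.filter_append, List.length_append, Nat.cast_add, ih,
      Finset.sum_range_succ]
    congr 1
    by_cases h : p M = true <;> simp [h]

theorem bodd_eq (n : ℕ) : n.bodd = decide ((n : ZMod 2) = 1) := by
  have h := Nat.mod_two_of_bodd n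
  cases hb : n.bodd
  · rw [hb] at h
    simp [ZMod.natCast_eq_one_iff_odd, Nat.odd_iff, h]
  · rw [hb] at h
    simp [ZMod.natCast_eq_one_iff_odd, Nat.odd_iff, h]

theorem eq_one_of_ne (x : ZMod 2) (h : x ≠ 0) : x = 1 := by
  revert x
  decide

theorem ite_mul_eq (a b : ZMod 2) :
    (if (decide (a = 1) && decide (b = 1)) = true then (1 : ZMod 2) else 0) = a * b := by
  revert a b
  decide

/-- One step of the register. -/
theorem nb_eq (Mu : List Bool) (f y : ℕ) (c u : ℕ → ZMod 2)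
    (hf : ∀ i < Mu.length, f.bits.getD i false = decide (c i = 1))
    (hy : ∀ i < Mu.length, y.bits.getD i false = decide (u i = 1))
    (hrec : ∀ j, u (j + Mu.length) = ∑ i ∈ range Mu.length, c i * u (j + i)) (k : ℕ) :
    nb Mu f y ((List.range k).map fun j => decide (u j = 1)) = decide (u k = 1) := by
  unfold nb
  simp only [List.length_map, List.length_range]
  by_cases hk : k < Mu.length
  · rw [ltB_iff.2 hk, cond_true, hy k hk]
  · have hk' : Mu.length ≤ k := not_lt.1 hk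
    rw [ltB_false_iff.2 hk', cond_false, bodd_eq]
    unfold idx
    rw [cast_filter]
    have h2 : u k = ∑ i ∈ range Mu.length, c i * u (k - Mu.length + i) := by
      rw [← hrec, Nat.sub_add_cancel hk']
    rw [h2]
    congr 2
    refine Finset.sum_congr rfl fun i hi => ?_
    have hi' : i < Mu.length := Finset.mem_range.1 hi
    have hlt : k - Mu.length + i < k := by omega
    rw [hf i hi', ← ite_mul_eq]
    congr 3
    rw [List.getD_eq_getElem?_getD, List.getElem?_map, List.getElem?_range hlt]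
    rfl

theorem fold_eq (Mu : List Bool) (f y : ℕ) (g : ℕ → Bool)
    (h : ∀ k, nb Mu f y ((List.range k).map g) = g k) (pos : List Bool) (k : ℕ) :
    pos.foldl (fun acc _ => acc ++ [nb Mu f y acc]) ((List.range k).map g) =
      (List.range (k + pos.length)).map g := by
  induction pos generalizing k with
  | nil => simp
  | cons b pos ih =>
    rw [List.foldl_cons, h k]
    have h1 : (List.range k).map g ++ [g k] = (List.range (k + 1)).map g := by
      rw [List.range_succ, List.map_append]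
      rfl
    rw [h1, ih, List.length_cons]
    congr 2
    omega

theorem lf_eq (Mu : List Bool) (f y : ℕ) (g : ℕ → Bool)
    (h : ∀ k, nb Mu f y ((List.range k).map g) = g k) (pos : List Bool) (j : ℕ)
    (hj : j < pos.length) : (lf Mu f y pos).getD j false = g j := by
  have h1 := fold_eq Mu f y g h pos 0
  unfold lf
  rw [List.range_zero, List.map_nil, Nat.zero_add] at h1
  rw [h1, List.getD_eq_getElem?_getD, List.getElem?_map, List.getElem?_range hj]
  rfl

section Lin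

variable {V : Type} [AddCommGroup V] [Module (ZMod 2) V] [Finite V]

/-- The functionals that vanish on the vectors indexed by `T`. -/
noncomputable def ann (v : ℕ → V) (T : Finset ℕ) : Submodule (ZMod 2) (Module.Dual (ZMod 2) V) :=
  (Submodule.span (ZMod 2) (Set.range fun j : T => v j)).dualAnnihilator

omit [Finite V] in
theorem mem_ann (v : ℕ → V) (T : Finset ℕ) (φ : Module.Dual (ZMod 2) V) :
    φ ∈ ann v T ↔ ∀ j ∈ T, φ (v j) = 0 := by
  unfold ann
  rw [Submodule.mem_dualAnnihilator]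
  constructor
  · intro h j hj
    exact h _ (Submodule.subset_span ⟨⟨j, hj⟩, rfl⟩)
  · intro h w hw
    have h1 : Submodule.span (ZMod 2) (Set.range fun j : T => v j) ≤ LinearMap.ker φ := by
      rw [Submodule.span_le]
      rintro _ ⟨j, rfl⟩
      exact h j j.2
    exact h1 hw

theorem rank_ge (v : ℕ → V) (T : Finset ℕ) :
    Module.finrank (ZMod 2) V ≤ Module.finrank (ZMod 2) (ann v T) + T.card := by
  have h1 := Subspace.finrank_add_finrank_dualAnnihilator_eq
    (Submodule.span (ZMod 2) (Set.range fun j : T => v j))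
  have h2 := finrank_range_le_card (R := ZMod 2) (fun j : T => v j)
  rw [Fintype.card_coe] at h2
  unfold Set.finrank at h2
  unfold ann
  omega

theorem rank_eq (v : ℕ → V) (T : Finset ℕ) (h : LinearIndependent (ZMod 2) fun j : T => v j) :
    Module.finrank (ZMod 2) (ann v T) + T.card = Module.finrank (ZMod 2) V := by
  have h1 := Subspace.finrank_add_finrank_dualAnnihilator_eq
    (Submodule.span (ZMod 2) (Set.range fun j : T => v j))
  have h2 := finrank_span_eq_card h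
  rw [Fintype.card_coe] at h2
  unfold ann
  omega

theorem exists_fun (v : ℕ → V) (S₀ : Finset ℕ) (𝒮 : Finset (Finset ℕ)) (T : Finset ℕ → Finset ℕ)
    (b : ℕ) (hT : ∀ S ∈ 𝒮, (T S).card = S₀.card + b ∧
      LinearIndependent (ZMod 2) fun j : T S => v j) (hb : 𝒮.card < 2 ^ b) :
    ∃ φ : Module.Dual (ZMod 2) V, (∀ j ∈ S₀, φ (v j) = 0) ∧ ∀ S ∈ 𝒮, ∃ j ∈ T S, φ (v j) ≠ 0 := by
  classical
  have : Finite (Module.Dual (ZMod 2) V) := Module.finite_of_finite (ZMod 2)
  let : Fintype (Module.Dual (ZMod 2) V) := Fintype.ofFinite _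
  have hc : ∀ U : Finset ℕ, (univ.filter fun φ : Module.Dual (ZMod 2) V => φ ∈ ann v U).card =
      2 ^ Module.finrank (ZMod 2) (ann v U) := by
    intro U
    have h1 := Module.natCard_eq_pow_finrank (K := ZMod 2) (V := ann v U)
    rw [Nat.card_zmod] at h1
    rw [← h1, Nat.card_eq_fintype_card, Fintype.card_subtype]
  by_contra hcon
  push Not at hcon
  have hsub : (univ.filter fun φ : Module.Dual (ZMod 2) V => φ ∈ ann v S₀) ⊆
      𝒮.biUnion fun S => univ.filter fun φ : Module.Dual (ZMod 2) V => φ ∈ ann v (T S) := by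
    intro φ hφ
    obtain ⟨S, hS, h⟩ := hcon φ ((mem_ann v S₀ φ).1 (Finset.mem_filter.1 hφ).2)
    exact Finset.mem_biUnion.2 ⟨S, hS, Finset.mem_filter.2 ⟨mem_univ _, (mem_ann _ _ _).2 h⟩⟩
  have hge := rank_ge v S₀
  have h3 : (𝒮.biUnion fun S => univ.filter
      fun φ : Module.Dual (ZMod 2) V => φ ∈ ann v (T S)).card * 2 ^ b ≤
      𝒮.card * 2 ^ Module.finrank (ZMod 2) (ann v S₀) := by
    calc _ ≤ (∑ S ∈ 𝒮, (univ.filter
          fun φ : Module.Dual (ZMod 2) V => φ ∈ ann v (T S)).card) * 2 ^ b :=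
          Nat.mul_le_mul_right _ Finset.card_biUnion_le
      _ = ∑ S ∈ 𝒮, (univ.filter
          fun φ : Module.Dual (ZMod 2) V => φ ∈ ann v (T S)).card * 2 ^ b := Finset.sum_mul _ _ _
      _ ≤ ∑ S ∈ 𝒮, 2 ^ Module.finrank (ZMod 2) (ann v S₀) := by
          refine Finset.sum_le_sum fun S hS => ?_
          rw [hc, ← pow_add]
          have h4 := rank_eq v (T S) (hT S hS).2
          rw [(hT S hS).1] at h4
          exact Nat.pow_le_pow_right (by norm_num) (by omega)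
      _ = _ := by rw [Finset.sum_const, smul_eq_mul]
  have h5 := Finset.card_le_card hsub
  rw [hc] at h5
  have h6 : 0 < 2 ^ Module.finrank (ZMod 2) (ann v S₀) := by positivity
  have h7 := Nat.mul_le_mul_right (2 ^ b) h5
  have h8 := Nat.mul_lt_mul_of_pos_right hb h6
  rw [mul_comm (2 ^ b)] at h8
  omega

end Lin

section Fld

open Polynomial

variable {K : Type} [Field K] [Algebra (ZMod 2) K] [Fintype K]

open Classical in
theorem bad_card (T : Finset ℕ) (L : ℕ) (hT : T ⊆ range L) :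
    (univ.filter fun a : K => ¬ LinearIndependent (ZMod 2) fun j : T => a ^ (j : ℕ)).card ≤
      2 ^ T.card * L := by
  let p : (T → ZMod 2) → K[X] := fun g => ∑ j : T, monomial (j : ℕ) (algebraMap (ZMod 2) K (g j))
  have hsub : (univ.filter fun a : K => ¬ LinearIndependent (ZMod 2) fun j : T => a ^ (j : ℕ)) ⊆
      (univ : Finset (T → ZMod 2)).biUnion fun g => (p g).roots.toFinset := by
    intro a ha
    obtain ⟨g, hg, j₀, hj₀⟩ := Fintype.not_linearIndependent_iff.1 (Finset.mem_filter.1 ha).2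
    refine Finset.mem_biUnion.2 ⟨g, mem_univ _, ?_⟩
    have hne : p g ≠ 0 := by
      intro h0
      have h1 : (p g).coeff j₀ = algebraMap (ZMod 2) K (g j₀) := by
        simp only [p, finsetSum_coeff, coeff_monomial]
        rw [Finset.sum_eq_single j₀]
        · simp
        · intro j _ hj
          rw [if_neg fun h => hj (Subtype.ext h)]
        · intro h
          exact absurd (mem_univ _) h
      rw [h0, coeff_zero] at h1
      exact hj₀ ((map_eq_zero _).1 h1.symm)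
    rw [Multiset.mem_toFinset, mem_roots hne, IsRoot.def]
    simp only [p, eval_finsetSum, eval_monomial]
    rw [← hg]
    exact Finset.sum_congr rfl fun j _ => (Algebra.smul_def _ _).symm
  refine (Finset.card_le_card hsub).trans ?_
  refine (Finset.card_biUnion_le_card_mul _ _ L fun g _ => ?_).trans ?_
  · refine (Multiset.toFinset_card_le _).trans ((card_roots' _).trans ?_)
    refine natDegree_sum_le_of_forall_le _ _ fun j _ => (natDegree_monomial_le _).trans ?_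
    exact (Finset.mem_range.1 (hT j.2)).le
  · simp

theorem exists_good (𝒮 : Finset (Finset ℕ)) (T : Finset ℕ → Finset ℕ) (t L : ℕ)
    (hT : ∀ S ∈ 𝒮, T S ⊆ range L ∧ (T S).card = t)
    (hK : 𝒮.card * (2 ^ t * L) < Fintype.card K) :
    ∃ a : K, ∀ S ∈ 𝒮, LinearIndependent (ZMod 2) fun j : T S => a ^ (j : ℕ) := by
  classical
  by_contra hcon
  push Not at hcon
  have hsub : (univ : Finset K) ⊆ 𝒮.biUnion fun S =>
      univ.filter fun a : K => ¬ LinearIndependent (ZMod 2) fun j : T S => a ^ (j : ℕ) := by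
    intro a _
    obtain ⟨S, hS, h⟩ := hcon a
    exact Finset.mem_biUnion.2 ⟨S, hS, Finset.mem_filter.2 ⟨mem_univ _, h⟩⟩
  have h1 := (Finset.card_le_card hsub).trans
    (Finset.card_biUnion_le_card_mul _ _ (2 ^ t * L) fun S hS => by
      have h2 := bad_card (K := K) (T S) L (hT S hS).1
      rw [(hT S hS).2] at h2
      exact h2)
  rw [Finset.card_univ] at h1
  omega

theorem exists_rec (a : K) :
    ∃ c : ℕ → ZMod 2, a ^ Module.finrank (ZMod 2) K =
      ∑ i ∈ range (Module.finrank (ZMod 2) K), c i • a ^ i := by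
  have hint : IsIntegral (ZMod 2) a := IsIntegral.of_finite _ _
  have hd := minpoly.natDegree_le (A := ZMod 2) a
  set M := Module.finrank (ZMod 2) K
  let q : (ZMod 2)[X] := minpoly (ZMod 2) a * X ^ (M - (minpoly (ZMod 2) a).natDegree)
  have hq : q.Monic := (minpoly.monic hint).mul (monic_X_pow _)
  have hdeg : q.natDegree = M := by
    rw [(minpoly.monic hint).natDegree_mul (monic_X_pow _), natDegree_X_pow]
    omega
  have h0 : aeval a q = 0 := by
    rw [map_mul, minpoly.aeval, zero_mul]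
  rw [hq.as_sum, hdeg, map_add, map_pow, aeval_X, map_sum] at h0
  refine ⟨fun i => -q.coeff i, ?_⟩
  rw [eq_neg_of_add_eq_zero_left h0, ← Finset.sum_neg_distrib]
  refine Finset.sum_congr rfl fun i _ => ?_
  rw [map_mul, aeval_C, map_pow, aeval_X, neg_smul, Algebra.smul_def]

end Fld

end AHit

open AHit in
theorem hit : HitStmt := by
  classical
  intro Mu pos S₀ 𝒮 b hM hS₀ hS hb hK
  have : Fact (Nat.Prime 2) := ⟨Nat.prime_two⟩
  let : Fintype (GaloisField 2 Mu.length) := Fintype.ofFinite _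
  have hcard : Fintype.card (GaloisField 2 Mu.length) = 2 ^ Mu.length := by
    rw [← Nat.card_eq_fintype_card]
    exact GaloisField.card 2 _ hM.ne'
  have hrank := GaloisField.finrank 2 hM.ne'
  have hsh : ∀ S ∈ 𝒮, ∃ S' ⊆ S, S'.card = b := fun S h =>
    Finset.exists_subset_card_eq (hS S h).2.2
  choose! sh hsh1 hsh2 using hsh
  have hTc : ∀ S ∈ 𝒮, (S₀ ∪ sh S).card = S₀.card + b := by
    intro S h
    rw [Finset.card_union_of_disjoint ((hS S h).2.1.symm.mono_right (hsh1 S h)), hsh2 S h]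
  obtain ⟨a, ha⟩ := exists_good (K := GaloisField 2 Mu.length) 𝒮 (fun S => S₀ ∪ sh S)
    (S₀.card + b) pos.length
    (fun S h => ⟨Finset.union_subset hS₀ ((hsh1 S h).trans (hS S h).1), hTc S h⟩) (by
      rw [hcard, ← mul_assoc]
      refine lt_of_le_of_lt ?_ hK
      exact Nat.mul_le_mul_right _ (Nat.mul_le_mul_right _ (Nat.le_succ _)))
  obtain ⟨φ, hφ0, hφ1⟩ := exists_fun (fun j => a ^ j) S₀ 𝒮 (fun S => S₀ ∪ sh S) b
    (fun S h => ⟨hTc S h, ha S h⟩) hb
  obtain ⟨c, hc⟩ := exists_rec a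
  rw [hrank] at hc
  obtain ⟨f, hf, hfb⟩ := exists_bits Mu.length fun i => decide (c i = 1)
  obtain ⟨y, hy, hyb⟩ := exists_bits Mu.length fun i => decide (φ (a ^ i) = 1)
  have hrec : ∀ j, φ (a ^ (j + Mu.length)) = ∑ i ∈ range Mu.length, c i * φ (a ^ (j + i)) := by
    intro j
    rw [pow_add, hc, Finset.mul_sum, map_sum]
    refine Finset.sum_congr rfl fun i _ => ?_
    rw [mul_smul_comm, map_smul, pow_add, smul_eq_mul]
  have hnb := nb_eq Mu f y c (fun j => φ (a ^ j)) hfb hyb hrec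
  have hlf := lf_eq Mu f y _ hnb pos
  refine ⟨f, hf, y, hy, fun j hj => ?_, fun S h => ?_⟩
  · rw [hlf j (Finset.mem_range.1 (hS₀ hj)), hφ0 j hj]
    decide
  · obtain ⟨j, hj, hne⟩ := hφ1 S h
    have hj' : j ∈ S := by
      rcases Finset.mem_union.1 hj with h1 | h1
      · exact absurd (hφ0 j h1) hne
      · exact hsh1 S h h1
    refine ⟨j, hj', ?_⟩
    rw [hlf j (Finset.mem_range.1 ((hS S h).1 hj'))]
    exact decide_eq_true (eq_one_of_ne _ hne)

end Pool.Agent.MP71.DA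

end MrgPart0

-- ======== part 1: formerly Pool.Agent.MP_71daef_lc.det.AOrc
section MrgPart1

/-!
Row ORC of block A: the local search is a marker procedure.
-/

set_option autoImplicit false

namespace Pool.Agent.MP71.DA

open Finset Pool.Agent.H82 Pool.Agent.PolyT

namespace AOrc

theorem length_hl (U : List Bool) : (hl U).length = 2 * U.length + 1 := by
  simp [hl]; omega

theorem ofBits_false {β : Type} (l : List β) : ofBits (l.map fun _ => false) = 0 := by
  induction l with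
  | nil => rfl
  | cons b l ih => rw [List.map_cons, ofBits_cons, ih]; rfl

theorem pw_eq (u : List Bool) {k : ℕ} (hk : k ≤ u.length) : pw u k = 2 ^ k := by
  rw [pw, ofBits_append, ofBits_false]
  simp [hk]

theorem sum_idx (A : List (List Bool)) (f : ℕ → ℕ) :
    ((idx A).map f).sum = ∑ j ∈ range A.length, f j := by
  rw [idx, ← List.sum_toFinset f List.nodup_range, List.toFinset_range]

theorem ws_eq (A : List (List Bool)) (w : List ℕ) (z : List Bool) :
    ws A w z = ∑ e ∈ sp A z, w.getD e 0 := by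
  rw [ws, sum_idx, sp, sum_filter]
  refine sum_congr rfl fun j _ => ?_
  cases z.getD j false <;> simp

open Classical in
/-- The nonempty cycles. -/
noncomputable def ZZ (m : ℕ) (A : List (List Bool)) : Finset (Finset ℕ) :=
  ((mcode m A).cy (range A.length)).filter fun Z => Z.Nonempty

theorem mem_ZZ {m : ℕ} {A : List (List Bool)} {Z : Finset ℕ} :
    Z ∈ ZZ m A ↔ (Z ⊆ range A.length ∧ (mcode m A).cyc Z) ∧ Z.Nonempty := by
  rw [ZZ, mem_filter, Code.mem_cy]

/-- The exact potential of a list of markers. -/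
noncomputable def PP (m : ℕ) (A : List (List Bool)) (U : List Bool) (π : List ℕ) (μ : ℕ → ℕ) : ℕ :=
  Pot (range A.length) (ZZ m A) U.length (π.getD · 0) μ

/-- The total price. -/
def WW (A : List (List Bool)) (π : List ℕ) : ℕ := ∑ e ∈ range A.length, π.getD e 0

variable {m : ℕ} {A : List (List Bool)} {U : List Bool} {π : List ℕ}

theorem tot_eq : tot A π = WW A π := by
  rw [tot, sum_idx, WW]

theorem PP_congr {μ μ' : ℕ → ℕ} (h : ∀ e < A.length, μ e = μ' e) :
    PP m A U π μ = PP m A U π μ' := by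
  unfold PP Pot
  have h1 : ∑ e ∈ range A.length, π.getD e 0 * μ e = ∑ e ∈ range A.length, π.getD e 0 * μ' e :=
    sum_congr rfl fun e he => by rw [h e (mem_range.1 he)]
  have h2 : ∑ Z ∈ ZZ m A, (2 ^ (2 * U.length + 1 - ∑ e ∈ Z, μ e) - 1) =
      ∑ Z ∈ ZZ m A, (2 ^ (2 * U.length + 1 - ∑ e ∈ Z, μ' e) - 1) :=
    sum_congr rfl fun Z hZ => by
      rw [sum_congr rfl fun e he => h e (mem_range.1 ((mem_ZZ.1 hZ).1.1 he))]
  rw [h1, h2]

/-- The invariant of the search. -/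
def Iv (m : ℕ) (A : List (List Bool)) (U : List Bool) (π μ : List ℕ) : Prop :=
  (∀ e < A.length, μ.getD e 0 ≤ 2 * U.length + 1) ∧
    PP m A U π (μ.getD · 0) ≤ 2 ^ U.length * (2 * U.length + 1) * WW A π

theorem Iv.wg {μ : List ℕ} (hW : 0 < WW A π) (h : Iv m A U π μ) :
    WG (mcode m A) (range A.length) (μ.getD · 0) U.length := by
  intro Z hZ hc hne
  by_contra hlt
  have hlt' : ∑ e ∈ Z, μ.getD e 0 < U.length := Nat.lt_of_not_le hlt
  have h1 : 2 ^ (2 * U.length + 1 - ∑ e ∈ Z, μ.getD e 0) - 1 ≤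
      ∑ Z ∈ ZZ m A, (2 ^ (2 * U.length + 1 - ∑ e ∈ Z, μ.getD e 0) - 1) :=
    single_le_sum (f := fun Z : Finset ℕ => 2 ^ (2 * U.length + 1 - ∑ e ∈ Z, μ.getD e 0) - 1)
      (fun _ _ => Nat.zero_le _) (mem_ZZ.2 ⟨⟨hZ, hc⟩, hne⟩)
  have h2 : 2 ^ (U.length + 2) ≤ 2 ^ (2 * U.length + 1 - ∑ e ∈ Z, μ.getD e 0) :=
    Nat.pow_le_pow_right (by norm_num) (by omega)
  have h3 : 0 < 2 ^ U.length := Nat.two_pow_pos _
  have h4 : 2 ^ U.length <
      ∑ Z ∈ ZZ m A, (2 ^ (2 * U.length + 1 - ∑ e ∈ Z, μ.getD e 0) - 1) := by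
    rw [pow_add] at h2
    omega
  have h5 : (2 * U.length + 1) * WW A π *
      ∑ Z ∈ ZZ m A, (2 ^ (2 * U.length + 1 - ∑ e ∈ Z, μ.getD e 0) - 1) ≤
      PP m A U π (μ.getD · 0) := Nat.le_add_left _ _
  have h6 := Nat.mul_lt_mul_of_pos_left h4
    (Nat.mul_pos (Nat.succ_pos (2 * U.length)) hW : 0 < (2 * U.length + 1) * WW A π)
  have h7 := h.2
  have h8 : 2 ^ U.length * (2 * U.length + 1) * WW A π =
      (2 * U.length + 1) * WW A π * 2 ^ U.length := by ring
  omega

theorem pot_eq {l : List (List Bool)} {μ μ' : List ℕ} (hU : 0 < U.length) (hS : Snd m A l)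
    (hC : Cpl m A μ (31 * U.length) l)
    (hμ : ∀ Z ⊆ range A.length, ∑ e ∈ Z, μ.getD e 0 ≤ ∑ e ∈ Z, μ'.getD e 0 + 1) :
    pot A U π l μ' = PP m A U π (μ'.getD · 0) := by
  classical
  have h1 : (l.map fun z => pw (hl U) ((hl U).length - ws A μ' z) - 1) =
      (l.map (sp A)).map fun Z => 2 ^ (2 * U.length + 1 - ∑ e ∈ Z, μ'.getD e 0) - 1 := by
    rw [List.map_map]
    refine List.map_congr_left fun z _ => ?_
    rw [pw_eq _ (Nat.sub_le _ _), ws_eq, length_hl]
    rfl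
  have h2 : ∑ Z ∈ (l.map (sp A)).toFinset,
      (2 ^ (2 * U.length + 1 - ∑ e ∈ Z, μ'.getD e 0) - 1) =
      ∑ Z ∈ ZZ m A, (2 ^ (2 * U.length + 1 - ∑ e ∈ Z, μ'.getD e 0) - 1) := by
    refine sum_subset (fun Z hZ => ?_) fun Z hZ hn => ?_
    · obtain ⟨z, hz, rfl⟩ := List.mem_map.1 (List.mem_toFinset.1 hZ)
      exact mem_ZZ.2 ⟨⟨filter_subset _ _, (hS.2 z hz).1⟩, (hS.2 z hz).2⟩
    · have hZ' := mem_ZZ.1 hZ
      have h3 : ¬ ∑ e ∈ Z, μ.getD e 0 ≤ 31 * U.length := fun h3 => by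
        obtain ⟨z, hz, h4⟩ := hC Z hZ'.1.1 hZ'.1.2 hZ'.2 h3
        exact hn (List.mem_toFinset.2 (List.mem_map.2 ⟨z, hz, h4⟩))
      have h4 := hμ Z hZ'.1.1
      have h5 : 2 * U.length + 1 - ∑ e ∈ Z, μ'.getD e 0 = 0 := by omega
      rw [h5]
      rfl
  rw [pot, h1, ← List.sum_toFinset _ hS.1, h2, pw_eq _ le_rfl, dot, sum_idx, tot_eq, length_hl]
  rfl

/-- Adding a marker. -/
def up (A : List (List Bool)) (μ : List ℕ) (e : ℕ) : List ℕ :=
  (idx A).map fun j => μ.getD j 0 + bif eqB j e then 1 else 0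

/-- Removing a marker. -/
def dn (A : List (List Bool)) (μ : List ℕ) (e : ℕ) : List ℕ :=
  (idx A).map fun j => μ.getD j 0 - bif eqB j e then 1 else 0

theorem bif_eq (j e : ℕ) : (bif eqB j e then 1 else 0 : ℕ) = if j = e then 1 else 0 := by
  by_cases h : j = e <;> simp [eqB, h]

theorem getD_up (μ : List ℕ) (e : ℕ) {j : ℕ} (hj : j < A.length) :
    (up A μ e).getD j 0 = μ.getD j 0 + if j = e then 1 else 0 := by
  rw [up, getD_map_idx _ _ hj, bif_eq]

theorem getD_dn (μ : List ℕ) (e : ℕ) {j : ℕ} (hj : j < A.length) :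
    (dn A μ e).getD j 0 = μ.getD j 0 - if j = e then 1 else 0 := by
  rw [dn, getD_map_idx _ _ hj, bif_eq]

theorem mem_moves {μ μ' : List ℕ} :
    μ' ∈ moves A μ ↔ ∃ e < A.length, μ' = up A μ e ∨ μ' = dn A μ e := by
  simp only [moves, List.mem_flatMap, mem_idx, List.mem_cons, List.not_mem_nil, or_false]
  rfl

theorem near_move {μ μ' : List ℕ} (h : μ' ∈ moves A μ) (Z : Finset ℕ)
    (hZ : Z ⊆ range A.length) : ∑ e ∈ Z, μ.getD e 0 ≤ ∑ e ∈ Z, μ'.getD e 0 + 1 := by
  obtain ⟨e, -, h⟩ := mem_moves.1 h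
  have h1 : ∑ j ∈ Z, (if j = e then 1 else 0 : ℕ) ≤ 1 := by
    rw [sum_ite_eq' Z e fun _ => 1]
    split_ifs <;> omega
  refine le_trans ?_ (Nat.add_le_add_left h1 _)
  rw [← sum_add_distrib]
  refine sum_le_sum fun j hj => ?_
  have hj' := mem_range.1 (hZ hj)
  rcases h with rfl | rfl
  · rw [getD_up μ e hj']; omega
  · rw [getD_dn μ e hj']; omega

theorem PP_up {μ : List ℕ} {e : ℕ} (he : 2 * U.length + 1 ≤ μ.getD e 0) :
    PP m A U π (μ.getD · 0) ≤ PP m A U π ((up A μ e).getD · 0) := by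
  unfold PP Pot
  refine Nat.add_le_add (Nat.mul_le_mul_left _ (sum_le_sum fun j hj => ?_))
    (Nat.mul_le_mul_left _ (sum_le_sum fun Z hZ => ?_))
  · refine Nat.mul_le_mul_left _ ?_
    show μ.getD j 0 ≤ (up A μ e).getD j 0
    rw [getD_up μ e (mem_range.1 hj)]
    omega
  · by_cases h : e ∈ Z
    · have h1 : μ.getD e 0 ≤ ∑ j ∈ Z, μ.getD j 0 :=
        single_le_sum (f := fun j => μ.getD j 0) (fun _ _ => Nat.zero_le _) h
      have h2 : 2 * U.length + 1 - ∑ j ∈ Z, μ.getD j 0 = 0 := by omega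
      rw [h2]
      exact Nat.zero_le _
    · have h1 : ∑ j ∈ Z, (up A μ e).getD j 0 = ∑ j ∈ Z, μ.getD j 0 :=
        sum_congr rfl fun j hj => by
          rw [getD_up μ e (mem_range.1 ((mem_ZZ.1 hZ).1.1 hj)), if_neg, Nat.add_zero]
          rintro rfl
          exact h hj
      rw [h1]

/-- No move is accepted. -/
def Stuck (F : List ℕ → List (List Bool)) (A : List (List Bool)) (U : List Bool)
    (π μ : List ℕ) : Prop :=
  ((moves A μ).filter fun μ' => !ltB (pot A U π (F μ) μ) (pot A U π (F μ) μ' + tot A π)) = []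

variable {F : List ℕ → List (List Bool)}

theorem Iv.pots {μ : List ℕ} (hU : 0 < U.length) (hF : Lister m A U.length F) (hW : 0 < WW A π)
    (h : Iv m A U π μ) : pot A U π (F μ) μ = PP m A U π (μ.getD · 0) ∧
      ∀ μ' ∈ moves A μ, pot A U π (F μ) μ' = PP m A U π (μ'.getD · 0) :=
  ⟨pot_eq hU (hF μ).1 ((hF μ).2 h.1 (h.wg hW)) fun _ _ => Nat.le_succ _,
    fun _ h' => pot_eq hU (hF μ).1 ((hF μ).2 h.1 (h.wg hW)) (near_move h')⟩

/-- The state after `k` steps. -/
def Good (m : ℕ) (F : List ℕ → List (List Bool)) (A : List (List Bool)) (U : List Bool)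
    (π μ : List ℕ) (k : ℕ) : Prop :=
  Iv m A U π μ ∧ (Stuck F A U π μ ∨
    PP m A U π (μ.getD · 0) + k * WW A π ≤ 2 ^ U.length * (2 * U.length + 1) * WW A π)

theorem Good.step {μ : List ℕ} {k : ℕ} (hU : 0 < U.length) (hF : Lister m A U.length F)
    (hW : 0 < WW A π) (h : Good m F A U π μ k) :
    Good m F A U π (pick A U π (F μ) μ) (k + 1) := by
  unfold pick
  cases hr : ((moves A μ).filter
      fun μ' => !ltB (pot A U π (F μ) μ) (pot A U π (F μ) μ' + tot A π)) with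
  | nil => exact ⟨h.1, Or.inl hr⟩
  | cons x r =>
    have hx := List.mem_filter.1 (hr ▸ List.mem_cons_self (a := x) (l := r))
    have hp := h.1.pots hU hF hW
    have h1 : PP m A U π (x.getD · 0) + WW A π ≤ PP m A U π (μ.getD · 0) := by
      have h2 := hx.2
      rw [hp.1, hp.2 x hx.1, tot_eq] at h2
      simpa using h2
    have h3 : PP m A U π (μ.getD · 0) + k * WW A π ≤
        2 ^ U.length * (2 * U.length + 1) * WW A π := by
      rcases h.2 with h2 | h2
      · rw [Stuck, hr] at h2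
        exact absurd h2 (List.cons_ne_nil _ _)
      · exact h2
    refine ⟨⟨fun j hj => ?_, ?_⟩, Or.inr ?_⟩
    · obtain ⟨e, -, h4⟩ := mem_moves.1 hx.1
      have h5 := h.1.1 j hj
      show x.getD j 0 ≤ _
      rcases h4 with rfl | rfl
      · rw [getD_up μ e hj]
        split_ifs with h6
        · subst h6
          by_contra h7
          have := PP_up (m := m) (A := A) (U := U) (π := π) (μ := μ) (e := j) (by omega)
          omega
        · exact h5
      · rw [getD_dn μ e hj]; omega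
    · show PP m A U π (x.getD · 0) ≤ _
      omega
    · show PP m A U π (x.getD · 0) + (k + 1) * WW A π ≤ _
      rw [Nat.add_mul]
      omega

theorem Good.fold (hU : 0 < U.length) (hF : Lister m A U.length F) (hW : 0 < WW A π) :
    ∀ (St : List Bool) (μ : List ℕ) (k : ℕ), Good m F A U π μ k →
      Good m F A U π (St.foldl (fun μ _ => pick A U π (F μ) μ) μ) (k + St.length)
  | [], _, _, h => h
  | _ :: St, μ, k, h => by
    have := Good.fold hU hF hW St _ _ (h.step hU hF hW)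
    rw [List.foldl_cons, List.length_cons, ← Nat.add_assoc, Nat.add_right_comm]
    exact this

theorem good_start : Good m F A U π ((idx A).map fun _ => (hl U).length) 0 := by
  have h0 : ∀ e < A.length,
      ((idx A).map fun _ => (hl U).length).getD e 0 = 2 * U.length + 1 := fun e he => by
    rw [getD_map_idx _ _ he, length_hl]
  have h1 : PP m A U π (((idx A).map fun _ => (hl U).length).getD · 0) =
      2 ^ U.length * (2 * U.length + 1) * WW A π := by
    rw [PP_congr h0]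
    unfold PP Pot
    have h2 : ∑ Z ∈ ZZ m A, (2 ^ (2 * U.length + 1 - ∑ _e ∈ Z, (2 * U.length + 1)) - 1) = 0 :=
      sum_eq_zero fun Z hZ => by
        have h3 := (mem_ZZ.1 hZ).2.card_pos
        have h4 : 2 * U.length + 1 - ∑ _e ∈ Z, (2 * U.length + 1) = 0 := by
          rw [sum_const, smul_eq_mul]
          exact Nat.sub_eq_zero_of_le (Nat.le_mul_of_pos_left _ h3)
        rw [h4]
        rfl
    rw [h2, ← sum_mul, WW]
    ring
  exact ⟨⟨fun e he => (h0 e he).le, h1.le⟩, Or.inr (by rw [h1]; omega)⟩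

end AOrc

open AOrc in
theorem orc_thm (h : LocStmt) : OrcStmt := by
  classical
  intro m A U St F g N hU hF hG hg hN hb hSt π hW
  have hW' : 0 < WW A π := hW
  have h0 := Good.fold hU hF hW' St _ _ (good_start (m := m) (A := A) (U := U) (π := π) (F := F))
  have h1 : Good m F A U π (orc F A U St π) (0 + St.length) := h0
  set μ := orc F A U St π
  have h2 : Stuck F A U π μ := by
    refine h1.2.resolve_right fun h2 => ?_
    have h3 := Nat.mul_lt_mul_of_pos_right hSt hW'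
    rw [Nat.zero_add] at h2
    omega
  have hp := h1.1.pots hU hF hW'
  have h3 : ∀ μ' ∈ moves A μ,
      PP m A U π (μ.getD · 0) < PP m A U π (μ'.getD · 0) + WW A π := fun μ' hμ => by
    have h4 := List.filter_eq_nil_iff.1 h2 μ' hμ
    rw [hp.1, hp.2 μ' hμ, tot_eq] at h4
    simpa using h4
  refine ⟨h1.1.1, h1.1.wg hW', ?_⟩
  refine h (range A.length) (ZZ m A) U.length g N (π.getD · 0) (μ.getD · 0)
    (fun Z hZ => ⟨(mem_ZZ.1 hZ).1.1,
      hG Z (mem_ZZ.1 hZ).1.1 (mem_ZZ.1 hZ).1.2 (mem_ZZ.1 hZ).2⟩)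
    (by rwa [card_range]) (fun e he => h1.1.1 e (mem_range.1 he)) ?_ (by rwa [card_range])
    (fun e he => ?_) (fun e he => ?_)
  · refine le_trans (card_le_card fun Z hZ => ?_) (hN (μ.getD · 0) h1.1.1 (h1.1.wg hW'))
    have h4 := mem_filter.1 hZ
    refine mem_filter.2 ⟨Code.mem_cy.2 (mem_ZZ.1 h4.1).1, ?_⟩
    have h5 := h4.2
    omega
  · have h4 := h3 _ (mem_moves.2 ⟨e, mem_range.1 he, Or.inl rfl⟩)
    rw [PP_congr fun j hj => getD_up μ e hj] at h4
    exact h4
  · have h4 := h3 _ (mem_moves.2 ⟨e, mem_range.1 he, Or.inr rfl⟩)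
    rw [PP_congr fun j hj => getD_dn μ e hj] at h4
    exact h4

end Pool.Agent.MP71.DA

end MrgPart1

-- marker of a merged file
example : 731051 + 155043 = 731051 + 155043 := rfl

end MrgPart3

-- marker of a merged file
example : 731051 + 155043 = 731051 + 155043 := rfl
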