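import Mathlib
import Pool.Agent.MP_71daef_lc.RAlg
import Pool.Agent.MP_71daef_lc.det.AOrc

-- ======== part 0: formerly Pool.Agent.MP_71daef_lc.det.PDefs
section MrgPart0

/-!
Random subsets and the random merge process.
-/

set_option autoImplicit false

namespace Pool.Agent.MP71.Pr

open Finset symmDiff

/-- Expectation of `F` over the random subset of `S` that keeps each element with probability `s`. -/
noncomputable def ex (s : ℝ) (S : Finset ℕ) (F : Finset ℕ → ℝ) : ℝ :=
  ∑ X ∈ S.powerset, s ^ X.card * (1 - s) ^ (S \ X).card * F X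

section ex

variable {s t : ℝ} {S T : Finset ℕ} {F H : Finset ℕ → ℝ} {a : ℕ}

theorem ex_empty : ex s ∅ F = F ∅ := by simp [ex]

theorem ex_insert (ha : a ∉ S) :
    ex s (insert a S) F = s * ex s S (fun X => F (insert a X)) + (1 - s) * ex s S F := by
  rw [ex, sum_powerset_insert ha, add_comm, ex, ex, mul_sum, mul_sum]
  congr 1 <;> refine sum_congr rfl fun X hX => ?_
  · have h1 : a ∉ X := fun h => ha (mem_powerset.1 hX h)
    rw [card_insert_of_notMem h1, insert_sdiff_insert, sdiff_insert_of_notMem ha]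
    ring
  · have h1 : a ∉ X := fun h => ha (mem_powerset.1 hX h)
    rw [insert_sdiff_of_notMem _ h1, card_insert_of_notMem fun h => ha (mem_sdiff.1 h).1]
    ring

theorem ex_congr (h : ∀ X ⊆ S, F X = H X) : ex s S F = ex s S H :=
  sum_congr rfl fun X hX => by rw [h X (mem_powerset.1 hX)]

theorem ex_mono (h0 : 0 ≤ s) (h1 : s ≤ 1) (h : ∀ X ⊆ S, F X ≤ H X) : ex s S F ≤ ex s S H :=
  sum_le_sum fun X hX => mul_le_mul_of_nonneg_left (h X (mem_powerset.1 hX))
    (mul_nonneg (pow_nonneg h0 _) (pow_nonneg (sub_nonneg.2 h1) _))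

theorem ex_const (x : ℝ) : ex s S (fun _ => x) = x := by
  induction S using Finset.induction_on with
  | empty => exact ex_empty
  | insert a S ha ih => rw [ex_insert ha, ih]; ring

theorem ex_add : ex s S (fun X => F X + H X) = ex s S F + ex s S H := by
  simp only [ex, mul_add, sum_add_distrib]

theorem ex_mul (x : ℝ) : ex s S (fun X => x * F X) = x * ex s S F := by
  simp only [ex, mul_sum]
  exact sum_congr rfl fun _ _ => by ring

theorem ex_sum {ι : Type} (I : Finset ι) (f : ι → Finset ℕ → ℝ) :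
    ex s S (fun X => ∑ i ∈ I, f i X) = ∑ i ∈ I, ex s S (f i) := by
  simp only [ex, mul_sum]
  exact sum_comm

theorem ex_le (h0 : 0 ≤ s) (h1 : s ≤ 1) {x : ℝ} (h : ∀ X ⊆ S, F X ≤ x) : ex s S F ≤ x :=
  (ex_mono h0 h1 h).trans (ex_const x).le

theorem le_ex (h0 : 0 ≤ s) (h1 : s ≤ 1) {x : ℝ} (h : ∀ X ⊆ S, x ≤ F X) : x ≤ ex s S F :=
  (ex_const x).ge.trans (ex_mono h0 h1 h)

/-- Jensen's inequality for the exponential function. -/
theorem ex_exp (h0 : 0 ≤ s) (h1 : s ≤ 1) {x : ℝ} (h : ex s S F ≤ x) :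
    Real.exp (-x) ≤ ex s S (fun X => Real.exp (-F X)) := by
  have h2 : ex s S (fun X => Real.exp (-x) * ((1 + x) + (-1) * F X)) ≤
      ex s S (fun X => Real.exp (-F X)) := ex_mono h0 h1 fun X _ => by
    have h3 := Real.add_one_le_exp (x - F X)
    have h4 : Real.exp (-F X) = Real.exp (-x) * Real.exp (x - F X) := by
      rw [← Real.exp_add]; congr 1; ring
    rw [h4]
    exact mul_le_mul_of_nonneg_left (by linarith) (Real.exp_pos _).le
  rw [ex_mul, ex_add, ex_const, ex_mul] at h2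
  refine le_trans ?_ h2
  exact le_mul_of_one_le_right (Real.exp_pos _).le (by linarith)

theorem ex_comp : ex (s * t) S F = ex s S (fun X => ex t X F) := by
  induction S using Finset.induction_on generalizing F with
  | empty => simp only [ex_empty]
  | insert a S ha ih =>
    rw [ex_insert ha, ex_insert ha, ih, ih, ex_congr (F := fun X => ex t (insert a X) F)
      fun X hX => ex_insert fun h => ha (hX h), ex_add, ex_mul, ex_mul]
    ring

open Classical in
/-- Prescribing the trace on two disjoint sets. -/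
theorem ex_force {Y N : Finset ℕ} (hY : Y ⊆ S) (hN : N ⊆ S) (hd : Disjoint Y N) :
    ex s S (fun X => if Y ⊆ X ∧ Disjoint N X then F (X \ (Y ∪ N)) else 0) =
      s ^ Y.card * (1 - s) ^ N.card * ex s S (fun X => F (X \ (Y ∪ N))) := by
  induction S using Finset.induction_on generalizing Y N F with
  | empty =>
    rw [subset_empty.1 hY, subset_empty.1 hN]; simp [ex_empty]
  | insert a S ha ih =>
    have e0 : ∀ {X W : Finset ℕ}, X ⊆ S → X \ insert a W = X \ W := fun hX =>
      sdiff_insert_of_notMem (fun h => ha (hX h)) _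
    rw [ex_insert ha, ex_insert ha]
    by_cases h1 : a ∈ Y
    · obtain ⟨Y', h2, rfl⟩ : ∃ Y', a ∉ Y' ∧ Y = insert a Y' :=
        ⟨_, notMem_erase a Y, (insert_erase h1).symm⟩
      have h3 : a ∉ N := disjoint_left.1 hd h1
      have h4 := @ih F Y' N ((subset_insert_iff_of_notMem h2).1 ((subset_insert _ _).trans hY))
        ((subset_insert_iff_of_notMem h3).1 hN) (hd.mono_left (subset_insert _ _))
      rw [ex_congr (H := fun X => if Y' ⊆ X ∧ Disjoint N X then F (X \ (Y' ∪ N)) else 0)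
          fun X hX => ?_, h4, ex_congr (S := S) (F := fun X => if insert a Y' ⊆ X ∧ Disjoint N X
            then F (X \ (insert a Y' ∪ N)) else 0) (H := fun _ => 0) fun X hX => ?_, ex_const,
        ex_congr (S := S) (F := fun X => F (insert a X \ (insert a Y' ∪ N)))
          (H := fun X => F (X \ (Y' ∪ N))) fun X hX => ?_,
        ex_congr (S := S) (F := fun X => F (X \ (insert a Y' ∪ N)))
          (H := fun X => F (X \ (Y' ∪ N))) fun X hX => ?_, card_insert_of_notMem h2]
      · ring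
      · rw [insert_union, e0 hX]
      · rw [insert_union, insert_sdiff_insert, e0 hX]
      · exact if_neg fun h => ha (hX (h.1 (mem_insert_self _ _)))
      · rw [insert_union, insert_sdiff_insert, e0 hX]
        simp only [insert_subset_insert_iff h2, disjoint_insert_right, h3, not_false_eq_true,
          true_and]
    by_cases h5 : a ∈ N
    · obtain ⟨N', h2, rfl⟩ : ∃ N', a ∉ N' ∧ N = insert a N' :=
        ⟨_, notMem_erase a N, (insert_erase h5).symm⟩
      have h4 := @ih F Y N' ((subset_insert_iff_of_notMem h1).1 hY)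
        ((subset_insert_iff_of_notMem h2).1 ((subset_insert _ _).trans hN))
        (hd.mono_right (subset_insert _ _))
      rw [ex_congr (S := S) (H := fun _ => 0) fun X hX => ?_, ex_const,
        ex_congr (S := S) (H := fun X => if Y ⊆ X ∧ Disjoint N' X then F (X \ (Y ∪ N')) else 0)
          fun X hX => ?_, h4,
        ex_congr (S := S) (F := fun X => F (insert a X \ (Y ∪ insert a N')))
          (H := fun X => F (X \ (Y ∪ N'))) fun X hX => ?_,
        ex_congr (S := S) (F := fun X => F (X \ (Y ∪ insert a N')))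
          (H := fun X => F (X \ (Y ∪ N'))) fun X hX => ?_, card_insert_of_notMem h2]
      · ring
      · rw [union_insert, e0 hX]
      · rw [union_insert, insert_sdiff_insert, e0 hX]
      · rw [union_insert, e0 hX]
        have h6 : a ∉ X := fun h => ha (hX h)
        simp only [disjoint_insert_left, h6, not_false_eq_true, true_and]
      · exact if_neg fun h => disjoint_left.1 h.2 (mem_insert_self _ _) (mem_insert_self _ _)
    have h6 : a ∉ Y ∪ N := by simp [h1, h5]
    have h7 := (subset_insert_iff_of_notMem h1).1 hY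
    have h8 := (subset_insert_iff_of_notMem h5).1 hN
    rw [ex_congr (H := fun X => if Y ⊆ X ∧ Disjoint N X then
        (fun W => F (insert a W)) (X \ (Y ∪ N)) else 0) fun X hX => ?_,
      @ih (fun W => F (insert a W)) Y N h7 h8 hd, @ih F Y N h7 h8 hd]
    · simp only [insert_sdiff_of_notMem _ h6]
      ring
    · simp only [subset_insert_iff_of_notMem h1, disjoint_insert_right, h5, not_false_eq_true,
        true_and, insert_sdiff_of_notMem _ h6]

open Classical in
theorem ex_event {Y N : Finset ℕ} (hY : Y ⊆ S) (hN : N ⊆ S) (hd : Disjoint Y N) :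
    ex s S (fun X => if Y ⊆ X ∧ Disjoint N X then 1 else 0) = s ^ Y.card * (1 - s) ^ N.card := by
  have := ex_force (s := s) (F := fun _ => 1) hY hN hd
  rwa [ex_const, mul_one] at this

theorem ex_sup {Y : Finset ℕ} (hY : Y ⊆ S) :
    ex s S (fun X => if Y ⊆ X then 1 else 0) = s ^ Y.card := by
  have := ex_event (s := s) hY (empty_subset S) (disjoint_empty_right _)
  simpa using this

theorem ex_mem_le (h0 : 0 ≤ s) : ex s S (fun X => if a ∈ X then 1 else 0) ≤ s := by
  by_cases ha : a ∈ S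
  · have := ex_sup (s := s) (singleton_subset_iff.2 ha)
    simp only [singleton_subset_iff, card_singleton, pow_one] at this
    exact this.le
  · rw [ex_congr (H := fun _ => 0) fun X hX => if_neg fun h => ha (hX h), ex_const]
    exact h0

/-- Flipping one fair coin. -/
theorem ex_flip (ha : a ∈ S) : ex (1 / 2) S (fun X => if a ∈ X then F X else 0) =
    ex (1 / 2) S (fun X => if a ∈ X then 0 else F (insert a X)) := by
  obtain ⟨S', h2, rfl⟩ : ∃ S', a ∉ S' ∧ S = insert a S' :=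
    ⟨_, notMem_erase a S, (insert_erase ha).symm⟩
  rw [ex_insert h2, ex_insert h2]
  simp only [mem_insert_self, if_true, ex_const]
  rw [ex_congr (S := S') (F := fun X => if a ∈ X then F X else 0) (H := fun _ => 0)
      fun X hX => if_neg fun h => h2 (hX h),
    ex_congr (S := S') (F := fun X => if a ∈ X then 0 else F (insert a X))
      (H := fun X => F (insert a X)) fun X hX => if_neg fun h => h2 (hX h), ex_const]
  ring

end ex

/-- The members that meet `φ` in an odd number of elements. -/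
def od (φ : Finset ℕ) (K : Finset (Finset ℕ)) : Finset (Finset ℕ) :=
  K.filter fun P => Odd (P ∩ φ).card

/-- The other members. -/
def ev (φ : Finset ℕ) (K : Finset (Finset ℕ)) : Finset (Finset ℕ) :=
  K.filter fun P => ¬ Odd (P ∩ φ).card

/-- The union of the odd members whose largest element lies in `A`. -/
def out (φ A : Finset ℕ) (K : Finset (Finset ℕ)) : Finset ℕ :=
  ((od φ K).filter fun P => P.sup id ∈ A).sup id

/-- A merged set is kept if it is nonempty, even and small. -/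
def Keep (G : ℕ) (φ U : Finset ℕ) : Prop := U.Nonempty ∧ ¬ Odd (U ∩ φ).card ∧ U.card < G

open Classical in
/-- One step of the process. -/
noncomputable def stp (G : ℕ) (φ A : Finset ℕ) (K : Finset (Finset ℕ)) : Finset (Finset ℕ) :=
  if Keep G φ (out φ A K) then insert (out φ A K) (ev φ K) else ev φ K

/-- Expectation of `F` after running the process from `K` along a list. -/
noncomputable def EE (E : Finset ℕ) (G : ℕ) :
    List (Finset ℕ) → Finset (Finset ℕ) → (Finset (Finset ℕ) → ℝ) → ℝ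
  | [], K, F => F K
  | φ :: l, K, F => ex (1 / 2) E fun A => EE E G l (stp G φ A K) F

/-- The singletons of `R`. -/
def sing (R : Finset ℕ) : Finset (Finset ℕ) := R.image fun e => {e}

/-- Expectation of `F` at the end of the process started from a random subset of rate `s`. -/
noncomputable def LL (E : Finset ℕ) (G : ℕ) (s : ℝ) (l : List (Finset ℕ))
    (F : Finset (Finset ℕ) → ℝ) : ℝ :=
  ex s E fun R => EE E G l (sing R) F

/-- Every set of the list meets few members oddly in expectation. -/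
def Light (E : Finset ℕ) (G : ℕ) (s : ℝ) (b : ℕ) (l : List (Finset ℕ)) : Prop :=
  ∀ l₁ φ l₂, l = l₁ ++ φ :: l₂ → LL E G s l₁ (fun K => ((od φ K).card : ℝ)) ≤ b

/-- The run in which all members are awake drops nothing along the list, and at the end all members
are odd on `ψ`. -/
def Ok (G : ℕ) (ψ : Finset ℕ) : List (Finset ℕ) → Finset (Finset ℕ) → Prop
  | [], K => ∀ P ∈ K, Odd (P ∩ ψ).card
  | φ :: l, K => (od φ K = ∅ ∧ Ok G ψ l K) ∨
      (Keep G φ ((od φ K).sup id) ∧ Ok G ψ l (insert ((od φ K).sup id) (ev φ K)))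

/-- `X` is even on all sets of the list. -/
def Evn (l : List (Finset ℕ)) (X : Finset ℕ) : Prop := ∀ φ ∈ l, ¬ Odd (X ∩ φ).card

/-- The members are disjoint subsets of `R` that are even on the list. -/
def Inv (l : List (Finset ℕ)) (R : Finset ℕ) (K : Finset (Finset ℕ)) : Prop :=
  (∀ P ∈ K, P ⊆ R ∧ Evn l P) ∧ ∀ P ∈ K, ∀ Q ∈ K, P ≠ Q → Disjoint P Q

open Classical in
/-- The probability that the step along `ψ` produces `Y`. -/
noncomputable def hit (E ψ Y : Finset ℕ) (K : Finset (Finset ℕ)) : ℝ :=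
  ex (1 / 2) E fun A => if out ψ A K = Y then 1 else 0

section EE

variable {E : Finset ℕ} {G : ℕ} {l : List (Finset ℕ)} {K : Finset (Finset ℕ)}
  {F H : Finset (Finset ℕ) → ℝ} {s : ℝ}

theorem half0 : (0 : ℝ) ≤ 1 / 2 := by norm_num

theorem half1 : (1 / 2 : ℝ) ≤ 1 := by norm_num

theorem EE_append (l' : List (Finset ℕ)) :
    EE E G (l ++ l') K F = EE E G l K fun K' => EE E G l' K' F := by
  induction l generalizing K with
  | nil => rfl
  | cons φ l ih => simp only [List.cons_append, EE, ih]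

theorem EE_mono (h : ∀ K, F K ≤ H K) : EE E G l K F ≤ EE E G l K H := by
  induction l generalizing K with
  | nil => exact h K
  | cons φ l ih => exact ex_mono half0 half1 fun _ _ => ih

theorem EE_const (x : ℝ) : EE E G l K (fun _ => x) = x := by
  induction l generalizing K with
  | nil => rfl
  | cons φ l ih => simp only [EE, ih, ex_const]

theorem EE_add : EE E G l K (fun X => F X + H X) = EE E G l K F + EE E G l K H := by
  induction l generalizing K with
  | nil => rfl
  | cons φ l ih => simp only [EE, ih, ex_add]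

theorem EE_sum {ι : Type} (I : Finset ι) (f : ι → Finset (Finset ℕ) → ℝ) :
    EE E G l K (fun X => ∑ i ∈ I, f i X) = ∑ i ∈ I, EE E G l K (f i) := by
  induction l generalizing K with
  | nil => rfl
  | cons φ l ih => simp only [EE, ih, ex_sum]

theorem LL_snoc (φ : Finset ℕ) :
    LL E G s (l ++ [φ]) F = LL E G s l fun K => ex (1 / 2) E fun A => F (stp G φ A K) := by
  simp only [LL, EE_append, EE]

theorem LL_mono (h0 : 0 ≤ s) (h1 : s ≤ 1) (h : ∀ K, F K ≤ H K) : LL E G s l F ≤ LL E G s l H :=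
  ex_mono h0 h1 fun _ _ => EE_mono h

theorem LL_const (x : ℝ) : LL E G s l (fun _ => x) = x := by
  simp only [LL, EE_const, ex_const]

theorem LL_add : LL E G s l (fun X => F X + H X) = LL E G s l F + LL E G s l H := by
  simp only [LL, EE_add, ex_add]

theorem LL_sum {ι : Type} (I : Finset ι) (f : ι → Finset (Finset ℕ) → ℝ) :
    LL E G s l (fun X => ∑ i ∈ I, f i X) = ∑ i ∈ I, LL E G s l (f i) := by
  simp only [LL, EE_sum, ex_sum]

end EE

end Pool.Agent.MP71.Pr

end MrgPart0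

-- ======== part 1: formerly Pool.Agent.MP_71daef_lc.det.PWc
section MrgPart1

-- ======== part 0: formerly Pool.Agent.MP_71daef_lc.det.PSpec
section MrgPart0

/-!
Statements for the random merge process.
-/

set_option autoImplicit false

namespace Pool.Agent.MP71.Pr

open Finset symmDiff

/-- Modulo the sets of the list, every cycle of `b` can be moved away from `Pv`. -/
def Good (b : Code) (E : Finset ℕ) (l : List (Finset ℕ)) (Pv : Finset ℕ) : Prop :=
  ∀ ψ ⊆ E, b.cyc ψ → ∃ ψ' ⊆ E \ Pv, b.cyc ψ' ∧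
    ∀ X, Evn l X → (Odd (X ∩ ψ).card ↔ Odd (X ∩ ψ').card)

/-- Row P-SAMPLE: a random subset of large rate has small expected nullity. -/
def SampleStmt : Prop :=
  ∀ d : ℕ, ∃ K : ℕ, ∀ (c : Code) (E : Finset ℕ) (G : ℕ), ¬ c.Uni E d → c.Gir E G → 1 ≤ G →
    ∃ s : ℝ, 0 ≤ s ∧ s ≤ 1 ∧ 1 ≤ ((E.card : ℝ) + 1) ^ K * s ^ G ∧
      ex s E (fun R => (c.nul R : ℝ)) ≤ 1

/-- Row P-GHOST: the expected number of covered elements. -/
def GhostStmt : Prop :=
  ∀ (c b : Code) (E Pv : Finset ℕ) (G : ℕ) (s : ℝ) (l : List (Finset ℕ)), DualPair c b E →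
    Good b E l Pv → 0 ≤ s → s ≤ 1 →
    ∑ e ∈ E, LL E G (s * (1 / 2)) l (fun K => if e ∈ K.sup id then 1 else 0) ≤
      b.nul (E \ Pv) + ex s E (fun R => (c.nul R : ℝ))

/-- Row P-LIST: a light list of cocycles that cuts out the cycles. -/
def ListStmt : Prop :=
  ∀ t : ℕ, ∃ b₀ : ℕ, ∀ (c b : Code) (E : Finset ℕ) (G : ℕ) (s : ℝ), DualPair c b E →
    ¬ b.KM E t → 0 ≤ s → s ≤ 1 → ex s E (fun R => (c.nul R : ℝ)) ≤ 1 →
    ∃ Φ : List (Finset ℕ), Φ.length ≤ E.card ∧ Light E G (s * (1 / 2)) b₀ Φ ∧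
      ∀ X ⊆ E, Evn Φ X ↔ c.cyc X

/-- Row P-LOW: every witness is produced with a probability that is not too small. -/
def LowStmt : Prop :=
  ∀ (E ψ Y : Finset ℕ) (G b₀ : ℕ) (s : ℝ) (l : List (Finset ℕ)), 0 ≤ s → s ≤ 1 →
    Light E G s b₀ (l ++ [ψ]) → Y ⊆ E → Y.Nonempty → Ok G ψ l (sing Y) →
    s ^ Y.card * Real.exp (-((b₀ + 4) * Y.card)) ≤ LL E G s l (hit E ψ Y)

/-- Row P-CAN: every cycle contains a witness. -/
def CanStmt : Prop :=
  ∀ (c : Code) (E Z : Finset ℕ) (G : ℕ) (Φ : List (Finset ℕ)), c.Gir E G → 2 ≤ G →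
    (∀ X ⊆ E, Evn Φ X → c.cyc X) → Z ⊆ E → Z.Nonempty → Evn Φ Z →
    ∃ l ψ l₂ Y, Φ = l ++ ψ :: l₂ ∧ Y ⊆ Z ∧ G ≤ Y.card ∧ Y.card < 2 * G ∧ Ok G ψ l (sing Y)

/-- Parity is additive on symmetric differences. -/
theorem odd_symmDiff (X φ ψ : Finset ℕ) :
    Odd (X ∩ (φ ∆ ψ)).card ↔ ¬ (Odd (X ∩ φ).card ↔ Odd (X ∩ ψ).card) := by
  have h1 : X ∩ (φ ∆ ψ) = ((X ∩ φ) \ ψ) ∪ ((X ∩ ψ) \ φ) := by
    ext x; simp only [mem_inter, mem_symmDiff, mem_union, mem_sdiff]; tauto
  have h2 := card_sdiff_add_card_inter (X ∩ φ) ψ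
  have h3 := card_sdiff_add_card_inter (X ∩ ψ) φ
  rw [inter_right_comm] at h3
  rw [h1, card_union_of_disjoint (disjoint_left.2 fun x h h' =>
    (mem_sdiff.1 h).2 (mem_inter.1 (mem_sdiff.1 h').1).2)]
  simp only [Nat.odd_iff]
  omega

/-- The parity of a disjoint union is the parity of the number of odd members. -/
theorem odd_sup (φ : Finset ℕ) (K : Finset (Finset ℕ))
    (h : ∀ P ∈ K, ∀ Q ∈ K, P ≠ Q → Disjoint P Q) :
    Odd (K.sup id ∩ φ).card ↔ Odd (od φ K).card := by
  induction K using Finset.induction_on with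
  | empty => simp [od]
  | insert P K hP ih =>
    have h1 := ih fun P hP Q hQ => h P (mem_insert_of_mem hP) Q (mem_insert_of_mem hQ)
    have h2 : Disjoint P (K.sup id) := (Finset.disjoint_sup_right).2 fun Q hQ =>
      h P (mem_insert_self _ _) Q (mem_insert_of_mem hQ) fun e => hP (e ▸ hQ)
    rw [sup_insert, id, sup_eq_union, union_inter_distrib_right,
      card_union_of_disjoint (h2.mono inter_subset_left inter_subset_left), od, filter_insert]
    rw [od] at h1
    split_ifs with h3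
    · rw [card_insert_of_notMem fun h => hP (mem_filter.1 h).1]
      simp only [Nat.odd_iff] at *
      omega
    · simp only [Nat.odd_iff] at *
      omega

theorem Inv.sing (R : Finset ℕ) : Inv [] R (sing R) := by
  refine ⟨fun P hP => ?_, fun P hP Q hQ h => ?_⟩
  · obtain ⟨e, he, rfl⟩ := mem_image.1 hP
    exact ⟨singleton_subset_iff.2 he, fun _ h => nomatch h⟩
  · obtain ⟨e, -, rfl⟩ := mem_image.1 hP
    obtain ⟨f, -, rfl⟩ := mem_image.1 hQ
    exact disjoint_singleton.2 fun e => h (by rw [e])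

theorem Inv.stp {l : List (Finset ℕ)} {R : Finset ℕ} {K : Finset (Finset ℕ)} (h : Inv l R K)
    (G : ℕ) (φ A : Finset ℕ) : Inv (l ++ [φ]) R (stp G φ A K) := by
  have h1 : Inv (l ++ [φ]) R (ev φ K) := ⟨fun P hP => ⟨(h.1 P (mem_filter.1 hP).1).1,
    fun ψ hψ => (List.mem_append.1 hψ).elim ((h.1 P (mem_filter.1 hP).1).2 ψ)
      fun e => List.mem_singleton.1 e ▸ (mem_filter.1 hP).2⟩,
    fun P hP Q hQ => h.2 P (mem_filter.1 hP).1 Q (mem_filter.1 hQ).1⟩
  have h2 : ∀ P ∈ (od φ K).filter fun P => P.sup id ∈ A, P ∈ K ∧ Odd (P ∩ φ).card :=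
    fun P hP => mem_filter.1 (mem_filter.1 hP).1
  have h3 : ∀ Q ∈ ev φ K, Disjoint (out φ A K) Q := fun Q hQ =>
    (Finset.disjoint_sup_left).2 fun P hP => h.2 P (h2 P hP).1 Q (mem_filter.1 hQ).1
      fun e => (mem_filter.1 hQ).2 (e ▸ (h2 P hP).2)
  rw [Pr.stp]
  split_ifs with hk
  · refine ⟨fun P hP => ?_, fun P hP Q hQ hne => ?_⟩
    · rcases mem_insert.1 hP with rfl | hP
      · refine ⟨Finset.sup_le fun Q hQ => (h.1 Q (h2 Q hQ).1).1, fun ψ hψ => ?_⟩
        rcases List.mem_append.1 hψ with hψ | hψ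
        · rw [out, odd_sup _ _ fun P hP Q hQ => h.2 P (h2 P hP).1 Q (h2 Q hQ).1, od,
            filter_eq_empty_iff.2 fun Q hQ => (h.1 Q (h2 Q hQ).1).2 ψ hψ]
          simp
        · exact List.mem_singleton.1 hψ ▸ hk.2.1
      · exact h1.1 P hP
    · rcases mem_insert.1 hP with rfl | hP <;> rcases mem_insert.1 hQ with rfl | hQ
      · exact absurd rfl hne
      · exact h3 Q hQ
      · exact (h3 P hP).symm
      · exact h1.2 P hP Q hQ hne
  · exact h1

/-- Monotonicity on the states that can occur. -/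
theorem EE_mono_inv {E R : Finset ℕ} {G : ℕ} {F H : Finset (Finset ℕ) → ℝ} :
    ∀ (l l₀ : List (Finset ℕ)) (K : Finset (Finset ℕ)), Inv l₀ R K →
      (∀ K', Inv (l₀ ++ l) R K' → F K' ≤ H K') → EE E G l K F ≤ EE E G l K H
  | [], l₀, K, h, h' => h' K (by simpa using h)
  | φ :: l, l₀, _, h, h' => ex_mono half0 half1 fun A _ =>
      EE_mono_inv l (l₀ ++ [φ]) _ (h.stp G φ A) fun K' hK => h' K' (by simpa using hK)

end Pool.Agent.MP71.Pr

end MrgPart0

-- ======== part 1: formerly Pool.Agent.MP_71daef_lc.det.PWc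
section MrgPart1

/-!
Counting the witnesses of the merge process.
-/

set_option autoImplicit false

namespace Pool.Agent.MP71.Pr

open Finset symmDiff

theorem sum_hit_le (E ψ : Finset ℕ) (𝓨 K : Finset (Finset ℕ)) : ∑ Y ∈ 𝓨, hit E ψ Y K ≤ 1 := by
  classical
  simp only [hit]
  rw [← ex_sum]
  refine ex_le half0 half1 fun A _ => ?_
  rw [sum_ite_eq]
  split_ifs <;> norm_num

theorem wc' (hS : SampleStmt) (hL : ListStmt) (hLow : LowStmt) (hC : CanStmt) : WCStmt := by
  classical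
  intro d t
  obtain ⟨K, hK⟩ := hS d
  obtain ⟨b₀, hb⟩ := hL t
  refine ⟨2 * K + 1 + 2 + 4 * (b₀ + 4), fun c b E G hd hU hKM hg hG => ?_⟩
  have hp : ∀ {a b' : ℕ}, a ≤ b' → (E.card + 1) ^ a ≤ (E.card + 1) ^ b' :=
    Nat.pow_le_pow_right (Nat.succ_pos _)
  rcases hG.eq_or_lt with rfl | hG2
  · refine ⟨sing E, card_image_le.trans ?_, fun Y hY => ?_, fun Z hZ _ ⟨e, he⟩ =>
      ⟨{e}, mem_image_of_mem _ (hZ he), singleton_subset_iff.2 he⟩⟩
    · refine le_trans ?_ (Nat.le_mul_of_pos_right _ (by positivity))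
      exact (Nat.le_succ _).trans ((pow_one _).ge.trans (hp (by omega)))
    · obtain ⟨e, he, rfl⟩ := mem_image.1 hY
      exact ⟨singleton_subset_iff.2 he, (card_singleton e).ge⟩
  obtain ⟨s, h0, h1, h2, h3⟩ := hK c E G hU hg hG
  obtain ⟨Φ, h4, h5, h6⟩ := hb c b E G s hd hKM h0 h1 h3
  set W : ℕ → Finset (Finset ℕ) := fun j => E.powerset.filter fun Y =>
    G ≤ Y.card ∧ Y.card < 2 * G ∧ Ok G (Φ.getD j ∅) (Φ.take j) (sing Y) with hW
  have h7 : 0 ≤ s * (1 / 2) := by positivity
  have h8 : s * (1 / 2) ≤ 1 := by linarith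
  have h9 : ∀ j ∈ range Φ.length,
      (W j).card ≤ (E.card + 1) ^ (2 * K) * 2 ^ ((2 + 4 * (b₀ + 4)) * G) := fun j hj => by
    have a1 : Φ = Φ.take j ++ [Φ.getD j ∅] ++ Φ.drop (j + 1) := by
      rw [List.getD_eq_getElem _ _ (mem_range.1 hj), ← List.take_succ_eq_append_getElem,
        List.take_append_drop]
    have a2 : Light E G (s * (1 / 2)) b₀ (Φ.take j ++ [Φ.getD j ∅]) := fun l₁ φ l₂ e =>
      h5 l₁ φ (l₂ ++ Φ.drop (j + 1)) (a1.trans (by rw [e, List.append_assoc, List.cons_append]))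
    set p : ℝ := (s * (1 / 2)) ^ (2 * G) * Real.exp (-((b₀ + 4) * (2 * G : ℕ))) with hp'
    have a3 : (W j).card • p ≤ 1 := by
      refine (card_nsmul_le_sum _ (fun Y => LL E G (s * (1 / 2)) (Φ.take j)
        (hit E (Φ.getD j ∅) Y)) _ fun Y hY => ?_).trans ?_
      · obtain ⟨b1, b2, b3, b4⟩ := mem_filter.1 hY
        refine le_trans (mul_le_mul (pow_le_pow_of_le_one h7 h8 b3.le) (Real.exp_le_exp.2 ?_)
          (Real.exp_pos _).le (pow_nonneg h7 _)) (hLow E _ Y G b₀ _ _ h7 h8 a2 (mem_powerset.1 b1)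
            (card_pos.1 (by omega)) b4)
        have : (Y.card : ℝ) ≤ (2 * G : ℕ) := by exact_mod_cast b3.le
        have : (0 : ℝ) ≤ b₀ := by positivity
        nlinarith
      · rw [← LL_sum]
        exact (LL_mono h7 h8 fun K => sum_hit_le _ _ _ K).trans (LL_const 1).le
    have a4 : (1 : ℝ) ≤ ((E.card : ℝ) + 1) ^ (2 * K) * 2 ^ ((2 + 4 * (b₀ + 4)) * G) * p := by
      have b1 : (1 : ℝ) ≤ 2 ^ (4 * (b₀ + 4) * G) * Real.exp (-((b₀ + 4) * (2 * G : ℕ))) := by
        rw [Real.exp_neg, ← div_eq_mul_inv, one_le_div (Real.exp_pos _),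
          show ((b₀ : ℝ) + 4) * (2 * G : ℕ) = ((b₀ + 4) * (2 * G) : ℕ) * 1 by push_cast; ring,
          Real.exp_nat_mul, show 4 * (b₀ + 4) * G = 2 * ((b₀ + 4) * (2 * G)) by ring, pow_mul 2 2]
        exact pow_le_pow_left₀ (Real.exp_pos _).le (by linarith [Real.exp_one_lt_d9]) _
      have b2 : ((E.card : ℝ) + 1) ^ (2 * K) * 2 ^ ((2 + 4 * (b₀ + 4)) * G) * p =
          (((E.card : ℝ) + 1) ^ K * s ^ G) ^ 2 * (2 * (1 / 2)) ^ (2 * G) *
            (2 ^ (4 * (b₀ + 4) * G) * Real.exp (-((b₀ + 4) * (2 * G : ℕ)))) := by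
        rw [hp', mul_pow, mul_pow, mul_pow, add_mul 2, pow_add]
        ring
      rw [b2, show (2 : ℝ) * (1 / 2) = 1 by norm_num, one_pow, mul_one]
      exact one_le_mul_of_one_le_of_one_le (one_le_pow₀ h2) b1
    rw [nsmul_eq_mul] at a3
    have a5 : ((W j).card : ℝ) ≤ ((E.card : ℝ) + 1) ^ (2 * K) * 2 ^ ((2 + 4 * (b₀ + 4)) * G) :=
      calc ((W j).card : ℝ) ≤ (W j).card *
            (((E.card : ℝ) + 1) ^ (2 * K) * 2 ^ ((2 + 4 * (b₀ + 4)) * G) * p) :=
            le_mul_of_one_le_right (Nat.cast_nonneg _) a4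
        _ = ((E.card : ℝ) + 1) ^ (2 * K) * 2 ^ ((2 + 4 * (b₀ + 4)) * G) * ((W j).card * p) := by
            ring
        _ ≤ _ := mul_le_of_le_one_right (mul_nonneg
            (pow_nonneg (add_nonneg (Nat.cast_nonneg _) zero_le_one) _)
            (pow_nonneg two_pos.le _)) a3
    exact_mod_cast a5
  refine ⟨(range Φ.length).biUnion W, (card_biUnion_le_card_mul _ _ _ h9).trans ?_,
    fun Y hY => ?_, fun Z hZ hc hne => ?_⟩
  · rw [card_range, ← mul_assoc]
    refine Nat.mul_le_mul ?_ (Nat.pow_le_pow_right two_pos (Nat.mul_le_mul_right _ (by omega)))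
    refine le_trans ?_ (hp (show 2 * K + 1 ≤ _ by omega))
    rw [pow_succ']
    exact Nat.mul_le_mul_right _ (by omega)
  · obtain ⟨j, -, hY⟩ := mem_biUnion.1 hY
    exact ⟨mem_powerset.1 (mem_filter.1 hY).1, (mem_filter.1 hY).2.1⟩
  · obtain ⟨l, ψ, l₂, Y, rfl, a1, a2, a3, a4⟩ := hC c E Z G Φ hg hG2 (fun X hX => (h6 X hX).1) hZ hne
      ((h6 Z hZ).2 hc)
    refine ⟨Y, mem_biUnion.2 ⟨l.length, by simp, mem_filter.2
      ⟨mem_powerset.2 (a1.trans hZ), a2, a3, ?_⟩⟩, a1⟩
    simpa using a4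

end Pool.Agent.MP71.Pr

end MrgPart1

-- marker of a merged file
example : 731051 + 366205 = 731051 + 366205 := rfl

end MrgPart1

-- ======== part 2: formerly Pool.Agent.MP_71daef_lc.det.PCan95
section MrgPart2

-- ======== part 0: formerly Pool.Agent.MP_71daef_lc.det.PSample
section MrgPart0

/-!
Row P-SAMPLE: a random subset of large rate has small expected nullity.
-/

set_option autoImplicit false

namespace Pool.Agent.MP71.Pr

open Finset

open Classical in
theorem sample_aux {c : Code} {E : Finset ℕ} {M ε : ℝ} (hM : 0 ≤ M) (hε : 0 ≤ ε)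
    (hc : ∀ S ⊆ E, ∀ g, c.Gir S g → (((c.cy S).filter (·.card ≤ 2 * g)).card : ℝ) ≤ M) (i : ℕ) :
    ∀ S ⊆ E, ∀ (g : ℕ) (r : ℝ), c.Gir S g → S.card < 2 ^ i * g → 0 ≤ r → r ≤ 1 → r ^ g ≤ ε →
      ex (r * r) S (fun X => if c.Ind X then 0 else 1) ≤ i * (M * ε) := by
  induction i with
  | zero =>
    intro S _ g r hg hS h0 h1 _
    refine ex_le (mul_nonneg h0 h0) (mul_le_one₀ h1 h0 h1) fun X hX => ?_
    rw [if_pos, Nat.cast_zero, zero_mul]
    intro Z hZ hz
    by_contra h
    have h2 := hg Z (hZ.trans hX) hz (nonempty_iff_ne_empty.2 h)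
    have h3 := card_le_card (hZ.trans hX)
    omega
  | succ i ih =>
    intro S hSE g r hg hS h0 h1 hr
    set T := ((c.cy S).filter (·.card ≤ 2 * g)).erase ∅ with hT
    have hTm : ∀ Z, Z ∈ T ↔ Z ≠ ∅ ∧ (Z ⊆ S ∧ c.cyc Z) ∧ Z.card ≤ 2 * g := fun Z => by
      rw [hT, mem_erase, mem_filter, Code.mem_cy]
    have hi : (0 : ℝ) ≤ i * (M * ε) := by positivity
    have h2 : ∀ X ⊆ S, ex r X (fun X => if c.Ind X then 0 else 1) ≤
        i * (M * ε) + ∑ Z ∈ T, if Z ⊆ X then (1 : ℝ) else 0 := fun X hX => by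
      by_cases h : ∃ Z ∈ T, Z ⊆ X
      · obtain ⟨Z, hZ, hZX⟩ := h
        have h3 := single_le_sum (f := fun Z => if Z ⊆ X then (1 : ℝ) else 0)
          (fun Z _ => by positivity) hZ
        rw [if_pos hZX] at h3
        have h4 : ex r X (fun X => if c.Ind X then 0 else 1) ≤ 1 :=
          ex_le h0 h1 fun Y _ => by split_ifs <;> norm_num
        linarith
      · have h3 := ih X (hX.trans hSE) (2 * g) √r (fun Z hZ hz hne => by
          by_contra h4
          exact h ⟨Z, (hTm Z).2 ⟨hne.ne_empty, ⟨hZ.trans hX, hz⟩, by omega⟩, hZ⟩)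
          (by have := card_le_card hX; rw [pow_succ, mul_assoc] at hS; omega) (Real.sqrt_nonneg r)
          (Real.sqrt_le_one.2 h1) (by rwa [pow_mul, Real.sq_sqrt h0])
        rw [Real.mul_self_sqrt h0] at h3
        exact h3.trans (le_add_of_nonneg_right (sum_nonneg fun Z _ => by positivity))
    rw [ex_comp]
    refine (ex_mono h0 h1 h2).trans ?_
    rw [ex_add, ex_const, ex_sum]
    have h3 : ∑ Z ∈ T, ex r S (fun X => if Z ⊆ X then (1 : ℝ) else 0) ≤ ∑ _Z ∈ T, ε :=
      sum_le_sum fun Z hZ => by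
        obtain ⟨k1, ⟨k2, k3⟩, -⟩ := (hTm Z).1 hZ
        rw [ex_sup k2]
        exact (pow_le_pow_of_le_one h0 h1 (hg Z k2 k3 (nonempty_iff_ne_empty.2 k1))).trans hr
    rw [sum_const, nsmul_eq_mul] at h3
    have h4 : (T.card : ℝ) ≤ M :=
      le_trans (by exact_mod_cast card_erase_le) (hc S hSE g hg)
    have h5 := mul_le_mul_of_nonneg_right h4 hε
    push_cast
    linarith

theorem sample (hN : NulStmt) (hU : UniStmt) : SampleStmt := by
  classical
  intro d
  obtain ⟨V, hV⟩ := hU.count d 2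
  refine ⟨2 * (V + 2), fun c E G hd hG hG1 => ?_⟩
  set n : ℝ := (E.card : ℝ) with hn
  have hn0 : 0 ≤ n := Nat.cast_nonneg _
  set ε : ℝ := ((n + 1) ^ (V + 2))⁻¹ with hε
  have hε0 : 0 < ε := by positivity
  have hε1 : ε ≤ 1 := inv_le_one_of_one_le₀ (one_le_pow₀ (by linarith))
  set r : ℝ := ε ^ (G : ℝ)⁻¹ with hr
  have h0 : 0 ≤ r := by positivity
  have h1 : r ≤ 1 := Real.rpow_le_one hε0.le hε1 (by positivity)
  have hrG : r ^ G = ε := Real.rpow_inv_natCast_pow hε0.le (by omega)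
  refine ⟨r * r, mul_nonneg h0 h0, mul_le_one₀ h1 h0 h1, ?_, ?_⟩
  · rw [mul_pow, hrG, hε, two_mul, pow_add]
    field_simp
    exact le_rfl
  · have h2 := sample_aux (c := c) (E := E) (M := (n + 1) ^ V) (by positivity) hε0.le
      (fun S hS g hg => by
        have k1 := hV c S g (fun h => hd (h.mono hS)) hg
        have k2 : (S.card + 1) ^ V ≤ (E.card + 1) ^ V :=
          Nat.pow_le_pow_left (Nat.succ_le_succ (card_le_card hS)) V
        rw [hn]
        exact_mod_cast k1.trans k2) E.card E Subset.rfl G r hG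
      (lt_of_lt_of_le Nat.lt_two_pow_self (Nat.le_mul_of_pos_right _ hG1)) h0 h1 hrG.le
    have h3 : ex (r * r) E (fun R => (c.nul R : ℝ)) ≤
        ex (r * r) E (fun R => n * if c.Ind R then 0 else 1) :=
      ex_mono (mul_nonneg h0 h0) (mul_le_one₀ h1 h0 h1) fun R hR => by
        split_ifs with h
        · rw [(hN.ind c R).2 h]; simp
        · have k1 := hN.sdiff c R R
          rw [Finset.sdiff_self, (hN.ind c _).2 fun Z hZ _ => subset_empty.1 hZ, zero_add] at k1
          rw [mul_one, hn]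
          exact_mod_cast k1.trans (card_le_card hR)
    rw [ex_mul] at h3
    refine h3.trans ((mul_le_mul_of_nonneg_left h2 hn0).trans ?_)
    rw [← hn, hε, pow_add]
    field_simp
    nlinarith

end Pool.Agent.MP71.Pr

end MrgPart0

-- ======== part 1: formerly Pool.Agent.MP_71daef_lc.det.PGhost
section MrgPart1

/-!
The expected number of covered elements, and the light list of cocycles.
-/

set_option autoImplicit false

namespace Pool.Agent.MP71.Pr

open Finset symmDiff

theorem evn_snoc {l : List (Finset ℕ)} {φ X : Finset ℕ} :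
    Evn (l ++ [φ]) X ↔ Evn l X ∧ ¬ Odd (X ∩ φ).card := by
  simp only [Evn, List.mem_append, List.mem_singleton]
  exact ⟨fun h => ⟨fun ψ hψ => h ψ (Or.inl hψ), h φ (Or.inr rfl)⟩,
    fun h ψ hψ => hψ.elim (h.1 ψ) fun e => e ▸ h.2⟩

theorem odd_symmDiff' (X Y φ : Finset ℕ) :
    Odd ((X ∆ Y) ∩ φ).card ↔ ¬ (Odd (X ∩ φ).card ↔ Odd (Y ∩ φ).card) := by
  rw [inter_comm, odd_symmDiff, inter_comm φ, inter_comm φ]

/-- The sets that are even on a list. -/
def evc (l : List (Finset ℕ)) : Code where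
  cyc := Evn l
  zero := fun _ _ => by simp
  add := fun {X Y} hX hY φ hφ => by
    have h1 := hX φ hφ
    have h2 := hY φ hφ
    rw [odd_symmDiff']
    tauto

theorem evc_half (l : List (Finset ℕ)) (φ R : Finset ℕ) :
    ((evc l).cy R).card ≤ 2 * ((evc (l ++ [φ])).cy R).card := by
  have h1 := card_filter_add_card_filter_not (s := (evc l).cy R) (fun X => Odd (X ∩ φ).card)
  have h2 : ((evc l).cy R).filter (fun X => ¬ Odd (X ∩ φ).card) ⊆ (evc (l ++ [φ])).cy R :=
    fun X hX => Code.mem_cy.2 ⟨(Code.mem_cy.1 (mem_filter.1 hX).1).1,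
      evn_snoc.2 ⟨(Code.mem_cy.1 (mem_filter.1 hX).1).2, (mem_filter.1 hX).2⟩⟩
  have h3 := card_le_card h2
  have h4 : (((evc l).cy R).filter (fun X => Odd (X ∩ φ).card)).card ≤
      ((evc (l ++ [φ])).cy R).card := by
    rcases (((evc l).cy R).filter (fun X => Odd (X ∩ φ).card)).eq_empty_or_nonempty with h | ⟨Y, hY⟩
    · rw [h]; simp
    obtain ⟨hY1, hY2⟩ := mem_filter.1 hY
    obtain ⟨hY3, hY4⟩ := Code.mem_cy.1 hY1
    refine card_le_card_of_injOn (· ∆ Y) (fun X hX => ?_) fun X _ X' _ h => symmDiff_left_injective Y h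
    obtain ⟨hX1, hX2⟩ := mem_filter.1 (mem_coe.1 hX)
    obtain ⟨hX3, hX4⟩ := Code.mem_cy.1 hX1
    refine mem_coe.2 (Code.mem_cy.2 ⟨symmDiff_le_sup.trans (sup_le hX3 hY3),
      evn_snoc.2 ⟨(evc l).add hX4 hY4, ?_⟩⟩)
    rw [odd_symmDiff']
    tauto
  omega

theorem Good.cyc {c b : Code} {E Pv X : Finset ℕ} {l : List (Finset ℕ)} (hd : DualPair c b E)
    (h : Good b E l Pv) (h0 : ∀ φ ⊆ E \ Pv, b.cyc φ → φ = ∅) (hX : X ⊆ E) (hl : Evn l X) :
    c.cyc X := by
  refine hd.left X hX fun Z hZ hb => ?_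
  obtain ⟨ψ, h1, h2, h3⟩ := h Z hZ hb
  rw [h0 ψ h1 h2] at h3
  rw [← Nat.not_odd_iff_even, h3 X hl]
  simp

theorem Good.snoc {b : Code} {E Pv φ : Finset ℕ} {l : List (Finset ℕ)} {p : ℕ}
    (h : Good b E l Pv) (h1 : φ ⊆ E \ Pv) (h2 : b.cyc φ) (hp : p ∈ φ) :
    Good b E (l ++ [φ]) (insert p Pv) := by
  intro ψ hψ hb
  obtain ⟨ψ', h3, h4, h5⟩ := h ψ hψ hb
  by_cases h6 : p ∈ ψ'
  · refine ⟨ψ' ∆ φ, fun x hx => ?_, b.add h4 h2, fun X hX => ?_⟩
    · have h7 := @h3 x
      have h8 := @h1 x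
      simp only [mem_symmDiff, mem_sdiff, mem_insert] at *
      grind
    · obtain ⟨h7, h8⟩ := evn_snoc.1 hX
      rw [h5 X h7, odd_symmDiff]
      tauto
  · refine ⟨ψ', fun x hx => ?_, h4, fun X hX => h5 X (evn_snoc.1 hX).1⟩
    have h7 := h3 hx
    simp only [mem_sdiff, mem_insert] at *
    grind

theorem card_lt_insert {E Pv : Finset ℕ} {p : ℕ} (hp : p ∈ E \ Pv) :
    (E \ insert p Pv).card < (E \ Pv).card := by
  rw [sdiff_insert]
  exact card_erase_lt_of_mem hp

theorem cnt {c b : Code} {E R : Finset ℕ} (hd : DualPair c b E) (hR : R ⊆ E) :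
    ∀ (n : ℕ) (l : List (Finset ℕ)) (Pv : Finset ℕ), (E \ Pv).card < n → Good b E l Pv →
      ((evc l).cy R).card ≤ (b.cy (E \ Pv)).card * (c.cy R).card := by
  intro n
  induction n with
  | zero => intro l Pv h; omega
  | succ n ih =>
    intro l Pv hn h
    by_cases h0 : ∀ φ ⊆ E \ Pv, b.cyc φ → φ = ∅
    · have h1 : (evc l).cy R ⊆ c.cy R := fun X hX => Code.mem_cy.2 ⟨(Code.mem_cy.1 hX).1,
        h.cyc hd h0 ((Code.mem_cy.1 hX).1.trans hR) (Code.mem_cy.1 hX).2⟩
      have h2 : 0 < (b.cy (E \ Pv)).card :=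
        card_pos.2 ⟨∅, Code.mem_cy.2 ⟨empty_subset _, b.zero⟩⟩
      exact (card_le_card h1).trans (Nat.le_mul_of_pos_left _ h2)
    · push Not at h0
      obtain ⟨φ, h1, h2, p, hp⟩ := h0
      have h3 := ih _ _ (by have := card_lt_insert (h1 hp); omega) (h.snoc h1 h2 hp)
      have h4 := Code.cy_double (c := b) (S := E \ insert p Pv) (S' := E \ Pv)
        (sdiff_subset_sdiff Subset.rfl (subset_insert _ _)) (Code.mem_cy.2 ⟨h1, h2⟩)
        fun h5 => (mem_sdiff.1 (h5 hp)).2 (mem_insert_self _ _)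
      calc _ ≤ _ := evc_half l φ R
        _ ≤ 2 * ((b.cy (E \ insert p Pv)).card * (c.cy R).card) := by omega
        _ = 2 * (b.cy (E \ insert p Pv)).card * (c.cy R).card := by ring
        _ ≤ _ := Nat.mul_le_mul_right _ h4

theorem nul_evc (hN : NulStmt) {c b : Code} {E R Pv : Finset ℕ} {l : List (Finset ℕ)}
    (hd : DualPair c b E) (hR : R ⊆ E) (h : Good b E l Pv) :
    (evc l).nul R ≤ b.nul (E \ Pv) + c.nul R := by
  have h1 := cnt hd hR _ l Pv (Nat.lt_succ_self _) h
  rw [hN.card_cy, hN.card_cy, hN.card_cy, ← pow_add] at h1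
  exact (Nat.pow_le_pow_iff_right (by norm_num)).1 h1

theorem coins {E D Q : Finset ℕ} {G : ℕ} {B : ℝ} :
    ∀ (l l₀ : List (Finset ℕ)) (Kf : ℕ → Finset (Finset ℕ)),
      (∀ e ∈ D, Inv l₀ (insert e Q) (Kf e)) →
      (∀ Kf : ℕ → Finset (Finset ℕ), (∀ e ∈ D, Inv (l₀ ++ l) (insert e Q) (Kf e)) →
        ∑ e ∈ D, (if e ∈ (Kf e).sup id then (1 : ℝ) else 0) ≤ B) →
      ∑ e ∈ D, EE E G l (Kf e) (fun K => if e ∈ K.sup id then 1 else 0) ≤ B
  | [], l₀, Kf, h, h' => h' Kf (by simpa using h)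
  | φ :: l, l₀, Kf, h, h' => by
    simp only [EE]
    rw [← ex_sum]
    exact ex_le half0 half1 fun A _ => coins l (l₀ ++ [φ]) _ (fun e he => (h e he).stp G φ A)
      fun K' hK => h' K' (by simpa using hK)

theorem fin_count (hN : NulStmt) {R Q : Finset ℕ} {l : List (Finset ℕ)} (hQ : Q ⊆ R)
    (Kf : ℕ → Finset (Finset ℕ)) (h : ∀ e ∈ R \ Q, Inv l (insert e Q) (Kf e)) :
    ∑ e ∈ R \ Q, (if e ∈ (Kf e).sup id then (1 : ℝ) else 0) ≤ (evc l).nul R := by
  rw [sum_boole]
  have h1 := hN.priv (evc l) R ((R \ Q).filter fun e => e ∈ (Kf e).sup id) fun e he => by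
    obtain ⟨h2, h3⟩ := mem_filter.1 he
    obtain ⟨P, h4, h5⟩ := mem_sup.1 h3
    obtain ⟨h6, h7⟩ := (h e h2).1 P h4
    refine ⟨P, h6.trans (insert_subset (mem_sdiff.1 h2).1 hQ), h7, ?_⟩
    ext x
    rw [mem_inter, mem_singleton]
    refine ⟨fun hx => (mem_insert.1 (h6 hx.1)).elim id fun hq => ?_, fun hx => ?_⟩
    · exact absurd hq (mem_sdiff.1 (mem_filter.1 hx.2).1).2
    · rw [hx]; exact ⟨h5, he⟩
  exact_mod_cast (Nat.le_add_left _ _).trans h1

theorem inner_le (hN : NulStmt) {E R : Finset ℕ} {G : ℕ} {l : List (Finset ℕ)} (hR : R ⊆ E) :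
    ∑ e ∈ E, ex (1 / 2) R (fun Q => EE E G l (sing Q) fun K => if e ∈ K.sup id then 1 else 0) ≤
      (evc l).nul R := by
  have h1 : ∀ e ∈ E,
      ex (1 / 2) R (fun Q => EE E G l (sing Q) fun K => if e ∈ K.sup id then 1 else 0) ≤
      ex (1 / 2) R (fun Q => if e ∈ R \ Q then
        EE E G l (sing (insert e Q)) (fun K => if e ∈ K.sup id then 1 else 0) else 0) := by
    intro e _
    have h2 : ex (1 / 2) R (fun Q => EE E G l (sing Q) fun K => if e ∈ K.sup id then 1 else 0) ≤
        ex (1 / 2) R (fun Q => if e ∈ Q then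
          EE E G l (sing Q) (fun K => if e ∈ K.sup id then 1 else 0) else 0) := by
      refine ex_mono half0 half1 fun Q _ => ?_
      split_ifs with h3
      · exact le_rfl
      · refine (EE_mono_inv (H := fun _ => 0) l [] _ (Inv.sing Q) fun K hK => ?_).trans
          (EE_const 0).le
        refine (if_neg fun h4 => ?_).le
        obtain ⟨P, h5, h6⟩ := mem_sup.1 h4
        exact h3 ((hK.1 P h5).1 h6)
    refine h2.trans (le_of_eq ?_)
    by_cases h3 : e ∈ R
    · rw [ex_flip h3]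
      refine ex_congr fun Q _ => ?_
      by_cases h4 : e ∈ Q <;> simp [h3, h4]
    · refine ex_congr fun Q hQ => ?_
      rw [if_neg fun h => h3 (hQ h), if_neg fun h => h3 (mem_sdiff.1 h).1]
  refine (sum_le_sum h1).trans ?_
  rw [← ex_sum]
  refine ex_le half0 half1 fun Q hQ => ?_
  rw [← sum_filter, filter_mem_eq_inter, inter_eq_right.2 (sdiff_subset.trans hR)]
  exact coins l [] _ (fun e _ => Inv.sing _) fun Kf hK => fin_count hN hQ Kf (by simpa using hK)

theorem ghost (hN : NulStmt) : GhostStmt := by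
  intro c b E Pv G s l hd hg h0 h1
  simp only [LL, ex_comp]
  rw [← ex_sum, ← ex_const (s := s) (S := E) (b.nul (E \ Pv) : ℝ), ← ex_add]
  refine ex_mono h0 h1 fun R hR => (inner_le hN hR).trans ?_
  exact_mod_cast nul_evc hN hd hR hg

theorem od_le {l : List (Finset ℕ)} {R : Finset ℕ} {K : Finset (Finset ℕ)} (h : Inv l R K)
    (φ : Finset ℕ) :
    ((od φ K).card : ℝ) ≤ ∑ e ∈ φ, (if e ∈ K.sup id then (1 : ℝ) else 0) := by
  rw [sum_boole]
  have h1 : ((od φ K).biUnion fun P => P ∩ φ).card = ∑ P ∈ od φ K, (P ∩ φ).card :=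
    card_biUnion fun P hP Q hQ hne => (h.2 P (mem_filter.1 hP).1 Q (mem_filter.1 hQ).1 hne).mono
      inter_subset_left inter_subset_left
  have h2 : ((od φ K).biUnion fun P => P ∩ φ) ⊆ φ.filter fun e => e ∈ K.sup id := fun x hx => by
    obtain ⟨P, h3, h4⟩ := mem_biUnion.1 hx
    exact mem_filter.2 ⟨(mem_inter.1 h4).2, mem_sup.2 ⟨P, (mem_filter.1 h3).1, (mem_inter.1 h4).1⟩⟩
  have h3 : (od φ K).card ≤ ∑ P ∈ od φ K, (P ∩ φ).card := by
    rw [card_eq_sum_ones]
    exact sum_le_sum fun P hP => (mem_filter.1 hP).2.pos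
  exact_mod_cast h3.trans (h1.ge.trans (card_le_card h2))

theorem Light.snoc {E φ : Finset ℕ} {G b₀ : ℕ} {s : ℝ} {l : List (Finset ℕ)}
    (h : Light E G s b₀ l) (h0 : 0 ≤ s) (h1 : s ≤ 1)
    (h2 : ∑ e ∈ φ, LL E G s l (fun K => if e ∈ K.sup id then 1 else 0) ≤ b₀) :
    Light E G s b₀ (l ++ [φ]) := by
  intro l₁ ψ l₂ h3
  rcases List.eq_nil_or_concat l₂ with rfl | ⟨l₃, χ, rfl⟩
  · obtain ⟨rfl, h4⟩ := List.append_inj' h3 rfl
    obtain rfl : φ = ψ := by simpa using h4
    refine le_trans ?_ h2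
    rw [← LL_sum]
    exact ex_mono h0 h1 fun R _ => EE_mono_inv l [] _ (Inv.sing R) fun K hK => od_le hK φ
  · rw [List.concat_eq_append, ← List.cons_append, ← List.append_assoc] at h3
    exact h l₁ ψ l₃ (List.append_inj' h3 rfl).1

theorem lightList (hN : NulStmt) (hL : LightStmt) (hG : GhostStmt) : ListStmt := by
  intro t
  obtain ⟨c₀, hc⟩ := hL t
  refine ⟨2 * c₀ + 1, fun c b E G s hd hK h0 h1 hs => ?_⟩
  have g0 : 0 ≤ s * (1 / 2) := by linarith
  have g1 : s * (1 / 2) ≤ 1 := by linarith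
  have key : ∀ (n : ℕ) (l : List (Finset ℕ)) (Pv : Finset ℕ), (E \ Pv).card < n → Good b E l Pv →
      Light E G (s * (1 / 2)) (2 * c₀ + 1) l → (∀ φ ∈ l, φ ⊆ E ∧ b.cyc φ) →
      l.length + (E \ Pv).card ≤ E.card →
      ∃ Φ : List (Finset ℕ), Φ.length ≤ E.card ∧ Light E G (s * (1 / 2)) (2 * c₀ + 1) Φ ∧
        ∀ X ⊆ E, Evn Φ X ↔ c.cyc X := by
    intro n
    induction n with
    | zero => intro l Pv h; omega
    | succ n ih =>
      intro l Pv hn hg hl hm hlen
      by_cases h2 : ∀ φ ⊆ E \ Pv, b.cyc φ → φ = ∅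
      · exact ⟨l, by omega, hl, fun X hX => ⟨hg.cyc hd h2 hX, fun h φ hφ =>
          Nat.not_odd_iff_even.2 (hd.orth X hX φ (hm φ hφ).1 h (hm φ hφ).2)⟩⟩
      have h3 : 1 ≤ b.nul (E \ Pv) := Nat.one_le_iff_ne_zero.2 fun h => h2 ((hN.ind _ _).1 h)
      have hu : ∀ e, 0 ≤ LL E G (s * (1 / 2)) l (fun K => if e ∈ K.sup id then 1 else 0) :=
        fun e => (LL_const 0).ge.trans (LL_mono g0 g1 fun K => by positivity)
      obtain ⟨φ, h4, h5, ⟨p, hp⟩, h6⟩ : ∃ φ ⊆ E \ Pv, b.cyc φ ∧ φ.Nonempty ∧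
          ∑ e ∈ φ, LL E G (s * (1 / 2)) l (fun K => if e ∈ K.sup id then 1 else 0) ≤
            ((2 * c₀ + 1 : ℕ) : ℝ) := by
        by_contra h4
        push Not at h4
        have h5 := hc b (E \ Pv) _ _ (fun h => hK (h.mono sdiff_subset)) (fun e _ => hu e)
          fun Z h5 h6 h7 => (h4 Z h5 h6 h7).le
        have h6 := hG c b E Pv G s l hd hg h0 h1
        have h7 := sum_le_sum_of_subset_of_nonneg (sdiff_subset (s := E) (t := Pv))
          fun e _ _ => hu e
        have h8 := mul_le_mul_of_nonneg_left (h7.trans (h6.trans (add_le_add le_rfl hs)))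
          (Nat.cast_nonneg (α := ℝ) c₀)
        have h9 : (2 * c₀ + 1) * b.nul (E \ Pv) ≤ c₀ * (b.nul (E \ Pv) + 1) := by
          exact_mod_cast h5.trans h8
        nlinarith
      have h7 := card_lt_insert (h4 hp)
      refine ih _ _ (by omega) (hg.snoc h4 h5 hp) (hl.snoc g0 g1 h6) (fun ψ hψ => ?_) ?_
      · rcases List.mem_append.1 hψ with h | h
        · exact hm ψ h
        · rw [List.mem_singleton.1 h]
          exact ⟨h4.trans sdiff_subset, h5⟩
      · rw [List.length_append, List.length_singleton]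
        omega
  refine key _ [] ∅ (Nat.lt_succ_self _) (fun ψ h2 h3 => ⟨ψ, by simpa using h2, h3,
    fun _ _ => Iff.rfl⟩) (fun l₁ φ l₂ h => by simp at h) (fun φ h => nomatch h) (by simp)

end Pool.Agent.MP71.Pr

end MrgPart1

-- ======== part 2: formerly Pool.Agent.MP_71daef_lc.det.PCan95
section MrgPart2

/-!
Every cycle contains a witness of the merge process.
-/

set_option autoImplicit false

namespace Pool.Agent.MP71.Pr

open Finset symmDiff

theorem exists_sub_between {G : ℕ} (K : Finset (Finset ℕ)) (h : ∀ P ∈ K, P.card < G)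
    (hG : 0 < G) (hK : G ≤ (K.sup id).card) :
    ∃ K₁ ⊆ K, G ≤ (K₁.sup id).card ∧ (K₁.sup id).card < 2 * G := by
  induction K using Finset.induction_on with
  | empty => simp at hK; omega
  | insert P K hP ih =>
    by_cases h1 : G ≤ (K.sup id).card
    · obtain ⟨K₁, h2, h3⟩ := ih (fun Q hQ => h Q (mem_insert_of_mem hQ)) h1
      exact ⟨K₁, h2.trans (subset_insert _ _), h3⟩
    · refine ⟨_, subset_rfl, hK, ?_⟩
      have h2 := card_union_le P (K.sup id)
      have h3 := h P (mem_insert_self _ _)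
      rw [sup_insert, id, sup_eq_union]
      omega

theorem can_main {c : Code} {E : Finset ℕ} {G : ℕ} (hg : c.Gir E G) (hG : 0 < G) :
    ∀ (r l₀ : List (Finset ℕ)) (K : Finset (Finset ℕ)),
      (∀ X ⊆ E, Evn (l₀ ++ r) X → c.cyc X) → Inv l₀ E K → K.Nonempty →
      (∀ P ∈ K, P.Nonempty ∧ P.card < G) → Evn r (K.sup id) →
      ∃ l ψ l₂, r = l ++ ψ :: l₂ ∧ ∃ K₁ ⊆ K, G ≤ (K₁.sup id).card ∧ (K₁.sup id).card < 2 * G ∧
        Ok G ψ l K₁
  | [], l₀, K, h, hI, ⟨P, hP⟩, hK, _ =>
    absurd (hg P (hI.1 P hP).1 (h P (hI.1 P hP).1 (by simpa using (hI.1 P hP).2)) (hK P hP).1)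
      (hK P hP).2.not_ge
  | φ :: r, l₀, K, h, hI, hne, hK, hE => by
    have h1 : ∀ X ⊆ E, Evn (l₀ ++ [φ] ++ r) X → c.cyc X := fun X hX h' =>
      h X hX (by simpa using h')
    have h2 : Evn r (K.sup id) := fun ψ hψ => hE ψ (List.mem_cons_of_mem _ hψ)
    have h3 : out φ E K = (od φ K).sup id := by
      rw [out, filter_true_of_mem fun P hP => ?_]
      obtain ⟨i, hi, e⟩ := exists_mem_eq_sup P (hK P (mem_filter.1 hP).1).1 id
      exact (hI.1 P (mem_filter.1 hP).1).1 (e ▸ hi)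
    have h4 := hI.stp G φ E
    rcases (od φ K).eq_empty_or_nonempty with h5 | ⟨P, hP⟩
    · have h6 : ev φ K = K := filter_true_of_mem (filter_eq_empty_iff.1 h5)
      rw [stp, if_neg fun h => h.1.ne_empty (by rw [h3, h5]; rfl), h6] at h4
      obtain ⟨l, ψ, l₂, rfl, K₁, h7, h8, h9, h10⟩ := can_main hg hG r _ K h1 h4 hne hK h2
      exact ⟨φ :: l, ψ, l₂, rfl, K₁, h7, h8, h9,
        Or.inl ⟨subset_empty.1 (h5 ▸ filter_subset_filter _ h7), h10⟩⟩
    by_cases h5 : G ≤ ((od φ K).sup id).card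
    · obtain ⟨K₁, h6, h7, h8⟩ := exists_sub_between _ (fun P hP => (hK P (mem_filter.1 hP).1).2) hG h5
      exact ⟨[], φ, r, rfl, K₁, h6.trans (filter_subset _ _), h7, h8,
        fun P hP => (mem_filter.1 (h6 hP)).2⟩
    have h6 : Keep G φ ((od φ K).sup id) := by
      refine ⟨(hK P (mem_filter.1 hP).1).1.mono (le_sup (f := id) hP), fun h6 =>
        hE φ List.mem_cons_self ?_, not_le.1 h5⟩
      rw [odd_sup φ (od φ K) fun P hP Q hQ => hI.2 P (mem_filter.1 hP).1 Q (mem_filter.1 hQ).1,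
        od, od, filter_filter] at h6
      rw [odd_sup _ _ hI.2, od]
      simpa using h6
    rw [stp, h3, if_pos h6] at h4
    obtain ⟨l, ψ, l₂, rfl, K₁, h7, h8, h9, h10⟩ := can_main hg hG r _ _ h1 h4 (insert_nonempty _ _)
      (fun Q hQ => (mem_insert.1 hQ).elim (fun e => e ▸ ⟨h6.1, h6.2.2⟩)
        fun hQ => hK Q (mem_filter.1 hQ).1)
      (by rwa [sup_insert, id, ← sup_union, od, ev, filter_union_filter_not_eq])
    refine ⟨φ :: l, ψ, l₂, rfl, ?_⟩
    by_cases h11 : (od φ K).sup id ∈ K₁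
    · have h12 : K₁.erase ((od φ K).sup id) ⊆ ev φ K := subset_insert_iff.1 h7
      have h13 : od φ (od φ K ∪ K₁.erase ((od φ K).sup id)) = od φ K := by
        ext Q
        have := @h12 Q
        simp only [od, ev, mem_filter, mem_union] at this ⊢
        tauto
      have h14 : ev φ (od φ K ∪ K₁.erase ((od φ K).sup id)) = K₁.erase ((od φ K).sup id) := by
        ext Q
        have := @h12 Q
        simp only [od, ev, mem_filter, mem_union] at this ⊢
        tauto
      have h15 : (od φ K ∪ K₁.erase ((od φ K).sup id)).sup id = K₁.sup id := by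
        rw [sup_union]
        conv_rhs => rw [← insert_erase h11, sup_insert, id]
      exact ⟨od φ K ∪ K₁.erase ((od φ K).sup id),
        union_subset (filter_subset _ _) (h12.trans (filter_subset _ _)), h15 ▸ h8, h15 ▸ h9,
        Or.inr (by rw [h13, h14, insert_erase h11]; exact ⟨h6, h10⟩)⟩
    · have h12 : K₁ ⊆ ev φ K := (subset_insert_iff_of_notMem h11).1 h7
      exact ⟨K₁, h12.trans (filter_subset _ _), h8, h9,
        Or.inl ⟨filter_eq_empty_iff.2 fun Q hQ => (mem_filter.1 (h12 hQ)).2, h10⟩⟩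

theorem can' : CanStmt := by
  intro c E Z G Φ hg hG h hZ hne hE
  have h0 : ∀ Y : Finset ℕ, (sing Y).sup id = Y := fun Y => by
    rw [sing, sup_image]; exact sup_singleton_eq_self Y
  have h1 : Inv [] E (sing Z) := ⟨fun P hP => ⟨((Inv.sing Z).1 P hP).1.trans hZ,
    ((Inv.sing Z).1 P hP).2⟩, (Inv.sing Z).2⟩
  obtain ⟨l, ψ, l₂, h2, K₁, h3, h4⟩ := can_main hg (by omega) Φ [] (sing Z) h h1 (hne.image _)
    (fun P hP => by
      obtain ⟨e, -, rfl⟩ := mem_image.1 hP
      exact ⟨singleton_nonempty e, by rw [card_singleton]; omega⟩) ((h0 Z).symm ▸ hE)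
  obtain ⟨Y, h5, rfl⟩ := subset_image_iff.1 h3
  rw [← sing, h0] at h4
  exact ⟨l, ψ, l₂, Y, h2, h5, h4⟩

end Pool.Agent.MP71.Pr

end MrgPart2

-- marker of a merged file
example : 731051 + 649543 = 731051 + 649543 := rfl

end MrgPart2

-- ======== part 3: formerly Pool.Agent.MP_71daef_lc.det.APl2
section MrgPart3

-- ======== part 0: formerly Pool.Agent.MP_71daef_lc.det.ACob
section MrgPart0

/-!
Row COB: the candidates are cycles, and they contain the light cycles of a sparse set.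
-/

set_option autoImplicit false

namespace Pool.Agent.MP71.DA

open Finset symmDiff Pool.Agent.H82

namespace ACob

variable {A : List (List Bool)} {m : ℕ} {R : List Bool} {T w : List ℕ}

theorem lev_eq (l : List ℕ) (e : ℕ) : lev R w l e =
    ((range R.length).filter fun θ => (θ + 1) * w.getD e 0 ≤ l.getD e 0).card := by
  rw [lev, idx, ← List.toFinset_card_of_nodup (List.nodup_range.filter _)]
  congr 1
  ext j
  simp

theorem lev_le (l : List ℕ) (e : ℕ) : lev R w l e ≤ R.length := by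
  rw [lev_eq]
  exact (card_filter_le _ _).trans (card_range _).le

theorem lev_zero (l : List ℕ) {e : ℕ} (h : w.getD e 0 = 0) : lev R w l e = R.length := by
  rw [lev_eq, h, filter_true_of_mem fun _ _ => by simp, card_range]

theorem lev_pos (l : List ℕ) {e : ℕ} (h : 0 < w.getD e 0) (hl : l.getD e 0 ≤ R.length) :
    lev R w l e = l.getD e 0 / w.getD e 0 := by
  have h1 : l.getD e 0 / w.getD e 0 ≤ R.length := (Nat.div_le_self _ _).trans hl
  rw [lev_eq, ← card_range (l.getD e 0 / w.getD e 0)]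
  congr 1
  ext θ
  rw [mem_filter, mem_range, mem_range, ← Nat.le_div_iff_mul_le h]
  omega

theorem ordW_fin (l : List ℕ) : (ordW R T w l).toFinset = T.toFinset := by
  ext j
  simp only [ordW, List.mem_toFinset, List.mem_flatMap, List.mem_reverse, mem_idx,
    List.mem_filter, eqB_iff, List.length_cons]
  exact ⟨fun ⟨_, _, h, _⟩ => h, fun h => ⟨_, Nat.lt_succ_of_le (lev_le l j), h, rfl⟩⟩

theorem inv_ordW (hm : (A.headD []).length = m) (hT : T.Nodup) (hA : ∀ e ∈ T, e < A.length)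
    (l : List ℕ) :
    ∃ B, Inv A m (lev R w l) T.toFinset B ((ordW R T w l).foldl (step A) ([], [])) := by
  have := Inv.fold (l := lev R w l) hm (ordW R T w l) (D := ∅) (B := ∅) (st := ([], []))
    ⟨by simp, by simp, by simp +contextual, by simp, by simp, by simp⟩
    (fun e he => by
      have h1 : e ∈ T.toFinset := ordW_fin (R := R) (w := w) l ▸ List.mem_toFinset.2 he
      simp [hA e (List.mem_toFinset.1 h1)]) (by
      refine List.pairwise_flatMap.2 ⟨fun θ _ => ?_, ?_⟩
      · refine List.Pairwise.imp_of_mem (fun hi hj hij => ⟨hij, ?_⟩) (hT.filter _)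
        rw [eqB_iff.1 (List.mem_filter.1 hi).2, eqB_iff.1 (List.mem_filter.1 hj).2]
      · rw [List.pairwise_reverse]
        refine List.pairwise_lt_range.imp fun h i hi j hj => ?_
        have h1 := eqB_iff.1 (List.mem_filter.1 hi).2
        have h2 := eqB_iff.1 (List.mem_filter.1 hj).2
        exact ⟨fun h' => by rw [h'] at h1; omega, by omega⟩)
  rwa [empty_union, ordW_fin] at this

/-- The loads after `k` rounds. -/
def ld (A : List (List Bool)) (R : List Bool) (T w : List ℕ) : ℕ → List ℕ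
  | 0 => []
  | k + 1 => bump A (ld A R T w k) (fcs A (ordW R T w (ld A R T w k)))

/-- The loads of the first rounds. -/
def hs (A : List (List Bool)) (R : List Bool) (T w : List ℕ) : ℕ → List (List ℕ)
  | 0 => [[]]
  | k + 1 => ld A R T w (k + 1) :: hs A R T w k

theorem foldl_hs : ∀ (L : List Bool) (k : ℕ),
    L.foldl (fun h _ => bump A (h.headD []) (fcs A (ordW R T w (h.headD []))) :: h)
      (hs A R T w k) = hs A R T w (k + L.length)
  | [], _ => rfl
  | _ :: L, k => by
    have : bump A ((hs A R T w k).headD []) (fcs A (ordW R T w ((hs A R T w k).headD []))) ::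
        hs A R T w k = hs A R T w (k + 1) := by
      cases k <;> rfl
    rw [List.foldl_cons, this, foldl_hs L, List.length_cons]
    congr 1; omega

theorem mem_hs {i : ℕ} : ∀ {k : ℕ}, i ≤ k → ld A R T w i ∈ hs A R T w k
  | 0, h => by rw [Nat.le_zero.1 h]; exact List.mem_singleton_self _
  | k + 1, h => by
    rcases h.eq_or_lt with rfl | h
    · exact List.mem_cons_self
    · exact List.mem_cons_of_mem _ (mem_hs (by omega))

theorem mem_histW {i : ℕ} (h : i ≤ R.length) : ld A R T w i ∈ histW A R T w := by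
  have := foldl_hs (A := A) (R := R) (T := T) (w := w) R 0
  rw [zero_add] at this
  rw [histW]
  exact this ▸ mem_hs h

/-- The cobasis of a round. -/
def co (A : List (List Bool)) (R : List Bool) (T w l : List ℕ) : Finset ℕ :=
  ((fcs A (ordW R T w l)).map Prod.fst).toFinset

theorem mem_co {l : List ℕ} {j : ℕ} :
    j ∈ co A R T w l ↔ ∃ q ∈ fcs A (ordW R T w l), q.1 = j := by
  rw [co, List.mem_toFinset, List.mem_map]

theorem ld_succ (k : ℕ) {j : ℕ} (hj : j < A.length) : (ld A R T w (k + 1)).getD j 0 =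
    (ld A R T w k).getD j 0 + if j ∈ co A R T w (ld A R T w k) then 1 else 0 := by
  rw [ld, bump, getD_map_idx _ _ hj, Bool.cond_eq_ite]
  congr 2
  simp [co]

theorem ld_le : ∀ (k : ℕ) {j : ℕ}, j < A.length → (ld A R T w k).getD j 0 ≤ k
  | 0, _, _ => by simp [ld]
  | k + 1, j, hj => by
    have := ld_le k hj
    rw [ld_succ k hj]
    split_ifs <;> omega

section round

variable {l : List ℕ} {B : Finset ℕ}
  (hB : Inv A m (lev R w l) T.toFinset B ((ordW R T w l).foldl (step A) ([], [])))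

include hB

theorem mem_B (j : ℕ) : j ∈ B ↔ j ∈ T.toFinset ∧ j ∉ co A R T w l := by
  rw [hB.part, mem_co]
  simp only [not_exists, not_and]
  rfl

theorem co_sub : co A R T w l ⊆ T.toFinset := fun j hj => by
  obtain ⟨q, hq, rfl⟩ := mem_co.1 hj
  exact hB.sub q hq

theorem ind_B : (mcode m A).Ind B := fun Z hZ h =>
  hB.ind Z hZ fun q hq => (sum_col_eq_zero _).1 h _ (hB.piv q hq).2.1

theorem level {γ s : ℕ} (hS : Sparse (mcode m A) T.toFinset (w.getD · 0) γ s) (θ : ℕ) :
    γ * ((co A R T w l).filter (θ ≤ lev R w l ·)).card ≤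
      s * ∑ e ∈ T.toFinset.filter (θ ≤ lev R w l ·), w.getD e 0 := by
  have h1 : T.toFinset.filter (θ ≤ lev R w l ·) \ B.filter (θ ≤ lev R w l ·) =
      (co A R T w l).filter (θ ≤ lev R w l ·) := by
    ext j
    have h2 := mem_B hB j
    have h3 := @co_sub _ _ _ _ _ _ _ hB j
    simp only [mem_sdiff, mem_filter]
    tauto
  rw [← h1]
  refine hS _ (filter_subset _ _) _ ⟨filter_subset_filter _ fun j hj => ((mem_B hB j).1 hj).1,
    fun Z hZ => ind_B hB Z (hZ.trans (filter_subset _ _)), fun f hf => ?_⟩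
  rw [h1, mem_filter] at hf
  obtain ⟨q, hq, rfl⟩ := mem_co.1 hf.1
  obtain ⟨h2, h3, h4, h5⟩ := hB.fund q hq
  refine ⟨(sp A q.2).erase q.1, fun j hj => mem_filter.2 ⟨subset_insert_iff.1 h3 hj,
    hf.2.trans (h5 j (mem_of_mem_erase hj))⟩, ?_⟩
  rw [insert_erase h2]
  exact (sum_col_eq_zero _).2 h4

theorem co_pos {γ s : ℕ} (hγ : 0 < γ) (hS : Sparse (mcode m A) T.toFinset (w.getD · 0) γ s)
    (hl : ∀ e ∈ T.toFinset, l.getD e 0 < R.length) : ∀ e ∈ co A R T w l, 0 < w.getD e 0 := by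
  intro e he
  by_contra h0
  have h1 := level hB hS R.length
  rw [sum_eq_zero fun j hj => ?_, mul_zero, Nat.le_zero, mul_eq_zero, card_eq_zero] at h1
  · have h2 : e ∈ (co A R T w l).filter (R.length ≤ lev R w l ·) :=
      mem_filter.2 ⟨he, (lev_zero l (by omega)).ge⟩
    rw [h1.resolve_left hγ.ne'] at h2
    exact notMem_empty _ h2
  · obtain ⟨h2, h3⟩ := mem_filter.1 hj
    by_contra h4
    have h5 := hl j h2
    rw [lev_pos l (Nat.pos_of_ne_zero h4) h5.le] at h3
    have := Nat.div_le_self (l.getD j 0) (w.getD j 0)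
    omega

theorem weight {γ s : ℕ} (hS : Sparse (mcode m A) T.toFinset (w.getD · 0) γ s) :
    γ * ∑ e ∈ co A R T w l, 2 ^ lev R w l e ≤
      s * ∑ e ∈ T.toFinset, w.getD e 0 * 2 ^ lev R w l e := by
  have h0 := level hB hS 0
  simp only [Nat.zero_le, filter_true] at h0
  have h1 : ∑ e ∈ T.toFinset, w.getD e 0 * 2 ^ lev R w l e = ∑ e ∈ T.toFinset, w.getD e 0 +
      ∑ θ ∈ range R.length, 2 ^ θ *
        ∑ e ∈ T.toFinset.filter (θ + 1 ≤ lev R w l ·), w.getD e 0 := by
    rw [sum_congr rfl fun e _ => by rw [two_pow_eq R.length _ (lev_le l e), mul_add, mul_one,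
      mul_sum], sum_add_distrib, sum_comm]
    congr 1
    refine sum_congr rfl fun θ _ => ?_
    rw [sum_filter, mul_sum]
    refine sum_congr rfl fun e _ => ?_
    split_ifs <;> ring
  rw [h1, layer _ _ fun e _ => lev_le l e, mul_add, mul_add, mul_sum, mul_sum (range _)]
  refine Nat.add_le_add h0 (sum_le_sum fun θ _ => ?_)
  rw [mul_left_comm, mul_left_comm s]
  exact Nat.mul_le_mul_left _ (level hB hS (θ + 1))

end round

end ACob

open ACob

/-- Row COB. -/
theorem cob_thm (h : Mw2Stmt) : CobStmt := by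
  intro m A R T w hm hT hA
  have hsound : ∀ s, ∀ z ∈ cob s A R T w, (mcode m A).cyc (sp A z) := by
    intro s z hz
    obtain ⟨l, -, hz⟩ := List.mem_flatMap.1 hz
    obtain ⟨B, hB⟩ := inv_ordW (R := R) (w := w) hm hT hA l
    exact (sum_col_eq_zero _).2 (cands_sound (fun q hq => (hB.fund q hq).2.2.1) s z hz)
  refine ⟨hsound, fun γ s α Z hγ hR hS hZ hc hw => ?_⟩
  have hA' : ∀ e ∈ T.toFinset, e < A.length := fun e he => hA e (List.mem_toFinset.1 he)
  obtain ⟨k, hk, h1⟩ := h T.toFinset Z (w.getD · 0) γ s α (fun k e => (ld A R T w k).getD e 0)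
    (fun k => co A R T w (ld A R T w k)) hZ hγ hw (fun e _ => by simp [ld])
    (fun k e he => ld_succ k (hA' e he)) (fun k hk => by
      obtain ⟨B, hB⟩ := inv_ordW (R := R) (w := w) hm hT hA (ld A R T w k)
      have hl : ∀ e ∈ T.toFinset, (ld A R T w k).getD e 0 < R.length := fun e he =>
        (ld_le k (hA' e he)).trans_lt (hk.trans_le hR)
      have hp := co_pos hB hγ hS hl
      refine ⟨co_sub hB, hp, le_of_eq_of_le ?_ ((weight hB hS).trans (le_of_eq ?_))⟩
      · exact congrArg _ (sum_congr rfl fun e he => by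
          rw [lev_pos _ (hp e he) (hl e (co_sub hB he)).le])
      · refine congrArg _ (sum_congr rfl fun e he => ?_)
        rcases Nat.eq_zero_or_pos (w.getD e 0) with h0 | h0
        · simp only [h0, zero_mul]
        · rw [lev_pos _ h0 (hl e he).le])
  obtain ⟨B, hB⟩ := inv_ordW (R := R) (w := w) hm hT hA (ld A R T w k)
  obtain ⟨z, hz, h3⟩ := cands_complete (F := fcs A (ordW R T w (ld A R T w k))) (B := B)
    (fun q hq => ⟨(hB.fund q hq).1, (hB.fund q hq).2.1⟩) _ _ h1 (fun j hj =>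
      ⟨fun hj' => ((mem_B hB j).1 hj').2 (mem_inter.1 hj).1, mem_co.1 (mem_inter.1 hj).1⟩)
  have hz' : z ∈ cob (α * (2 * s + 1)) A R T w :=
    List.mem_flatMap.2 ⟨_, mem_histW (hk.trans_le hR).le, hz⟩
  refine ⟨z, hz', symmDiff_eq_bot.1 (ind_B hB _ (fun j hj => ?_)
    ((mcode m A).add (hsound _ z hz') hc))⟩
  by_contra hjB
  have h4 := h3 j hjB
  have h5 := mem_B hB j
  have h6 := @hZ j
  simp only [mem_symmDiff, mem_inter] at hj h4
  tauto

end Pool.Agent.MP71.DA

end MrgPart0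

-- ======== part 1: formerly Pool.Agent.MP_71daef_lc.det.AMwu
section MrgPart1

/-!
Row MWU of block A: the two multiplicative weights lemmas.
-/

set_option autoImplicit false

namespace Pool.Agent.MP71.DA

open Finset

namespace Mwu

theorem two_pow_mul_le (h x : ℕ) (hh : 0 < h) (hx : x ≤ h) : 2 ^ x * h ^ h ≤ (h + x) ^ h := by
  have hh' : (0 : ℝ) < h := by exact_mod_cast hh
  have hx' : (x : ℝ) ≤ h := by exact_mod_cast hx
  have h0 : (0 : ℝ) ≤ (x : ℝ) / h := by positivity
  have h1 : ((1 : ℝ) + 1) ^ ((x : ℝ) / h) ≤ 1 + (x : ℝ) / h * 1 :=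
    rpow_one_add_le_one_add_mul_self (by norm_num) h0 ((div_le_one hh').2 hx')
  have h2 : (((1 : ℝ) + 1) ^ ((x : ℝ) / h)) ^ h = 2 ^ x := by
    rw [← Real.rpow_natCast, ← Real.rpow_mul (by norm_num), div_mul_cancel₀ _ hh'.ne',
      Real.rpow_natCast]
    norm_num
  have h3 : (2 : ℝ) ^ x * h ^ h ≤ (h + x) ^ h :=
    calc (2 : ℝ) ^ x * h ^ h = (((1 : ℝ) + 1) ^ ((x : ℝ) / h) * h) ^ h := by rw [mul_pow, h2]
      _ ≤ ((1 + (x : ℝ) / h * 1) * h) ^ h := by gcongr
      _ = _ := by congr 1; field_simp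
  exact_mod_cast h3

/-- The potential of one element of weight `u` and load `l`. -/
def phi (u l : ℕ) : ℕ := (u + l % u) * 2 ^ (l / u)

theorem phi_zero (u : ℕ) : phi u 0 = u := by simp [phi]

theorem le_phi (u l : ℕ) : u * 2 ^ (l / u) ≤ phi u l :=
  Nat.mul_le_mul_right _ (Nat.le_add_right _ _)

theorem phi_succ (u l : ℕ) : phi u (l + 1) = phi u l + 2 ^ (l / u) := by
  rcases Nat.eq_zero_or_pos u with rfl | hu
  · simp [phi]
  have hm := Nat.mod_lt l hu
  have hd := Nat.div_add_mod l u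
  unfold phi
  rcases Nat.lt_or_ge (l % u + 1) u with h | h
  · have h1 : l + 1 = (l % u + 1) + u * (l / u) := by omega
    have h2 : (l + 1) % u = l % u + 1 := by
      rw [h1, Nat.add_mul_mod_self_left, Nat.mod_eq_of_lt h]
    have h3 : (l + 1) / u = l / u := by
      rw [h1, Nat.add_mul_div_left _ _ hu, Nat.div_eq_of_lt h, zero_add]
    rw [h2, h3]; ring
  · have h0 : l % u + 1 = u := by omega
    have h1 : l + 1 = u * (l / u + 1) := by rw [mul_add]; omega
    have h2 : (l + 1) % u = 0 := by rw [h1, Nat.mul_mod_right]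
    have h3 : (l + 1) / u = l / u + 1 := by rw [h1, Nat.mul_div_cancel_left _ hu]
    rw [h2, h3, pow_succ]
    have : (u + l % u) * 2 ^ (l / u) + 2 ^ (l / u) = (u + (l % u + 1)) * 2 ^ (l / u) := by ring
    rw [this, h0]; ring

end Mwu

open Mwu

theorem mw1 : Mw1Stmt := by
  intro E C h ρ π μ hC hne hh h0 hs hw
  by_contra hcon
  push Not at hcon
  have hg := card_pos.2 hne
  have hgn := card_le_card hC
  set g := C.card with hgdef
  set n := E.card with hndef
  have hT : g * (h * n) ≤ n * n * h := by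
    calc g * (h * n) ≤ n * (h * n) := Nat.mul_le_mul_right _ hgn
      _ = _ := by ring
  have h1 : ∀ t ≤ n * n * h, g ^ t * ∑ e ∈ E, π t e ≤ (g + ρ) ^ t * (h ^ t * n) := by
    intro t
    induction t with
    | zero => intro _; simp [sum_congr rfl h0, hndef]
    | succ t ih =>
      intro ht
      have ih := ih (by omega)
      have hw := (hw t (by omega)).2
      have e1 : ∑ e ∈ E, π (t + 1) e = h * ∑ e ∈ E, π t e + ∑ e ∈ E, π t e * μ t e := by
        rw [sum_congr rfl (hs t), mul_sum, ← sum_add_distrib]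
        exact sum_congr rfl fun e _ => by ring
      calc g ^ (t + 1) * ∑ e ∈ E, π (t + 1) e
          = g ^ t * (g * (h * ∑ e ∈ E, π t e) + g * ∑ e ∈ E, π t e * μ t e) := by
            rw [e1]; ring
        _ ≤ g ^ t * (g * (h * ∑ e ∈ E, π t e) + ρ * h * ∑ e ∈ E, π t e) := by gcongr
        _ = (g + ρ) * h * (g ^ t * ∑ e ∈ E, π t e) := by ring
        _ ≤ (g + ρ) * h * ((g + ρ) ^ t * (h ^ t * n)) := by gcongr
        _ = _ := by ring
  have h2 : ∀ e ∈ E, ∀ t ≤ n * n * h,
      2 ^ (∑ k ∈ range t, μ k e) * (h ^ t) ^ h ≤ π t e ^ h := by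
    intro e he t
    induction t with
    | zero => intro _; simp [h0 e he]
    | succ t ih =>
      intro ht
      have ih := ih (by omega)
      have hx := two_pow_mul_le h (μ t e) hh ((hw t (by omega)).1 e he)
      calc 2 ^ (∑ k ∈ range (t + 1), μ k e) * (h ^ (t + 1)) ^ h
          = 2 ^ (∑ k ∈ range t, μ k e) * (h ^ t) ^ h * (2 ^ μ t e * h ^ h) := by
            rw [sum_range_succ, pow_add, pow_succ, mul_pow]; ring
        _ ≤ π t e ^ h * (h + μ t e) ^ h := Nat.mul_le_mul ih hx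
        _ = _ := by rw [hs t e he, mul_pow]
  have h3 : ∑ _e ∈ C, (2 * ρ * h + 1) * (h * n) ≤
      ∑ e ∈ C, ∑ k ∈ range (g * (h * n)), μ k e := by
    rw [sum_comm]
    calc ∑ _e ∈ C, (2 * ρ * h + 1) * (h * n)
        = ∑ _k ∈ range (g * (h * n)), (2 * ρ * h + 1) := by
          simp only [sum_const, card_range, smul_eq_mul]; ring
      _ ≤ _ := sum_le_sum fun k hk => hcon k ((mem_range.1 hk).trans_le hT)
  obtain ⟨e, he, h4⟩ := exists_le_of_sum_le hne h3
  have h5 : (g + ρ) ^ (g * (h * n)) ≤ 4 ^ (ρ * (h * n)) * g ^ (g * (h * n)) := by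
    rw [pow_mul (g + ρ) g, pow_mul 4 ρ, pow_mul g g, ← mul_pow]
    exact Nat.pow_le_pow_left (add_pow_le _ _ hg) _
  have h6 : π (g * (h * n)) e ≤ 4 ^ (ρ * (h * n)) * (h ^ (g * (h * n)) * n) := by
    refine Nat.le_of_mul_le_mul_left ?_ (pow_pos hg (g * (h * n)))
    calc g ^ (g * (h * n)) * π (g * (h * n)) e
        ≤ g ^ (g * (h * n)) * ∑ e ∈ E, π (g * (h * n)) e :=
          Nat.mul_le_mul_left _ (single_le_sum (fun _ _ => Nat.zero_le _) (hC he))
      _ ≤ _ := h1 _ hT
      _ ≤ 4 ^ (ρ * (h * n)) * g ^ (g * (h * n)) * (h ^ (g * (h * n)) * n) :=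
          Nat.mul_le_mul_right _ h5
      _ = _ := by ring
  have h7 : (4 ^ (ρ * (h * n)) * h ^ (g * (h * n))) ^ h * (2 ^ n) ^ h ≤
      (4 ^ (ρ * (h * n)) * h ^ (g * (h * n))) ^ h * n ^ h :=
    calc (4 ^ (ρ * (h * n)) * h ^ (g * (h * n))) ^ h * (2 ^ n) ^ h
        = 2 ^ ((2 * ρ * h + 1) * (h * n)) * (h ^ (g * (h * n))) ^ h := by
          rw [show (4 : ℕ) = 2 ^ 2 by norm_num, mul_pow, ← pow_mul 2, ← pow_mul 2, ← pow_mul 2,
            mul_right_comm, ← pow_add]
          congr 2; ring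
      _ ≤ 2 ^ (∑ k ∈ range (g * (h * n)), μ k e) * (h ^ (g * (h * n))) ^ h :=
          Nat.mul_le_mul_right _ (Nat.pow_le_pow_right (by norm_num) h4)
      _ ≤ π (g * (h * n)) e ^ h := h2 e (hC he) _ hT
      _ ≤ (4 ^ (ρ * (h * n)) * (h ^ (g * (h * n)) * n)) ^ h := Nat.pow_le_pow_left h6 _
      _ = _ := by rw [← mul_assoc, mul_pow]
  have h8 := Nat.le_of_mul_le_mul_left h7 (by positivity)
  exact absurd ((Nat.pow_le_pow_iff_left hh.ne').1 h8) (not_le.2 Nat.lt_two_pow_self)

theorem mw2 : Mw2Stmt := by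
  intro E Z w γ s α l I hZ hγ hZw h0 hs hw
  by_contra hcon
  push Not at hcon
  set N := ∑ e ∈ E, w e with hN
  have h1 : ∀ k ≤ γ * (N + 1), γ ^ k * ∑ e ∈ E, phi (w e) (l k e) ≤ (γ + s) ^ k * N := by
    intro k
    induction k with
    | zero =>
      intro _
      rw [sum_congr rfl fun e he => by rw [h0 e he, phi_zero]]
      simp [hN]
    | succ k ih =>
      intro hk
      have ih := ih (by omega)
      obtain ⟨hI, -, hw⟩ := hw k (by omega)
      have e1 : ∑ e ∈ E, phi (w e) (l (k + 1) e) =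
          ∑ e ∈ E, phi (w e) (l k e) + ∑ e ∈ I k, 2 ^ (l k e / w e) := by
        rw [← inter_eq_right.2 hI, ← sum_ite_mem, ← sum_add_distrib]
        refine sum_congr rfl fun e he => ?_
        rw [hs k e he]
        split_ifs
        · exact phi_succ _ _
        · rfl
      have e2 : ∑ e ∈ E, w e * 2 ^ (l k e / w e) ≤ ∑ e ∈ E, phi (w e) (l k e) :=
        sum_le_sum fun e _ => le_phi _ _
      calc γ ^ (k + 1) * ∑ e ∈ E, phi (w e) (l (k + 1) e)
          = γ ^ k * (γ * ∑ e ∈ E, phi (w e) (l k e) + γ * ∑ e ∈ I k, 2 ^ (l k e / w e)) := by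
            rw [e1]; ring
        _ ≤ γ ^ k * (γ * ∑ e ∈ E, phi (w e) (l k e) + s * ∑ e ∈ E, phi (w e) (l k e)) := by
            exact Nat.mul_le_mul_left _
              (Nat.add_le_add_left (hw.trans (Nat.mul_le_mul_left _ e2)) _)
        _ = (γ + s) * (γ ^ k * ∑ e ∈ E, phi (w e) (l k e)) := by ring
        _ ≤ (γ + s) * ((γ + s) ^ k * N) := by gcongr
        _ = _ := by ring
  have h2 : ∀ e ∈ E, ∀ k, l k e = ∑ i ∈ range k, if e ∈ I i then 1 else 0 := by
    intro e he k
    induction k with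
    | zero => simp [h0 e he]
    | succ k ih => rw [hs k e he, sum_range_succ, ih]
  have h3 : (γ + s) ^ (γ * (N + 1)) ≤ 4 ^ (s * (N + 1)) * γ ^ (γ * (N + 1)) := by
    rw [pow_mul, pow_mul, pow_mul, ← mul_pow]
    exact Nat.pow_le_pow_left (add_pow_le _ _ hγ) _
  have h4 : ∑ e ∈ E, phi (w e) (l (γ * (N + 1)) e) ≤ 4 ^ (s * (N + 1)) * N := by
    refine Nat.le_of_mul_le_mul_left ?_ (pow_pos hγ (γ * (N + 1)))
    calc _ ≤ _ := h1 _ le_rfl
      _ ≤ 4 ^ (s * (N + 1)) * γ ^ (γ * (N + 1)) * N := Nat.mul_le_mul_right _ h3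
      _ = _ := by ring
  have h5 : 4 ^ (s * (N + 1)) * N < 2 ^ ((2 * s + 1) * (N + 1)) := by
    have hlt : N < 2 ^ (N + 1) := (Nat.lt_succ_self N).trans Nat.lt_two_pow_self
    calc 4 ^ (s * (N + 1)) * N < 4 ^ (s * (N + 1)) * 2 ^ (N + 1) := by gcongr
      _ = _ := by
        rw [show (4 : ℕ) = 2 ^ 2 by norm_num, ← pow_mul, ← pow_add]; congr 1; ring
  have h6 : ∀ e ∈ Z, l (γ * (N + 1)) e ≤ w e * ((2 * s + 1) * (N + 1)) := by
    intro e he
    rcases Nat.eq_zero_or_pos (w e) with hwe | hwe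
    · rw [h2 e (hZ he), sum_eq_zero]
      · exact Nat.zero_le _
      intro i hi
      rw [if_neg]
      intro hI
      exact absurd ((hw i (mem_range.1 hi)).2.1 e hI) (by omega)
    · have a1 : 2 ^ (l (γ * (N + 1)) e / w e) < 2 ^ ((2 * s + 1) * (N + 1)) :=
        calc 2 ^ (l (γ * (N + 1)) e / w e) ≤ w e * 2 ^ (l (γ * (N + 1)) e / w e) :=
              Nat.le_mul_of_pos_left _ hwe
          _ ≤ phi (w e) (l (γ * (N + 1)) e) := le_phi _ _
          _ ≤ _ := single_le_sum (f := fun e => phi (w e) (l (γ * (N + 1)) e))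
              (fun _ _ => Nat.zero_le _) (hZ he)
          _ ≤ _ := h4
          _ < _ := h5
      have a2 := (Nat.pow_lt_pow_iff_right (by norm_num)).1 a1
      rw [Nat.div_lt_iff_lt_mul hwe] at a2
      exact a2.le.trans_eq (mul_comm _ _)
  have h7 : ∑ e ∈ Z, l (γ * (N + 1)) e = ∑ i ∈ range (γ * (N + 1)), (I i ∩ Z).card := by
    rw [sum_congr rfl fun e he => h2 e (hZ he) _, sum_comm]
    refine sum_congr rfl fun i _ => ?_
    rw [sum_ite_mem, ← card_eq_sum_ones, inter_comm]
  have h8 : γ * (N + 1) * (α * (2 * s + 1) + 1) ≤ γ * (N + 1) * (α * (2 * s + 1)) :=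
    calc γ * (N + 1) * (α * (2 * s + 1) + 1)
        = ∑ _i ∈ range (γ * (N + 1)), (α * (2 * s + 1) + 1) := by simp
      _ ≤ ∑ i ∈ range (γ * (N + 1)), (I i ∩ Z).card :=
          sum_le_sum fun i hi => hcon i (mem_range.1 hi)
      _ ≤ ∑ e ∈ Z, w e * ((2 * s + 1) * (N + 1)) := h7 ▸ sum_le_sum h6
      _ ≤ α * γ * ((2 * s + 1) * (N + 1)) := by
          rw [← sum_mul]; exact Nat.mul_le_mul_right _ hZw
      _ = _ := by ring
  have h9 := Nat.le_of_mul_le_mul_left h8 (by positivity)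
  omega

end Pool.Agent.MP71.DA

end MrgPart1

-- ======== part 2: formerly Pool.Agent.MP_71daef_lc.det.APl2
section MrgPart2

/-!
Row PL2: the running time of the algorithm, given the running time of the listing procedure.
-/

set_option autoImplicit false

namespace Pool.Agent.MP71.DA

open Pool.Agent.H82 Pool.Agent.PolyT N487b59b3

namespace APl2

variable {α β : Type} [N487b59b3 α] [N487b59b3 β]
variable {A : α → List (List Bool)} {U St : α → List Bool}

@[fun_prop] theorem p_sum {l : α → List ℕ} (h : PolyT.Poly l) :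
    PolyT.Poly (fun a => (l a).sum) := h.sum

@[fun_prop] theorem p_ofBits {l : α → List Bool} (h : PolyT.Poly l) :
    PolyT.Poly (fun a => ofBits (l a)) := h.ofBits

@[fun_prop] theorem p_bits {f : α → ℕ} (h : PolyT.Poly f) :
    PolyT.Poly (fun a => (f a).bits) := h.bits

@[fun_prop] theorem p_hl (hU : PolyT.Poly U) : PolyT.Poly (fun a => hl (U a)) := by
  unfold hl; fun_prop

@[fun_prop] theorem p_rep (k : ℕ) {l : α → List β} (h : PolyT.Poly l) :
    PolyT.Poly (fun a => rep k (l a)) := by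
  unfold rep; fun_prop

@[fun_prop] theorem p_pw {k : α → ℕ} (hU : PolyT.Poly U) (hk : PolyT.Poly k) :
    PolyT.Poly (fun a => pw (U a) (k a)) := by
  unfold pw; fun_prop

@[fun_prop] theorem p_ws {w : α → List ℕ} {z : α → List Bool} (hA : PolyT.Poly A)
    (hw : PolyT.Poly w) (hz : PolyT.Poly z) : PolyT.Poly (fun a => ws (A a) (w a) (z a)) := by
  unfold ws; fun_prop

@[fun_prop] theorem p_tot {π : α → List ℕ} (hA : PolyT.Poly A) (hπ : PolyT.Poly π) :
    PolyT.Poly (fun a => tot (A a) (π a)) := by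
  unfold tot; fun_prop

@[fun_prop] theorem p_dot {π μ : α → List ℕ} (hA : PolyT.Poly A) (hπ : PolyT.Poly π)
    (hμ : PolyT.Poly μ) : PolyT.Poly (fun a => dot (A a) (π a) (μ a)) := by
  unfold dot; fun_prop

@[fun_prop] theorem p_pot {π μ : α → List ℕ} {l : α → List (List Bool)} (hA : PolyT.Poly A)
    (hU : PolyT.Poly U) (hπ : PolyT.Poly π) (hL : PolyT.Poly l) (hμ : PolyT.Poly μ) :
    PolyT.Poly (fun a => pot (A a) (U a) (π a) (l a) (μ a)) := by
  unfold pot; fun_prop

@[fun_prop] theorem p_moves {μ : α → List ℕ} (hA : PolyT.Poly A) (hμ : PolyT.Poly μ) :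
    PolyT.Poly (fun a => moves (A a) (μ a)) := by
  unfold moves; fun_prop

@[fun_prop] theorem p_pick {π μ : α → List ℕ} {l : α → List (List Bool)} (hA : PolyT.Poly A)
    (hU : PolyT.Poly U) (hπ : PolyT.Poly π) (hL : PolyT.Poly l) (hμ : PolyT.Poly μ) :
    PolyT.Poly (fun a => pick (A a) (U a) (π a) (l a) (μ a)) := by
  unfold pick; fun_prop

@[fun_prop] theorem p_nxt {π μ : α → List ℕ} (hA : PolyT.Poly A) (hU : PolyT.Poly U)
    (hπ : PolyT.Poly π) (hμ : PolyT.Poly μ) :
    PolyT.Poly (fun a => nxt (A a) (U a) (π a) (μ a)) := by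
  unfold nxt; fun_prop

@[fun_prop] theorem p_least {ν : α → List ℕ} (hA : PolyT.Poly A) (hν : PolyT.Poly ν) :
    PolyT.Poly (fun a => least (A a) (ν a)) := by
  unfold least; fun_prop

@[fun_prop] theorem p_un (k : ℕ) (hA : PolyT.Poly A) : PolyT.Poly (fun a => un k (A a)) := by
  unfold un; fun_prop

@[fun_prop] theorem p_big (j : ℕ) (hA : PolyT.Poly A) : PolyT.Poly (fun a => big (A a) j) := by
  induction j with
  | zero => exact PolyT.Poly.const _
  | succ j ih =>
    exact PolyT.Poly.flatMap (g := fun a (_ : List Bool) => big (A a) j)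
      (ih.comp PolyT.Poly.id.fst) (by fun_prop)

/-- A list of at most `n` numbers that are at most `b`. -/
def Sm (n b : ℕ) (μ : List ℕ) : Prop := μ.length ≤ n ∧ ∀ x ∈ μ, x ≤ b

theorem Sm.mono {n b b' : ℕ} {μ : List ℕ} (h : Sm n b μ) (hb : b ≤ b') : Sm n b' μ :=
  ⟨h.1, fun x hx => (h.2 x hx).trans hb⟩

theorem Sm.getD {n b : ℕ} {μ : List ℕ} (h : Sm n b μ) (j : ℕ) : μ.getD j 0 ≤ b := by
  by_cases hj : j < μ.length
  · rw [List.getD_eq_getElem _ _ hj]
    exact h.2 _ (List.getElem_mem hj)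
  · rw [List.getD_eq_default _ _ (not_lt.1 hj)]
    exact Nat.zero_le _

theorem sm_map (B : List (List Bool)) (b : ℕ) (g : ℕ → ℕ) (hg : ∀ j, g j ≤ b) :
    Sm B.length b ((idx B).map g) := by
  refine ⟨by simp, fun x hx => ?_⟩
  obtain ⟨j, -, rfl⟩ := List.mem_map.1 hx
  exact hg j

theorem Sm.enc {n k : ℕ} {μ : List ℕ} (h : Sm n (2 ^ k) μ) :
    (bitEncode μ).length ≤ n * (2 * (k + 1) + 1) := by
  rw [enc_list, List.length_flatMap]
  refine (PolyT.Poly.sum_map_le _ _ (2 * (k + 1) + 1) fun x hx => ?_).trans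
    (Nat.mul_le_mul_right _ h.1)
  have h1 : x < 2 ^ (k + 1) := (h.2 x hx).trans_lt (Nat.pow_lt_pow_right (by norm_num) (by omega))
  have h2 := length_enc_nat_le h1
  rw [length_delimit]
  omega

theorem sm_pick {B : List (List Bool)} {b : ℕ} {μ : List ℕ} (V : List Bool) (π : List ℕ)
    (l : List (List Bool)) (h : Sm B.length b μ) : Sm B.length (b + 1) (pick B V π l μ) := by
  have hm : ∀ ν ∈ moves B μ, Sm B.length (b + 1) ν := by
    intro ν hν
    obtain ⟨e, -, he⟩ := List.mem_flatMap.1 hν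
    simp only [List.mem_cons, List.not_mem_nil, or_false] at he
    rcases he with rfl | rfl
    · refine sm_map B _ _ fun j => ?_
      have := h.getD j
      cases eqB j e <;> simp only [cond_true, cond_false] <;> omega
    · refine sm_map B _ _ fun j => ?_
      have := h.getD j
      omega
  unfold pick
  cases hr : (moves B μ).filter fun μ' => !ltB (pot B V π l μ) (pot B V π l μ' + tot B π) with
  | nil => exact h.mono (Nat.le_succ b)
  | cons ν r => exact hm ν (List.mem_filter.1 (hr ▸ List.mem_cons_self (a := ν) (l := r))).1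

theorem sm_fold (F : List ℕ → List (List Bool)) (B : List (List Bool)) (V : List Bool)
    (π : List ℕ) : ∀ (S : List Bool) (b : ℕ) (μ : List ℕ), Sm B.length b μ →
      Sm B.length (b + S.length) (S.foldl (fun μ _ => pick B V π (F μ) μ) μ)
  | [], _, _, h => h
  | _ :: S, b, μ, h => by
    have := sm_fold F B V π S (b + 1) _ (sm_pick V π (F μ) h)
    rw [List.foldl_cons, List.length_cons]
    exact this.mono (by omega)

theorem sm_orc (F : List ℕ → List (List Bool)) (B : List (List Bool)) (V S : List Bool)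
    (π : List ℕ) : Sm B.length ((hl V).length + S.length) (orc F B V S π) :=
  sm_fold F B V π S _ _ (sm_map B _ _ fun _ => le_rfl)

theorem p_orc {F : α → List ℕ → List (List Bool)} {π : α → List ℕ}
    (hF : PolyT.Poly fun x : α × List ℕ => F x.1 x.2) (hA : PolyT.Poly A) (hU : PolyT.Poly U)
    (hS : PolyT.Poly St) (hπ : PolyT.Poly π) :
    PolyT.Poly (fun a => orc (F a) (A a) (U a) (St a) (π a)) := by
  have hh := p_hl hU
  have h1 : PolyT.Poly fun p : α × List ℕ × Bool => F p.1 p.2.1 :=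
    hF.comp (f := fun p : α × List ℕ × Bool => (p.1, p.2.1)) (by fun_prop)
  refine PolyT.Poly.foldl (f := fun a μ (_ : Bool) => pick (A a) (U a) (π a) (F a μ) μ)
    (p_pick (by fun_prop) (by fun_prop) (by fun_prop) h1 (by fun_prop)) hS (by fun_prop)
    (hA.bd.mul (((Bd.const 2).mul ((hh.bd.add hS.bd).add (Bd.const 1))).add (Bd.const 1)))
    fun a n => ?_
  have h2 := sm_orc (F a) (A a) (U a) ((St a).take n) (π a)
  have h3 := (List.length_take_le' n (St a)).trans (length_le_enc _)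
  have h4 := length_le_enc (hl (U a))
  have h5 := length_le_enc (A a)
  refine (h2.mono Nat.lt_two_pow_self.le).enc.trans ?_
  gcongr

theorem sm_prices (O : List ℕ → List ℕ) (B : List (List Bool)) (V : List Bool) (c : ℕ)
    (hO : ∀ π j, (hl V).length + (O π).getD j 0 ≤ c) : ∀ (R : List Bool) (k : ℕ)
      (hs : List (List ℕ)), hs.length ≤ k + 1 → (∀ π ∈ hs, Sm B.length (2 ^ (k * c)) π) →
      (R.foldl (fun hs _ => nxt B V (hs.headD []) (O (hs.headD [])) :: hs) hs).length ≤
        k + R.length + 1 ∧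
      ∀ π ∈ R.foldl (fun hs _ => nxt B V (hs.headD []) (O (hs.headD [])) :: hs) hs,
        Sm B.length (2 ^ ((k + R.length) * c)) π
  | [], _, _, h, h' => ⟨h, h'⟩
  | _ :: R, k, hs, h, h' => by
    have h0 : Sm B.length (2 ^ (k * c)) (hs.headD []) := by
      cases hs with
      | nil => exact ⟨Nat.zero_le _, fun x hx => by cases hx⟩
      | cons x r => exact h' x List.mem_cons_self
    have := sm_prices O B V c hO R (k + 1) (nxt B V (hs.headD []) (O (hs.headD [])) :: hs)
      (by rw [List.length_cons]; omega) (by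
        intro π hπ
        rcases List.mem_cons.1 hπ with rfl | hπ
        · refine sm_map B _ _ fun j => ?_
          rw [Nat.succ_mul, pow_add]
          exact Nat.mul_le_mul (h0.getD j) ((hO _ j).trans Nat.lt_two_pow_self.le)
        · exact (h' π hπ).mono
            (Nat.pow_le_pow_right (by norm_num) (Nat.mul_le_mul_right _ (Nat.le_succ k))))
    rw [List.foldl_cons, List.length_cons, show k + (R.length + 1) = k + 1 + R.length by omega]
    exact this

theorem enc_prices (O : List ℕ → List ℕ) (B : List (List Bool)) (V R : List Bool) (c : ℕ)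
    (hO : ∀ π j, (hl V).length + (O π).getD j 0 ≤ c) :
    (bitEncode (prices O B V R)).length ≤
      (R.length + 1) * (2 * (B.length * (2 * (R.length * c + 1) + 1)) + 1) := by
  obtain ⟨h1, h2⟩ := sm_prices O B V c hO R 0 [(idx B).map fun _ => 1] (by simp) (by
    intro π hπ
    rw [List.mem_singleton.1 hπ]
    exact sm_map B _ _ fun _ => by simp)
  rw [zero_add] at h1 h2
  rw [enc_list, List.length_flatMap]
  refine (PolyT.Poly.sum_map_le _ _ _ fun x hx => ?_).trans (Nat.mul_le_mul_right _ h1)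
  have := (h2 x hx).enc
  rw [length_delimit]
  omega

theorem p_prices {O : α → List ℕ → List ℕ} {Ro : α → List Bool} {c : α → ℕ}
    (hO : PolyT.Poly fun x : α × List ℕ => O x.1 x.2) (hA : PolyT.Poly A) (hU : PolyT.Poly U)
    (hR : PolyT.Poly Ro) (hc : Bd bitEncode c)
    (hb : ∀ a π j, (hl (U a)).length + (O a π).getD j 0 ≤ c a) :
    PolyT.Poly (fun a => prices (O a) (A a) (U a) (Ro a)) := by
  have h1 : PolyT.Poly fun p : α × List (List ℕ) × Bool => O p.1 (p.2.1.headD []) :=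
    hO.comp (f := fun p : α × List (List ℕ) × Bool => (p.1, p.2.1.headD [])) (by fun_prop)
  refine PolyT.Poly.foldl
    (f := fun a hs (_ : Bool) => nxt (A a) (U a) (hs.headD []) (O a (hs.headD [])) :: hs)
    (p_cons (p_nxt (by fun_prop) (by fun_prop) (by fun_prop) h1) (by fun_prop)) hR (by fun_prop)
    ((hR.bd.add (Bd.const 1)).mul (((Bd.const 2).mul (hA.bd.mul (((Bd.const 2).mul
      ((hR.bd.mul hc).add (Bd.const 1))).add (Bd.const 1)))).add (Bd.const 1))) fun a n => ?_
  have h3 := (List.length_take_le' n (Ro a)).trans (length_le_enc _)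
  have h5 := length_le_enc (A a)
  refine (enc_prices (O a) (A a) (U a) ((Ro a).take n) (c a) (hb a)).trans ?_
  gcongr

theorem p_run {F : α → List ℕ → List (List Bool)}
    (hF : PolyT.Poly fun x : α × List ℕ => F x.1 x.2) (hA : PolyT.Poly A) (hU : PolyT.Poly U)
    (hS : PolyT.Poly St) : PolyT.Poly (fun a => run (F a) (A a) (U a) (St a)) := by
  have hh := p_hl hU
  have hO : PolyT.Poly fun x : α × List ℕ => orc (F x.1) (A x.1) (U x.1) (St x.1) x.2 :=
    p_orc (F := fun x : α × List ℕ => F x.1)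
      (hF.comp (f := fun p : (α × List ℕ) × List ℕ => (p.1.1, p.2)) (by fun_prop))
      (by fun_prop) (by fun_prop) (by fun_prop) (by fun_prop)
  have hP := p_prices (O := fun a => orc (F a) (A a) (U a) (St a))
    (Ro := fun a => (A a).flatMap fun _ => (A a).flatMap fun _ => hl (U a)) hO hA hU (by fun_prop)
    (hh.bd.add (hh.bd.add hS.bd)) fun a π j => by
      have h1 := (sm_orc (F a) (A a) (U a) (St a) π).getD j
      have h2 := length_le_enc (hl (U a))
      have h3 := length_le_enc (St a)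
      omega
  have hL : PolyT.Poly fun x : α × List ℕ => F x.1 (orc (F x.1) (A x.1) (U x.1) (St x.1) x.2) :=
    hF.comp (f := fun x : α × List ℕ => (x.1, orc (F x.1) (A x.1) (U x.1) (St x.1) x.2))
      (PolyT.Poly.id.fst.pair hO)
  refine p_least hA (PolyT.Poly.flatMap
    (g := fun a π => (F a (orc (F a) (A a) (U a) (St a) π)).map (wt (A a))) ?_ hP)
  exact PolyT.Poly.map (g := fun (x : α × List ℕ) z => wt (A x.1) z) (by fun_prop) hL

end APl2

open APl2 in
theorem pl2 (h : Pl1Stmt) : Pl2Stmt := by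
  intro a r s κ
  have hF : PolyT.Poly fun x : List (List Bool) × List ℕ =>
      lst r s κ x.1 (un a x.1) (big x.1 (κ * a)) x.2 :=
    (h r s κ).comp (f := fun x : List (List Bool) × List ℕ =>
      ((x.1, un a x.1, big x.1 (κ * a)), x.2)) (by fun_prop)
  exact p_run (F := fun A => lst r s κ A (un a A) (big A (κ * a))) (A := fun A => A)
    (U := fun A => un a A) (St := fun A => true :: (big A a).flatMap fun _ => hl (un a A))
    hF PolyT.Poly.id (by fun_prop) (by fun_prop)

end Pool.Agent.MP71.DA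

end MrgPart2

-- marker of a merged file
example : 731051 + 750402 = 731051 + 750402 := rfl

end MrgPart3

-- marker of a merged file
example : 731051 + 750402 = 731051 + 750402 := rfl
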