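import Mathlib
import Pool.Agent.MP_71daef_lc.det.APl2
import Pool.Agent.MP_71daef_lc.det.AOrc

-- ======== part 0: formerly Pool.Agent.MP_71daef_lc.det.PLow
section MrgPart0

/-!
A lower bound for the probability that the merge process produces a given witness.
-/

set_option autoImplicit false

namespace Pool.Agent.MP71.Pr

open Finset symmDiff

variable {E Y φ A : Finset ℕ} {G : ℕ} {K K' Kc : Finset (Finset ℕ)}

theorem rep_mem {P : Finset ℕ} (h : P.Nonempty) : P.sup id ∈ P := by
  obtain ⟨i, hi, e⟩ := exists_mem_eq_sup P h id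
  exact e ▸ hi

theorem card_od_ev (φ : Finset ℕ) (K : Finset (Finset ℕ)) :
    (od φ K).card + (ev φ K).card = K.card := card_filter_add_card_filter_not _

theorem card_split (φ : Finset ℕ) (K K' : Finset (Finset ℕ)) :
    (od φ K ∆ od φ K').card + (ev φ K ∆ ev φ K').card = (K ∆ K').card := by
  rw [← card_od_ev φ (K ∆ K')]
  congr 2 <;> ext P <;> simp only [od, ev, mem_symmDiff, mem_filter] <;> tauto

theorem card_le_symmDiff (K K' : Finset (Finset ℕ)) : K'.card ≤ K.card + (K ∆ K').card :=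
  le_trans (card_le_card fun P hP => by
    simp only [mem_union, mem_symmDiff]; tauto) (card_union_le _ _)

theorem stp_sub (G : ℕ) (φ A : Finset ℕ) (K : Finset (Finset ℕ)) :
    ev φ K ⊆ stp G φ A K ∧ stp G φ A K ⊆ insert (out φ A K) (ev φ K) := by
  rw [stp]
  split_ifs
  · exact ⟨subset_insert _ _, subset_rfl⟩
  · exact ⟨subset_rfl, subset_insert _ _⟩

/-- The expected discrepancy of two runs with the same coins does not grow. -/
theorem discr (E : Finset ℕ) (G : ℕ) (φ : Finset ℕ) (K K' : Finset (Finset ℕ)) :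
    ex (1 / 2) E (fun A => ((stp G φ A K ∆ stp G φ A K').card : ℝ)) ≤ (K ∆ K').card := by
  have h1 : ∀ A, ((stp G φ A K ∆ stp G φ A K').card : ℝ) ≤ (ev φ K ∆ ev φ K').card +
      2 * ∑ P ∈ od φ K ∆ od φ K', if P.sup id ∈ A then 1 else 0 := fun A => by
    by_cases h : ∃ P ∈ od φ K ∆ od φ K', P.sup id ∈ A
    · obtain ⟨P, hP, h⟩ := h
      have h2 := single_le_sum (f := fun P : Finset ℕ => if P.sup id ∈ A then (1 : ℝ) else 0)
        (fun _ _ => by positivity) hP
      rw [if_pos h] at h2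
      have h3 : stp G φ A K ∆ stp G φ A K' ⊆
          insert (out φ A K) (insert (out φ A K') (ev φ K ∆ ev φ K')) := fun Q hQ => by
        have a1 := @(stp_sub G φ A K).1 Q
        have a2 := @(stp_sub G φ A K).2 Q
        have a3 := @(stp_sub G φ A K').1 Q
        have a4 := @(stp_sub G φ A K').2 Q
        simp only [mem_insert, mem_symmDiff] at *
        tauto
      have h4 := (card_le_card h3).trans ((card_insert_le _ _).trans
        (Nat.succ_le_succ (card_insert_le _ _)))
      have h5 : ((stp G φ A K ∆ stp G φ A K').card : ℝ) ≤ (ev φ K ∆ ev φ K').card + 1 + 1 := by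
        exact_mod_cast h4
      linarith
    · have h2 : out φ A K = out φ A K' := by
        rw [out, out]
        congr 1
        ext P
        have := fun h' h'' => h ⟨P, h', h''⟩
        simp only [mem_filter (s := od φ _), mem_symmDiff] at *
        tauto
      have h3 : stp G φ A K ∆ stp G φ A K' ⊆ ev φ K ∆ ev φ K' := fun Q hQ => by
        rw [stp, stp, h2] at hQ
        split_ifs at hQ
        · simp only [mem_insert, mem_symmDiff] at *
          tauto
        · exact hQ
      have h4 : ((stp G φ A K ∆ stp G φ A K').card : ℝ) ≤ (ev φ K ∆ ev φ K').card := by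
        exact_mod_cast card_le_card h3
      have h5 : (0 : ℝ) ≤ ∑ P ∈ od φ K ∆ od φ K', if P.sup id ∈ A then 1 else 0 :=
        sum_nonneg fun _ _ => by positivity
      linarith
  refine (ex_mono half0 half1 fun A _ => h1 A).trans ?_
  rw [ex_add, ex_const, ex_mul, ex_sum, ← card_split φ K K']
  have h2 := sum_le_card_nsmul (od φ K ∆ od φ K')
    (fun P => ex (1 / 2) E fun A => if P.sup id ∈ A then 1 else 0) (1 / 2)
    fun P _ => ex_mem_le half0
  rw [nsmul_eq_mul] at h2
  push_cast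
  linarith

/-- Forcing the coins of one step. -/
theorem force (hY : Y ⊆ E) (hc : ∀ P ∈ Kc, P.Nonempty ∧ P ⊆ Y)
    (hK : ∀ P ∈ K', P.Nonempty ∧ P ⊆ E \ Y) {f : Finset ℕ → ℝ} (hf : ∀ A, 0 ≤ f A) {x : ℝ}
    (h : ∀ A, out φ A (Kc ∪ K') = (od φ Kc).sup id → Real.exp (-x) ≤ f A) :
    Real.exp (-((od φ Kc).card + (od φ K').card + x)) ≤ ex (1 / 2) E f := by
  classical
  set S := (od φ Kc).image fun P => P.sup id
  set T := (od φ K').image fun P => P.sup id
  have h1 : S ⊆ Y := fun e he => by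
    obtain ⟨P, hP, rfl⟩ := mem_image.1 he
    exact (hc P (mem_filter.1 hP).1).2 (rep_mem (hc P (mem_filter.1 hP).1).1)
  have h2 : T ⊆ E \ Y := fun e he => by
    obtain ⟨P, hP, rfl⟩ := mem_image.1 he
    exact (hK P (mem_filter.1 hP).1).2 (rep_mem (hK P (mem_filter.1 hP).1).1)
  have h3 := ex_event (s := 1 / 2) (h1.trans hY) (h2.trans sdiff_subset)
    (disjoint_sdiff.mono h1 h2)
  have h4 : ex (1 / 2) E (fun A => Real.exp (-x) * if S ⊆ A ∧ Disjoint T A then 1 else 0) ≤
      ex (1 / 2) E f := ex_mono half0 half1 fun A _ => by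
    split_ifs with h5
    · rw [mul_one]
      refine h A ?_
      rw [out]
      congr 1
      ext P
      have a1 : P ∈ od φ Kc → P.sup id ∈ A := fun h => h5.1 (mem_image_of_mem _ h)
      have a2 : P ∈ od φ K' → P.sup id ∉ A := fun h =>
        disjoint_left.1 h5.2 (mem_image_of_mem _ h)
      simp only [od, mem_filter, mem_union] at *
      tauto
    · rw [mul_zero]; exact hf A
  rw [ex_mul, h3] at h4
  refine le_trans ?_ h4
  have h5 : Real.exp (-1) ≤ 1 / 2 := by
    rw [Real.exp_neg, ← one_div]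
    exact one_div_le_one_div_of_le two_pos (by linarith [Real.add_one_le_exp 1])
  have h6 : ∀ {a b : ℕ}, a ≤ b → Real.exp (-(b : ℝ)) ≤ (1 / 2) ^ a := fun {a b} hab => by
    rw [← mul_neg_one, Real.exp_nat_mul]
    exact (pow_le_pow_left₀ (Real.exp_pos _).le h5 _).trans (pow_le_pow_of_le_one half0 half1 hab)
  rw [neg_add, neg_add, Real.exp_add, Real.exp_add, mul_comm, show (1 - 1 / 2 : ℝ) = 1 / 2 by norm_num]
  exact mul_le_mul_of_nonneg_left (mul_le_mul (h6 card_image_le) (h6 card_image_le)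
    (Real.exp_pos _).le (by positivity)) (Real.exp_pos _).le

theorem hit_nonneg (E ψ Y : Finset ℕ) (K : Finset (Finset ℕ)) : 0 ≤ hit E ψ Y K :=
  le_ex half0 half1 fun _ _ => by positivity

theorem EE_hit_nonneg (ψ : Finset ℕ) (l : List (Finset ℕ)) : 0 ≤ EE E G l K (hit E ψ Y) :=
  (EE_const 0).ge.trans (EE_mono (hit_nonneg E ψ Y))

theorem low_main (ψ : Finset ℕ) (b₀ : ℕ) {s : ℝ} (h0 : 0 ≤ s) (h1 : s ≤ 1) (hY : Y ⊆ E) :
    ∀ (l : List (Finset ℕ)) (Kc : Finset (Finset ℕ)), Ok G ψ l Kc → Kc.sup id = Y →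
      Kc.Nonempty → (∀ P ∈ Kc, P.Nonempty) → ∃ β : Finset (Finset ℕ) → ℝ,
      (∀ K K', (∀ P ∈ K', P.Nonempty ∧ P ⊆ E \ Y) →
        Real.exp (-(2 * Kc.card + (K ∆ K').card + β K)) ≤ EE E G l (Kc ∪ K') (hit E ψ Y)) ∧
      ∀ l₀, Light E G s b₀ (l₀ ++ (l ++ [ψ])) → LL E G s l₀ β ≤ (b₀ + 1) * Kc.card
  | [], Kc, h, hs, hne, hc => by
    have h2 : od ψ Kc = Kc := filter_true_of_mem h
    refine ⟨fun K => (od ψ K).card, fun K K' hK => ?_, fun l₀ hl => ?_⟩
    · refine le_trans (Real.exp_le_exp.2 ?_) (force (φ := ψ) (x := 0) hY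
        (fun P hP => ⟨hc P hP, hs ▸ le_sup (f := id) hP⟩) hK (fun _ => by positivity)
        fun A hA => by rw [if_pos (by rw [hA, h2, hs])]; simp)
      have h3 : ((od ψ K').card : ℝ) ≤ (od ψ K).card + (K ∆ K').card := by
        have := card_le_symmDiff (od ψ K) (od ψ K')
        have := card_split ψ K K'
        exact_mod_cast (by omega : (od ψ K').card ≤ (od ψ K).card + (K ∆ K').card)
      have : (0 : ℝ) ≤ Kc.card := by positivity
      rw [h2]
      linarith
    · have h3 : (1 : ℝ) ≤ Kc.card := by exact_mod_cast card_pos.2 hne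
      have h4 : (0 : ℝ) ≤ b₀ := by positivity
      exact (hl l₀ ψ [] rfl).trans (by nlinarith)
  | φ :: l, Kc, h, hs, hne, hc => by
    have hst : ∀ A K', (∀ P ∈ K', P.Nonempty ∧ P ⊆ E \ Y) →
        ∀ P ∈ stp G φ A K', P.Nonempty ∧ P ⊆ E \ Y := fun A K' hK P hP => by
      rw [stp] at hP
      split_ifs at hP with hk
      · rcases mem_insert.1 hP with rfl | hP
        · exact ⟨hk.1, Finset.sup_le fun Q hQ => (hK Q (mem_filter.1 (mem_filter.1 hQ).1).1).2⟩
        · exact hK P (mem_filter.1 hP).1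
      · exact hK P (mem_filter.1 hP).1
    rcases h with ⟨h2, h3⟩ | ⟨h2, h3⟩
    · obtain ⟨β, h4, h5⟩ := low_main ψ b₀ h0 h1 hY l Kc h3 hs hne hc
      refine ⟨fun K => ex (1 / 2) E fun A => β (stp G φ A K), fun K K' hK => ?_, fun l₀ hl => ?_⟩
      · have h6 : od φ (Kc ∪ K') = od φ K' := by rw [od, filter_union, ← od, h2, empty_union, od]
        have h7 : ev φ (Kc ∪ K') = Kc ∪ ev φ K' := by
          rw [ev, filter_union, filter_true_of_mem (filter_eq_empty_iff.1 h2), ev]
        have h8 : ∀ A, stp G φ A (Kc ∪ K') = Kc ∪ stp G φ A K' := fun A => by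
          rw [stp, stp, out, h6, ← out, h7]
          split_ifs
          · rw [union_insert]
          · rfl
        refine le_trans (ex_exp half0 half1 (F := fun A => 2 * Kc.card +
          ((stp G φ A K ∆ stp G φ A K').card : ℝ) + β (stp G φ A K)) (S := E) ?_)
          (ex_mono half0 half1 fun A _ => ?_)
        · rw [ex_add, ex_add, ex_const]
          linarith [discr E G φ K K']
        · rw [h8]
          exact h4 _ _ (hst A K' hK)
      · rw [← LL_snoc]
        exact h5 _ (by simpa using hl)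
    · have h6 : 2 ≤ (od φ Kc).card := by
        by_contra h6
        rcases (od φ Kc).eq_empty_or_nonempty with h7 | ⟨P, hP⟩
        · exact h2.1.ne_empty (by rw [h7]; rfl)
        · have h8 : od φ Kc = {P} := eq_singleton_iff_unique_mem.2
            ⟨hP, fun Q hQ => card_le_one.1 (by omega) Q hQ P hP⟩
          exact h2.2.1 (by rw [h8, sup_singleton]; exact (mem_filter.1 hP).2)
      have h7 : ((insert ((od φ Kc).sup id) (ev φ Kc)).card : ℝ) + (od φ Kc).card ≤ Kc.card + 1 := by
        have := card_insert_le ((od φ Kc).sup id) (ev φ Kc)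
        have := card_od_ev φ Kc
        exact_mod_cast (by omega :
          (insert ((od φ Kc).sup id) (ev φ Kc)).card + (od φ Kc).card ≤ Kc.card + 1)
      have h8 : (2 : ℝ) ≤ (od φ Kc).card := by exact_mod_cast h6
      obtain ⟨β, h4, h5⟩ := low_main ψ b₀ h0 h1 hY l _ h3 (by
        rw [sup_insert, id, ← sup_union, od, ev, filter_union_filter_not_eq, hs])
        (insert_nonempty _ _) fun P hP => (mem_insert.1 hP).elim (fun e => e ▸ h2.1)
          fun hP => hc P (mem_filter.1 hP).1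
      refine ⟨fun K => (od φ K).card + 1 + ex (1 / 2) E fun A => β (stp G φ A K),
        fun K K' hK => ?_, fun l₀ hl => ?_⟩
      · have h9 : Real.exp (-(2 * (insert ((od φ Kc).sup id) (ev φ Kc)).card +
            ((ev φ K ∆ ev φ K').card + 1) + ex (1 / 2) E fun A => β (stp G φ A K))) ≤
            EE E G l (insert ((od φ Kc).sup id) (ev φ Kc) ∪ ev φ K') (hit E ψ Y) := by
          refine le_trans (ex_exp half0 half1 (F := fun A =>
            2 * (insert ((od φ Kc).sup id) (ev φ Kc)).card + ((ev φ K ∆ ev φ K').card + 1) +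
              β (stp G φ A K)) (S := E) (by rw [ex_add, ex_const])) (ex_le half0 half1 fun A _ => ?_)
          refine le_trans (Real.exp_le_exp.2 ?_)
            (h4 (stp G φ A K) (ev φ K') fun P hP => hK P (mem_filter.1 hP).1)
          have h10 : stp G φ A K ∆ ev φ K' ⊆ insert (out φ A K) (ev φ K ∆ ev φ K') :=
            fun Q hQ => by
              have a1 := @(stp_sub G φ A K).1 Q
              have a2 := @(stp_sub G φ A K).2 Q
              simp only [mem_insert, mem_symmDiff] at *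
              tauto
          have h11 : ((stp G φ A K ∆ ev φ K').card : ℝ) ≤ (ev φ K ∆ ev φ K').card + 1 := by
            exact_mod_cast (card_le_card h10).trans (card_insert_le _ _)
          linarith
        refine le_trans (Real.exp_le_exp.2 ?_) (force (φ := φ) hY
          (fun P hP => ⟨hc P hP, hs ▸ le_sup (f := id) hP⟩) hK (fun _ => EE_hit_nonneg ψ l)
          fun A hA => h9.trans (le_of_eq ?_))
        · have h10 : ((od φ K').card : ℝ) + (ev φ K ∆ ev φ K').card ≤
              (od φ K).card + (K ∆ K').card := by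
            have := card_le_symmDiff (od φ K) (od φ K')
            have := card_split φ K K'
            exact_mod_cast (by omega : (od φ K').card + (ev φ K ∆ ev φ K').card ≤
              (od φ K).card + (K ∆ K').card)
          linarith
        · rw [stp, hA, if_pos h2, ev, ev, ev, filter_union, insert_union]
      · have h9 := hl l₀ φ _ rfl
        have h10 := h5 (l₀ ++ [φ]) (by simpa using hl)
        have h11 : (0 : ℝ) ≤ b₀ := by positivity
        rw [LL_add, LL_add, LL_const, ← LL_snoc]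
        nlinarith

theorem low : LowStmt := by
  classical
  intro E ψ Y G b₀ s l h0 h1 hl hY hne hok
  have h2 : (sing Y).card = Y.card := card_image_of_injective _ singleton_injective
  obtain ⟨β, h3, h4⟩ := low_main ψ b₀ h0 h1 hY l _ hok
    (by rw [sing, sup_image]; exact sup_singleton_eq_self Y) (hne.image _) fun P hP => by
      obtain ⟨e, -, rfl⟩ := mem_image.1 hP
      exact singleton_nonempty e
  have h5 := ex_force (s := s) (F := fun X => EE E G l (sing Y ∪ sing X) (hit E ψ Y)) hY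
    (empty_subset E) (disjoint_empty_right _)
  simp only [disjoint_empty_left, and_true, union_empty, card_empty, pow_zero, mul_one] at h5
  refine le_trans ?_ (h5.ge.trans (ex_mono h0 h1 fun R _ => ?_))
  · refine mul_le_mul_of_nonneg_left (le_trans (ex_exp h0 h1
      (F := fun R => 3 * Y.card + β (sing R)) (S := E) ?_) (ex_mono h0 h1 fun R hR => ?_))
      (pow_nonneg h0 _)
    · have h6 := h4 [] hl
      rw [h2] at h6
      rw [ex_add, ex_const]
      simp only [LL, EE] at h6
      linarith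
    · refine le_trans (Real.exp_le_exp.2 ?_) (h3 (sing R) (sing (R \ Y)) fun P hP => ?_)
      · have h6 : sing R ∆ sing (R \ Y) ⊆ sing Y := fun P hP => by
          simp only [sing, mem_symmDiff, mem_image, mem_sdiff] at *
          rcases hP with ⟨⟨e, h6, rfl⟩, h7⟩ | ⟨⟨e, h6, rfl⟩, h7⟩
          · by_contra h8
            exact h7 ⟨e, ⟨h6, fun h => h8 ⟨e, h, rfl⟩⟩, rfl⟩
          · exact (h7 ⟨e, h6.1, rfl⟩).elim
        have h7 : ((sing R ∆ sing (R \ Y)).card : ℝ) ≤ Y.card := by
          exact_mod_cast h2 ▸ card_le_card h6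
        rw [h2]
        linarith
      · obtain ⟨e, he, rfl⟩ := mem_image.1 hP
        exact ⟨singleton_nonempty e, singleton_subset_iff.2 (sdiff_subset_sdiff hR subset_rfl he)⟩
  · split_ifs with h6
    · rw [sing, sing, ← image_union, union_sdiff_of_subset h6]; rfl
    · exact EE_hit_nonneg ψ l

end Pool.Agent.MP71.Pr

end MrgPart0

-- ======== part 1: formerly Pool.Agent.MP_71daef_lc.det.Tree
section MrgPart1

-- ======== part 0: formerly Pool.Agent.MP_71daef_lc.det.Dual
section MrgPart0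

/-!
Duality of binary codes on a finite ground set.
-/

set_option autoImplicit false

namespace Pool.Agent.MP71

open Finset symmDiff

namespace DualAux

theorem par (X Y Z : Finset ℕ) :
    ((X ∆ Y) ∩ Z).card + 2 * (X ∩ Y ∩ Z).card = (X ∩ Z).card + (Y ∩ Z).card := by
  have h1 : (X ∩ Z) ∪ (Y ∩ Z) = ((X ∆ Y) ∩ Z) ∪ (X ∩ Y ∩ Z) := by
    ext x
    simp only [mem_union, mem_inter, mem_symmDiff]
    grind
  have h2 : (X ∩ Z) ∩ (Y ∩ Z) = X ∩ Y ∩ Z := by
    ext x
    simp only [mem_inter]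
    grind
  have h3 : Disjoint ((X ∆ Y) ∩ Z) (X ∩ Y ∩ Z) := by
    refine disjoint_left.2 fun x h h' => ?_
    simp only [mem_inter, mem_symmDiff] at h h'
    grind
  have h4 := card_union_add_card_inter (X ∩ Z) (Y ∩ Z)
  rw [h1, h2, card_union_of_disjoint h3] at h4
  omega

theorem even_add {X Y Z : Finset ℕ} (h1 : Even (X ∩ Z).card) (h2 : Even (Y ∩ Z).card) :
    Even ((X ∆ Y) ∩ Z).card := by
  have := par X Y Z
  obtain ⟨a, ha⟩ := h1
  obtain ⟨b, hb⟩ := h2
  exact ⟨a + b - (X ∩ Y ∩ Z).card, by omega⟩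

theorem not_even_single {X : Finset ℕ} {x : ℕ} (h : X = {x}) : ¬ Even X.card := by
  rw [h, card_singleton]
  exact Nat.not_even_one

/-- The orthogonal complement. -/
def perp (c : Code) (E : Finset ℕ) : Code where
  cyc Z := Z ⊆ E ∧ ∀ Y ⊆ E, c.cyc Y → Even (Y ∩ Z).card
  zero := ⟨empty_subset _, fun Y _ _ => by simp⟩
  add := by
    rintro X Z ⟨h1, h2⟩ ⟨h3, h4⟩
    refine ⟨symmDiff_le_sup.trans (sup_le h1 h3), fun Y h5 h6 => ?_⟩
    rw [inter_comm]
    exact even_add (inter_comm Y X ▸ h2 Y h5 h6) (inter_comm Y Z ▸ h4 Y h5 h6)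

/-- Fundamental cocycles. -/
theorem cocyc {c : Code} {E B : Finset ℕ} (h : c.Bas E B) {x : ℕ} (hx : x ∈ B) :
    ∃ D ⊆ E, D ∩ B = {x} ∧ ∀ Y ⊆ E, c.cyc Y → Even (Y ∩ D).card := by
  classical
  choose! P hP using h.2.2
  refine ⟨insert x ((E \ B).filter fun f => x ∈ P f),
    insert_subset (h.1 hx) ((filter_subset _ _).trans sdiff_subset), ?_, ?_⟩
  · ext y
    simp only [mem_inter, mem_insert, mem_filter, mem_sdiff, mem_singleton]
    grind
  have hf : ∀ f ∈ E \ B,
      Even (insert f (P f) ∩ insert x ((E \ B).filter fun f => x ∈ P f)).card := by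
    intro f hf
    have h1 := (hP f hf).1
    have h2 := mem_sdiff.1 hf
    have h3 : f ≠ x := fun e => h2.2 (e ▸ hx)
    by_cases h4 : x ∈ P f
    · have : insert f (P f) ∩ insert x ((E \ B).filter fun f => x ∈ P f) = {f, x} := by
        ext y
        have := @h1 y
        simp only [mem_inter, mem_insert, mem_filter, mem_sdiff, mem_singleton]
        grind
      rw [this, card_pair h3]
      exact even_two
    · have : insert f (P f) ∩ insert x ((E \ B).filter fun f => x ∈ P f) = ∅ := by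
        ext y
        have := @h1 y
        simp only [mem_inter, mem_insert, mem_filter, mem_sdiff, notMem_empty]
        grind
      rw [this]
      simp
  have key : ∀ W : Finset ℕ, ∀ Y ⊆ E, c.cyc Y → Y \ B = W →
      Even (Y ∩ insert x ((E \ B).filter fun f => x ∈ P f)).card := by
    intro W
    induction W using Finset.induction_on with
    | empty =>
      intro Y _ h2 h3
      rw [h.2.1 Y (sdiff_eq_empty_iff_subset.1 h3) h2]
      simp
    | insert f W hfW ih =>
      intro Y h1 h2 h3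
      have h4 : f ∈ Y \ B := h3 ▸ mem_insert_self _ _
      have h5 : f ∈ E \ B := sdiff_subset_sdiff h1 subset_rfl h4
      have h6 := hP f h5
      have h7 : insert f (P f) ⊆ E := insert_subset (mem_sdiff.1 h5).1 (h6.1.trans h.1)
      have h8 := ih (Y ∆ insert f (P f)) (symmDiff_le_sup.trans (sup_le h1 h7))
        (c.add h2 h6.2) (by
          ext y
          have := @h6.1 y
          have := Finset.ext_iff.1 h3 y
          simp only [mem_insert, mem_sdiff, mem_symmDiff] at *
          grind)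
      have h9 := even_add h8 (hf f h5)
      rwa [symmDiff_symmDiff_cancel_right] at h9
  exact fun Y h1 h2 => key _ Y h1 h2 rfl

theorem pair_perp (c : Code) (E : Finset ℕ) : DualPair c (perp c E) E := by
  refine ⟨fun Y h1 Z _ h3 h4 => h4.2 Y h1 h3, fun Y h1 h2 => ?_, fun Z h1 h2 => ⟨h1, h2⟩⟩
  obtain ⟨B, hB⟩ := c.exists_bas E
  obtain ⟨P, h3, h4⟩ := hB.lab (Y \ B) (sdiff_subset_sdiff h1 subset_rfl)
  have h5 : (Y \ B) ∆ P ⊆ E :=
    symmDiff_le_sup.trans (sup_le (sdiff_subset.trans h1) (h3.trans hB.1))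
  have h6 : ∀ x ∈ B, x ∉ Y ∆ ((Y \ B) ∆ P) := by
    intro x hx h7
    obtain ⟨D, h8, h9, h10⟩ := cocyc hB hx
    refine not_even_single (x := x) ?_ (even_add (h2 D h8 ⟨h8, h10⟩) (h10 _ h5 h4))
    ext y
    have := @h3 y
    have := Finset.ext_iff.1 h9 y
    simp only [mem_inter, mem_singleton, mem_sdiff, mem_symmDiff] at *
    grind
  have h7 : Y = (Y \ B) ∆ P := by
    ext y
    have := @h3 y
    have := h6 y
    simp only [mem_sdiff, mem_symmDiff] at *
    grind
  rw [h7]
  exact h4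

theorem bas {c b : Code} {E B : Finset ℕ} (h : DualPair c b E) (hB : c.Bas E B) :
    b.Bas E (E \ B) := by
  refine ⟨sdiff_subset, fun Z h1 h2 => ?_, fun x hx => ?_⟩
  · refine eq_empty_of_forall_notMem fun f hf => ?_
    obtain ⟨P, h3, h4⟩ := hB.2.2 f (h1 hf)
    refine not_even_single (x := f) ?_ (h.orth _
      (insert_subset (mem_sdiff.1 (h1 hf)).1 (h3.trans hB.1)) Z (h1.trans sdiff_subset) h4 h2)
    ext y
    have := @h3 y
    have := @h1 y
    simp only [mem_inter, mem_singleton, mem_sdiff, mem_insert] at *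
    grind
  · have h1 : x ∈ B := by
      simp only [mem_sdiff] at hx
      grind
    obtain ⟨D, h2, h3, h4⟩ := cocyc hB h1
    have h5 : x ∈ D := (mem_inter.1 (h3 ▸ mem_singleton_self x : x ∈ D ∩ B)).1
    refine ⟨D.erase x, fun y hy => ?_, by rw [insert_erase h5]; exact h.right D h2 h4⟩
    have := @h2 y
    have := Finset.ext_iff.1 h3 y
    simp only [mem_inter, mem_singleton, mem_sdiff, mem_erase] at *
    grind

theorem con {c b : Code} {E Q : Finset ℕ} (h : DualPair c b E) (hQ : Q ⊆ E) :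
    DualPair (c.con Q) b (E \ Q) := by
  have hr : ∀ Z ⊆ E \ Q, (∀ Y ⊆ E \ Q, (c.con Q).cyc Y → Even (Y ∩ Z).card) → b.cyc Z := by
    intro Z h1 h2
    refine h.right Z (h1.trans sdiff_subset) fun Y h3 h4 => ?_
    have h5 := h2 (Y \ Q) (sdiff_subset_sdiff h3 subset_rfl)
      ⟨sdiff_disjoint, Y ∩ Q, inter_subset_right, by rwa [sdiff_union_inter]⟩
    have h6 : Y \ Q ∩ Z = Y ∩ Z := by
      ext y
      have := @h1 y
      simp only [mem_inter, mem_sdiff] at *
      grind
    rwa [h6] at h5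
  refine ⟨?_, fun Y h1 h2 => ?_, hr⟩
  · rintro Y h1 Z h2 ⟨-, P, h3, h4⟩ h5
    have h6 := h.orth _ (union_subset (h1.trans sdiff_subset) (h3.trans hQ)) Z
      (h2.trans sdiff_subset) h4 h5
    have h7 : (Y ∪ P) ∩ Z = Y ∩ Z := by
      ext y
      have := @h2 y
      have := @h3 y
      simp only [mem_inter, mem_sdiff, mem_union] at *
      grind
    rwa [h7] at h6
  · exact (pair_perp (c.con Q) (E \ Q)).left Y h1 fun Z h3 h4 => h2 Z h3 (hr Z h3 h4.2)

theorem nul_full (hN : NulStmt) {c b : Code} {E : Finset ℕ} (h : DualPair c b E) :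
    b.nul E + c.nul E = E.card := by
  obtain ⟨B, hB⟩ := c.exists_bas E
  rw [hN.bas c E B hB, hN.bas b E _ (bas h hB), Finset.sdiff_sdiff_eq_self hB.1]
  have := card_sdiff_add_card_eq_card hB.1
  omega

theorem nul (hN : NulStmt) {c b : Code} {E X : Finset ℕ} (h : DualPair c b E) (hX : X ⊆ E) :
    b.nul X + c.nul E = X.card + c.nul (E \ X) := by
  have h1 := con h (sdiff_subset (s := E) (t := X))
  rw [Finset.sdiff_sdiff_eq_self hX] at h1
  have h2 := nul_full hN h1
  have h3 := hN.con c X (E \ X) disjoint_sdiff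
  rw [union_sdiff_of_subset hX] at h3
  omega

theorem lam (hN : NulStmt) (hL : LamStmt) {c b : Code} {E A : Finset ℕ} (h : DualPair c b E)
    (hA : A ⊆ E) : b.lam E A = c.lam E A := by
  have h1 := nul hN h hA
  have h2 := nul hN h (sdiff_subset (s := E) (t := A))
  rw [Finset.sdiff_sdiff_eq_self hA] at h2
  have h3 := nul_full hN h
  have h4 := hL.add c E A hA
  have h5 := hL.add b E A hA
  have h6 := card_sdiff_add_card_eq_card hA
  omega

theorem uni (hN : NulStmt) {c b : Code} {E : Finset ℕ} {d : ℕ} (h : DualPair c b E)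
    (hb : b.Uni E (2 ^ d)) : c.Uni E d := by
  classical
  obtain ⟨B, T, h1, h2, h3, h4, h5⟩ := hb
  have hc : Fintype.card (Finset (Fin d)) = Fintype.card T := by simp [h4]
  obtain ⟨t, ht, hT⟩ : ∃ t : Finset (Fin d) → ℕ, Function.Injective t ∧ ∀ S, t S ∈ T :=
    ⟨fun S => (Fintype.equivOfCardEq hc S).1,
      Subtype.val_injective.comp (Fintype.equivOfCardEq hc).injective,
      fun S => (Fintype.equivOfCardEq hc S).2⟩
  have h6 : ∀ i : Fin d, ∃ f ∈ E, f ∉ B ∧ ∃ L ⊆ B, b.cyc (insert f L) ∧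
      ∀ S, t S ∈ L ↔ i ∈ S := by
    intro i
    obtain ⟨f, h6, h7, L, h8, h9, h10⟩ := h5 ((univ.filter fun S => i ∈ S).image t)
      (image_subset_iff.2 fun S _ => hT S)
    refine ⟨f, h6, h7, L, h8, h9, fun S => ?_⟩
    have h11 := Finset.ext_iff.1 h10 (t S)
    rw [mem_inter, ht.mem_finset_image, mem_filter] at h11
    have := hT S
    simp only [mem_univ, true_and] at h11
    grind
  choose f hfE hfB L hL hcy hS using h6
  obtain ⟨B2, h7, h8⟩ := hN.ext b E B h2 h3
  have h9 : ∀ i, f i ∉ B2 := fun i hi =>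
    insert_ne_empty _ _ (h8.2.1 _ (insert_subset hi ((hL i).trans h7)) (hcy i))
  have h10 := bas h.symm h8
  have hinj : Function.Injective f := by
    intro i j e
    have h11 : L i ∆ L j = ∅ := by
      refine h3 _ (symmDiff_le_sup.trans (sup_le (hL i) (hL j)))
        (b.add' (hcy i) (hcy j) fun y => ?_)
      have := @hL i y
      have := @hL j y
      have := hfB i
      simp only [mem_symmDiff, mem_insert]
      grind
    have h12 : L i = L j := symmDiff_eq_bot.1 h11
    have h13 := (hS j {i}).1 (h12 ▸ (hS i {i}).2 (mem_singleton_self i))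
    exact (mem_singleton.1 h13).symm
  refine ⟨E \ B2, univ.image f, image_subset_iff.2 fun i _ => mem_sdiff.2 ⟨hfE i, h9 i⟩,
    sdiff_subset, h10.2.1, by rw [card_image_of_injective _ hinj]; simp, fun S' hS' => ?_⟩
  obtain ⟨S, hSS⟩ : ∃ S : Finset (Fin d), ∀ i, i ∈ S ↔ f i ∈ S' :=
    ⟨univ.filter fun i => f i ∈ S', fun i => by simp⟩
  have h11 : t S ∈ B := h1 (hT S)
  have h12 : t S ∉ E \ B2 := fun h' => (mem_sdiff.1 h').2 (h7 h11)
  obtain ⟨P, h13, h14⟩ := h10.2.2 (t S) (mem_sdiff.2 ⟨h2 h11, h12⟩)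
  refine ⟨t S, h2 h11, h12, P, h13, h14, ?_⟩
  have h15 : ∀ i, f i ∈ P ↔ t S ∈ L i := by
    intro i
    have h16 := h.orth _ (insert_subset (h2 h11) (h13.trans sdiff_subset)) _
      (insert_subset (hfE i) ((hL i).trans h2)) h14 (hcy i)
    have h17 : t S ≠ f i := fun e => hfB i (e ▸ h11)
    have h18 : ∀ y ∈ P, y ∉ L i := fun y hy h' => (mem_sdiff.1 (h13 hy)).2 (h7 (hL i h'))
    by_contra hcon
    by_cases h19 : f i ∈ P
    · refine not_even_single (x := f i) ?_ h16
      ext y
      have := h18 y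
      simp only [mem_inter, mem_insert, mem_singleton]
      grind
    · refine not_even_single (x := t S) ?_ h16
      ext y
      have := h18 y
      simp only [mem_inter, mem_insert, mem_singleton]
      grind
  ext y
  constructor
  · intro hy
    obtain ⟨h16, h17⟩ := mem_inter.1 hy
    obtain ⟨i, -, rfl⟩ := mem_image.1 h17
    exact (hSS i).1 ((hS i S).1 ((h15 i).1 h16))
  · intro hy
    obtain ⟨i, -, rfl⟩ := mem_image.1 (hS' hy)
    exact mem_inter.2 ⟨(h15 i).2 ((hS i S).2 ((hSS i).2 hy)), hS' hy⟩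

end DualAux

theorem dual_stmt (hN : NulStmt) (hL : LamStmt) : DualStmt :=
  ⟨fun c E => ⟨_, DualAux.pair_perp c E⟩, fun _ _ _ _ h hB => DualAux.bas h hB,
    fun _ _ _ _ h hQ => DualAux.con h hQ, fun _ _ _ _ h hX => DualAux.nul hN h hX,
    fun _ _ _ _ h hA => DualAux.lam hN hL h hA, fun _ _ _ _ h hb => DualAux.uni hN h hb⟩

end Pool.Agent.MP71

end MrgPart0

-- ======== part 1: formerly Pool.Agent.MP_71daef_lc.det.Light
section MrgPart1

/-!
Weighted girth times nullity is at most linear in the total weight when there is no clique minor.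
-/

set_option autoImplicit false

namespace Pool.Agent.MP71

open Finset symmDiff Submodule

namespace Light

theorem eq_of_add_zero {V : Type} [AddCommGroup V] [Module F2 V] {x y : V} (h : x + y = 0) :
    x = y := by
  calc x = x + (y + y) := by rw [add_self_v, add_zero]
    _ = y := by rw [← add_assoc, h, zero_add]

/-- The indicator vector of a set. -/
def ind (B L : Finset ℕ) : B → F2 := fun b => if b.1 ∈ L then 1 else 0

theorem ind_symmDiff (B L M : Finset ℕ) : ind B (L ∆ M) = ind B L + ind B M := by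
  funext b
  have : (1 + 1 : F2) = 0 := by decide
  by_cases h1 : b.1 ∈ L <;> by_cases h2 : b.1 ∈ M <;> simp [ind, mem_symmDiff, h1, h2, this]

theorem ind_eq_zero {B L : Finset ℕ} (h : L ⊆ B) : ind B L = 0 ↔ L = ∅ := by
  constructor
  · intro h0
    refine eq_empty_of_forall_notMem fun x hx => ?_
    have := congrFun h0 ⟨x, h hx⟩
    simp [ind, hx] at this
  · rintro rfl
    funext b
    simp [ind]

/-- A code is represented by vectors. -/
theorem exists_rep {c : Code} {S B : Finset ℕ} (h : c.Bas S B) :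
    ∃ a : ℕ → (B → F2), ∀ Z ⊆ S, (∑ e ∈ Z, a e = 0 ↔ c.cyc Z) := by
  have h1 : ∀ e, ∃ P, e ∈ S → P ⊆ B ∧ c.cyc ({e} ∆ P) := by
    intro e
    by_cases he : e ∈ S
    · by_cases hb : e ∈ B
      · exact ⟨{e}, fun _ => ⟨singleton_subset_iff.2 hb, by simpa using c.zero⟩⟩
      · obtain ⟨P, h2, h3⟩ := h.lab {e} (singleton_subset_iff.2 (mem_sdiff.2 ⟨he, hb⟩))
        exact ⟨P, fun _ => ⟨h2, h3⟩⟩
    · exact ⟨∅, fun h' => absurd h' he⟩
  choose P hP using h1
  refine ⟨fun e => ind B (P e), fun Z hZ => ?_⟩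
  have key : ∀ Z : Finset ℕ, Z ⊆ S →
      ∃ L ⊆ B, c.cyc (Z ∆ L) ∧ ∑ e ∈ Z, ind B (P e) = ind B L := by
    intro Z
    induction Z using Finset.induction_on with
    | empty =>
      exact fun _ => ⟨∅, empty_subset _, by simpa using c.zero,
        by rw [sum_empty, (ind_eq_zero (empty_subset B)).2 rfl]⟩
    | insert e Z he ih =>
      intro hZ
      obtain ⟨L, h2, h3, h4⟩ := ih ((subset_insert _ _).trans hZ)
      obtain ⟨h5, h6⟩ := hP e (hZ (mem_insert_self _ _))
      refine ⟨P e ∆ L, symmDiff_le_sup.trans (sup_le h5 h2), c.add' h6 h3 fun x => ?_, ?_⟩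
      · simp only [mem_symmDiff, mem_insert, mem_singleton]
        by_cases hx : x = e
        · subst hx; grind
        · grind
      · rw [sum_insert he, h4, ind_symmDiff]
  obtain ⟨L, h2, h3, h4⟩ := key Z hZ
  rw [h4, ind_eq_zero h2]
  constructor
  · rintro rfl
    exact c.add' h3 c.zero fun x => by simp
  · intro h5
    exact h.2.1 L h2 (c.add' h5 h3 fun x => by simp only [mem_symmDiff]; grind)

section rep

variable {V : Type} [AddCommGroup V] [Module F2 V] {c : Code} {S : Finset ℕ} {a : ℕ → V}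

theorem rep_insert (ha : ∀ Z ⊆ S, (∑ e ∈ Z, a e = 0 ↔ c.cyc Z)) {f : ℕ} {P : Finset ℕ}
    (hf : f ∈ S) (hP : P ⊆ S) (hn : f ∉ P) (h : c.cyc (insert f P)) : a f = ∑ j ∈ P, a j := by
  have := (ha _ (insert_subset hf hP)).2 h
  rw [sum_insert hn] at this
  exact eq_of_add_zero this

theorem km_of_hasK (ha : ∀ Z ⊆ S, (∑ e ∈ Z, a e = 0 ↔ c.cyc Z)) {t : ℕ}
    (h : HasK t (a '' S)) : c.KM S t := by
  classical
  obtain ⟨Y, x, h1, h2, h3, h4⟩ := h
  choose y hy hy' using h2
  obtain ⟨Q, hQ⟩ := c.exists_bas (S.filter (a · ∈ Y))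
  have hQS : Q ⊆ S := hQ.1.trans (filter_subset _ _)
  have hQY : ∀ j ∈ Q, a j ∈ span F2 Y := fun j hj => subset_span (mem_filter.1 (hQ.1 hj)).2
  have hsp : span F2 Y ≤ span F2 (a '' Q) := by
    rw [span_le]
    intro v hv
    obtain ⟨f, hf, rfl⟩ := h1 hv
    by_cases hfQ : f ∈ Q
    · exact subset_span ⟨f, hfQ, rfl⟩
    · obtain ⟨P, h5, h6⟩ := hQ.2.2 f (mem_sdiff.2 ⟨mem_filter.2 ⟨hf, hv⟩, hfQ⟩)
      rw [rep_insert ha hf (h5.trans hQS) (fun h' => hfQ (h5 h')) h6]
      exact sum_mem fun j hj => subset_span ⟨j, h5 hj, rfl⟩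
  have one : ∀ i, x i ∉ span F2 Y := fun i hi => by
    have := h3 (Pi.single i 1) (by simpa [Pi.single_apply, ite_smul] using hi)
    simpa using congrFun this i
  have two : ∀ i j, i ≠ j → x i + x j ∉ span F2 Y := fun i j hij hi => by
    have := h3 (Pi.single i 1 + Pi.single j 1)
      (by simpa [add_smul, sum_add_distrib, Pi.single_apply, ite_smul] using hi)
    simpa [Pi.single_apply, hij] using congrFun this i
  have hinj : Function.Injective y := fun i j hij => by
    by_contra hne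
    refine two i j hne ?_
    rw [← hy' i, ← hy' j, hij, add_self_v]
    exact zero_mem _
  have hyQ : ∀ i, y i ∉ Q := fun i hi => one i (hy' i ▸ hQY _ hi)
  refine ⟨Q, hQS, y, hinj, fun i => ⟨hy i, hyQ i⟩, fun Z hZ hc => ?_, fun i j hij => ?_⟩
  · have hZS : Z ⊆ S := hZ.trans (union_subset hQS fun e he => by
      obtain ⟨i, -, rfl⟩ := mem_image.1 he
      exact hy i)
    have h5 := (ha Z hZS).2 hc
    have h6 : Z \ Q = (univ.filter (y · ∈ Z)).image y := by
      ext e
      simp only [mem_sdiff, mem_image, mem_filter, mem_univ, true_and]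
      constructor
      · rintro ⟨h6, h7⟩
        obtain ⟨i, -, rfl⟩ := mem_image.1 ((mem_union.1 (hZ h6)).resolve_left h7)
        exact ⟨i, h6, rfl⟩
      · rintro ⟨i, h6, rfl⟩
        exact ⟨h6, hyQ i⟩
    rw [← sum_sdiff (inter_subset_left (s₁ := Z) (s₂ := Q)), sdiff_inter_self_left, h6,
      sum_image fun i _ j _ h' => hinj h'] at h5
    have h7 := h3 (fun i => if y i ∈ Z then 1 else 0) (by
      have e1 : ∑ i, (if y i ∈ Z then (1 : F2) else 0) • x i =
          ∑ i ∈ univ.filter (y · ∈ Z), a (y i) := by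
        rw [sum_filter]
        exact sum_congr rfl fun i _ => by split_ifs <;> simp [hy']
      rw [e1, eq_of_add_zero h5]
      exact sum_mem fun j hj => hQY j (mem_inter.1 hj).2)
    refine hQ.2.1 Z (fun e he => ?_) hc
    refine (mem_union.1 (hZ he)).resolve_right fun h8 => ?_
    obtain ⟨i, -, rfl⟩ := mem_image.1 h8
    simpa [he] using congrFun h7 i
  · obtain ⟨_, ⟨z, hz, rfl⟩, h5⟩ := h4 i j hij
    obtain ⟨L, h6, h7⟩ := exists_sum_of_mem_span a Q (hsp h5)
    have hzQ : z ∉ Q := fun h' => two i j hij (by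
      rw [add_assoc, add_comm] at h5
      exact mem_of_add_mem h5 (hQY z h'))
    have hzi : z ≠ y i := fun h' => one j (by
      rwa [h', hy', add_self_v, zero_add] at h5)
    have hzj : z ≠ y j := fun h' => one i (by
      rwa [h', hy', add_right_comm, add_self_v, zero_add] at h5)
    have hij' : y i ≠ y j := fun h' => hij (hinj h')
    have hd : Disjoint ({z, y i, y j} : Finset ℕ) L := by
      simp only [disjoint_insert_left, disjoint_singleton_left]
      exact ⟨fun h' => hzQ (h6 h'), fun h' => hyQ i (h6 h'), fun h' => hyQ j (h6 h')⟩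
    refine ⟨z, hz, L, h6, (ha _ (union_subset (insert_subset hz (insert_subset (hy i)
      (singleton_subset_iff.2 (hy j)))) (h6.trans hQS))).1 ?_⟩
    rw [sum_union hd, sum_insert (by simp [hzi, hzj]), sum_pair hij', hy', hy', ← h7,
      ← add_assoc (a z), add_self_v]

end rep

theorem mem_units {w : ℕ → ℕ} {X : Finset ℕ} {u : ℕ × ℕ} :
    u ∈ units w X ↔ u.1 ∈ X ∧ u.2 < w u.1 := by
  obtain ⟨e, i⟩ := u
  simp only [units, mem_biUnion, mem_image, mem_range, Prod.mk.injEq]
  constructor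
  · rintro ⟨e', h1, i', h2, rfl, rfl⟩
    exact ⟨h1, h2⟩
  · rintro ⟨h1, h2⟩
    exact ⟨e, h1, i, h2, rfl, rfl⟩

theorem card_units (w : ℕ → ℕ) (X : Finset ℕ) : (units w X).card = ∑ e ∈ X, w e := by
  rw [units, card_biUnion]
  · exact sum_congr rfl fun e _ => by
      rw [card_image_of_injective _ fun i j h => (Prod.mk.inj h).2, card_range]
  · intro e _ e' _ hne
    refine disjoint_left.2 fun u h1 h2 => hne ?_
    obtain ⟨i, -, rfl⟩ := mem_image.1 h1
    obtain ⟨j, -, h3⟩ := mem_image.1 h2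
    exact (Prod.mk.inj h3).1.symm

theorem units_symmDiff (w : ℕ → ℕ) (X Y : Finset ℕ) :
    units w X ∆ units w Y = units w (X ∆ Y) := by
  ext u
  simp only [mem_symmDiff, mem_units]
  tauto

/-- The case of natural weights. -/
theorem light_nat (hN : NulStmt) {t d : ℕ} (hd : gc t * d + 1 < 2 ^ d) (c : Code) (S : Finset ℕ)
    (w : ℕ → ℕ) (g : ℕ) (hK : ¬ c.KM S t) (hg : c.GirW S w g) :
    g * c.nul S ≤ (16 * gc t * d + 8) * ∑ e ∈ S, w e := by
  classical
  obtain ⟨B, hB⟩ := c.exists_bas S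
  obtain ⟨a, ha⟩ := exists_rep hB
  have h0 : ∀ f, ∃ P, f ∈ S \ B → P ⊆ B ∧ c.cyc (insert f P) := fun f => by
    by_cases hf : f ∈ S \ B
    · obtain ⟨P, h1, h2⟩ := hB.2.2 f hf
      exact ⟨P, fun _ => ⟨h1, h2⟩⟩
    · exact ⟨∅, fun h => absurd h hf⟩
  choose P hP using h0
  set W := ∑ e ∈ S, w e with hW
  set K := (S \ B).filter (fun f => 4 * w f < g) with hKdef
  have hKs : ∀ f ∈ K, f ∈ S \ B := fun f hf => (mem_filter.1 hf).1
  have hn : ∀ f ∈ K, ∀ f' ∈ K, f ∉ P f' := fun f hf f' hf' h =>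
    (mem_sdiff.1 (hKs f hf)).2 ((hP f' (hKs f' hf')).1 h)
  have hheavy : g * ((S \ B).filter (fun f => ¬ 4 * w f < g)).card ≤ 4 * W := by
    rw [mul_comm, ← smul_eq_mul, ← sum_const, hW, mul_sum]
    exact (sum_le_sum fun f hf => not_lt.1 (mem_filter.1 hf).2).trans
      (sum_le_sum_of_subset ((filter_subset _ _).trans sdiff_subset))
  have hpack := packing K (units w B) (fun f => units w (P f)) (δ := (g + 1) / 2) hd
    (fun f hf u hu => mem_units.2 ⟨(hP f (hKs f hf)).1 (mem_units.1 hu).1, (mem_units.1 hu).2⟩)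
    (fun f hf f' hf' hne => by
      have h2 : f' ∉ P f ∆ P f' := by simp [mem_symmDiff, hn f' hf' f hf, hn f' hf' f' hf']
      have h3 : f ∉ insert f' (P f ∆ P f') := by
        simp [mem_symmDiff, hn f hf f hf, hn f hf f' hf', hne]
      have h4 := hg (insert f (insert f' (P f ∆ P f')))
        (insert_subset (mem_sdiff.1 (hKs f hf)).1 (insert_subset (mem_sdiff.1 (hKs f' hf')).1
          ((symmDiff_le_sup.trans (sup_le (hP f (hKs f hf)).1 (hP f' (hKs f' hf')).1)).trans
            hB.1)))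
        (c.add' (hP f (hKs f hf)).2 (hP f' (hKs f' hf')).2 fun x => by
          have k1 := hn f hf f hf
          have k2 := hn f hf f' hf'
          have k3 := hn f' hf' f hf
          have k4 := hn f' hf' f' hf'
          simp only [mem_symmDiff, mem_insert]
          grind) (insert_nonempty _ _)
      rw [sum_insert h3, sum_insert h2] at h4
      rw [units_symmDiff, card_units]
      have h5 := (mem_filter.1 hf).2
      have h6 := (mem_filter.1 hf').2
      omega)
    (fun T hT => by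
      have h1 : T.image Prod.fst ⊆ B := fun e he => by
        obtain ⟨u, hu, rfl⟩ := mem_image.1 he
        exact (mem_units.1 (hT hu)).1
      have h2 := traces_le (t := t) a B K P
        (fun h => hK (km_of_hasK ha (h.mono (Set.image_mono (coe_subset.2
          (union_subset hB.1 fun f hf => (mem_sdiff.1 (hKs f hf)).1))))))
        (fun f hf => ⟨(hP f (hKs f hf)).1, rep_insert ha (mem_sdiff.1 (hKs f hf)).1
          ((hP f (hKs f hf)).1.trans hB.1) (hn f hf f hf) (hP f (hKs f hf)).2⟩)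
        (fun Z hZ h => hB.2.1 Z hZ ((ha Z (hZ.trans hB.1)).1 h)) h1
      have h3 : K.image (fun f => units w (P f) ∩ T) =
          (K.image (P · ∩ T.image Prod.fst)).image (fun M => T.filter (·.1 ∈ M)) := by
        rw [image_image]
        refine image_congr fun f _ => ?_
        ext u
        simp only [Function.comp, mem_inter, mem_filter, mem_units]
        exact ⟨fun h => ⟨h.2, h.1.1, mem_image_of_mem _ h.2⟩,
          fun h => ⟨⟨h.2.1, (mem_units.1 (hT h.1)).2⟩, h.1⟩⟩
      rw [h3]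
      exact card_image_le.trans (h2.trans
        (Nat.add_le_add_right (Nat.mul_le_mul_left _ card_image_le) _)))
  rw [card_units] at hpack
  have hBW : ∑ e ∈ B, w e ≤ W := sum_le_sum_of_subset hB.1
  have hlight : g * K.card ≤ (16 * gc t * d + 4) * W := by
    rcases K.eq_empty_or_nonempty with h | ⟨f, hf⟩
    · simp [h]
    have hs : insert f (P f) ⊆ S :=
      insert_subset (mem_sdiff.1 (hKs f hf)).1 ((hP f (hKs f hf)).1.trans hB.1)
    have h1 : g ≤ W := (hg _ hs (hP f (hKs f hf)).2 (insert_nonempty _ _)).trans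
      (sum_le_sum_of_subset hs)
    have h2 := (mem_filter.1 hf).2
    have h3 : g * K.card ≤ 2 * ((g + 1) / 2) * K.card := Nat.mul_le_mul_right _ (by omega)
    have h4 : (g + 1) / 2 ≤ W := by omega
    have h5 := Nat.mul_le_mul_left (8 * gc t * d) hBW
    nlinarith
  rw [hN.bas c S B hB, ← card_filter_add_card_filter_not (s := S \ B) (fun f => 4 * w f < g),
    ← hKdef, mul_add]
  refine (Nat.add_le_add hlight hheavy).trans (le_of_eq ?_)
  ring

end Light

theorem light_stmt (hN : NulStmt) : LightStmt := by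
  intro t
  obtain ⟨d, hd⟩ := exists_vc (gc t)
  refine ⟨16 * gc t * d + 8, fun c S w g hK hw hg => ?_⟩
  generalize hc : 16 * gc t * d + 8 = c₀
  refine le_of_forall_pos_le_add fun ε hε => ?_
  obtain ⟨N, hN'⟩ := exists_nat_gt ((c₀ : ℝ) * S.card / ε)
  have hN0 : (0 : ℝ) < N := lt_of_le_of_lt (by positivity) hN'
  have h1 := Light.light_nat hN hd c S (fun e => ⌈N * w e⌉₊) ⌈N * g⌉₊ hK fun Z hZ h hne => by
    rw [Nat.ceil_le, Nat.cast_sum]
    refine (mul_le_mul_of_nonneg_left (hg Z hZ h hne) hN0.le).trans ?_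
    rw [mul_sum]
    exact sum_le_sum fun e _ => Nat.le_ceil _
  rw [hc] at h1
  have h2 : (⌈N * g⌉₊ : ℝ) * c.nul S ≤ c₀ * ∑ e ∈ S, (⌈N * w e⌉₊ : ℝ) := by exact_mod_cast h1
  have h3 : ∑ e ∈ S, (⌈N * w e⌉₊ : ℝ) ≤ N * ∑ e ∈ S, w e + S.card := by
    rw [mul_sum, card_eq_sum_ones, Nat.cast_sum, ← sum_add_distrib]
    exact sum_le_sum fun e he => by
      simpa using (Nat.ceil_lt_add_one (mul_nonneg hN0.le (hw e he))).le
  have h4 : N * g * c.nul S ≤ (⌈N * g⌉₊ : ℝ) * c.nul S :=
    mul_le_mul_of_nonneg_right (Nat.le_ceil _) (Nat.cast_nonneg _)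
  have h5 := mul_le_mul_of_nonneg_left h3 (Nat.cast_nonneg (α := ℝ) c₀)
  rw [div_lt_iff₀ hε] at hN'
  refine le_of_mul_le_mul_left ?_ hN0
  nlinarith

end Pool.Agent.MP71

end MrgPart1

-- ======== part 2: formerly Pool.Agent.MP_71daef_lc.det.Tree
section MrgPart2

/-!
Cuts, even subgraphs and spanning trees of the complete bipartite graph.
-/

set_option autoImplicit false

namespace Pool.Agent.MP71

open Finset symmDiff

namespace TreeAux

/-- The indicator with values in the two-element field. -/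
def chi {α : Type} [DecidableEq α] (U : Finset α) (v : α) : F2 := if v ∈ U then 1 else 0

theorem f2_add_self (x : F2) : x + x = 0 := by revert x; decide

theorem sum_symmDiff {α : Type} [DecidableEq α] [Fintype α] (F F' : Finset α) (f : α → F2) :
    ∑ e ∈ F ∆ F', f e = ∑ e ∈ F, f e + ∑ e ∈ F', f e := by
  have h : ∀ G : Finset α, ∑ e ∈ G, f e = ∑ e, if e ∈ G then f e else 0 := fun G => by
    rw [sum_ite_mem, univ_inter]
  rw [h, h F, h F', ← sum_add_distrib]
  refine sum_congr rfl fun e _ => ?_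
  by_cases h1 : e ∈ F <;> by_cases h2 : e ∈ F' <;> simp [mem_symmDiff, h1, h2, f2_add_self]

theorem card_int {α : Type} [DecidableEq α] (F G : Finset α) :
    ((F ∩ G).card : F2) = ∑ e ∈ F, chi G e := by
  unfold chi
  rw [sum_ite_mem, sum_const, nsmul_eq_mul, mul_one]

theorem mem_cut {a : ℕ} {U : Finset (Vtx a)} {e : Edg a} :
    e ∈ cut U ↔ ¬ (Sum.inl e.1 ∈ U ↔ Sum.inr e.2 ∈ U) := by
  simp [cut]

theorem chi_cut {a : ℕ} (U : Finset (Vtx a)) (e : Edg a) :
    chi (cut U) e = chi U (Sum.inl e.1) + chi U (Sum.inr e.2) := by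
  unfold chi
  simp only [mem_cut]
  by_cases h1 : Sum.inl e.1 ∈ U <;> by_cases h2 : Sum.inr e.2 ∈ U <;> simp [h1, h2, f2_add_self]

/-- The parity of the degree. -/
def deg {a : ℕ} (F : Finset (Edg a)) (v : Vtx a) : F2 := ((F ∩ cut {v}).card : F2)

theorem deg_eq {a : ℕ} (F : Finset (Edg a)) (v : Vtx a) :
    deg F v = ∑ e ∈ F, (chi {v} (Sum.inl e.1) + chi {v} (Sum.inr e.2)) := by
  unfold deg
  rw [card_int]
  exact sum_congr rfl fun e _ => chi_cut _ _

theorem deg_symmDiff {a : ℕ} (F F' : Finset (Edg a)) (v : Vtx a) :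
    deg (F ∆ F') v = deg F v + deg F' v := by
  simp only [deg_eq, sum_symmDiff]

theorem deg_single {a : ℕ} (e : Edg a) (v : Vtx a) :
    deg {e} v = chi {v} (Sum.inl e.1) + chi {v} (Sum.inr e.2) := by
  rw [deg_eq, sum_singleton]

theorem deg_empty {a : ℕ} (v : Vtx a) : deg (∅ : Finset (Edg a)) v = 0 := by
  rw [deg_eq, sum_empty]

theorem eul_iff {a : ℕ} (F : Finset (Edg a)) : Eul F ↔ ∀ v, Even (F ∩ cut {v}).card := by
  have h1 : ∀ p : Fin a, F ∩ cut {Sum.inl p} = F.filter (·.1 = p) := fun p => by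
    ext e; simp [mem_cut]
  have h2 : ∀ q : Fin a, F ∩ cut {Sum.inr q} = F.filter (·.2 = q) := fun q => by
    ext e; simp [mem_cut]
  constructor
  · rintro ⟨h3, h4⟩ (p | q)
    · rw [h1]; exact h3 p
    · rw [h2]; exact h4 q
  · intro h
    exact ⟨fun p => h1 p ▸ h _, fun q => h2 q ▸ h _⟩

theorem eul_iff_deg {a : ℕ} (F : Finset (Edg a)) : Eul F ↔ ∀ v, deg F v = 0 := by
  rw [eul_iff]
  exact forall_congr' fun v => ZMod.natCast_eq_zero_iff_even.symm

theorem par {a : ℕ} (F : Finset (Edg a)) (U : Finset (Vtx a)) :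
    ((F ∩ cut U).card : F2) = ∑ v ∈ U, ((F ∩ cut {v}).card : F2) := by
  have h : ∀ w : Vtx a, ∑ v ∈ U, chi {v} w = chi U w := fun w => by
    simp [chi, sum_ite_eq]
  have h2 : ∀ v, ((F ∩ cut {v}).card : F2) = _ := deg_eq F
  simp only [h2]
  rw [card_int, sum_comm]
  refine sum_congr rfl fun e _ => ?_
  rw [sum_add_distrib, h, h, chi_cut]

theorem isCut {a : ℕ} (F : Finset (Edg a)) (hF : ∀ F', Eul F' → Even (F ∩ F').card) :
    ∃ U, F = cut U := by
  classical
  rcases Nat.eq_zero_or_pos a with rfl | ha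
  · exact ⟨∅, Subsingleton.elim _ _⟩
  let z : Fin a := ⟨0, ha⟩
  have key : ∀ p q : Fin a, chi F (p, q) + chi F (p, z) + chi F (z, q) + chi F (z, z) = 0 := by
    intro p q
    have h1 : Eul (((({(p, q)} : Finset (Edg a)) ∆ {(p, z)}) ∆ {(z, q)}) ∆ {(z, z)}) := by
      rw [eul_iff_deg]
      intro v
      simp only [deg_symmDiff, deg_single]
      generalize chi {v} (Sum.inl p) = x₁
      generalize chi {v} (Sum.inr q) = x₂
      generalize chi {v} (Sum.inl z) = x₃
      generalize chi {v} (Sum.inr z) = x₄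
      revert x₁ x₂ x₃ x₄
      decide
    have h2 := ZMod.natCast_eq_zero_iff_even.2 (hF _ h1)
    rw [inter_comm, card_int] at h2
    simpa only [sum_symmDiff, sum_singleton] using h2
  refine ⟨univ.filter fun v => Sum.elim (fun p => (p, z) ∈ F)
    (fun q => ¬ ((z, q) ∈ F ↔ (z, z) ∈ F)) v, ?_⟩
  ext ⟨p, q⟩
  have := key p q
  simp only [mem_cut, mem_filter, mem_univ, true_and, Sum.elim_inl, Sum.elim_inr]
  unfold chi at this
  by_cases h1 : (p, q) ∈ F <;> by_cases h2 : (p, z) ∈ F <;> by_cases h3 : (z, q) ∈ F <;>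
    by_cases h4 : (z, z) ∈ F <;> simp only [h1, h2, h3, h4, if_true, if_false] at this ⊢ <;>
    first | (exact absurd this (by decide)) | simp

/-- A rooted spanning tree given by a parent map. -/
structure Rooted {a : ℕ} (r : Vtx a) (pa : Vtx a → Vtx a) (up : Vtx a → Edg a)
    (h : Vtx a → ℕ) : Prop where
  ends : ∀ v, v ≠ r → (Sum.inl (up v).1 = v ∧ Sum.inr (up v).2 = pa v) ∨
    (Sum.inr (up v).2 = v ∧ Sum.inl (up v).1 = pa v)
  lt : ∀ v, v ≠ r → h (pa v) < h v

variable {a : ℕ} {r : Vtx a} {pa : Vtx a → Vtx a} {up : Vtx a → Edg a} {h : Vtx a → ℕ}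

theorem Rooted.chi_up (H : Rooted r pa up h) {v : Vtx a} (hv : v ≠ r) (U : Finset (Vtx a)) :
    chi U (Sum.inl (up v).1) + chi U (Sum.inr (up v).2) = chi U v + chi U (pa v) := by
  rcases H.ends v hv with ⟨h1, h2⟩ | ⟨h1, h2⟩
  · rw [h1, h2]
  · rw [h1, h2, add_comm]

theorem Rooted.acyclic (H : Rooted r pa up h) (F : Finset (Edg a))
    (hF : F ⊆ (univ.erase r).image up) (hE : Eul F) : F = ∅ := by
  by_contra hne
  have hS : ((univ.erase r).filter fun v => up v ∈ F).Nonempty := by
    obtain ⟨e, he⟩ := nonempty_iff_ne_empty.2 hne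
    obtain ⟨v, hv, rfl⟩ := mem_image.1 (hF he)
    exact ⟨v, mem_filter.2 ⟨hv, he⟩⟩
  obtain ⟨v, hv, hmax⟩ := exists_max_image _ h hS
  obtain ⟨hv1, hv2⟩ := mem_filter.1 hv
  have hvr : v ≠ r := ne_of_mem_erase hv1
  have hd := (eul_iff_deg F).1 hE v
  rw [deg_eq, sum_eq_single_of_mem (up v) hv2, H.chi_up hvr] at hd
  · have h3 : pa v ≠ v := fun h4 => by
      have := H.lt v hvr
      rw [h4] at this
      exact lt_irrefl _ this
    simp [chi, h3] at hd
  · intro e he hne'
    obtain ⟨w, hw, rfl⟩ := mem_image.1 (hF he)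
    have hwr : w ≠ r := ne_of_mem_erase hw
    have h1 : w ≠ v := fun h4 => hne' (h4 ▸ rfl)
    have h2 : pa w ≠ v := fun h4 => by
      have h5 := H.lt w hwr
      have h6 := hmax w (mem_filter.2 ⟨hw, he⟩)
      rw [h4] at h5
      omega
    rw [H.chi_up hwr]
    simp [chi, h1, h2]

theorem Rooted.path (H : Rooted r pa up h) (v : Vtx a) :
    ∃ J ⊆ (univ.erase r).image up, ∀ w, deg J w = chi {w} v + chi {w} r := by
  induction hn : h v using Nat.strong_induction_on generalizing v with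
  | _ n ih =>
    by_cases hv : v = r
    · exact ⟨∅, empty_subset _, fun w => by rw [deg_empty, hv, f2_add_self]⟩
    · obtain ⟨J, hJ, hd⟩ := ih _ (hn ▸ H.lt v hv) (pa v) rfl
      refine ⟨{up v} ∆ J, symmDiff_le_sup.trans (sup_le ?_ hJ), fun w => ?_⟩
      · exact singleton_subset_iff.2 (mem_image_of_mem _ (mem_erase.2 ⟨hv, mem_univ _⟩))
      · rw [deg_symmDiff, deg_single, H.chi_up hv, hd]
        generalize chi {w} v = x₁
        generalize chi {w} (pa v) = x₂
        generalize chi {w} r = x₃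
        revert x₁ x₂ x₃
        decide

theorem Rooted.join (H : Rooted r pa up h) (F : Finset (Edg a)) :
    ∃ J ⊆ (univ.erase r).image up, Eul (F ∆ J) := by
  suffices hs : ∃ J ⊆ (univ.erase r).image up, ∀ w, deg J w = deg F w by
    obtain ⟨J, hJ, hd⟩ := hs
    refine ⟨J, hJ, (eul_iff_deg _).2 fun w => ?_⟩
    rw [deg_symmDiff, hd, f2_add_self]
  induction F using Finset.induction_on with
  | empty => exact ⟨∅, empty_subset _, fun _ => rfl⟩
  | insert e F he ih =>
    obtain ⟨J, hJ, hd⟩ := ih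
    obtain ⟨J₁, hJ₁, hd₁⟩ := H.path (Sum.inl e.1)
    obtain ⟨J₂, hJ₂, hd₂⟩ := H.path (Sum.inr e.2)
    refine ⟨(J₁ ∆ J₂) ∆ J, symmDiff_le_sup.trans (sup_le
      (symmDiff_le_sup.trans (sup_le hJ₁ hJ₂)) hJ), fun w => ?_⟩
    rw [deg_symmDiff, deg_symmDiff, hd, hd₁, hd₂, deg_eq (insert e F), sum_insert he, ← deg_eq]
    generalize chi {w} (Sum.inl e.1) = x₁
    generalize chi {w} (Sum.inr e.2) = x₂
    generalize chi {w} r = x₃
    generalize deg F w = x₄
    revert x₁ x₂ x₃ x₄
    decide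

theorem Rooted.conn (H : Rooted r pa up h) (U : Finset (Vtx a))
    (hU : Disjoint ((univ.erase r).image up) (cut U)) : cut U = ∅ := by
  have key : ∀ v, (v ∈ U ↔ r ∈ U) := by
    intro v
    induction hn : h v using Nat.strong_induction_on generalizing v with
    | _ n ih =>
      by_cases hv : v = r
      · rw [hv]
      · have h1 := ih _ (hn ▸ H.lt v hv) (pa v) rfl
        have h2 := disjoint_left.1 hU (mem_image_of_mem up (mem_erase.2 ⟨hv, mem_univ _⟩))
        rw [mem_cut, not_not] at h2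
        rcases H.ends v hv with ⟨h3, h4⟩ | ⟨h3, h4⟩
        · rw [h3, h4] at h2; exact h2.trans h1
        · rw [h3, h4] at h2; exact h2.symm.trans h1
  refine eq_empty_of_forall_notMem fun e he => ?_
  exact mem_cut.1 he ((key _).trans (key _).symm)

theorem tree (a : ℕ) (ι : Type) [Fintype ι] (R : ι → Finset (Vtx a)) (hR : Part R) :
    ∃ (Tr : Finset (Edg a)) (e : ι → Edg a), Function.Injective e ∧
      (∀ F ⊆ Tr, Eul F → F = ∅) ∧ (∀ F, ∃ J ⊆ Tr, Eul (F ∆ J)) ∧
      (∀ i, Tr ∩ cut (R i) = {e i}) ∧ ∀ U, Disjoint Tr (cut U) → cut U = ∅ := by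
  classical
  have hg : ∀ v : Vtx a, ∃ o : Option ι, ∀ i, (v ∈ R i ↔ o = some i) := by
    intro v
    by_cases hv : ∃ i, v ∈ R i
    · obtain ⟨i, hi⟩ := hv
      refine ⟨some i, fun j => ⟨fun hj => ?_, fun hj => Option.some.inj hj ▸ hi⟩⟩
      by_contra hij
      exact disjoint_left.1 (hR.disj i j fun h => hij (h ▸ rfl)) hi hj
    · exact ⟨none, fun i => ⟨fun hi => absurd ⟨i, hi⟩ hv, fun h => by cases h⟩⟩
  choose g hg using hg
  have hnone : ∀ v, (∀ i, v ∉ R i) → g v = none := by
    intro v hv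
    rcases ho : g v with _ | i
    · rfl
    · exact absurd ((hg v i).2 ho) (hv i)
  have hP : ∀ o : Option ι, ∃ p, g (Sum.inl p) = o := by
    rintro (_ | i)
    · obtain ⟨p, hp⟩ := hR.rest.1
      exact ⟨p, hnone _ hp⟩
    · obtain ⟨p, hp⟩ := (hR.both i).1
      exact ⟨p, (hg _ i).1 hp⟩
  have hQ : ∀ o : Option ι, ∃ q, g (Sum.inr q) = o := by
    rintro (_ | i)
    · obtain ⟨q, hq⟩ := hR.rest.2
      exact ⟨q, hnone _ hq⟩
    · obtain ⟨q, hq⟩ := (hR.both i).2
      exact ⟨q, (hg _ i).1 hq⟩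
  choose P hP using hP
  choose Q hQ using hQ
  let t : Fin a → Fin a := fun p => if p = P (g (Sum.inl p)) then Q none else Q (g (Sum.inl p))
  let up : Vtx a → Edg a := Sum.elim (fun p => (p, t p)) fun q => (P (g (Sum.inr q)), q)
  let pa : Vtx a → Vtx a := Sum.elim (fun p => Sum.inr (t p)) fun q => Sum.inl (P (g (Sum.inr q)))
  let ht : Vtx a → ℕ := Sum.elim (fun p => if p = P (g (Sum.inl p)) then 1 else 3)
    fun q => if q = Q none then 0 else 2
  have H : Rooted (Sum.inr (Q none)) pa up ht := by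
    refine ⟨?_, ?_⟩
    · rintro (p | q) _
      · exact Or.inl ⟨rfl, rfl⟩
      · exact Or.inr ⟨rfl, rfl⟩
    · rintro (p | q) hv
      · simp only [pa, ht, t, Sum.elim_inl, Sum.elim_inr]
        by_cases hp : p = P (g (Sum.inl p))
        · rw [if_pos hp, if_pos hp, if_pos rfl]; decide
        · rw [if_neg hp, if_neg hp]; split_ifs <;> decide
      · have hq : q ≠ Q none := fun h => hv (h ▸ rfl)
        simp [pa, ht, hq, hP]
  refine ⟨(univ.erase (Sum.inr (Q none))).image up, fun i => (P (some i), Q none), ?_,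
    H.acyclic, H.join, fun i => ?_, H.conn⟩
  · intro i j hij
    have h1 : P (some i) = P (some j) := congrArg Prod.fst hij
    have h2 := hP (some i)
    rw [h1, hP] at h2
    exact (Option.some.inj h2).symm
  · ext e
    simp only [mem_inter, mem_cut, mem_singleton, hg]
    constructor
    · rintro ⟨h1, h2⟩
      obtain ⟨v, -, rfl⟩ := mem_image.1 h1
      rcases v with p | q
      · simp only [up, t, Sum.elim_inl] at h2 ⊢
        by_cases hp : p = P (g (Sum.inl p))
        · rw [if_pos hp] at h2 ⊢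
          have h3 : g (Sum.inl p) = some i := by simpa [hQ] using h2
          rw [h3] at hp
          rw [hp]
        · rw [if_neg hp, hQ] at h2
          exact absurd Iff.rfl h2
      · simp [up, hP] at h2
    · rintro rfl
      refine ⟨mem_image.2 ⟨Sum.inl (P (some i)), by simp, ?_⟩, by simp [hP, hQ]⟩
      simp [up, t, hP]

end TreeAux

open TreeAux in
theorem tree_stmt : TreeStmt where
  eul _ := eul_iff
  par _ := par
  add _ F F' U := by simp only [card_int, sum_symmDiff]
  ins _ U v hv := by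
    ext e
    simp only [mem_cut, mem_symmDiff, mem_insert, mem_singleton]
    by_cases h1 : Sum.inl e.1 = v <;> by_cases h2 : Sum.inr e.2 = v
    · exact absurd (h1.trans h2.symm) Sum.inl_ne_inr
    · subst h1; simp [hv]
    · subst h2; simp [hv]
    · simp [h1, h2]
  isCut _ := isCut
  tree := tree

end Pool.Agent.MP71

end MrgPart2

-- marker of a merged file
example : 731051 + 722140 = 731051 + 722140 := rfl

end MrgPart1

-- ======== part 2: formerly Pool.Agent.MP_71daef_lc.det.ARun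
section MrgPart2

-- ======== part 0: formerly Pool.Agent.MP_71daef_lc.det.ABridge
section MrgPart0

/-!
Block A: the inputs of the algorithm follow from the statements of block M.
-/

set_option autoImplicit false

namespace Pool.Agent.MP71.DA

open Finset Pool.Agent.H82 Pool.Agent.PolyT

namespace ABridge

theorem mem_units {w : ℕ → ℕ} {X : Finset ℕ} {p : ℕ × ℕ} :
    p ∈ units w X ↔ p.1 ∈ X ∧ p.2 < w p.1 := by
  simp only [units, mem_biUnion, mem_image, mem_range]
  constructor
  · rintro ⟨e, h1, i, h2, rfl⟩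
    exact ⟨h1, h2⟩
  · rintro ⟨h1, h2⟩
    exact ⟨p.1, h1, p.2, h2, rfl⟩

theorem card_units (w : ℕ → ℕ) (X : Finset ℕ) : (units w X).card ≤ ∑ e ∈ X, w e :=
  card_biUnion_le.trans (sum_le_sum fun _ _ => card_image_le.trans (card_range _).le)

end ABridge

theorem spwA (hN : NulStmt) (h : SPWStmt) (d : ℕ) : SpwA fun c E => ¬ c.Uni E d := by
  obtain ⟨V, q, C, h⟩ := h d 31
  refine ⟨V, C, q, fun c E w γ Z hU hγ hW hZ _ hw => ?_⟩
  obtain ⟨𝒴, h1, h2, h3⟩ := h c E Z w γ hU hW hγ hZ hw
  refine ⟨𝒴.image (image Prod.fst), card_image_le.trans h1, ?_, fun T hT h4 X hX B hB => ?_⟩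
  · intro Y' hY'
    obtain ⟨Y, hY, rfl⟩ := mem_image.1 hY'
    obtain ⟨h5, h6, h7⟩ := h2 Y hY
    refine ⟨fun e he => ?_, disjoint_left.2 fun e he h8 => ?_,
      h7.trans (Nat.mul_le_mul_left _ ((card_le_card fun p hp => ?_).trans
        (ABridge.card_units w _)))⟩
    · obtain ⟨p, hp, rfl⟩ := mem_image.1 he
      exact (ABridge.mem_units.1 (h5 hp)).1
    · obtain ⟨p, hp, rfl⟩ := mem_image.1 he
      exact disjoint_left.1 h6 hp (ABridge.mem_units.2 ⟨h8, (ABridge.mem_units.1 (h5 hp)).2⟩)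
    · exact ABridge.mem_units.2 ⟨mem_image_of_mem _ hp, (ABridge.mem_units.1 (h5 hp)).2⟩
  · rw [← hN.bas c X B hB]
    refine h3 X (hX.trans hT) fun Y hY h5 => h4 _ (mem_image_of_mem _ hY) fun e he => ?_
    obtain ⟨p, hp, rfl⟩ := mem_image.1 he
    exact hX (ABridge.mem_units.1 (h5 hp)).1

theorem cntA (h : CountWStmt) (d : ℕ) : CntA fun c E => ¬ c.Uni E d := by
  obtain ⟨V, h⟩ := h d 3
  exact ⟨V, fun c E w γ hU hγ hW => h c E w γ hU hW hγ⟩

theorem top_of (hP : Pl2Stmt) (hT : ∀ d, TopStmt fun c E => ¬ c.Uni E d) : MP71.TopStmt := by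
  intro d
  obtain ⟨a, r, s, κ, h⟩ := hT d
  exact ⟨alg a r s κ, (poly_iff _).1 (hP a r s κ), fun m A hm hA => h m A hm hA⟩

end Pool.Agent.MP71.DA

end MrgPart0

-- ======== part 1: formerly Pool.Agent.MP_71daef_lc.det.AFind
section MrgPart1

/-!
Row FIND: the listing procedure finds all light cycles.
-/

set_option autoImplicit false

namespace Pool.Agent.MP71.DA

open Finset Pool.Agent.H82 Pool.Agent.PolyT

namespace AFind

theorem length_flat {β γ : Type} (l : List β) (c : List γ) :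
    (l.flatMap fun _ => c).length = l.length * c.length := by
  induction l with
  | nil => simp
  | cons a l ih => rw [List.flatMap_cons, List.length_append, ih, List.length_cons]; ring

theorem length_rep {β : Type} (k : ℕ) (l : List β) : (rep k l).length = k * l.length := by
  rw [rep, length_flat, List.length_range]

theorem length_hl (U : List Bool) : (hl U).length = 2 * U.length + 1 := by
  simp [hl]; ring

/-- The bits owned by the elements of `Y`. -/
def bts (L : ℕ) (u : ℕ → ℕ) (Y : Finset ℕ) : Finset ℕ :=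
  Y.biUnion fun e => Ico (e * L) (e * L + u e)

theorem mem_bts {L j : ℕ} {u : ℕ → ℕ} {Y : Finset ℕ} :
    j ∈ bts L u Y ↔ ∃ e ∈ Y, e * L ≤ j ∧ j < e * L + u e := by
  simp [bts]

theorem blk {L e e' j a a' : ℕ} (ha : a ≤ L) (ha' : a' ≤ L) (h1 : e * L ≤ j) (h2 : j < e * L + a)
    (h3 : e' * L ≤ j) (h4 : j < e' * L + a') : e = e' := by
  rcases lt_trichotomy e e' with h | h | h
  · have := Nat.mul_le_mul_right L (Nat.succ_le_of_lt h)
    rw [Nat.succ_mul] at this
    omega
  · exact h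
  · have := Nat.mul_le_mul_right L (Nat.succ_le_of_lt h)
    rw [Nat.succ_mul] at this
    omega

theorem card_bts {L : ℕ} {u : ℕ → ℕ} {Y : Finset ℕ} (h : ∀ e ∈ Y, u e ≤ L) :
    (bts L u Y).card = ∑ e ∈ Y, u e := by
  rw [bts, card_biUnion]
  · exact sum_congr rfl fun e _ => by simp
  · intro e he e' he' hne
    refine disjoint_left.2 fun j h1 h2 => hne ?_
    obtain ⟨h3, h4⟩ := mem_Ico.1 h1
    obtain ⟨h5, h6⟩ := mem_Ico.1 h2
    exact blk (h e he) (h e' he') h3 h4 h5 h6

theorem bts_sub {L n : ℕ} {u : ℕ → ℕ} {Y : Finset ℕ} (hY : Y ⊆ range n) (h : ∀ e < n, u e ≤ L) :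
    bts L u Y ⊆ range (n * L) := by
  intro j hj
  obtain ⟨e, he, -, h2⟩ := mem_bts.1 hj
  have h3 := mem_range.1 (hY he)
  have h4 := Nat.mul_le_mul_right L (Nat.succ_le_of_lt h3)
  have h5 := h e h3
  rw [Nat.succ_mul] at h4
  exact mem_range.2 (by omega)

theorem bts_disj {L n : ℕ} {u : ℕ → ℕ} {Y Z : Finset ℕ} (hY : Y ⊆ range n) (hZ : Z ⊆ range n)
    (h : ∀ e < n, u e ≤ L) (hd : Disjoint Y Z) : Disjoint (bts L u Y) (bts L u Z) := by
  refine disjoint_left.2 fun j h1 h2 => ?_
  obtain ⟨e, he, h3, h4⟩ := mem_bts.1 h1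
  obtain ⟨e', he', h5, h6⟩ := mem_bts.1 h2
  obtain rfl := blk (h e (mem_range.1 (hY he))) (h e' (mem_range.1 (hZ he'))) h3 h4 h5 h6
  exact disjoint_left.1 hd he he'

variable {A : List (List Bool)}

theorem mem_kept {r e : ℕ} {RH : List Bool} {w : List ℕ} {bits : List Bool} :
    e ∈ kept A r RH w bits ↔ e < A.length ∧ ∀ i < RH.length, i < r * w.getD e 0 →
      bits.getD (e * RH.length + i) false = false := by
  rw [kept, List.mem_filter, mem_idx, List.all_eq_true]
  refine and_congr_right fun _ => forall_congr' fun i => ?_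
  rw [mem_idx]
  refine imp_congr_right fun _ => ?_
  cases bits.getD (e * RH.length + i) false <;> simp [ltB]

theorem nodup_kept (r : ℕ) (RH : List Bool) (w : List ℕ) (bits : List Bool) :
    (kept A r RH w bits).Nodup := List.nodup_range.filter _

theorem sp_nil : sp A [] = ∅ := by
  ext j
  simp [sp]

theorem sp_x (z : List Bool) : sp A (xorL A z []) = sp A z := by
  rw [sp_xorL, sp_nil]
  exact symmDiff_bot _

theorem x_inj {z z' : List Bool} (h : sp A z = sp A z') : xorL A z [] = xorL A z' [] := by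
  refine List.map_congr_left fun j hj => ?_
  have h1 := Finset.ext_iff.1 h j
  simp only [sp, mem_filter, mem_range, mem_idx.1 hj, true_and] at h1
  rw [Bool.eq_iff_iff.2 h1]

theorem mem_lst {r s κ : ℕ} {U S : List Bool} {w : List ℕ} {z : List Bool} :
    z ∈ lst r s κ A U S w ↔
      (∃ z' ∈ find r s κ A U S w, xorL A z' [] = z) ∧ (sp A z).Nonempty := by
  rw [lst, List.mem_dedup, List.mem_filter, List.mem_map, ltB_iff, wt_eq, card_pos]

theorem snd (hC : CobStmt) {m : ℕ} (hm : (A.headD []).length = m) (r s κ : ℕ) (U S : List Bool)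
    (w : List ℕ) : Snd m A (lst r s κ A U S w) := by
  refine ⟨List.Nodup.map_on (fun z hz z' hz' e => ?_) (List.nodup_dedup _), fun z hz => ?_⟩
  · obtain ⟨⟨y, -, rfl⟩, -⟩ := mem_lst.1 hz
    obtain ⟨⟨y', -, rfl⟩, -⟩ := mem_lst.1 hz'
    rw [sp_x, sp_x] at e
    exact x_inj e
  · obtain ⟨⟨y, hy, rfl⟩, h2⟩ := mem_lst.1 hz
    refine ⟨?_, h2⟩
    rw [sp_x]
    obtain ⟨f, -, hy⟩ := List.mem_flatMap.1 hy
    obtain ⟨g, -, hy⟩ := List.mem_flatMap.1 hy
    exact (hC m A _ _ w hm (nodup_kept _ _ _ _) fun e he => (mem_kept.1 he).1).1 s y hy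

theorem arith {V r γ c a p : ℕ} (hγ : 0 < γ) (hc : c < 2 ^ (2 * V * γ + 1)) (ha : a ≤ 31 * r * γ)
    (hp : p < 2 ^ γ) :
    (c + 1) * 2 ^ (a + (2 * V * γ + 1)) * (r * p) < 2 ^ ((4 * V + 32 * r + 4) * γ) := by
  have h1 : r * p < 2 ^ r * 2 ^ γ :=
    lt_of_le_of_lt (Nat.mul_le_mul_right p Nat.lt_two_pow_self.le)
      (Nat.mul_lt_mul_of_pos_left hp (by positivity))
  have h2 : (c + 1) * 2 ^ (a + (2 * V * γ + 1)) ≤
      2 ^ (2 * V * γ + 1) * 2 ^ (31 * r * γ + (2 * V * γ + 1)) :=
    Nat.mul_le_mul hc (Nat.pow_le_pow_right two_pos (by omega))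
  refine lt_of_lt_of_le (Nat.mul_lt_mul_of_le_of_lt h2 h1 (by positivity)) ?_
  rw [← pow_add, ← pow_add, ← pow_add]
  refine Nat.pow_le_pow_right two_pos ?_
  have h3 : r ≤ r * γ := Nat.le_mul_of_pos_right r hγ
  nlinarith

end AFind

open AFind in
theorem find_thm (Fr : Code → Finset ℕ → Prop) (hS : SpwA Fr) (hH : HitStmt) (hC : CobStmt) :
    FindStmt Fr := by
  obtain ⟨V, s₀, k, hS⟩ := hS
  refine ⟨k * (2 * V + 1), 31 * (2 * s₀ + 1), 4 * V + 32 * (k * (2 * V + 1)) + 4,
    fun m A U S hm hF hγ hn hs w => ⟨snd hC hm _ _ _ U S w, fun hw hG Z hZ hc hne hZw => ?_⟩⟩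
  set r := k * (2 * V + 1) with hr
  set γ := U.length with hγ'
  obtain ⟨𝒴, h1, h2, h3⟩ := hS _ _ (w.getD · 0) γ Z hF hγ hG hZ hc hZw
  have hsum : ∀ T ⊆ range A.length, ∑ e ∈ T, w.getD e 0 ≤ A.length * (2 * γ + 1) := by
    intro T hT
    refine (sum_le_card_nsmul T _ (2 * γ + 1) fun e he => hw e (mem_range.1 (hT he))).trans ?_
    rw [smul_eq_mul]
    exact Nat.mul_le_mul_right _ ((card_le_card hT).trans (card_range _).le)
  have hL : (rep r (hl U)).length = r * (2 * γ + 1) := by rw [length_rep, length_hl]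
  have hu : ∀ e < A.length, r * w.getD e 0 ≤ r * (2 * γ + 1) :=
    fun e he => Nat.mul_le_mul_left r (hw e he)
  have hcard : ∀ Y ⊆ range A.length, (bts (r * (2 * γ + 1)) (fun e => r * w.getD e 0) Y).card =
      r * ∑ e ∈ Y, w.getD e 0 := fun Y hY => by
    rw [card_bts fun e he => hu e (mem_range.1 (hY he)), mul_sum]
  have h4 : (𝒴.image (bts (r * (2 * γ + 1)) fun e => r * w.getD e 0)).card <
      2 ^ (2 * V * γ + 1) := by
    have h5 : (∑ e ∈ range A.length, w.getD e 0 + 1) ^ V ≤ (2 ^ γ) ^ V :=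
      Nat.pow_le_pow_left ((Nat.add_le_add_right (hsum _ subset_rfl) 1).trans hn) V
    refine lt_of_le_of_lt (card_image_le.trans (h1.trans (Nat.mul_le_mul_right _ h5))) ?_
    rw [← pow_mul, ← pow_add]
    exact Nat.pow_lt_pow_right one_lt_two (by nlinarith)
  have hMu : (rep (4 * V + 32 * r + 4) U).length = (4 * V + 32 * r + 4) * γ := length_rep _ _
  have hpos : (A.flatMap fun _ => rep r (hl U)).length = A.length * (r * (2 * γ + 1)) := by
    rw [length_flat, hL]
  obtain ⟨f, hf, y, hy, h6, h7⟩ := hH (rep (4 * V + 32 * r + 4) U)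
    (A.flatMap fun _ => rep r (hl U)) (bts (r * (2 * γ + 1)) (fun e => r * w.getD e 0) Z)
    (𝒴.image (bts (r * (2 * γ + 1)) fun e => r * w.getD e 0)) (2 * V * γ + 1)
    (by rw [hMu]; positivity) (by rw [hpos]; exact bts_sub hZ hu)
    (fun S' hS' => by
      obtain ⟨Y, hY, rfl⟩ := mem_image.1 hS'
      obtain ⟨a1, a2, a3⟩ := h2 Y hY
      refine ⟨by rw [hpos]; exact bts_sub a1 hu, bts_disj a1 hZ hu a2, ?_⟩
      rw [hcard Y a1, hr]
      have := Nat.mul_le_mul_left (2 * V + 1) a3
      nlinarith) h4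
    (by
      rw [hMu, hpos, hcard Z hZ, mul_left_comm A.length r]
      refine arith hγ h4 ?_ hn
      have := Nat.mul_le_mul_left r hZw
      nlinarith)
  set bits := lf (rep (4 * V + 32 * r + 4) U) f y (A.flatMap fun _ => rep r (hl U)) with hbits
  set T := kept A r (rep r (hl U)) w bits with hT
  have hTn : T.toFinset ⊆ range A.length :=
    fun e he => mem_range.2 (mem_kept.1 (List.mem_toFinset.1 he)).1
  have hZT : Z ⊆ T.toFinset := fun e he => List.mem_toFinset.2 (mem_kept.2
    ⟨mem_range.1 (hZ he), fun i _ hi => h6 _ (mem_bts.2 ⟨e, he, by rw [hL]; omega, by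
      rw [hL]; omega⟩)⟩)
  have hsp := h3 T.toFinset hTn fun Y hY hYT => by
    obtain ⟨j, hj, hb⟩ := h7 _ (mem_image_of_mem _ hY)
    obtain ⟨e, he, a1, a2⟩ := mem_bts.1 hj
    obtain ⟨a3, a4⟩ := mem_kept.1 (List.mem_toFinset.1 (hYT he))
    have a5 := hu e a3
    have a6 := a4 (j - e * (r * (2 * γ + 1))) (by rw [hL]; omega) (by omega)
    rw [hL, Nat.add_sub_cancel' a1, hb] at a6
    exact Bool.noConfusion a6
  obtain ⟨z, hz, rfl⟩ := (hC m A ((hl U).flatMap fun _ => true :: A.flatMap fun _ => hl U) T w hm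
    (nodup_kept _ _ _ _) fun e he => (mem_kept.1 he).1).2 γ s₀ 31 Z hγ
    (by
      rw [length_flat, List.length_cons, length_flat, length_hl]
      exact Nat.mul_le_mul (by omega) (Nat.add_le_add_right (hsum _ hTn) 1)) hsp hZT hc hZw
  refine ⟨xorL A z [], mem_lst.2 ⟨⟨z, ?_, rfl⟩, by rw [sp_x]; exact hne⟩, sp_x z⟩
  rw [hMu] at hf hy
  exact List.mem_flatMap.2 ⟨f, mem_idx.2 (hf.trans_le hs),
    List.mem_flatMap.2 ⟨y, mem_idx.2 (hy.trans_le hs), hz⟩⟩

end Pool.Agent.MP71.DA

end MrgPart1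

-- ======== part 2: formerly Pool.Agent.MP_71daef_lc.det.ALoc
section MrgPart2

/-!
Row LOC: a local optimum of the potential is cheap.
-/

set_option autoImplicit false

namespace Pool.Agent.MP71.DA

open Finset

namespace ALoc

/-- The drop of one term when the weight grows by one. -/
def dr (h m : ℕ) : ℕ := if m < h then 2 ^ (h - m - 1) else 0

/-- The rise of one term when the weight falls by one. -/
def ri (h m : ℕ) : ℕ := if m ≤ h then 2 ^ (h - m) else 0

theorem term_succ (h m : ℕ) : 2 ^ (h - m) - 1 = (2 ^ (h - (m + 1)) - 1) + dr h m := by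
  unfold dr
  split_ifs with hm
  · obtain ⟨d, rfl⟩ : ∃ d, h = m + 1 + d := ⟨h - (m + 1), by omega⟩
    have e1 : m + 1 + d - m = d + 1 := by omega
    have e2 : m + 1 + d - (m + 1) = d := by omega
    rw [e1, e2, Nat.add_sub_cancel, pow_succ]
    have : 0 < 2 ^ d := by positivity
    omega
  · have e1 : h - m = 0 := by omega
    have e2 : h - (m + 1) = 0 := by omega
    rw [e1, e2]; simp

theorem dr_eq_ri (h m : ℕ) : dr h m = ri h (m + 1) := by
  unfold dr ri
  by_cases hm : m < h
  · rw [if_pos hm, if_pos (by omega), Nat.sub_sub]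
  · rw [if_neg hm, if_neg (by omega)]

theorem ri_le (h m : ℕ) : ri h m * m ≤ h * (2 * dr h m + if m = h then 1 else 0) := by
  unfold dr ri
  rcases lt_trichotomy m h with hm | hm | hm
  · rw [if_pos hm.le, if_pos hm, if_neg hm.ne, add_zero]
    obtain ⟨d, rfl⟩ : ∃ d, h = m + 1 + d := ⟨h - (m + 1), by omega⟩
    have e1 : m + 1 + d - m = d + 1 := by omega
    rw [e1, Nat.add_sub_cancel, pow_succ]
    have : 0 < 2 ^ d := by positivity
    nlinarith
  · subst hm
    simp
  · rw [if_neg (by omega)]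
    simp

theorem sum_add_one (Z : Finset ℕ) (μ : ℕ → ℕ) (e : ℕ) :
    ∑ j ∈ Z, (μ j + if j = e then 1 else 0) = ∑ j ∈ Z, μ j + if e ∈ Z then 1 else 0 := by
  rw [sum_add_distrib, sum_ite_eq']

theorem sum_mul_add_one (E : Finset ℕ) (π μ : ℕ → ℕ) (e : ℕ) (he : e ∈ E) :
    ∑ j ∈ E, π j * (μ j + if j = e then 1 else 0) = ∑ j ∈ E, π j * μ j + π e := by
  simp only [mul_add, sum_add_distrib, mul_ite, mul_one, mul_zero, sum_ite_eq', if_pos he]

/-- The potential after adding one marker. -/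
theorem pot_add (E : Finset ℕ) (𝒵 : Finset (Finset ℕ)) (γ : ℕ) (π μ : ℕ → ℕ) (e : ℕ)
    (he : e ∈ E) :
    Pot E 𝒵 γ π (fun j => μ j + if j = e then 1 else 0) +
      (2 * γ + 1) * (∑ e ∈ E, π e) *
        ∑ Z ∈ 𝒵, (if e ∈ Z then dr (2 * γ + 1) (∑ j ∈ Z, μ j) else 0) =
    Pot E 𝒵 γ π μ + 2 ^ γ * π e := by
  unfold Pot
  have h1 : ∑ Z ∈ 𝒵, (2 ^ (2 * γ + 1 - ∑ j ∈ Z, μ j) - 1) =
      ∑ Z ∈ 𝒵, (2 ^ (2 * γ + 1 - ∑ j ∈ Z, (μ j + if j = e then 1 else 0)) - 1) +
        ∑ Z ∈ 𝒵, (if e ∈ Z then dr (2 * γ + 1) (∑ j ∈ Z, μ j) else 0) := by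
    rw [← sum_add_distrib]
    refine sum_congr rfl fun Z _ => ?_
    rw [sum_add_one]
    by_cases hz : e ∈ Z
    · rw [if_pos hz, if_pos hz]
      exact term_succ _ _
    · rw [if_neg hz, if_neg hz]; simp
  rw [h1, sum_mul_add_one E π μ e he]
  ring

theorem sum_swap (E : Finset ℕ) (𝒵 : Finset (Finset ℕ)) (hZ : ∀ Z ∈ 𝒵, Z ⊆ E) (μ : ℕ → ℕ)
    (a : Finset ℕ → ℕ) :
    ∑ e ∈ E, μ e * ∑ Z ∈ 𝒵, (if e ∈ Z then a Z else 0) = ∑ Z ∈ 𝒵, a Z * ∑ e ∈ Z, μ e := by
  simp only [mul_sum]
  rw [sum_comm]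
  refine sum_congr rfl fun Z hz => ?_
  simp only [mul_ite, mul_zero]
  rw [← sum_filter, filter_mem_eq_inter, inter_eq_right.mpr (hZ Z hz)]
  exact sum_congr rfl fun _ _ => mul_comm _ _

theorem arith (L W h n g A N P : ℕ) (hL : 0 < L) (hh : 0 < h) (hg : g ≤ n)
    (hn : n * (n * h + h ^ 2 * N) ≤ L) (h1 : h * W * (g * A) ≤ L * W + n * W)
    (h2 : L * P ≤ h * W * (h * (2 * A + N)) + W * (n * h)) : g * P ≤ 5 * h * W := by
  have hnL : n ≤ L := by
    rcases Nat.eq_zero_or_pos n with h0 | h0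
    · omega
    · have : 1 ≤ n * h + h ^ 2 * N := le_trans (Nat.mul_pos h0 hh) (Nat.le_add_right _ _)
      calc n = n * 1 := (mul_one n).symm
        _ ≤ n * (n * h + h ^ 2 * N) := Nat.mul_le_mul_left _ this
        _ ≤ L := hn
  have a1 : g * (n * h + h ^ 2 * N) ≤ L := le_trans (Nat.mul_le_mul_right _ hg) hn
  have a2 : n * W ≤ L * W := Nat.mul_le_mul_right _ hnL
  have a3 : L * W ≤ h * (L * W) := Nat.le_mul_of_pos_left _ hh
  have key : L * (g * P) ≤ L * (5 * h * W) := by
    calc L * (g * P) = g * (L * P) := by ring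
      _ ≤ g * (h * W * (h * (2 * A + N)) + W * (n * h)) := Nat.mul_le_mul_left _ h2
      _ = 2 * h * (h * W * (g * A)) + W * (g * (n * h + h ^ 2 * N)) := by ring
      _ ≤ 2 * h * (L * W + L * W) + W * L :=
        Nat.add_le_add (Nat.mul_le_mul_left _ (by omega)) (Nat.mul_le_mul_left _ a1)
      _ = 4 * (h * (L * W)) + L * W := by ring
      _ ≤ 4 * (h * (L * W)) + h * (L * W) := Nat.add_le_add_left a3 _
      _ = L * (5 * h * W) := by ring
  exact Nat.le_of_mul_le_mul_left key hL

end ALoc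

open ALoc in
theorem loc : LocStmt := by
  intro E 𝒵 γ g N π μ hZ hg hμ hN hn hadd hrem
  have hZE : ∀ Z ∈ 𝒵, Z ⊆ E := fun Z hz => (hZ Z hz).1
  refine arith (2 ^ γ) (∑ e ∈ E, π e) (2 * γ + 1) E.card g
    (∑ Z ∈ 𝒵, dr (2 * γ + 1) (∑ j ∈ Z, μ j)) N _ (by positivity) (by omega) hg hn ?_ ?_
  · have h1 : ∀ e ∈ E, (2 * γ + 1) * (∑ e ∈ E, π e) *
        (1 * ∑ Z ∈ 𝒵, (if e ∈ Z then dr (2 * γ + 1) (∑ j ∈ Z, μ j) else 0)) ≤
        2 ^ γ * π e + ∑ e ∈ E, π e := fun e he => by
      have a := pot_add E 𝒵 γ π μ e he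
      have b := hadd e he
      rw [one_mul]
      omega
    have h2 := sum_le_sum h1
    rw [← mul_sum, sum_swap E 𝒵 hZE (fun _ => 1), sum_add_distrib, ← mul_sum, sum_const,
      smul_eq_mul] at h2
    refine le_trans (Nat.mul_le_mul_left _ ?_) h2
    rw [mul_sum]
    refine sum_le_sum fun Z hz => ?_
    rw [mul_comm, sum_const, smul_eq_mul, mul_one]
    exact Nat.mul_le_mul_left _ (hZ Z hz).2
  · have h1 : ∀ e ∈ E, 2 ^ γ * (π e * μ e) ≤ (2 * γ + 1) * (∑ e ∈ E, π e) *
        (μ e * ∑ Z ∈ 𝒵, (if e ∈ Z then ri (2 * γ + 1) (∑ j ∈ Z, μ j) else 0)) +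
        (∑ e ∈ E, π e) * (2 * γ + 1) := fun e he => by
      rcases Nat.eq_zero_or_pos (μ e) with h0 | h0
      · rw [h0]; simp
      have a := pot_add E 𝒵 γ π (fun j => μ j - if j = e then 1 else 0) e he
      have hfun : (fun j => (μ j - if j = e then 1 else 0) + if j = e then 1 else 0) = μ := by
        funext j
        by_cases hj : j = e
        · subst hj
          simp only [if_true]
          omega
        · simp [hj]
      have hs : ∑ Z ∈ 𝒵, (if e ∈ Z then
          dr (2 * γ + 1) (∑ j ∈ Z, (μ j - if j = e then 1 else 0)) else 0) =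
          ∑ Z ∈ 𝒵, (if e ∈ Z then ri (2 * γ + 1) (∑ j ∈ Z, μ j) else 0) := by
        refine sum_congr rfl fun Z _ => ?_
        by_cases hz : e ∈ Z
        · rw [if_pos hz, if_pos hz, dr_eq_ri]
          have c := sum_add_one Z (fun j => μ j - if j = e then 1 else 0) e
          rw [if_pos hz] at c
          rw [← c]
          exact congrArg _ (sum_congr rfl fun j _ => congrFun hfun j)
        · rw [if_neg hz, if_neg hz]
      rw [hfun, hs] at a
      have b := hrem e he
      have c : 2 ^ γ * π e ≤ (2 * γ + 1) * (∑ e ∈ E, π e) *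
          (∑ Z ∈ 𝒵, (if e ∈ Z then ri (2 * γ + 1) (∑ j ∈ Z, μ j) else 0)) + ∑ e ∈ E, π e := by
        omega
      have d := Nat.mul_le_mul_right (μ e) c
      have f := Nat.mul_le_mul_left (∑ e ∈ E, π e) (hμ e he)
      calc 2 ^ γ * (π e * μ e) = 2 ^ γ * π e * μ e := by ring
        _ ≤ _ := d
        _ = (2 * γ + 1) * (∑ e ∈ E, π e) *
          (μ e * ∑ Z ∈ 𝒵, (if e ∈ Z then ri (2 * γ + 1) (∑ j ∈ Z, μ j) else 0)) +
          (∑ e ∈ E, π e) * μ e := by ring
        _ ≤ _ := Nat.add_le_add_left f _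
    have h2 := sum_le_sum h1
    rw [← mul_sum, sum_add_distrib, ← mul_sum, sum_swap E 𝒵 hZE μ, sum_const,
      smul_eq_mul] at h2
    have h3 : ∑ Z ∈ 𝒵, ri (2 * γ + 1) (∑ j ∈ Z, μ j) * ∑ e ∈ Z, μ e ≤
        (2 * γ + 1) * (2 * ∑ Z ∈ 𝒵, dr (2 * γ + 1) (∑ j ∈ Z, μ j) + N) := by
      refine le_trans (sum_le_sum fun Z _ => ri_le _ _) ?_
      rw [← mul_sum, sum_add_distrib, ← mul_sum]
      refine Nat.mul_le_mul_left _ (Nat.add_le_add_left ?_ _)
      rw [← card_filter]
      exact hN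
    refine le_trans h2 (Nat.add_le_add (Nat.mul_le_mul_left _ h3) (le_of_eq ?_))
    ring

end Pool.Agent.MP71.DA

end MrgPart2

-- ======== part 3: formerly Pool.Agent.MP_71daef_lc.det.APl1
section MrgPart3

/-!
Running time of the listing procedure.
-/

set_option autoImplicit false

namespace Pool.Agent.MP71.DA

open Pool.Agent.H82 Pool.Agent.PolyT N487b59b3

namespace APl1

variable {α β : Type} [N487b59b3 α] [N487b59b3 β] {A : α → List (List Bool)}

@[fun_prop] theorem p_bits {f : α → ℕ} (hf : PolyT.Poly f) : PolyT.Poly (fun a => (f a).bits) :=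
  hf.bits

@[fun_prop] theorem p_nb {Mu acc : α → List Bool} {f y : α → ℕ} (hM : PolyT.Poly Mu)
    (hf : PolyT.Poly f) (hy : PolyT.Poly y) (ha : PolyT.Poly acc) :
    PolyT.Poly (fun a => nb (Mu a) (f a) (y a) (acc a)) := by
  unfold nb; fun_prop

theorem length_fold (g : List Bool → Bool) : ∀ (pos acc : List Bool),
    (pos.foldl (fun acc _ => acc ++ [g acc]) acc).length = acc.length + pos.length
  | [], _ => rfl
  | _ :: pos, acc => by
    rw [List.foldl_cons, length_fold g pos]
    simp only [List.length_append, List.length_cons, List.length_nil]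
    omega

@[fun_prop] theorem p_lf {Mu pos : α → List Bool} {f y : α → ℕ} (hM : PolyT.Poly Mu)
    (hf : PolyT.Poly f) (hy : PolyT.Poly y) (hp : PolyT.Poly pos) :
    PolyT.Poly (fun a => lf (Mu a) (f a) (y a) (pos a)) := by
  refine PolyT.Poly.foldl (f := fun a acc (_ : Bool) => acc ++ [nb (Mu a) (f a) (y a) acc])
    (by fun_prop) hp (PolyT.Poly.const []) hp.bd fun a n => ?_
  have h1 := List.length_take_le' n (pos a)
  rw [PolyT.Poly.enc_bools_length, PolyT.Poly.enc_bools_length,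
    length_fold (nb (Mu a) (f a) (y a)), List.length_nil]
  omega

@[fun_prop] theorem p_kept {r : α → ℕ} {RH bits : α → List Bool} {w : α → List ℕ}
    (hA : PolyT.Poly A) (hr : PolyT.Poly r) (hR : PolyT.Poly RH) (hw : PolyT.Poly w)
    (hb : PolyT.Poly bits) : PolyT.Poly (fun a => kept (A a) (r a) (RH a) (w a) (bits a)) := by
  unfold kept; fun_prop

@[fun_prop] theorem p_lev {R : α → List Bool} {w l : α → List ℕ} {e : α → ℕ}
    (hR : PolyT.Poly R) (hw : PolyT.Poly w) (hl : PolyT.Poly l) (he : PolyT.Poly e) :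
    PolyT.Poly (fun a => lev (R a) (w a) (l a) (e a)) := by
  unfold lev; fun_prop

@[fun_prop] theorem p_ordW {R : α → List Bool} {T w l : α → List ℕ}
    (hR : PolyT.Poly R) (hT : PolyT.Poly T) (hw : PolyT.Poly w) (hl : PolyT.Poly l) :
    PolyT.Poly (fun a => ordW (R a) (T a) (w a) (l a)) := by
  unfold ordW; fun_prop

@[fun_prop] theorem p_bump {l : α → List ℕ} {F : α → List (ℕ × List Bool)} (hA : PolyT.Poly A)
    (hl : PolyT.Poly l) (hF : PolyT.Poly F) : PolyT.Poly (fun a => bump (A a) (l a) (F a)) := by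
  unfold bump; fun_prop

/-- A list of at most `n` numbers that are at most `k`. -/
def Sm (n k : ℕ) (l : List ℕ) : Prop := l.length ≤ n ∧ ∀ x ∈ l, x ≤ k

theorem Sm.mono {n k k' : ℕ} {l : List ℕ} (h : Sm n k l) (hk : k ≤ k') : Sm n k' l :=
  ⟨h.1, fun x hx => (h.2 x hx).trans hk⟩

theorem Sm.getD {n k : ℕ} {l : List ℕ} (h : Sm n k l) (j : ℕ) : l.getD j 0 ≤ k := by
  by_cases hj : j < l.length
  · rw [List.getD_eq_getElem _ _ hj]; exact h.2 _ (List.getElem_mem hj)
  · rw [List.getD_eq_default _ _ (not_lt.1 hj)]; exact Nat.zero_le _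

theorem Sm.bump {k : ℕ} {l : List ℕ} (A : List (List Bool)) (h : Sm A.length k l)
    (F : List (ℕ × List Bool)) : Sm A.length (k + 1) (bump A l F) := by
  refine ⟨by simp [MP71.bump], fun x hx => ?_⟩
  obtain ⟨j, -, rfl⟩ := List.mem_map.1 hx
  have := h.getD j
  cases F.any fun q => eqB q.1 j <;> simp only [cond_true, cond_false] <;> omega

theorem Sm.enc {n k : ℕ} {l : List ℕ} (h : Sm n k l) :
    (bitEncode l).length ≤ n * (2 * k + 1) := by
  rw [enc_list, List.length_flatMap]
  refine (PolyT.Poly.sum_map_le _ _ (2 * k + 1) fun x hx => ?_).trans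
    (Nat.mul_le_mul_right _ h.1)
  have h1 := h.2 x hx
  have h2 := length_enc_nat_le_self x
  rw [length_delimit]
  omega

theorem fold_sm (A : List (List Bool)) (G : List ℕ → List (ℕ × List Bool)) :
    ∀ (R : List Bool) (k : ℕ) (hs : List (List ℕ)), (∀ l ∈ hs, Sm A.length k l) →
      (R.foldl (fun hs _ => bump A (hs.headD []) (G (hs.headD [])) :: hs) hs).length =
        hs.length + R.length ∧
      ∀ l ∈ R.foldl (fun hs _ => bump A (hs.headD []) (G (hs.headD [])) :: hs) hs,
        Sm A.length (k + R.length) l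
  | [], _, _, h => ⟨rfl, h⟩
  | _ :: R, k, hs, h => by
    have h1 : Sm A.length k (hs.headD []) := by
      cases hs with
      | nil => exact ⟨Nat.zero_le _, fun x hx => absurd hx List.not_mem_nil⟩
      | cons l r => exact h l List.mem_cons_self
    obtain ⟨h2, h3⟩ := fold_sm A G R (k + 1) (bump A (hs.headD []) (G (hs.headD [])) :: hs)
      fun l hl => by
        rcases List.mem_cons.1 hl with rfl | hl
        · exact h1.bump A _
        · exact (h l hl).mono k.le_succ
    rw [List.foldl_cons]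
    refine ⟨?_, fun l hl => (h3 l hl).mono ?_⟩
    · rw [h2, List.length_cons, List.length_cons]; omega
    · rw [List.length_cons]; omega

@[fun_prop] theorem p_histW {R : α → List Bool} {T w : α → List ℕ} (hA : PolyT.Poly A)
    (hR : PolyT.Poly R) (hT : PolyT.Poly T) (hw : PolyT.Poly w) :
    PolyT.Poly (fun a => histW (A a) (R a) (T a) (w a)) := by
  refine PolyT.Poly.foldl (f := fun a hs (_ : Bool) => bump (A a) (hs.headD [])
      (fcs (A a) (ordW (R a) (T a) (w a) (hs.headD []))) :: hs) (by fun_prop) hR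
    (PolyT.Poly.const [[]]) ((hR.bd.add (Bd.const 1)).mul (((Bd.const 2).mul (hA.bd.mul
      (((Bd.const 2).mul hR.bd).add (Bd.const 1)))).add (Bd.const 1))) fun a n => ?_
  have h1 := (List.length_take_le' n (R a)).trans (length_le_enc _)
  obtain ⟨h2, h3⟩ := fold_sm (A a) (fun l => fcs (A a) (ordW (R a) (T a) (w a) l)) ((R a).take n)
    0 [[]] fun l hl => by
      rw [List.mem_singleton.1 hl]
      exact ⟨Nat.zero_le _, fun x hx => absurd hx List.not_mem_nil⟩
  rw [enc_list, List.length_flatMap]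
  refine (PolyT.Poly.sum_map_le _ _ (2 * ((bitEncode (A a)).length *
    (2 * (bitEncode (R a)).length + 1)) + 1) fun l hl => ?_).trans (Nat.mul_le_mul_right _ ?_)
  · have h4 := ((h3 l hl).mono ((zero_add _).le.trans h1)).enc.trans
      (Nat.mul_le_mul_right _ (length_le_enc (A a)))
    rw [length_delimit]
    omega
  · rw [h2, List.length_singleton]; omega

@[fun_prop] theorem p_cands' (s : ℕ) {F : α → List (ℕ × List Bool)} (hA : PolyT.Poly A)
    (hF : PolyT.Poly F) : PolyT.Poly (fun a => cands (A a) (F a) s) :=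
  (p_cands s).comp (hA.pair hF)

@[fun_prop] theorem p_cob (s : ℕ) {R : α → List Bool} {T w : α → List ℕ} (hA : PolyT.Poly A)
    (hR : PolyT.Poly R) (hT : PolyT.Poly T) (hw : PolyT.Poly w) :
    PolyT.Poly (fun a => cob s (A a) (R a) (T a) (w a)) := by
  unfold cob; fun_prop

@[fun_prop] theorem p_rep (k : ℕ) {l : α → List β} (hl : PolyT.Poly l) :
    PolyT.Poly (fun a => rep k (l a)) := by
  unfold rep; fun_prop

@[fun_prop] theorem p_hl {U : α → List Bool} (hU : PolyT.Poly U) :
    PolyT.Poly (fun a => hl (U a)) := by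
  unfold hl; fun_prop

@[fun_prop] theorem p_find (r s κ : ℕ) {U S : α → List Bool} {w : α → List ℕ} (hA : PolyT.Poly A)
    (hU : PolyT.Poly U) (hS : PolyT.Poly S) (hw : PolyT.Poly w) :
    PolyT.Poly (fun a => find r s κ (A a) (U a) (S a) (w a)) := by
  unfold find; fun_prop

@[fun_prop] theorem p_lst (r s κ : ℕ) {U S : α → List Bool} {w : α → List ℕ} (hA : PolyT.Poly A)
    (hU : PolyT.Poly U) (hS : PolyT.Poly S) (hw : PolyT.Poly w) :
    PolyT.Poly (fun a => lst r s κ (A a) (U a) (S a) (w a)) := by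
  unfold lst; fun_prop

end APl1

theorem pl1 : Pl1Stmt := fun r s κ =>
  APl1.p_lst r s κ (by fun_prop) (by fun_prop) (by fun_prop) (by fun_prop)

end Pool.Agent.MP71.DA

end MrgPart3

-- ======== part 4: formerly Pool.Agent.MP_71daef_lc.det.ARun
section MrgPart4

/-!
Row RUN of block A: the multiplicative prices find a shortest cycle.
-/

set_option autoImplicit false

namespace Pool.Agent.MP71.DA

open Finset Pool.Agent.H82 Pool.Agent.PolyT

namespace ARun

variable (O : List ℕ → List ℕ) (A : List (List Bool)) (U : List Bool)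

/-- The prices after `k` rounds. -/
def pr : ℕ → List ℕ
  | 0 => (idx A).map fun _ => 1
  | k + 1 => nxt A U (pr k) (O (pr k))

/-- The prices of the first rounds. -/
def ph : ℕ → List (List ℕ)
  | 0 => [pr O A U 0]
  | k + 1 => pr O A U (k + 1) :: ph k

theorem headD_ph (k : ℕ) : (ph O A U k).headD [] = pr O A U k := by
  cases k <;> rfl

theorem foldl_ph : ∀ (L : List Bool) (k : ℕ),
    L.foldl (fun hs _ => nxt A U (hs.headD []) (O (hs.headD [])) :: hs) (ph O A U k) =
      ph O A U (k + L.length)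
  | [], _ => rfl
  | _ :: L, k => by
    have : nxt A U ((ph O A U k).headD []) (O ((ph O A U k).headD [])) :: ph O A U k =
        ph O A U (k + 1) := by
      rw [headD_ph]; rfl
    rw [List.foldl_cons, this, foldl_ph L, List.length_cons]
    congr 1; omega

theorem prices_eq (Ro : List Bool) : prices O A U Ro = ph O A U Ro.length := by
  have := foldl_ph O A U Ro 0
  rw [Nat.zero_add] at this
  exact this

theorem mem_ph {i : ℕ} : ∀ {k : ℕ}, i ≤ k → pr O A U i ∈ ph O A U k
  | 0, h => by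
    rw [Nat.le_zero.1 h]; exact List.mem_cons_self
  | k + 1, h => by
    rcases h.eq_or_lt with rfl | h
    · exact List.mem_cons_self
    · exact List.mem_cons_of_mem _ (mem_ph (by omega))

theorem length_hl : (hl U).length = 2 * U.length + 1 := by
  simp [hl]; omega

theorem pr_zero {e : ℕ} (he : e < A.length) : (pr O A U 0).getD e 0 = 1 := by
  rw [pr, getD_map_idx _ _ he]

theorem pr_succ (k : ℕ) {e : ℕ} (he : e < A.length) : (pr O A U (k + 1)).getD e 0 =
    (pr O A U k).getD e 0 * (2 * U.length + 1 + (O (pr O A U k)).getD e 0) := by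
  rw [pr, nxt, getD_map_idx _ _ he, length_hl]

theorem pr_pos : ∀ (k : ℕ) {e : ℕ}, e < A.length → 0 < (pr O A U k).getD e 0
  | 0, _, he => by rw [pr_zero O A U he]; exact Nat.one_pos
  | k + 1, _, he => by
    rw [pr_succ O A U k he]
    exact Nat.mul_pos (pr_pos k he) (by omega)

theorem length_rounds : (A.flatMap fun _ => A.flatMap fun _ => hl U).length =
    A.length * A.length * (2 * U.length + 1) := by
  simp [List.length_flatMap, length_hl, Nat.mul_assoc]

theorem least_mem (ν : List ℕ) (h : least A ν ≠ 0) : least A ν ∈ ν := by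
  unfold least at h ⊢
  cases hr : (idx ([] :: A)).filter (fun v => ltB 0 v && ν.any fun u => eqB u v) with
  | nil => rw [hr] at h; exact absurd rfl h
  | cons x r =>
    have hx := (List.mem_filter.1 (hr ▸ List.mem_cons_self (a := x) (l := r))).2
    simp only [Bool.and_eq_true, List.any_eq_true, eqB_iff] at hx
    obtain ⟨-, v, hv, rfl⟩ := hx
    exact hv

theorem least_le (ν : List ℕ) {w : ℕ} (h0 : 0 < w) (hw : w ≤ A.length) (hν : w ∈ ν) :
    least A ν ≠ 0 ∧ least A ν ≤ w := by
  have h7 := headD_filter_range (k := ([] :: A).length) (w := w)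
    (c := fun v => ltB 0 v && ν.any fun u => eqB u v)
    (by simpa [Nat.lt_succ_iff] using hw) (by simpa [h0] using hν)
  refine ⟨?_, h7.2⟩
  have := h7.1
  rw [Bool.and_eq_true, ltB_iff] at this
  exact this.1.ne'

end ARun

open ARun in
theorem run_thm (h : Mw1Stmt) : RunStmt := by
  classical
  intro m A U St F hU hF hM
  refine ⟨fun h0 => ?_, fun Z hZ hc hne => ?_⟩
  · obtain ⟨π, -, h2⟩ := List.mem_flatMap.1 (least_mem A _ h0)
    obtain ⟨z, hz, h3⟩ := List.mem_map.1 h2
    exact ⟨sp A z, filter_subset _ _, (((hF _).1).2 z hz).1, by rw [← wt_eq, h3]; rfl⟩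
  · obtain ⟨C, hC, hmin⟩ := exists_min_image ((range A.length).powerset.filter
      (fun Z => Z.Nonempty ∧ (mcode m A).cyc Z)) card
      ⟨Z, mem_filter.2 ⟨mem_powerset.2 hZ, hne, hc⟩⟩
    simp only [mem_filter, mem_powerset, and_imp] at hC hmin
    have hg : C.card ≤ A.length := by simpa using card_le_card hC.1
    have hn : 0 < A.length := lt_of_lt_of_le hC.2.1.card_pos hg
    have hO := hM C.card hg fun Y hY hc hne => hmin Y hY hne hc
    set O := orc F A U St with hOd
    have hpos : ∀ k, 0 < ∑ e ∈ range A.length, (pr O A U k).getD e 0 := fun k =>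
      sum_pos (fun e he => pr_pos O A U k (mem_range.1 he)) ⟨0, mem_range.2 hn⟩
    obtain ⟨t, ht, h1⟩ := h (range A.length) C (2 * U.length + 1) 5
      (fun k e => (pr O A U k).getD e 0) (fun k e => (O (pr O A U k)).getD e 0) hC.1 hC.2.1
      (by omega) (fun e he => pr_zero O A U (mem_range.1 he))
      (fun k e he => pr_succ O A U k (mem_range.1 he))
      (fun k _ => ⟨fun e he => (hO _ (hpos k)).1 e (mem_range.1 he), (hO _ (hpos k)).2.2⟩)
    rw [card_range] at ht
    obtain ⟨z, hz, h5⟩ := (hF (O (pr O A U t))).2 (hO _ (hpos t)).1 (hO _ (hpos t)).2.1 C hC.1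
      hC.2.2 hC.2.1 (h1.trans (by omega))
    have h6 : C.card ∈ (prices O A U (A.flatMap fun _ => A.flatMap fun _ => hl U)).flatMap
        fun π => (F (O π)).map (wt A) := by
      refine List.mem_flatMap.2 ⟨pr O A U t, ?_, List.mem_map.2 ⟨z, hz, by rw [wt_eq, h5]⟩⟩
      rw [prices_eq, length_rounds]
      exact mem_ph O A U ht.le
    have h7 := least_le A _ hC.2.1.card_pos hg h6
    exact ⟨h7.1, h7.2.trans (hmin Z hZ hne hc)⟩

end Pool.Agent.MP71.DA

end MrgPart4

-- marker of a merged file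
example : 731051 + 93324 = 731051 + 93324 := rfl

end MrgPart2

-- marker of a merged file
example : 731051 + 93324 = 731051 + 93324 := rfl
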