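import Pool.Agent.MP_71daef_lc.det.AOrc

-- ======== part 0: formerly Pool.Agent.MP_71daef_lc.det.Lam
section MrgPart0

/-!
Row LAM: the connectivity function.
-/

set_option autoImplicit false

namespace Pool.Agent.MP71

open Finset symmDiff

namespace LamAux

theorem nul_empty (hN : NulStmt) (c : Code) : c.nul ∅ = 0 :=
  (hN.ind c ∅).2 fun _ hZ _ => subset_empty.1 hZ

theorem add (hN : NulStmt) (c : Code) (E A : Finset ℕ) (hA : A ⊆ E) :
    c.lam E A + c.nul A + c.nul (E \ A) = c.nul E := by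
  have h := hN.sup c A (E \ A)
  rw [union_sdiff_of_subset hA, inter_sdiff_self, nul_empty hN] at h
  unfold Code.lam
  omega

theorem compl (c : Code) (E A : Finset ℕ) (hA : A ⊆ E) : c.lam E (E \ A) = c.lam E A := by
  unfold Code.lam
  rw [Finset.sdiff_sdiff_eq_self hA]
  omega

theorem sub (hN : NulStmt) (c : Code) (E A B : Finset ℕ) (hA : A ⊆ E) (hB : B ⊆ E) :
    c.lam E (A ∩ B) + c.lam E (A ∪ B) ≤ c.lam E A + c.lam E B := by
  have h1 := add hN c E A hA
  have h2 := add hN c E B hB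
  have h3 := add hN c E (A ∩ B) (inter_subset_left.trans hA)
  have h4 := add hN c E (A ∪ B) (union_subset hA hB)
  have h5 := hN.sup c A B
  have h6 := hN.sup c (E \ A) (E \ B)
  rw [← sdiff_inter_distrib_right, ← sdiff_union_distrib] at h6
  omega

theorem corner (hN : NulStmt) (c : Code) (E X A : Finset ℕ) (hX : X ⊆ E) (hA : A ⊆ E) :
    c.lam E (X ∩ A) + c.lam E (X \ A) ≤ c.lam E X + 2 * c.lam E A := by
  have h1 := sub hN c E X A hX hA
  have h2 := sub hN c E (X ∪ A) (E \ A) (union_subset hX hA) sdiff_subset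
  have h3 : (X ∪ A) ∩ (E \ A) = X \ A := by
    ext x
    have := @hX x
    simp only [mem_inter, mem_union, mem_sdiff]
    tauto
  rw [h3, compl c E A hA] at h2
  omega

theorem cls (hN : NulStmt) (c : Code) (E A : Finset ℕ) (𝓕 : Finset (Finset ℕ)) (hA : A ⊆ E)
    (hF : 𝓕 ⊆ c.cy E) (h : ∀ Z ∈ 𝓕, ∀ Z' ∈ 𝓕, c.cyc ((Z ∆ Z') ∩ A) → Z = Z') :
    𝓕.card ≤ 2 ^ c.lam E A := by
  have h1 : (𝓕 ×ˢ (c.cy A ×ˢ c.cy (E \ A))).card ≤ (c.cy E).card := by
    refine card_le_card_of_injOn (fun p => p.1 ∆ (p.2.1 ∆ p.2.2)) ?_ ?_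
    · rintro ⟨Z, P, R⟩ hp
      simp only [coe_product, Set.mem_prod, mem_coe] at hp
      obtain ⟨hZ, hP, hR⟩ := hp
      have hZ' := Code.mem_cy.1 (hF hZ)
      have hP' := Code.mem_cy.1 hP
      have hR' := Code.mem_cy.1 hR
      exact Code.mem_cy.2 ⟨symmDiff_le_sup.trans (sup_le hZ'.1 (symmDiff_le_sup.trans
        (sup_le (hP'.1.trans hA) (hR'.1.trans sdiff_subset)))), c.add hZ'.2 (c.add hP'.2 hR'.2)⟩
    · rintro ⟨Z, P, R⟩ hp ⟨Z', P', R'⟩ hp' he
      simp only [coe_product, Set.mem_prod, mem_coe] at hp hp'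
      obtain ⟨hZ, hP, hR⟩ := hp
      obtain ⟨hZ', hP', hR'⟩ := hp'
      have hP1 := Code.mem_cy.1 hP
      have hR1 := Code.mem_cy.1 hR
      have hP2 := Code.mem_cy.1 hP'
      have hR2 := Code.mem_cy.1 hR'
      have he' : ∀ x, x ∈ Z ∆ (P ∆ R) ↔ x ∈ Z' ∆ (P' ∆ R') := fun x => by
        have : Z ∆ (P ∆ R) = Z' ∆ (P' ∆ R') := he
        rw [this]
      have hZZ : Z = Z' := by
        refine h Z hZ Z' hZ' (c.add' hP1.2 hP2.2 fun x => ?_)
        have := he' x
        have := @hP1.1 x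
        have := @hP2.1 x
        have := @hR1.1 x
        have := @hR2.1 x
        simp only [mem_symmDiff, mem_inter, mem_sdiff] at *
        grind
      subst hZZ
      have hPP : P = P' := by
        ext x
        have := he' x
        have := @hP1.1 x
        have := @hP2.1 x
        have := @hR1.1 x
        have := @hR2.1 x
        simp only [mem_symmDiff, mem_sdiff] at *
        grind
      have hRR : R = R' := by
        ext x
        have := he' x
        have := @hP1.1 x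
        have := @hP2.1 x
        have := @hR1.1 x
        have := @hR2.1 x
        simp only [mem_symmDiff, mem_sdiff] at *
        grind
      rw [hPP, hRR]
  rw [card_product, card_product, hN.card_cy, hN.card_cy, hN.card_cy, ← add hN c E A hA,
    add_assoc, pow_add, pow_add] at h1
  exact Nat.le_of_mul_le_mul_right h1 (by positivity)

theorem cls' (hN : NulStmt) (c : Code) (E A : Finset ℕ) (β : Type) [DecidableEq β]
    (κ : Finset ℕ → β) (hA : A ⊆ E)
    (h : ∀ Z ∈ c.cy E, ∀ Z' ∈ c.cy E, κ Z = κ Z' → c.cyc ((Z ∆ Z') ∩ A)) :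
    2 ^ c.lam E A ≤ ((c.cy E).image κ).card := by
  have h1 : (c.cy E).card ≤ (c.cy A ×ˢ c.cy (E \ A)).card * ((c.cy E).image κ).card := by
    refine card_le_mul_card_image _ _ fun b hb => ?_
    obtain ⟨Z, hZ, rfl⟩ := mem_image.1 hb
    refine card_le_card_of_injOn (fun Y => ((Z ∆ Y) ∩ A, (Z ∆ Y) \ A)) ?_ ?_
    · intro Y hY
      obtain ⟨hY1, hY2⟩ := mem_filter.1 (mem_coe.1 hY)
      have h2 := h Z hZ Y hY1 hY2.symm
      have hZ' := Code.mem_cy.1 hZ
      have hY' := Code.mem_cy.1 hY1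
      refine mem_coe.2 (mem_product.2 ⟨Code.mem_cy.2 ⟨inter_subset_right, h2⟩,
        Code.mem_cy.2 ⟨sdiff_subset_sdiff (symmDiff_le_sup.trans (sup_le hZ'.1 hY'.1)) subset_rfl,
          c.add' (c.add hZ'.2 hY'.2) h2 fun x => ?_⟩⟩)
      simp only [mem_symmDiff, mem_inter, mem_sdiff]
      tauto
    · intro Y _ Y' _ he
      have h2 : (Z ∆ Y) ∩ A = (Z ∆ Y') ∩ A := congrArg Prod.fst he
      have h3 : (Z ∆ Y) \ A = (Z ∆ Y') \ A := congrArg Prod.snd he
      ext x
      have h4 : x ∈ (Z ∆ Y) ∩ A ↔ x ∈ (Z ∆ Y') ∩ A := by rw [h2]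
      have h5 : x ∈ (Z ∆ Y) \ A ↔ x ∈ (Z ∆ Y') \ A := by rw [h3]
      simp only [mem_symmDiff, mem_inter, mem_sdiff] at h4 h5
      tauto
  rw [card_product, hN.card_cy, hN.card_cy, hN.card_cy, ← add hN c E A hA, add_assoc, pow_add,
    pow_add, mul_comm] at h1
  exact Nat.le_of_mul_le_mul_left h1 (by positivity)

theorem ins_le (hN : NulStmt) (c : Code) (X : Finset ℕ) (e : ℕ) :
    c.nul (insert e X) ≤ c.nul X + 1 := by
  have h1 := hN.sdiff c (insert e X) {e}
  have h2 := hN.mono c (insert e X \ {e}) X fun x hx => by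
    simp only [mem_sdiff, mem_insert, mem_singleton] at hx
    tauto
  rw [card_singleton] at h1
  omega

theorem le_ins (hN : NulStmt) (c : Code) (X : Finset ℕ) (e : ℕ) :
    c.nul X ≤ c.nul (insert e X) :=
  hN.mono c _ _ (subset_insert e X)

theorem con_ins (hN : NulStmt) (c : Code) (X : Finset ℕ) (e : ℕ) (he : e ∉ X) :
    (c.con {e}).nul X + c.nul {e} = c.nul (insert e X) := by
  rw [hN.con c X {e} (disjoint_singleton_right.2 he), union_comm, ← insert_eq]

theorem sd1 {E A : Finset ℕ} {e : ℕ} (he : e ∈ E) (hA : A ⊆ E.erase e) :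
    E \ A = insert e (E.erase e \ A) := by
  ext x
  have := @hA x
  simp only [mem_sdiff, mem_insert, mem_erase] at *
  grind

theorem sd2 (E A : Finset ℕ) (e : ℕ) : E \ insert e A = E.erase e \ A := by
  ext x
  simp only [mem_sdiff, mem_insert, mem_erase]
  tauto

theorem not_mem {E A : Finset ℕ} {e : ℕ} (hA : A ⊆ E.erase e) : e ∉ A :=
  fun h => notMem_erase e E (hA h)

theorem del (hN : NulStmt) (c : Code) (E A : Finset ℕ) (e : ℕ) (he : e ∈ E)
    (hA : A ⊆ E.erase e) :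
    c.lam E A ≤ c.lam (E.erase e) A + 1 ∧ c.lam E (insert e A) ≤ c.lam (E.erase e) A + 1 := by
  have hA' : A ⊆ E := hA.trans (erase_subset e E)
  have h1 := add hN c E A hA'
  have h2 := add hN c E (insert e A) (insert_subset he hA')
  have h3 := add hN c (E.erase e) A hA
  have h4 := ins_le hN c (E.erase e) e
  have h5 := le_ins hN c A e
  have h6 := le_ins hN c (E.erase e \ A) e
  rw [insert_erase he] at h4
  rw [sd1 he hA] at h1
  rw [sd2] at h2
  omega

theorem con (hN : NulStmt) (c : Code) (E A : Finset ℕ) (e : ℕ) (he : e ∈ E)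
    (hA : A ⊆ E.erase e) :
    c.lam E A ≤ (c.con {e}).lam (E.erase e) A + 1 ∧
      c.lam E (insert e A) ≤ (c.con {e}).lam (E.erase e) A + 1 := by
  have hA' : A ⊆ E := hA.trans (erase_subset e E)
  have h1 := add hN c E A hA'
  have h2 := add hN c E (insert e A) (insert_subset he hA')
  have h3 := add hN (c.con {e}) (E.erase e) A hA
  have h4 := con_ins hN c (E.erase e) e (notMem_erase e E)
  have h5 := con_ins hN c A e (not_mem hA)
  have h6 := con_ins hN c (E.erase e \ A) e (not_mem sdiff_subset)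
  have h7 := ins_le hN c A e
  have h8 := ins_le hN c (E.erase e \ A) e
  rw [insert_erase he] at h4
  rw [sd1 he hA] at h1
  rw [sd2] at h2
  omega

theorem bc (hN : NulStmt) (c : Code) (E A A' : Finset ℕ) (e : ℕ) (he : e ∈ E)
    (hA : A ⊆ E.erase e) (hA' : A' ⊆ E.erase e) :
    c.lam E (A ∩ A') + c.lam E (insert e (A ∪ A')) ≤
      c.lam (E.erase e) A + (c.con {e}).lam (E.erase e) A' + 1 := by
  have hB : A ⊆ E := hA.trans (erase_subset e E)
  have hB' : A' ⊆ E := hA'.trans (erase_subset e E)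
  have h1 := add hN c E (A ∩ A') (inter_subset_left.trans hB)
  have h2 := add hN c E (insert e (A ∪ A')) (insert_subset he (union_subset hB hB'))
  have h3 := add hN (c.con {e}) (E.erase e) A' hA'
  have h3' := add hN c (E.erase e) A hA
  have h4 := con_ins hN c (E.erase e) e (notMem_erase e E)
  have h5 := con_ins hN c A' e (not_mem hA')
  have h6 := con_ins hN c (E.erase e \ A') e (not_mem sdiff_subset)
  have h7 := ins_le hN c (E.erase e) e
  have h8 := hN.sup c A (insert e A')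
  have h9 := hN.sup c (E.erase e \ A) (insert e (E.erase e \ A'))
  have e1 : A ∪ insert e A' = insert e (A ∪ A') := union_insert ..
  have e2 : A ∩ insert e A' = A ∩ A' := inter_insert_of_notMem (not_mem hA)
  have e3 : E.erase e \ A ∪ insert e (E.erase e \ A') = E \ (A ∩ A') := by
    ext x
    have := @hA x
    simp only [mem_sdiff, mem_insert, mem_erase, mem_union, mem_inter] at *
    grind
  have e4 : (E.erase e \ A) ∩ insert e (E.erase e \ A') = E.erase e \ (A ∪ A') := by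
    ext x
    simp only [mem_sdiff, mem_insert, mem_erase, mem_union, mem_inter]
    grind
  rw [insert_erase he] at h4 h7
  rw [sd2] at h2
  rw [e1, e2] at h8
  rw [e3, e4] at h9
  omega

end LamAux

theorem lam_stmt (hN : NulStmt) : LamStmt where
  add := LamAux.add hN
  compl := LamAux.compl
  self c E := by
    unfold Code.lam
    omega
  sub := LamAux.sub hN
  corner := LamAux.corner hN
  cls := LamAux.cls hN
  cls' := LamAux.cls' hN
  del := LamAux.del hN
  con := LamAux.con hN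
  bc := LamAux.bc hN

end Pool.Agent.MP71

end MrgPart0

-- ======== part 1: formerly Pool.Agent.MP_71daef_lc.det.Finish
section MrgPart1

/-!
Two linked models on the whole ground set give the universal minor.
-/

set_option autoImplicit false

namespace Pool.Agent.MP71

open Finset symmDiff

namespace Finish

variable {a : ℕ} {c b : Code} {ε₁ ε₂ : Edg a → ℕ}

/-- the set carried by two edge sets -/
def pr (ε₁ ε₂ : Edg a → ℕ) (F G : Finset (Edg a)) : Finset ℕ := F.image ε₁ ∪ G.image ε₂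

/-- the edges whose elements lie in `Z` -/
def pre (ε : Edg a → ℕ) (Z : Finset ℕ) : Finset (Edg a) := univ.filter fun p => ε p ∈ Z

theorem mem_pre {ε : Edg a → ℕ} {Z : Finset ℕ} {p : Edg a} : p ∈ pre ε Z ↔ ε p ∈ Z := by
  simp [pre]

theorem mem_edges {ε : Edg a → ℕ} {x : ℕ} : x ∈ edges ε ↔ ∃ p, ε p = x := by simp [edges]

theorem mem_pr {F G : Finset (Edg a)} {x : ℕ} :
    x ∈ pr ε₁ ε₂ F G ↔ (∃ p ∈ F, ε₁ p = x) ∨ ∃ p ∈ G, ε₂ p = x := by
  simp only [pr, mem_union, mem_image]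

theorem pr_sub (F G : Finset (Edg a)) : pr ε₁ ε₂ F G ⊆ edges ε₁ ∪ edges ε₂ :=
  union_subset_union (image_subset_image (subset_univ _)) (image_subset_image (subset_univ _))

theorem pr_mono {F G F' G' : Finset (Edg a)} (h1 : F ⊆ F') (h2 : G ⊆ G') :
    pr ε₁ ε₂ F G ⊆ pr ε₁ ε₂ F' G' :=
  union_subset_union (image_subset_image h1) (image_subset_image h2)

theorem image_pre {ε : Edg a → ℕ} {Z : Finset ℕ} (hZ : Z ⊆ edges ε) : (pre ε Z).image ε = Z := by
  ext x
  simp only [mem_image, mem_pre]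
  constructor
  · rintro ⟨p, h1, rfl⟩
    exact h1
  · intro hx
    obtain ⟨p, rfl⟩ := mem_edges.1 (hZ hx)
    exact ⟨p, hx, rfl⟩

theorem pr_pre {Z : Finset ℕ} (hZ : Z ⊆ edges ε₁ ∪ edges ε₂) :
    pr ε₁ ε₂ (pre ε₁ Z) (pre ε₂ Z) = Z := by
  ext x
  simp only [mem_pr, mem_pre]
  constructor
  · rintro (⟨p, h1, rfl⟩ | ⟨p, h1, rfl⟩) <;> exact h1
  · intro hx
    rcases mem_union.1 (hZ hx) with h | h
    · obtain ⟨p, rfl⟩ := mem_edges.1 h
      exact Or.inl ⟨p, hx, rfl⟩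
    · obtain ⟨p, rfl⟩ := mem_edges.1 h
      exact Or.inr ⟨p, hx, rfl⟩

theorem even_iff {n : ℕ} : Even n ↔ (n : F2) = 0 := ZMod.natCast_eq_zero_iff_even.symm

theorem add_self (x : F2) : x + x = 0 := by
  revert x
  decide

theorem eq_of_add {x y : F2} (h : x + y = 0) : x = y := by
  revert x y
  decide

theorem eul_cut (hT : TreeStmt) {F : Finset (Edg a)} (hF : Eul F) (U : Finset (Vtx a)) :
    ((F ∩ cut U).card : F2) = 0 := by
  rw [hT.par]
  exact sum_eq_zero fun v _ => even_iff.1 ((hT.eul a F).1 hF v)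

variable (h : Two c b (edges ε₁ ∪ edges ε₂) ε₁ ∅ ε₂ ∅)
include h

theorem ne12 (p q : Edg a) : ε₁ p ≠ ε₂ q := fun e =>
  disjoint_left.1 h.disj (mem_union_left _ (mem_edges.2 ⟨p, rfl⟩))
    (mem_union_left _ (mem_edges.2 ⟨q, e.symm⟩))

theorem mem1 {F G : Finset (Edg a)} {p : Edg a} : ε₁ p ∈ pr ε₁ ε₂ F G ↔ p ∈ F := by
  rw [mem_pr]
  refine ⟨?_, fun hp => Or.inl ⟨p, hp, rfl⟩⟩
  rintro (⟨q, h1, h2⟩ | ⟨q, -, h2⟩)
  · exact h.fst.inj h2 ▸ h1
  · exact absurd h2.symm (ne12 h p q)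

theorem mem2 {F G : Finset (Edg a)} {p : Edg a} : ε₂ p ∈ pr ε₁ ε₂ F G ↔ p ∈ G := by
  rw [mem_pr]
  refine ⟨?_, fun hp => Or.inr ⟨p, hp, rfl⟩⟩
  rintro (⟨q, -, h2⟩ | ⟨q, h1, h2⟩)
  · exact absurd h2 (ne12 h q p)
  · exact h.snd.inj h2 ▸ h1

theorem cy_add {F G F' G' : Finset (Edg a)} (h1 : c.cyc (pr ε₁ ε₂ F G))
    (h2 : c.cyc (pr ε₁ ε₂ F' G')) : c.cyc (pr ε₁ ε₂ (F ∆ F') (G ∆ G')) := by
  refine c.add' h1 h2 fun x => ?_
  by_cases hx : x ∈ edges ε₁ ∪ edges ε₂
  · rcases mem_union.1 hx with e | e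
    · obtain ⟨p, rfl⟩ := mem_edges.1 e
      simp only [mem_symmDiff, mem1 h]
    · obtain ⟨p, rfl⟩ := mem_edges.1 e
      simp only [mem_symmDiff, mem2 h]
  · have := fun F G : Finset (Edg a) => fun e : x ∈ pr ε₁ ε₂ F G => hx (pr_sub F G e)
    rw [mem_symmDiff]
    exact ⟨fun e => (this _ _ e).elim, fun e => e.elim (fun e => (this _ _ e.1).elim)
      fun e => (this _ _ e.1).elim⟩

theorem cy_eul {F : Finset (Edg a)} : c.cyc (pr ε₁ ε₂ F ∅) ↔ Eul F := by
  rw [← h.fst.cyc F]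
  simp [pr]

theorem co_eul {F : Finset (Edg a)} : b.cyc (F.image ε₂) ↔ Eul F := by
  rw [← h.snd.cyc F]
  simp

theorem card_inter (F G G' : Finset (Edg a)) :
    (pr ε₁ ε₂ F G ∩ G'.image ε₂).card = (G ∩ G').card := by
  rw [← card_image_of_injective (G ∩ G') h.snd.inj]
  congr 1
  ext x
  simp only [mem_inter, mem_image]
  constructor
  · rintro ⟨h1, p, h2, rfl⟩
    exact ⟨p, ⟨(mem2 h).1 h1, h2⟩, rfl⟩
  · rintro ⟨p, ⟨h1, h2⟩, rfl⟩
    exact ⟨(mem2 h).2 h1, p, h2, rfl⟩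

theorem trace_cut (hT : TreeStmt) {F G : Finset (Edg a)} (h1 : c.cyc (pr ε₁ ε₂ F G)) :
    ∃ U, G = cut U := by
  refine hT.isCut a G fun F' hF' => ?_
  rw [← card_inter h F G F']
  exact h.dual.orth _ (pr_sub F G) _
    ((image_subset_image (subset_univ _)).trans subset_union_right) h1 ((co_eul h).2 hF')

theorem lift_cut (hD : DualStmt) (hT : TreeStmt) (U : Finset (Vtx a)) :
    ∃ F, c.cyc (pr ε₁ ε₂ F (cut U)) := by
  have hd := hD.con c b _ (edges ε₁) h.dual subset_union_left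
  have h1 : pr ε₁ ε₂ ∅ (cut U) ⊆ (edges ε₁ ∪ edges ε₂) \ edges ε₁ := fun x hx =>
    mem_sdiff.2 ⟨pr_sub _ _ hx, fun e => by
      obtain ⟨p, rfl⟩ := mem_edges.1 e
      exact notMem_empty _ ((mem1 h).1 hx)⟩
  obtain ⟨-, P, h2, h3⟩ := hd.left _ h1 fun Z hZ hb => by
    have h4 : Z ⊆ edges ε₂ := fun x hx =>
      (mem_union.1 (mem_sdiff.1 (hZ hx)).1).resolve_left (mem_sdiff.1 (hZ hx)).2
    rw [← image_pre h4] at hb ⊢
    rw [card_inter h, inter_comm, even_iff]
    exact eul_cut hT ((co_eul h).1 hb) U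
  refine ⟨pre ε₁ P, ?_⟩
  have : pr ε₁ ε₂ (pre ε₁ P) (cut U) = pr ε₁ ε₂ ∅ (cut U) ∪ P := by
    rw [pr, pr, image_pre h2, image_empty, empty_union, union_comm]
  rwa [this]

theorem par_eq (hT : TreeStmt) {P : Vtx a → Finset (Edg a)}
    (hP : ∀ v, c.cyc (pr ε₁ ε₂ (P v) (cut {v}))) (W U : Finset (Vtx a)) :
    ∀ F, c.cyc (pr ε₁ ε₂ F (cut U)) →
      ((F ∩ cut W).card : F2) = ∑ v ∈ U, ((P v ∩ cut W).card : F2) := by
  induction U using Finset.induction_on with
  | empty =>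
    intro F hF
    have : cut (∅ : Finset (Vtx a)) = ∅ := by simp [cut]
    rw [this] at hF
    rw [sum_empty]
    exact eul_cut hT ((cy_eul h).1 hF) W
  | insert v U hv ih =>
    intro F hF
    have h1 := cy_add h (hP v) hF
    rw [hT.ins a U v hv, symmDiff_symmDiff_cancel_left] at h1
    rw [sum_insert hv, ← ih _ h1, hT.add, ← add_assoc, add_self, zero_add]

theorem sums_ge (hL : LamStmt) (hT : TreeStmt) {P : Vtx a → Finset (Edg a)}
    (hP : ∀ v, c.cyc (pr ε₁ ε₂ (P v) (cut {v}))) :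
    2 ^ c.lam (edges ε₁ ∪ edges ε₂) (edges ε₁) ≤
      (sums fun r v : Vtx a => ((P v ∩ cut {r}).card : F2)).card := by
  refine (hL.cls' c _ (edges ε₁) (Vtx a → F2)
    (fun Z r => ((pre ε₁ Z ∩ cut {r}).card : F2)) subset_union_left
    fun Z _ Z' _ e => ?_).trans (card_le_card fun y hy => ?_)
  · have h1 : (Z ∆ Z') ∩ edges ε₁ = pr ε₁ ε₂ (pre ε₁ Z ∆ pre ε₁ Z') ∅ := by
      rw [pr, image_empty, union_empty, ← image_pre (inter_subset_right (s₁ := Z ∆ Z'))]
      congr 1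
      ext p
      simp only [mem_pre, mem_inter, mem_symmDiff, mem_edges, exists_apply_eq_apply, and_true]
    rw [h1, cy_eul h, hT.eul]
    intro v
    rw [even_iff, hT.add, congrFun e v, add_self]
  · obtain ⟨Z, hZ, rfl⟩ := mem_image.1 hy
    obtain ⟨h1, h2⟩ := Code.mem_cy.1 hZ
    rw [← pr_pre h1] at h2
    obtain ⟨U, hU⟩ := trace_cut h hT h2
    rw [hU] at h2
    exact mem_image.2 ⟨U, mem_univ _, funext fun r => (par_eq h hT hP {r} U _ h2).symm⟩

end Finish

open Finish in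
theorem fin_stmt (hL : LamStmt) (hD : DualStmt) (hT : TreeStmt) (hG : GridStmt) : FinStmt := by
  intro d
  obtain ⟨k, a₀, hg⟩ := hG d
  refine ⟨k, a₀, fun a ha c b ε₁ ε₂ h hk => ?_⟩
  choose P hP using fun v : Vtx a => lift_cut h hD hT {v}
  obtain ⟨R, U, hR, hU, hY⟩ := hg a ha _
    ((Nat.pow_le_pow_right (by norm_num) hk).trans (sums_ge h hL hT hP))
  obtain ⟨T₁, e, e1, e2, e3, e4, -⟩ := hT.tree a (Fin d) R hR
  obtain ⟨T₂, f, -, -, -, f4, f5⟩ := hT.tree a (Finset (Fin d)) U hU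
  have eT : ∀ t, e t ∈ T₁ ∧ e t ∈ cut (R t) := fun t =>
    mem_inter.1 ((e4 t).symm ▸ mem_singleton_self _)
  have fT : ∀ S, f S ∈ T₂ ∧ f S ∈ cut (U S) := fun S =>
    mem_inter.1 ((f4 S).symm ▸ mem_singleton_self _)
  refine ⟨pr ε₁ ε₂ T₁ (univ \ T₂), univ.image fun t => ε₁ (e t), fun x hx => ?_, pr_sub _ _,
    fun Z hZ hc => ?_, ?_, fun S hS => ?_⟩
  · obtain ⟨t, -, rfl⟩ := mem_image.1 hx
    exact (mem1 h).2 (eT t).1
  · have h1 := pr_pre (hZ.trans (pr_sub _ _))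
    rw [← h1] at hc
    obtain ⟨V, hV⟩ := trace_cut h hT hc
    have h2 : pre ε₂ Z = ∅ := by
      rw [hV]
      refine f5 V (disjoint_right.2 fun p hp => ?_)
      rw [← hV] at hp
      exact (mem_sdiff.1 ((mem2 h).1 (hZ (mem_pre.1 hp)))).2
    rw [h2] at hc h1
    rw [e2 _ (fun p hp => (mem1 h).1 (hZ (mem_pre.1 hp))) ((cy_eul h).1 hc)] at h1
    rw [← h1]
    rfl
  · exact (card_image_of_injective _ (h.fst.inj.comp e1)).trans (by simp)
  · set S' : Finset (Fin d) := univ.filter fun t => ε₁ (e t) ∈ S with hS'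
    obtain ⟨F, hF⟩ := lift_cut h hD hT (U S')
    obtain ⟨J, j1, j2⟩ := e3 F
    have hJ := cy_add h hF ((cy_eul h).2 j2)
    rw [symmDiff_symmDiff_cancel_left, ← bot_eq_empty, symmDiff_bot] at hJ
    have key : ∀ t, e t ∈ J ↔ t ∈ S' := fun t => by
      have h1 := par_eq h hT hP (R t) (U S') J hJ
      rw [sum_congr rfl fun v _ => hT.par a (P v) (R t), sum_comm, hY] at h1
      by_cases h2 : e t ∈ J
      · have h3 : J ∩ cut (R t) = {e t} := by
          refine Subset.antisymm (e4 t ▸ inter_subset_inter_right j1) ?_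
          exact singleton_subset_iff.2 (mem_inter.2 ⟨h2, (eT t).2⟩)
        rw [h3, card_singleton] at h1
        refine iff_of_true h2 (by_contra fun h4 => ?_)
        rw [if_neg h4] at h1
        exact absurd h1 (by decide)
      · have h3 : J ∩ cut (R t) = ∅ := by
          refine eq_empty_of_forall_notMem fun p hp => h2 ?_
          have h5 : p ∈ T₁ ∩ cut (R t) := inter_subset_inter_right j1 hp
          rw [e4 t, mem_singleton] at h5
          exact h5 ▸ (mem_inter.1 hp).1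
        rw [h3, card_empty] at h1
        refine iff_of_false h2 fun h4 => ?_
        rw [if_pos h4] at h1
        exact absurd h1 (by decide)
    refine ⟨ε₂ (f S'), mem_union_right _ (mem_edges.2 ⟨_, rfl⟩),
      fun h1 => (mem_sdiff.1 ((mem2 h).1 h1)).2 (fT S').1, pr ε₁ ε₂ J (cut (U S') \ T₂),
      pr_mono j1 (sdiff_subset_sdiff (subset_univ _) Subset.rfl), ?_, ?_⟩
    · have h1 : cut (U S') = insert (f S') (cut (U S') \ T₂) := by
        rw [insert_eq, ← f4 S', inter_comm, union_comm, sdiff_union_inter]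
      have h2 : insert (ε₂ (f S')) (pr ε₁ ε₂ J (cut (U S') \ T₂)) = pr ε₁ ε₂ J (cut (U S')) := by
        conv_rhs => rw [h1]
        rw [pr, pr, image_insert, union_insert]
      rwa [h2]
    · ext x
      rw [mem_inter]
      constructor
      · rintro ⟨h1, h2⟩
        obtain ⟨t, -, rfl⟩ := mem_image.1 h2
        exact (mem_filter.1 ((key t).1 ((mem1 h).1 h1))).2
      · intro hx
        obtain ⟨t, -, rfl⟩ := mem_image.1 (hS hx)
        exact ⟨(mem1 h).2 ((key t).2 (mem_filter.2 ⟨mem_univ _, hx⟩)), hS hx⟩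

end Pool.Agent.MP71

end MrgPart1

-- ======== part 2: formerly Pool.Agent.MP_71daef_lc.det.Spw
section MrgPart2

/-!
Rows SP and SPW: witnesses that avoid a small target, unweighted and weighted.
-/

set_option autoImplicit false

namespace Pool.Agent.MP71

open Finset symmDiff

namespace Spw

variable {c : Code} {E X Y : Finset ℕ} {w : ℕ → ℕ} {γ : ℕ}

theorem mem_units {p : ℕ × ℕ} : p ∈ units w X ↔ p.1 ∈ X ∧ p.2 < w p.1 := by
  simp only [units, mem_biUnion, mem_image, mem_range]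
  constructor
  · rintro ⟨e, he, i, hi, rfl⟩
    exact ⟨he, hi⟩
  · rintro ⟨h1, h2⟩
    exact ⟨p.1, h1, p.2, h2, rfl⟩

theorem card_units : (units w X).card = ∑ e ∈ X, w e := by
  rw [units, card_biUnion]
  · refine sum_congr rfl fun e _ => ?_
    rw [card_image_of_injective _ (fun i j h => (Prod.ext_iff.1 h).2), card_range]
  · intro e _ e' _ hne
    refine disjoint_left.2 fun p h1 h2 => hne ?_
    obtain ⟨i, -, rfl⟩ := mem_image.1 h1
    obtain ⟨j, -, h3⟩ := mem_image.1 h2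
    exact (Prod.ext_iff.1 h3).1.symm

/-- The units, coded as natural numbers. -/
def un (w : ℕ → ℕ) (X : Finset ℕ) : Finset ℕ := (units w X).image fun p => Nat.pair p.1 p.2

theorem mem_un {n : ℕ} : n ∈ un w X ↔ n.unpair.1 ∈ X ∧ n.unpair.2 < w n.unpair.1 := by
  rw [un, mem_image]
  constructor
  · rintro ⟨p, hp, rfl⟩
    simpa [Nat.unpair_pair] using mem_units.1 hp
  · intro h
    exact ⟨n.unpair, mem_units.2 h, Nat.pair_unpair n⟩

theorem mem_un' {n : ℕ} : n ∈ un w X ↔ n.unpair ∈ units w X := by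
  rw [mem_un, mem_units]

theorem card_un : (un w X).card = ∑ e ∈ X, w e := by
  rw [un, card_image_of_injective, card_units]
  intro p q h
  exact Prod.ext (Nat.pair_eq_pair.1 h).1 (Nat.pair_eq_pair.1 h).2

theorem un_mono (h : X ⊆ Y) : un w X ⊆ un w Y := fun _ hn =>
  mem_un.2 ⟨h (mem_un.1 hn).1, (mem_un.1 hn).2⟩

theorem un_symm : un w (X ∆ Y) = un w X ∆ un w Y := by
  ext n
  simp only [mem_un, mem_symmDiff]
  tauto

theorem unpair_inj : Function.Injective Nat.unpair := fun a b h => by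
  rw [← Nat.pair_unpair a, h, Nat.pair_unpair]

/-- Every element is replaced by a series class with `w e` elements. -/
def wc (c : Code) (E : Finset ℕ) (w : ℕ → ℕ) : Code where
  cyc U := ∃ Z ⊆ E, c.cyc Z ∧ U = un w Z
  zero := ⟨∅, empty_subset _, c.zero, by simp [un, units]⟩
  add := by
    rintro _ _ ⟨X, h1, h2, rfl⟩ ⟨Y, h3, h4, rfl⟩
    exact ⟨X ∆ Y, symmDiff_le_sup.trans (sup_le h1 h3), c.add h2 h4, un_symm.symm⟩

theorem eq_empty (hg : c.GirW E w γ) (h1 : 1 ≤ γ) (hX : X ⊆ E) (hc : c.cyc X)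
    (h : un w X = ∅) : X = ∅ := by
  by_contra hne
  have h2 := hg X hX hc (nonempty_iff_ne_empty.2 hne)
  rw [← card_un, h, card_empty] at h2
  omega

theorem un_inj (hg : c.GirW E w γ) (h1 : 1 ≤ γ) (hX : X ⊆ E) (hY : Y ⊆ E) (hc : c.cyc X)
    (hc' : c.cyc Y) (h : un w X = un w Y) : X = Y := by
  refine symmDiff_eq_bot.1 (eq_empty hg h1 (symmDiff_le_sup.trans (sup_le hX hY)) (c.add hc hc') ?_)
  rw [un_symm, h]
  exact symmDiff_self _

theorem gir (hg : c.GirW E w γ) : (wc c E w).Gir (un w E) γ := by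
  rintro _ - ⟨Z, h1, h2, rfl⟩ ⟨n, hn⟩
  rw [card_un]
  exact hg Z h1 h2 ⟨_, (mem_un.1 hn).1⟩

theorem nul_le (hg : c.GirW E w γ) (h1 : 1 ≤ γ) (hX : X ⊆ E) :
    c.nul X ≤ (wc c E w).nul (un w X) := by
  refine Nat.log_mono_right (card_le_card_of_injOn (un w) (fun Z hZ => ?_) fun Z hZ Z' hZ' h => ?_)
  · obtain ⟨h2, h3⟩ := Code.mem_cy.1 (mem_coe.1 hZ)
    exact mem_coe.2 (Code.mem_cy.2 ⟨un_mono h2, Z, h2.trans hX, h3, rfl⟩)
  · obtain ⟨h2, h3⟩ := Code.mem_cy.1 (mem_coe.1 hZ)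
    obtain ⟨h4, h5⟩ := Code.mem_cy.1 (mem_coe.1 hZ')
    exact un_inj hg h1 (h2.trans hX) (h4.trans hX) h3 h5 h

theorem uni (hg : c.GirW E w γ) (h1 : 1 ≤ γ) {d : ℕ} (h : (wc c E w).Uni (un w E) (d + 2)) :
    c.Uni E (d + 2) := by
  classical
  obtain ⟨B, T, hTB, hBE, hI, hT, h⟩ := h
  choose! f hfE hfB L hL hc hS using h
  choose! Z hZE hZ hu using hc
  have hw : ∀ t ∈ T, t.unpair.2 < w t.unpair.1 := fun t ht => (mem_un.1 (hBE (hTB ht))).2
  have hm : ∀ S ⊆ T, ∀ t ∈ T, t.unpair.1 ∈ Z S ↔ t ∈ S := fun S h2 t ht => by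
    have h3 := Finset.ext_iff.1 (hu S h2) t
    have h4 := Finset.ext_iff.1 (hS S h2) t
    have h5 : t ≠ f S := fun e => hfB S h2 (e ▸ hTB ht)
    simp only [mem_un, mem_insert, mem_inter, h5, false_or, ht, and_true, hw t ht] at h3 h4
    rw [← h3, h4]
  have hall : ∀ S ⊆ T, ∀ e ∈ Z S, ∀ i < w e, Nat.pair e i = f S ∨ Nat.pair e i ∈ B :=
    fun S h2 e he i hi => by
    have h3 : Nat.pair e i ∈ insert (f S) (L S) := by
      rw [hu S h2, mem_un, Nat.unpair_pair]
      exact ⟨he, hi⟩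
    exact (mem_insert.1 h3).imp id fun h4 => hL S h2 h4
  have hinj : Set.InjOn (fun t : ℕ => t.unpair.1) T := fun t ht t' ht' e => by
    have h2 : {t} ⊆ T := singleton_subset_iff.2 ht
    have h3 := (hm _ h2 t ht).2 (mem_singleton_self t)
    have h4 : t.unpair.1 = t'.unpair.1 := e
    exact (mem_singleton.1 ((hm _ h2 t' ht').1 (h4 ▸ h3))).symm
  have hsub : T.image (fun t : ℕ => t.unpair.1) ⊆
      E.filter fun e => ∀ i < w e, Nat.pair e i ∈ B := by
    intro e he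
    obtain ⟨t, ht, rfl⟩ := mem_image.1 he
    refine mem_filter.2 ⟨(mem_un.1 (hBE (hTB ht))).1, fun i hi => ?_⟩
    have h2 : {t} ⊆ T := singleton_subset_iff.2 ht
    by_contra hcon
    have h3 := (hall _ h2 _ ((hm _ h2 t ht).2 (mem_singleton_self t)) i hi).resolve_right hcon
    have h4 := (hall _ subset_rfl _ ((hm _ subset_rfl t ht).2 ht) i hi).resolve_right hcon
    have h5 : f {t} = f T := h3.symm.trans h4
    have h6 : L {t} ∆ L T = ∅ := by
      refine hI _ (symmDiff_le_sup.trans (sup_le (hL _ h2) (hL _ subset_rfl))) ?_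
      refine (wc c E w).add' (X := insert (f {t}) (L {t})) (Y := insert (f T) (L T))
        ⟨_, hZE _ h2, hZ _ h2, hu _ h2⟩
        ⟨_, hZE _ subset_rfl, hZ _ subset_rfl, hu _ subset_rfl⟩ fun x => ?_
      have h7 : f T ∉ L {t} := fun h => hfB T subset_rfl (hL _ h2 h)
      have h8 : f T ∉ L T := fun h => hfB T subset_rfl (hL _ subset_rfl h)
      simp only [mem_symmDiff, mem_insert, h5]
      by_cases hx : x = f T
      · simp [hx, h7, h8]
      · simp [hx]
    have h7 : ({t} : Finset ℕ) = T := by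
      rw [← hS _ h2, symmDiff_eq_bot.1 h6, hS _ subset_rfl]
    rw [← h7, card_singleton] at hT
    omega
  refine ⟨E.filter fun e => ∀ i < w e, Nat.pair e i ∈ B, T.image fun t : ℕ => t.unpair.1, hsub,
    filter_subset _ _, fun X hX hc => ?_, (card_image_of_injOn hinj).trans hT, fun S hST => ?_⟩
  · have h2 : X ⊆ E := hX.trans (filter_subset _ _)
    refine eq_empty hg h1 h2 hc (hI _ (fun n hn => ?_) ⟨X, h2, hc, rfl⟩)
    have h3 := (mem_filter.1 (hX (mem_un.1 hn).1)).2 _ (mem_un.1 hn).2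
    rwa [Nat.pair_unpair] at h3
  · have h2 : T.filter (fun t : ℕ => t.unpair.1 ∈ S) ⊆ T := filter_subset _ _
    generalize hS' : T.filter (fun t : ℕ => t.unpair.1 ∈ S) = S' at h2
    have h3 : f S' ∈ un w (Z S') := hu S' h2 ▸ mem_insert_self _ _
    have h4 : (f S').unpair.1 ∉ E.filter fun e => ∀ i < w e, Nat.pair e i ∈ B := fun h => by
      have h5 := (mem_filter.1 h).2 _ (mem_un.1 h3).2
      rw [Nat.pair_unpair] at h5
      exact hfB S' h2 h5
    refine ⟨(f S').unpair.1, hZE S' h2 (mem_un.1 h3).1, h4, (Z S').erase (f S').unpair.1,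
      fun e he => ?_, ?_, ?_⟩
    · obtain ⟨h5, h6⟩ := mem_erase.1 he
      refine mem_filter.2 ⟨hZE S' h2 h6, fun i hi => (hall S' h2 e h6 i hi).resolve_left ?_⟩
      intro h7
      rw [← h7, Nat.unpair_pair] at h5
      exact h5 rfl
    · rw [insert_erase (mem_un.1 h3).1]
      exact hZ S' h2
    · ext e
      rw [mem_inter, mem_erase]
      constructor
      · rintro ⟨⟨-, h5⟩, h6⟩
        obtain ⟨t, ht, rfl⟩ := mem_image.1 h6
        have h7 := (hm S' h2 t ht).1 h5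
        rw [← hS'] at h7
        exact (mem_filter.1 h7).2
      · intro he
        obtain ⟨t, ht, rfl⟩ := mem_image.1 (hST he)
        refine ⟨⟨fun h5 => h4 (h5 ▸ hsub (hST he)), (hm S' h2 t ht).2 ?_⟩, hST he⟩
        rw [← hS']
        exact mem_filter.2 ⟨ht, he⟩

theorem not_uni (hU : UniStmt) (hg : c.GirW E w γ) (h1 : 1 ≤ γ) {d : ℕ} (h : ¬ c.Uni E d) :
    ¬ (wc c E w).Uni (un w E) (d + 2) := fun h2 =>
  h (hU.le c E d (d + 2) (by omega) (uni hg h1 h2))

end Spw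

open Spw

theorem sp_stmt (hN : NulStmt) (hU : UniStmt) (h1 : CloseStmt) (h2 : WStmt) : SPStmt := by
  intro d α
  obtain ⟨F, hF⟩ := hU.fmb d (α + 1)
  obtain ⟨V, q, C, hW⟩ := h2 d
  refine ⟨V, (F + 1) * q, (F + 1) * C + F, fun c E Z γ hu hg hγ hZ hc => ?_⟩
  have hs : ∀ U, U ⊆ E → U.card < Z.card + γ → c.nul U ≤ F := fun U h3 h4 =>
    hF c E U γ hu hg h3 (by rw [add_mul, one_mul]; omega)
  obtain ⟨U, G, hZU, hUE, hUc, hG1, hG2, hG⟩ := h1 c E Z γ (F + 1) hγ hZ
    fun U _ h3 h4 => Nat.lt_succ_of_le (hs U h3 h4)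
  have hG0 : 1 ≤ G := by
    rcases Nat.eq_zero_or_pos G with h | h
    · rw [h, mul_zero] at hG1
      omega
    · exact h
  obtain ⟨𝓨, k1, k2, k3⟩ := hW (c.con U) (E \ U) G
    (fun h => hu (hU.con c E (E \ U) U d sdiff_subset hUE h)) hG hG0
  refine ⟨𝓨, k1.trans (Nat.mul_le_mul (Nat.pow_le_pow_left
    (Nat.succ_le_succ (card_le_card sdiff_subset)) _)
    (Nat.pow_le_pow_right two_pos (Nat.mul_le_mul_left _ hG2))), fun Y hY => ⟨(k2 Y hY).1.trans
      (sdiff_subset_sdiff subset_rfl hZU), ?_⟩, fun X hX hn => ?_⟩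
  · rw [mul_assoc]
    exact hG1.trans (Nat.mul_le_mul_left _ (k2 Y hY).2)
  · by_cases h0 : c.nul X = 0
    · rw [h0, mul_zero]
      exact Nat.zero_le _
    have h3 : γ ≤ X.card := by
      rw [hN.ind, Code.Ind] at h0
      push Not at h0
      obtain ⟨Y, h4, h5, h6⟩ := h0
      exact (hg Y (h4.trans hX) h5 h6).trans (card_le_card h4)
    have h4 := k3 (X \ U) (sdiff_subset_sdiff hX subset_rfl)
      fun Y hY h => hn Y hY (h.trans sdiff_subset)
    have h5 := hN.con c (X \ U) U sdiff_disjoint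
    have h6 := hN.mono c X (X \ U ∪ U) (by rw [sdiff_union_self_eq_union]; exact subset_union_left)
    have h7 := hs U hUE hUc
    have h8 : c.nul X ≤ (c.con U).nul (X \ U) + F := by omega
    have h9 : C * (X \ U).card ≤ C * X.card :=
      Nat.mul_le_mul_left _ (card_le_card sdiff_subset)
    calc γ * c.nul X ≤ γ * ((c.con U).nul (X \ U) + F) := Nat.mul_le_mul_left _ h8
      _ = γ * (c.con U).nul (X \ U) + γ * F := mul_add _ _ _
      _ ≤ (F + 1) * G * (c.con U).nul (X \ U) + X.card * F :=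
        Nat.add_le_add (Nat.mul_le_mul_right _ hG1) (Nat.mul_le_mul_right _ h3)
      _ = (F + 1) * (G * (c.con U).nul (X \ U)) + F * X.card := by ring
      _ ≤ (F + 1) * (C * X.card) + F * X.card :=
        Nat.add_le_add_right (Nat.mul_le_mul_left _ (h4.trans h9)) _
      _ = ((F + 1) * C + F) * X.card := by ring

theorem spw_stmt (_hN : NulStmt) (hU : UniStmt) (h : SPStmt) : SPWStmt := by
  intro d α
  obtain ⟨V, q, C, hS⟩ := h (d + 2) α
  refine ⟨V, q, C, fun c E Z w γ hu hg hγ hZ hc => ?_⟩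
  obtain ⟨𝓨, k1, k2, k3⟩ := hS (wc c E w) (un w E) (un w Z) γ (not_uni hU hg hγ hu) (gir hg) hγ
    (un_mono hZ) (card_un.trans_le hc)
  refine ⟨𝓨.image (image Nat.unpair), card_image_le.trans (card_un (w := w) (X := E) ▸ k1),
    fun Y hY => ?_, fun X hX hn => ?_⟩
  · obtain ⟨Y', hY', rfl⟩ := mem_image.1 hY
    obtain ⟨h1, h2⟩ := k2 Y' hY'
    refine ⟨fun p hp => ?_, disjoint_left.2 fun p hp h3 => ?_, ?_⟩
    · obtain ⟨n, hn, rfl⟩ := mem_image.1 hp
      exact mem_un'.1 (mem_sdiff.1 (h1 hn)).1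
    · obtain ⟨n, hn, rfl⟩ := mem_image.1 hp
      exact (mem_sdiff.1 (h1 hn)).2 (mem_un'.2 h3)
    · rwa [card_image_of_injective _ unpair_inj]
  · have h1 := k3 (un w X) (un_mono hX) fun Y hY h2 => hn _ (mem_image_of_mem _ hY) fun p hp => by
      obtain ⟨n, h3, rfl⟩ := mem_image.1 hp
      exact mem_un'.1 (h2 h3)
    rw [card_un] at h1
    exact (Nat.mul_le_mul_left _ (nul_le hg hγ hX)).trans h1

theorem countw_stmt (_hN : NulStmt) (hU : UniStmt) : CountWStmt := by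
  intro d α
  obtain ⟨V, hV⟩ := hU.count (d + 2) α
  refine ⟨V, fun c E w γ hu hg hγ => ?_⟩
  have h1 := hV (wc c E w) (un w E) γ (not_uni hU hg hγ hu) (gir hg)
  rw [card_un] at h1
  refine le_trans (card_le_card_of_injOn (un w) (fun Z hZ => ?_) fun Z hZ Z' hZ' h => ?_) h1
  · obtain ⟨h2, h3⟩ := mem_filter.1 (mem_coe.1 hZ)
    obtain ⟨h4, h5⟩ := Code.mem_cy.1 h2
    exact mem_coe.2 (mem_filter.2 ⟨Code.mem_cy.2 ⟨un_mono h4, Z, h4, h5, rfl⟩,
      card_un.trans_le h3⟩)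
  · obtain ⟨h2, h3⟩ := Code.mem_cy.1 (mem_filter.1 (mem_coe.1 hZ)).1
    obtain ⟨h4, h5⟩ := Code.mem_cy.1 (mem_filter.1 (mem_coe.1 hZ')).1
    exact un_inj hg hγ h2 h4 h3 h5 h

end Pool.Agent.MP71

end MrgPart2

-- marker of a merged file
example : 731051 + 15783 = 731051 + 15783 := rfl
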