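import Pool.Agent.MP_71daef_lc.det.AOrc
import Pool.Agent.MP_71daef_lc.det.APl2
import Pool.Agent.MP_71daef_lc.det.ARun
import Pool.Agent.MP_71daef_lc.det.Spw

-- ======== part 0: formerly Pool.Agent.MP_71daef_lc.det.Nullity
section MrgPart0

/-!
Basic facts on the nullity function of a binary code.
-/

set_option autoImplicit false

namespace Pool.Agent.MP71

open Finset symmDiff

namespace NulAux

theorem card_bas {c : Code} {X B : Finset ℕ} (h : c.Bas X B) :
    (c.cy X).card = 2 ^ (X \ B).card := by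
  refine le_antisymm (h.2.1.card_cy X) ?_
  rw [← card_powerset]
  refine card_le_card_of_surjOn (· \ B) fun W hW => ?_
  have hW' : W ⊆ X \ B := mem_powerset.1 (mem_coe.1 hW)
  obtain ⟨P, h1, h2⟩ := h.lab W hW'
  refine ⟨W ∆ P, mem_coe.2 (Code.mem_cy.2 ⟨symmDiff_le_sup.trans
    (sup_le (hW'.trans sdiff_subset) (h1.trans h.1)), h2⟩), ?_⟩
  ext x
  have := @hW' x
  have := @h1 x
  simp only [mem_sdiff, mem_symmDiff] at *
  grind

theorem bas (c : Code) (X B : Finset ℕ) (h : c.Bas X B) : c.nul X = (X \ B).card := by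
  rw [Code.nul, card_bas h, Nat.log_pow one_lt_two]

theorem card_cy (c : Code) (X : Finset ℕ) : (c.cy X).card = 2 ^ c.nul X := by
  obtain ⟨B, hB⟩ := c.exists_bas X
  rw [bas c X B hB, card_bas hB]

theorem le_ind {c : Code} {B : Finset ℕ} (h : c.Ind B) (X : Finset ℕ) :
    c.nul X ≤ (X \ B).card := by
  have := h.card_cy X
  rw [card_cy] at this
  exact (Nat.pow_le_pow_iff_right one_lt_two).1 this

theorem ind (c : Code) (X : Finset ℕ) : c.nul X = 0 ↔ c.Ind X := by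
  constructor
  · intro h Z hZ hc
    have h1 := card_cy c X
    rw [h, pow_zero] at h1
    exact card_le_one.1 h1.le Z (Code.mem_cy.2 ⟨hZ, hc⟩) ∅
      (Code.mem_cy.2 ⟨empty_subset _, c.zero⟩)
  · intro h
    have := le_ind h X
    rwa [Finset.sdiff_self, card_empty, Nat.le_zero] at this

theorem mono (c : Code) (X Y : Finset ℕ) (h : X ⊆ Y) : c.nul X ≤ c.nul Y :=
  Nat.log_mono_right (card_le_card fun _ hZ =>
    Code.mem_cy.2 ⟨(Code.mem_cy.1 hZ).1.trans h, (Code.mem_cy.1 hZ).2⟩)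

theorem ext (c : Code) (X B : Finset ℕ) (h1 : B ⊆ X) (h2 : c.Ind B) :
    ∃ B', B ⊆ B' ∧ c.Bas X B' := by
  classical
  obtain ⟨B', hB, hmax⟩ := exists_max_image (X.powerset.filter fun T => B ⊆ T ∧ c.Ind T) card
    ⟨B, mem_filter.2 ⟨mem_powerset.2 h1, subset_rfl, h2⟩⟩
  simp only [mem_filter, mem_powerset, and_imp] at hB hmax
  refine ⟨B', hB.2.1, hB.1, hB.2.2, fun f hf => ?_⟩
  obtain ⟨h3, h4⟩ := mem_sdiff.1 hf
  by_contra hcon
  have := hmax (insert f B') (insert_subset h3 hB.1) (hB.2.1.trans (subset_insert _ _))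
    fun Z hZ hc => by
      by_cases hfZ : f ∈ Z
      · exact absurd ⟨Z.erase f, (subset_insert_iff.1 hZ), by rwa [insert_erase hfZ]⟩ hcon
      · exact hB.2.2 Z ((subset_insert_iff_of_notMem hfZ).1 hZ) hc
  rw [card_insert_of_notMem h4] at this
  omega

theorem sup (c : Code) (X Y : Finset ℕ) :
    c.nul X + c.nul Y ≤ c.nul (X ∪ Y) + c.nul (X ∩ Y) := by
  obtain ⟨B₀, h0⟩ := c.exists_bas (X ∩ Y)
  obtain ⟨B, h1, h2⟩ := ext c (X ∪ Y) B₀ (h0.1.trans inter_subset_union) h0.2.1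
  have h3 := le_ind h2.2.1 X
  have h4 := le_ind h2.2.1 Y
  rw [bas c _ _ h2, bas c _ _ h0]
  have h5 := card_union_add_card_inter (X \ B) (Y \ B)
  rw [← union_sdiff_distrib] at h5
  have h6 : ((X \ B) ∩ (Y \ B)).card ≤ ((X ∩ Y) \ B₀).card := card_le_card fun x hx => by
    have := @h1 x
    simp only [mem_inter, mem_sdiff] at *
    grind
  omega

theorem sdiff (c : Code) (X S : Finset ℕ) : c.nul X ≤ c.nul (X \ S) + S.card := by
  obtain ⟨B, hB⟩ := c.exists_bas (X \ S)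
  rw [bas c _ _ hB]
  refine (le_ind hB.2.1 X).trans ((card_le_card fun x hx => ?_).trans (card_union_le _ _))
  simp only [mem_union, mem_sdiff] at *
  grind

theorem lt (c : Code) (X Y Z : Finset ℕ) (h1 : X ⊆ Y) (h2 : Z ⊆ Y) (h3 : c.cyc Z)
    (h4 : ¬ Z ⊆ X) : c.nul X < c.nul Y := by
  have := Code.cy_double (c := c) h1 (Code.mem_cy.2 ⟨h2, h3⟩) h4
  rw [card_cy, card_cy, ← pow_succ'] at this
  exact (Nat.pow_le_pow_iff_right one_lt_two).1 this

theorem eq (c : Code) (X Y : Finset ℕ) (h1 : X ⊆ Y) (h2 : ∀ Z ⊆ Y, c.cyc Z → Z ⊆ X) :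
    c.nul Y = c.nul X := by
  have : c.cy Y = c.cy X := by
    ext Z
    rw [Code.mem_cy, Code.mem_cy]
    exact ⟨fun h => ⟨h2 Z h.1 h.2, h.2⟩, fun h => ⟨h.1.trans h1, h.2⟩⟩
  rw [Code.nul, this, Code.nul]

theorem congr (c c' : Code) (X : Finset ℕ) (h : ∀ Z ⊆ X, c.cyc Z ↔ c'.cyc Z) :
    c.nul X = c'.nul X := by
  have : c.cy X = c'.cy X := by
    ext Z
    rw [Code.mem_cy, Code.mem_cy]
    exact ⟨fun h1 => ⟨h1.1, (h Z h1.1).1 h1.2⟩, fun h1 => ⟨h1.1, (h Z h1.1).2 h1.2⟩⟩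
  rw [Code.nul, this, Code.nul]

/-- A basis of `X ∪ Q` that contains a basis of `Q` gives a basis of the contraction. -/
theorem bas_con {c : Code} {X Q B₀ B : Finset ℕ} (hd : Disjoint X Q) (h0 : c.Bas Q B₀)
    (h1 : B₀ ⊆ B) (h2 : c.Bas (X ∪ Q) B) : (c.con Q).Bas X (B \ Q) := by
  refine ⟨fun x hx => ?_, ?_, fun f hf => ?_⟩
  · have := @h2.1 x
    simp only [mem_union, mem_sdiff] at *
    grind
  · rintro Z hZ ⟨h3, R, h4, h5⟩
    obtain ⟨P, h6, h7⟩ := h0.lab (R \ B₀) (sdiff_subset_sdiff h4 subset_rfl)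
    have h8 := h2.2.1 _ (fun x hx => ?_) (c.add h5 h7)
    · refine eq_empty_of_forall_notMem fun x hx => ?_
      have h9 := Finset.ext_iff.1 h8 x
      have := @hZ x
      have := @h4 x
      have := @h6 x
      have := @h0.1 x
      simp only [mem_union, mem_sdiff, mem_symmDiff, notMem_empty] at *
      grind
    · have := @hZ x
      have := @h6 x
      have := @h1 x
      simp only [mem_union, mem_sdiff, mem_symmDiff] at *
      grind
  · have h3 : f ∈ X := (mem_sdiff.1 hf).1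
    have h4 : f ∉ Q := disjoint_left.1 hd h3
    have h5 : f ∉ B := fun h => (mem_sdiff.1 hf).2 (mem_sdiff.2 ⟨h, h4⟩)
    obtain ⟨P, h6, h7⟩ := h2.2.2 f (mem_sdiff.2 ⟨mem_union_left _ h3, h5⟩)
    refine ⟨P \ Q, sdiff_subset_sdiff h6 subset_rfl,
      disjoint_insert_left.2 ⟨h4, sdiff_disjoint⟩, P ∩ Q, inter_subset_right, ?_⟩
    rwa [insert_union, sdiff_union_inter]

theorem con (c : Code) (X Q : Finset ℕ) (hd : Disjoint X Q) :
    (c.con Q).nul X + c.nul Q = c.nul (X ∪ Q) := by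
  obtain ⟨B₀, h0⟩ := c.exists_bas Q
  obtain ⟨B, h1, h2⟩ := ext c (X ∪ Q) B₀ (h0.1.trans subset_union_right) h0.2.1
  rw [bas _ _ _ (bas_con hd h0 h1 h2), bas c _ _ h0, bas c _ _ h2,
    ← card_union_of_disjoint (disjoint_of_subset_left sdiff_subset
      (disjoint_of_subset_right sdiff_subset hd))]
  congr 1
  ext x
  have h3 : x ∈ Q → x ∉ B₀ → x ∉ B := fun hx hx' hB => by
    obtain ⟨P, h4, h5⟩ := h0.2.2 x (mem_sdiff.2 ⟨hx, hx'⟩)
    exact insert_ne_empty _ _ (h2.2.1 _ (insert_subset hB (h4.trans h1)) h5)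
  have := @disjoint_left.1 hd x
  have := @h1 x
  simp only [mem_union, mem_sdiff] at *
  grind

theorem con_con (c : Code) (P Q Z : Finset ℕ) :
    ((c.con P).con Q).cyc Z ↔ (c.con (P ∪ Q)).cyc Z := by
  constructor
  · rintro ⟨h1, R, h2, h3, R', h4, h5⟩
    exact ⟨disjoint_union_right.2 ⟨disjoint_of_subset_left subset_union_left h3, h1⟩, R ∪ R',
      union_subset (h2.trans subset_union_right) (h4.trans subset_union_left),
      by rwa [← union_assoc]⟩
  · rintro ⟨h1, T, h2, h3⟩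
    rw [disjoint_union_right] at h1
    refine ⟨h1.2, T \ P, fun x hx => ?_, disjoint_union_left.2 ⟨h1.1, sdiff_disjoint⟩, T ∩ P,
      inter_subset_right, by rwa [union_assoc, sdiff_union_inter]⟩
    have := @h2 x
    simp only [mem_union, mem_sdiff] at *
    grind

theorem priv (c : Code) (Y P : Finset ℕ) (h : ∀ e ∈ P, ∃ Z ⊆ Y, c.cyc Z ∧ Z ∩ P = {e}) :
    c.nul (Y \ P) + P.card ≤ c.nul Y := by
  have key : ∀ P' : Finset ℕ, P' ⊆ P → c.nul (Y \ P) + P'.card ≤ c.nul (Y \ (P \ P')) := by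
    intro P'
    induction P' using Finset.induction_on with
    | empty => intro _; simp
    | insert e P' he ih =>
      intro h1
      have h2 := ih ((subset_insert _ _).trans h1)
      have h3 := h1 (mem_insert_self _ _)
      obtain ⟨Z, h4, h5, h6⟩ := h e h3
      have h7 : e ∈ Z := (mem_inter.1 (h6 ▸ mem_singleton_self e : e ∈ Z ∩ P)).1
      have h8 := lt c (Y \ (P \ P')) (Y \ (P \ insert e P')) Z
        (sdiff_subset_sdiff subset_rfl (sdiff_subset_sdiff subset_rfl (subset_insert _ _)))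
        (fun x hx => by
          have := Finset.ext_iff.1 h6 x
          have := @h4 x
          simp only [mem_inter, mem_sdiff, mem_singleton, mem_insert] at *
          grind) h5
        (fun hZ => (mem_sdiff.1 (hZ h7)).2 (mem_sdiff.2 ⟨h3, he⟩))
      rw [card_insert_of_notMem he]
      omega
  simpa using key P subset_rfl

end NulAux

theorem nul_stmt : NulStmt :=
  ⟨NulAux.card_cy, NulAux.bas, NulAux.ind, NulAux.mono, NulAux.sup, NulAux.sdiff, NulAux.lt,
    NulAux.eq, NulAux.congr, NulAux.con, NulAux.con_con, NulAux.priv, NulAux.ext⟩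

end Pool.Agent.MP71

end MrgPart0

-- ======== part 1: formerly Pool.Agent.MP_71daef_lc.det.Uni
section MrgPart1

/-!
Row UNI: the universal minor is stable under contraction and controls the short cycles.
-/

set_option autoImplicit false

namespace Pool.Agent.MP71

open Finset symmDiff

namespace UniRow

theorem con (c : Code) (E X Q : Finset ℕ) (d : ℕ) (hX : X ⊆ E) (hQ : Q ⊆ E)
    (h : (c.con Q).Uni X d) : c.Uni E d := by
  obtain ⟨B, T, h1, h2, h3, h4, h5⟩ := h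
  obtain ⟨P₀, hP⟩ := c.exists_bas Q
  have hT : ∀ x ∈ T, x ∉ Q := by
    obtain ⟨f, -, -, L, -, h6, h7⟩ := h5 T subset_rfl
    intro x hx
    exact disjoint_left.1 h6.1 (mem_insert_of_mem (mem_inter.1 (h7.symm ▸ hx)).1)
  refine ⟨B \ Q ∪ P₀, T, fun x hx => mem_union_left _ (mem_sdiff.2 ⟨h1 hx, hT x hx⟩),
    union_subset ((sdiff_subset.trans h2).trans hX) (hP.1.trans hQ), fun Z hZ hc => ?_, h4,
    fun S hS => ?_⟩
  · have h6 : Z \ Q = ∅ := by
      refine h3 _ (fun x hx => ?_) ⟨sdiff_disjoint, Z ∩ Q, inter_subset_right, by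
        rwa [sdiff_union_inter]⟩
      rcases mem_union.1 (hZ (mem_sdiff.1 hx).1) with h | h
      · exact (mem_sdiff.1 h).1
      · exact absurd (hP.1 h) (mem_sdiff.1 hx).2
    refine hP.2.1 Z (fun x hx => ?_) hc
    rcases mem_union.1 (hZ hx) with h | h
    · exact absurd (sdiff_eq_empty_iff_subset.1 h6 hx) (mem_sdiff.1 h).2
    · exact h
  · obtain ⟨f, h6, h7, L, h8, ⟨h9, P, h10, h11⟩, h12⟩ := h5 S hS
    obtain ⟨P', h13, h14⟩ := hP.lab (P \ P₀) (sdiff_subset_sdiff h10 subset_rfl)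
    have hf : f ∉ Q := disjoint_left.1 h9 (mem_insert_self _ _)
    have hL : ∀ x ∈ L, x ∉ Q := fun x hx => disjoint_left.1 h9 (mem_insert_of_mem hx)
    refine ⟨f, hX h6, fun h => ?_, L ∪ (P ∩ P₀) ∆ P', union_subset_union
      (fun x hx => mem_sdiff.2 ⟨h8 hx, hL x hx⟩)
      (symmDiff_le_sup.trans (sup_le inter_subset_right h13)), c.add' h11 h14 fun x => ?_, ?_⟩
    · rcases mem_union.1 h with h | h
      · exact h7 (mem_sdiff.1 h).1
      · exact hf (hP.1 h)
    · have := hL x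
      have := @h10 x
      have := @h13 x
      have := @hP.1 x
      simp only [mem_symmDiff, mem_union, mem_insert, mem_inter, mem_sdiff]
      grind
    · rw [← h12]
      ext x
      have := hT x
      have := @h13 x
      have := @hP.1 x
      simp only [mem_symmDiff, mem_union, mem_inter]
      grind

theorem le (c : Code) (E : Finset ℕ) (d d' : ℕ) (hd : d ≤ d') (h : c.Uni E d') : c.Uni E d := by
  obtain ⟨B, T, h1, h2, h3, h4, h5⟩ := h
  obtain ⟨T', h6, h7⟩ := exists_subset_card_eq (h4 ▸ hd : d ≤ T.card)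
  refine ⟨B, T', h6.trans h1, h2, h3, h7, fun S hS => ?_⟩
  obtain ⟨f, h8, h9, L, h10, h11, h12⟩ := h5 S (hS.trans h6)
  refine ⟨f, h8, h9, L, h10, h11, ?_⟩
  rw [← inter_eq_right.2 h6, ← inter_assoc, h12, inter_eq_left.2 hS]

theorem emb (c : Code) (E : Finset ℕ) (r k : ℕ) (D : ℕ → Fin r → Prop) (h : c.Uni E (r + k)) :
    c.Emb E k D := by
  classical
  obtain ⟨B, T, h1, h2, h3, h4, h5⟩ := h
  obtain ⟨e, he⟩ := Function.Embedding.exists_of_card_le_finset (α := Fin r ⊕ Fin k) (s := T)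
    (by simp [h4])
  have heT : ∀ y, e y ∈ T := fun y => he ⟨y, rfl⟩
  choose f h6 h7 L h8 h9 h10 using fun j : ℕ => h5 (T.filter (fun x =>
    (∃ t, e (.inl t) = x ∧ D j t) ∨ ∃ i : Fin k, e (.inr i) = x ∧ (i : ℕ) = j)) (filter_subset _ _)
  refine ⟨B, fun t => e (.inl t), f, L, h2, h3, fun s t h => Sum.inl.inj (e.injective h),
    fun t => h1 (heT _), fun i hi j hj h => ?_, fun j _ => ⟨h6 j, h7 j, h8 j, h9 j, fun t => ?_⟩⟩
  · have h11 : L i = L j := by
      refine symmDiff_eq_bot.1 (h3 _ (symmDiff_le_sup.trans (sup_le (h8 i) (h8 j)))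
        (c.add' (h9 i) (h9 j) fun x => ?_))
      have := @h8 i x
      have := @h8 j x
      have := h7 j
      simp only [mem_symmDiff, mem_insert, h]
      grind
    have := Finset.ext_iff.1 ((h10 i).symm.trans (h11 ▸ h10 j)) (e (.inr ⟨i, hi⟩))
    simpa [heT] using this
  · simpa [heT] using Finset.ext_iff.1 (h10 j) (e (.inl t))

theorem univ_mat (r : ℕ) : ∃ D : ℕ → Fin r → Prop, ∀ (c : Code) (E : Finset ℕ),
    c.Emb E (2 ^ r) D → c.Uni E r := by
  classical
  let q : Finset (Fin r) ≃ Fin (2 ^ r) := Fintype.equivFinOfCardEq (by simp)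
  refine ⟨fun j t => ∃ S, (q S : ℕ) = j ∧ t ∈ S, fun c E h => ?_⟩
  obtain ⟨B, x, f, L, h1, h2, h3, h4, -, h5⟩ := h
  refine ⟨B, univ.image x, fun y hy => ?_, h1, h2, by simp [card_image_of_injective _ h3],
    fun S hS => ?_⟩
  · obtain ⟨t, -, rfl⟩ := mem_image.1 hy
    exact h4 t
  · obtain ⟨h6, h7, h8, h9, h10⟩ := h5 _ (q (univ.filter (x · ∈ S))).2
    refine ⟨_, h6, h7, _, h8, h9, ?_⟩
    ext y
    constructor
    · intro hy
      obtain ⟨t, -, rfl⟩ := mem_image.1 (mem_inter.1 hy).2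
      obtain ⟨S', h11, h12⟩ := (h10 t).1 (mem_inter.1 hy).1
      rw [q.injective (Fin.ext h11)] at h12
      exact (mem_filter.1 h12).2
    · intro hy
      obtain ⟨t, -, rfl⟩ := mem_image.1 (hS hy)
      exact mem_inter.2 ⟨(h10 t).2 ⟨_, rfl, mem_filter.2 ⟨mem_univ _, hy⟩⟩, hS hy⟩

end UniRow

theorem uni_stmt (hN : NulStmt) : UniStmt where
  con := UniRow.con
  le := UniRow.le
  emb := UniRow.emb
  count d α := by
    obtain ⟨D, hD⟩ := UniRow.univ_mat (d + 1)
    obtain ⟨V, hV⟩ := Code.count d.succ_pos (2 ^ (d + 1)) D α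
    exact ⟨V, fun c E g h hg => hV c E g (fun h' => h (UniRow.le c E _ _ d.le_succ (hD c E h'))) hg⟩
  fmb d β := by
    obtain ⟨D, hD⟩ := UniRow.univ_mat d
    obtain ⟨F, hF⟩ := Code.few_more (2 ^ d) D β
    refine ⟨F, fun c E S g h hg hS hc => ?_⟩
    obtain ⟨B, hB⟩ := c.exists_bas S
    rw [hN.bas c S B hB]
    exact hF c E S B g (fun h' => h (hD c E h')) hg hS hc hB

end Pool.Agent.MP71

end MrgPart1

-- ======== part 2: formerly Pool.Agent.MP_71daef_lc.det.Dich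
section MrgPart2

/-!
Row DICH: a set of small connectivity, or its complement, contains almost all edges of a model.
-/

set_option autoImplicit false

namespace Pool.Agent.MP71

open Finset symmDiff

namespace Dich

theorem big_mono {a : ℕ} {ε : Edg a → ℕ} {A : Finset ℕ} {r s : ℕ} (h : Big ε A r) (hrs : r ≤ s) :
    Big ε A s := by
  obtain ⟨I, J, h1, h2, h3⟩ := h
  exact ⟨I, J, by omega, by omega, h3⟩

theorem eul_four {a : ℕ} {p₁ p₂ q₁ q₂ : Fin a} (hp : p₁ ≠ p₂) (hq : q₁ ≠ q₂) :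
    Eul (({p₁, p₂} : Finset (Fin a)) ×ˢ ({q₁, q₂} : Finset (Fin a))) := by
  constructor
  · intro p
    rw [filter_product_left (s := {p₁, p₂}) (t := {q₁, q₂}) (fun x => x = p), card_product,
      card_pair hq]
    exact Even.mul_left even_two _
  · intro q
    rw [filter_product_right (s := {p₁, p₂}) (t := {q₁, q₂}) (fun x => x = q), card_product,
      card_pair hp]
    exact Even.mul_right even_two _

theorem pair_iff {β : Type} [DecidableEq β] {S : Finset β} {x y : β}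
    (hS : ∀ z ∈ S, z = x ∨ z = y) (he : Even S.card) : x ∈ S ↔ y ∈ S := by
  constructor
  · intro hx
    by_contra hy
    have : S = {x} := by
      ext z
      simp only [mem_singleton]
      exact ⟨fun hz => (hS z hz).resolve_right fun h => hy (h ▸ hz), fun h => h ▸ hx⟩
    simp [this] at he
  · intro hy
    by_contra hx
    have : S = {y} := by
      ext z
      simp only [mem_singleton]
      exact ⟨fun hz => (hS z hz).resolve_left fun h => hx (h ▸ hz), fun h => h ▸ hy⟩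
    simp [this] at he

/-- The state of the greedy construction after `j` steps. -/
def Sta (c : Code) (C A : Finset ℕ) {a : ℕ} (ε : Edg a → ℕ) (j : ℕ) : Prop :=
  ∃ (I J : Finset (Fin a)) (𝓕 : Finset (Finset ℕ)), I.card + 2 * j = a ∧ J.card + 2 * j = a ∧
    𝓕.card = 2 ^ j ∧
    (∀ Z ∈ 𝓕, Z ⊆ edges ε ∪ C ∧ c.cyc Z ∧ ∀ p q, p ∈ I ∨ q ∈ J → ε (p, q) ∉ Z) ∧
    ∀ Z ∈ 𝓕, ∀ Z' ∈ 𝓕, c.cyc ((Z ∆ Z') ∩ A) → Z = Z'

theorem find {a : ℕ} {I J : Finset (Fin a)} (hIJ : I.card = J.card) (P : Fin a → Fin a → Prop)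
    {p q p' q' : Fin a} (hp : p ∈ I) (hq : q ∈ J) (hp' : p' ∈ I) (hq' : q' ∈ J) (h : P p q)
    (h' : ¬ P p' q') : ∃ p₁ ∈ I, ∃ p₂ ∈ I, ∃ q₁ ∈ J, ∃ q₂ ∈ J, p₁ ≠ p₂ ∧ q₁ ≠ q₂ ∧
      ¬ ((P p₁ q₁ ↔ P p₁ q₂) ∧ (P p₂ q₁ ↔ P p₂ q₂) ∧ (P p₁ q₁ ↔ P p₂ q₁)) := by
  by_cases h1 : p = p'
  · subst h1
    have h2 : q ≠ q' := fun e => h' (e ▸ h)
    have h3 : 1 < I.card := hIJ ▸ one_lt_card.2 ⟨q, hq, q', hq', h2⟩
    obtain ⟨r, hr, hrp⟩ := exists_mem_ne h3 p
    exact ⟨p, hp, r, hr, q, hq, q', hq', hrp.symm, h2, fun h4 => h' (h4.1.1 h)⟩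
  · by_cases h2 : q = q'
    · subst h2
      have h3 : 1 < J.card := hIJ ▸ one_lt_card.2 ⟨p, hp, p', hp', h1⟩
      obtain ⟨r, hr, hrp⟩ := exists_mem_ne h3 q
      exact ⟨p, hp, p', hp', q, hq, r, hr, h1, hrp.symm, fun h4 => h' (h4.2.2.1 h)⟩
    · exact ⟨p, hp, p', hp', q, hq, q', hq', h1, h2,
        fun h4 => h' (h4.2.1.1 (h4.2.2.1 h))⟩

theorem next {c : Code} {E C A : Finset ℕ} {a j : ℕ} {ε : Edg a → ℕ} (hM : Model c E ε C)
    (h : Dich.Sta c C A ε j) :
    Big ε A (2 * j) ∨ Big ε (E \ A) (2 * j) ∨ Dich.Sta c C A ε (j + 1) := by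
  classical
  obtain ⟨I, J, 𝓕, h1, h2, h3, h4, h5⟩ := h
  by_cases hA : ∀ p ∈ I, ∀ q ∈ J, ε (p, q) ∈ A
  · exact Or.inl ⟨I, J, by omega, by omega, hA⟩
  by_cases hB : ∀ p ∈ I, ∀ q ∈ J, ε (p, q) ∉ A
  · exact Or.inr (Or.inl ⟨I, J, by omega, by omega, fun p hp q hq =>
      mem_sdiff.2 ⟨(hM.mem _).1, hB p hp q hq⟩⟩)
  push Not at hA hB
  obtain ⟨p', hp', q', hq', hA⟩ := hA
  obtain ⟨p, hp, q, hq, hB⟩ := hB
  obtain ⟨p₁, hp₁, p₂, hp₂, q₁, hq₁, q₂, hq₂, hpp, hqq, hne⟩ :=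
    find (by omega : I.card = J.card) (fun p q => ε (p, q) ∈ A) hp hq hp' hq' hB hA
  obtain ⟨L, hL, hW⟩ := (hM.cyc _).2 (eul_four hpp hqq)
  set W := (({p₁, p₂} : Finset (Fin a)) ×ˢ ({q₁, q₂} : Finset (Fin a))).image ε ∪ L with hWd
  have hWm : ∀ r s, ε (r, s) ∈ W ↔ (r = p₁ ∨ r = p₂) ∧ (s = q₁ ∨ s = q₂) := by
    intro r s
    rw [hWd, mem_union, hM.inj.mem_finset_image]
    have : ε (r, s) ∉ L := fun h => (hM.mem _).2 (hL h)
    simp [this]
  have hWs : W ⊆ edges ε ∪ C :=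
    union_subset_union (image_subset_image (subset_univ _)) hL
  have hmix : ∀ Z ∈ 𝓕, ∀ Z' ∈ 𝓕, ¬ c.cyc ((Z ∆ (Z' ∆ W)) ∩ A) := by
    intro Z hZ Z' hZ' hc
    set X := (Z ∆ (Z' ∆ W)) ∩ A with hX
    have hXs : X ⊆ edges ε ∪ C := inter_subset_left.trans
      (symmDiff_le_sup.trans (sup_le (h4 Z hZ).1
        (symmDiff_le_sup.trans (sup_le (h4 Z' hZ').1 hWs))))
    have hE : Eul (univ.filter fun e => ε e ∈ X) := by
      refine (hM.cyc _).1 ⟨X ∩ C, inter_subset_right, ?_⟩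
      have : (univ.filter fun e => ε e ∈ X).image ε ∪ X ∩ C = X := by
        ext x
        simp only [mem_union, mem_image, mem_filter, mem_univ, true_and, mem_inter]
        constructor
        · rintro (⟨e, h6, rfl⟩ | h6)
          · exact h6
          · exact h6.1
        · intro hx
          rcases mem_union.1 (hXs hx) with h6 | h6
          · obtain ⟨e, -, rfl⟩ := mem_image.1 h6
            exact Or.inl ⟨e, hx, rfl⟩
          · exact Or.inr ⟨hx, h6⟩
      rwa [this]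
    have hXm : ∀ r s, r ∈ I ∨ s ∈ J →
        (ε (r, s) ∈ X ↔ ((r = p₁ ∨ r = p₂) ∧ (s = q₁ ∨ s = q₂)) ∧ ε (r, s) ∈ A) := by
      intro r s hrs
      have h6 := (h4 Z hZ).2.2 r s hrs
      have h7 := (h4 Z' hZ').2.2 r s hrs
      rw [← hWm, hX]
      simp only [mem_inter, mem_symmDiff]
      tauto
    have hrow : ∀ r ∈ I, (r = p₁ ∨ r = p₂) → (ε (r, q₁) ∈ A ↔ ε (r, q₂) ∈ A) := by
      intro r hr hr'
      have := pair_iff (x := (r, q₁)) (y := (r, q₂)) (by
        rintro ⟨u, v⟩ hz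
        simp only [mem_filter, mem_univ, true_and] at hz
        obtain ⟨h6, rfl⟩ := hz
        have := ((hXm u v (Or.inl hr)).1 h6).1.2
        simpa using this) (hE.1 r)
      simp only [mem_filter, mem_univ, true_and, and_true] at this
      rw [hXm _ _ (Or.inl hr), hXm _ _ (Or.inl hr)] at this
      simpa [hr'] using this
    have hcol : ε (p₁, q₁) ∈ A ↔ ε (p₂, q₁) ∈ A := by
      have := pair_iff (x := (p₁, q₁)) (y := (p₂, q₁)) (by
        rintro ⟨u, v⟩ hz
        simp only [mem_filter, mem_univ, true_and] at hz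
        obtain ⟨h6, rfl⟩ := hz
        have := ((hXm u v (Or.inr hq₁)).1 h6).1.1
        simpa using this) (hE.2 q₁)
      simp only [mem_filter, mem_univ, true_and, and_true] at this
      rw [hXm _ _ (Or.inr hq₁), hXm _ _ (Or.inr hq₁)] at this
      simpa using this
    exact hne ⟨hrow p₁ hp₁ (Or.inl rfl), hrow p₂ hp₂ (Or.inr rfl), hcol⟩
  have hI : (I \ {p₁, p₂}).card + 2 = I.card := by
    have h6 : ({p₁, p₂} : Finset (Fin a)) ⊆ I := by
      simp [insert_subset_iff, hp₁, hp₂]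
    rw [← card_sdiff_add_card_eq_card h6, card_pair hpp]
  have hJ : (J \ {q₁, q₂}).card + 2 = J.card := by
    have h6 : ({q₁, q₂} : Finset (Fin a)) ⊆ J := by
      simp [insert_subset_iff, hq₁, hq₂]
    rw [← card_sdiff_add_card_eq_card h6, card_pair hqq]
  refine Or.inr (Or.inr ⟨I \ {p₁, p₂}, J \ {q₁, q₂}, 𝓕 ∪ 𝓕.image (· ∆ W), by omega, by omega,
    ?_, ?_, ?_⟩)
  · rw [card_union_of_disjoint, card_image_of_injective _ (symmDiff_left_injective W), h3]
    · ring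
    · refine disjoint_left.2 fun Z hZ hZ' => ?_
      obtain ⟨Y, hY, rfl⟩ := mem_image.1 hZ'
      refine hmix _ hZ _ hY ?_
      rw [symmDiff_self]
      simpa using c.zero
  · intro Z hZ
    rcases mem_union.1 hZ with hZ | hZ
    · exact ⟨(h4 Z hZ).1, (h4 Z hZ).2.1, fun r s hrs => (h4 Z hZ).2.2 r s
        (hrs.imp (fun h => (mem_sdiff.1 h).1) fun h => (mem_sdiff.1 h).1)⟩
    · obtain ⟨Y, hY, rfl⟩ := mem_image.1 hZ
      refine ⟨symmDiff_le_sup.trans (sup_le (h4 Y hY).1 hWs), c.add (h4 Y hY).2.1 hW,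
        fun r s hrs => ?_⟩
      have h6 := (h4 Y hY).2.2 r s
        (hrs.imp (fun h => (mem_sdiff.1 h).1) fun h => (mem_sdiff.1 h).1)
      have h7 : ε (r, s) ∉ W := by
        rw [hWm]
        simp only [mem_sdiff, mem_insert, mem_singleton] at hrs
        tauto
      simp [mem_symmDiff, h6, h7]
  · intro Z hZ Z' hZ' hc
    rcases mem_union.1 hZ with hZ | hZ <;> rcases mem_union.1 hZ' with hZ' | hZ'
    · exact h5 Z hZ Z' hZ' hc
    · obtain ⟨Y, hY, rfl⟩ := mem_image.1 hZ'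
      exact absurd hc (hmix _ hZ _ hY)
    · obtain ⟨Y, hY, rfl⟩ := mem_image.1 hZ
      rw [symmDiff_comm] at hc
      exact absurd hc (hmix _ hZ' _ hY)
    · obtain ⟨Y, hY, rfl⟩ := mem_image.1 hZ
      obtain ⟨Y', hY', rfl⟩ := mem_image.1 hZ'
      rw [symmDiff_symmDiff_symmDiff_comm, symmDiff_self, symmDiff_bot] at hc
      rw [h5 Y hY Y' hY' hc]

end Dich

open Dich in
theorem dich_stmt (hL : LamStmt) : DichStmt := by
  intro c E C A a k ε hM hA hk
  have key : ∀ j, (∃ i < j, Big ε A (2 * i) ∨ Big ε (E \ A) (2 * i)) ∨ Dich.Sta c C A ε j := by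
    intro j
    induction j with
    | zero =>
      refine Or.inr ⟨univ, univ, {∅}, by simp, by simp, by simp, ?_, ?_⟩
      · intro Z hZ
        rw [mem_singleton.1 hZ]
        exact ⟨empty_subset _, c.zero, fun _ _ _ => notMem_empty _⟩
      · intro Z hZ Z' hZ' _
        rw [mem_singleton.1 hZ, mem_singleton.1 hZ']
    | succ j ih =>
      rcases ih with ⟨i, hi, h⟩ | h
      · exact Or.inl ⟨i, by omega, h⟩
      · rcases Dich.next hM h with h | h | h
        · exact Or.inl ⟨j, by omega, Or.inl h⟩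
        · exact Or.inl ⟨j, by omega, Or.inr h⟩
        · exact Or.inr h
  rcases key (k + 1) with ⟨i, hi, h⟩ | ⟨I, J, 𝓕, -, -, h3, h4, h5⟩
  · exact h.imp (fun h => big_mono h (by omega)) fun h => big_mono h (by omega)
  · have h6 := hL.cls c E A 𝓕 hA (fun Z hZ => c.mem_cy.2 ⟨(h4 Z hZ).1.trans
      (union_subset (image_subset_iff.2 fun e _ => (hM.mem e).1) hM.sub), (h4 Z hZ).2.1⟩) h5
    rw [h3] at h6
    have := (Nat.pow_le_pow_iff_right (by norm_num)).1 h6
    omega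

end Pool.Agent.MP71

end MrgPart2

-- ======== part 3: formerly Pool.Agent.MP_71daef_lc.det.Bal
section MrgPart3

/-!
Row BAL: behind a small separation the contracted set of a model is not needed.
-/

set_option autoImplicit false

namespace Pool.Agent.MP71

open Finset symmDiff

namespace Bal

theorem two (x : ZMod 2) : x + x = 0 := CharTwo.add_self_eq_zero x

theorem sum_sd {α : Type} [DecidableEq α] (F G : Finset α) (h : α → ZMod 2) :
    ∑ e ∈ F ∆ G, h e = ∑ e ∈ F, h e + ∑ e ∈ G, h e := by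
  have h1 := sum_inter_add_sum_sdiff F G h
  have h2 := sum_inter_add_sum_sdiff G F h
  rw [symmDiff_def, sup_eq_union, sum_union disjoint_sdiff_sdiff, ← h1, ← h2, inter_comm G F]
  linear_combination - two (∑ e ∈ F ∩ G, h e)

theorem ext_sum {α : Type} [DecidableEq α] {F G : Finset α}
    (h : ∀ φ : α → ZMod 2, ∑ e ∈ F, φ e = ∑ e ∈ G, φ e) : F = G := by
  ext x
  have := h fun e => if e = x then 1 else 0
  simp only [sum_ite_eq'] at this
  by_cases h1 : x ∈ F <;> by_cases h2 : x ∈ G <;> simp_all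

theorem even_iff {α β : Type} [Fintype β] [DecidableEq β] (F : Finset α) (π : α → β) :
    (∀ p, Even (F.filter (π · = p)).card) ↔ ∀ φ : β → ZMod 2, ∑ e ∈ F, φ (π e) = 0 := by
  constructor
  · intro h φ
    rw [← sum_fiberwise F π]
    refine sum_eq_zero fun p _ => ?_
    rw [sum_congr rfl (g := fun _ => φ p) fun e he => by rw [(mem_filter.1 he).2], sum_const,
      nsmul_eq_mul, ZMod.natCast_eq_zero_iff_even.2 (h p), zero_mul]
  · intro h p
    have := h fun x => if x = p then 1 else 0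
    rw [sum_boole] at this
    exact ZMod.natCast_eq_zero_iff_even.1 this

theorem eul_iff {a : ℕ} (F : Finset (Edg a)) :
    Eul F ↔ (∀ φ : Fin a → ZMod 2, ∑ e ∈ F, φ e.1 = 0) ∧
      ∀ φ : Fin a → ZMod 2, ∑ e ∈ F, φ e.2 = 0 :=
  and_congr (even_iff F Prod.fst) (even_iff F Prod.snd)

/-- The square on two rows and two columns. -/
def quad {a : ℕ} (p p' q q' : Fin a) : Finset (Edg a) :=
  (({(p, q)} ∆ {(p, q')}) ∆ {(p', q)}) ∆ {(p', q')}

theorem sum_sq {a : ℕ} (p p' q q' : Fin a) (h : Edg a → ZMod 2) :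
    ∑ e ∈ quad p p' q q', h e = h (p, q) + h (p, q') + h (p', q) + h (p', q') := by
  simp only [quad, sum_sd, sum_singleton]

theorem eul_sq {a : ℕ} (p p' q q' : Fin a) : Eul (quad p p' q q') := by
  refine (eul_iff _).2 ⟨fun φ => ?_, fun φ => ?_⟩
  · rw [sum_sq]
    linear_combination two (φ p) + two (φ p')
  · rw [sum_sq]
    linear_combination two (φ q) + two (φ q')

theorem mem_sq {a : ℕ} {p p' q q' : Fin a} {e : Edg a} (h : e ∈ quad p p' q q') :
    (e.1 = p ∨ e.1 = p') ∧ (e.2 = q ∨ e.2 = q') := by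
  simp only [quad, mem_symmDiff, mem_singleton] at h
  rcases h with ⟨⟨⟨h, -⟩ | ⟨h, -⟩, -⟩ | ⟨h, -⟩, -⟩ | ⟨h, -⟩ <;> simp [h]

theorem sq_sd {a : ℕ} (p p' q q' q₀ : Fin a) :
    quad p p' q q₀ ∆ quad p p' q' q₀ = quad p p' q q' := by
  refine ext_sum fun φ => ?_
  rw [sum_sd, sum_sq, sum_sq, sum_sq]
  linear_combination two (φ (p, q₀)) + two (φ (p', q₀))

/-- Few classes of cycles. -/
theorem classes (hL : LamStmt) (c : Code) (E A : Finset ℕ) (hA : A ⊆ E) :
    ∃ 𝓕 : Finset (Finset ℕ), 𝓕.card ≤ 2 ^ c.lam E A ∧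
      ∀ Z ∈ c.cy E, ∃ W ∈ 𝓕, c.cyc ((Z ∆ W) ∩ A) := by
  classical
  obtain ⟨P, hP⟩ : ∃ P : Finset (Finset ℕ) → Prop, ∀ 𝓕, P 𝓕 ↔
      ∀ Z ∈ 𝓕, ∀ Z' ∈ 𝓕, c.cyc ((Z ∆ Z') ∩ A) → Z = Z' := ⟨_, fun _ => Iff.rfl⟩
  obtain ⟨𝓕, h1, h2⟩ := exists_max_image ((c.cy E).powerset.filter P) card ⟨∅, by simp [hP]⟩
  obtain ⟨h3, h4⟩ := mem_filter.1 h1
  rw [hP] at h4
  refine ⟨𝓕, hL.cls c E A 𝓕 hA (mem_powerset.1 h3) h4, fun Z hZ => ?_⟩
  by_contra hn
  have hn' : ∀ W ∈ 𝓕, ¬ c.cyc ((Z ∆ W) ∩ A) := fun W hW h => hn ⟨W, hW, h⟩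
  have hZ' : Z ∉ 𝓕 := fun h => hn' Z h (by simpa using c.zero)
  have := h2 (insert Z 𝓕) (mem_filter.2 ⟨mem_powerset.2 (insert_subset hZ (mem_powerset.1 h3)), by
    rw [hP]
    intro X hX Y hY hXY
    rcases mem_insert.1 hX with h5 | h5 <;> rcases mem_insert.1 hY with h6 | h6
    · rw [h5, h6]
    · exact absurd (h5 ▸ hXY) (hn' Y h6)
    · exact absurd (by rw [symmDiff_comm, ← h6]; exact hXY) (hn' X h5)
    · exact h4 X h5 Y h6 hXY⟩)
  rw [card_insert_of_notMem hZ'] at this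
  omega

end Bal

open Bal in
theorem bal_stmt (hL : LamStmt) : BalStmt := by
  classical
  intro k a₀
  refine ⟨(2 ^ k) ^ a₀ * (a₀ + 1), ?_⟩
  intro c E C A a ε I J hM hA hk hCA hI hJ hIJ
  have hpos : 1 ≤ (2 ^ k) ^ a₀ := Nat.one_le_pow _ _ (by positivity)
  have hle : a₀ + 1 ≤ (2 ^ k) ^ a₀ * (a₀ + 1) := Nat.le_mul_of_pos_left _ hpos
  obtain ⟨p₀, hp₀⟩ : I.Nonempty := card_pos.1 (by omega)
  obtain ⟨q₀, hq₀⟩ : J.Nonempty := card_pos.1 (by omega)
  obtain ⟨𝓕, hF, hcl⟩ := classes hL c E A hA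
  have hF' : 𝓕.card ≤ 2 ^ k := hF.trans (Nat.pow_le_pow_right (by norm_num) hk)
  have hI' : a₀ ≤ I.card := by omega
  let f : Fin a₀ → Fin a := I.orderEmbOfCardLe hI'
  have hf : Function.Injective f := (I.orderEmbOfCardLe hI').injective
  have hfI : ∀ i, f i ∈ I := I.orderEmbOfCardLe_mem hI'
  have hrep : ∀ (i : Fin a₀) (q : Fin a), ∃ W ∈ 𝓕, q ∈ J →
      c.cyc ((quad (f i) p₀ q q₀).image ε ∆ (W ∩ A)) := by
    intro i q
    obtain ⟨L, hL1, hL2⟩ := (hM.cyc _).2 (eul_sq (f i) p₀ q q₀)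
    obtain ⟨W, hW, hc⟩ := hcl _ ((c.mem_cy).2 ⟨union_subset (fun x hx => by
      obtain ⟨e, -, rfl⟩ := mem_image.1 hx
      exact (hM.mem e).1) (hL1.trans hM.sub), hL2⟩)
    refine ⟨W, hW, fun hq => c.add' hc c.zero fun x => ?_⟩
    have h1 : x ∈ (quad (f i) p₀ q q₀).image ε → x ∈ A := fun hx => by
      obtain ⟨e, he, rfl⟩ := mem_image.1 hx
      obtain ⟨h2, h3⟩ := mem_sq he
      exact hIJ e.1 (by rcases h2 with h | h <;> rw [h]; exacts [hfI i, hp₀]) e.2
        (by rcases h3 with h | h <;> rw [h]; exacts [hq, hq₀])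
    have h2 : x ∈ L → x ∉ A := fun hx => disjoint_left.1 hCA (hL1 hx)
    simp only [mem_symmDiff, mem_inter, mem_union, notMem_empty]
    grind
  choose κ hκ hκc using hrep
  obtain ⟨v, -, hv⟩ := exists_le_card_fiber_of_mul_le_card_of_maps_to
    (s := J) (t := Fintype.piFinset fun _ : Fin a₀ => 𝓕) (f := fun q i => κ i q) (n := a₀ + 1)
    (fun q _ => Fintype.mem_piFinset.2 fun i => hκ i q)
    ⟨fun i => κ i q₀, Fintype.mem_piFinset.2 fun i => hκ i q₀⟩ (by
      rw [Fintype.card_piFinset_const]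
      exact (Nat.mul_le_mul_right _ (Nat.pow_le_pow_left hF' _)).trans hJ)
  set Q := J.filter fun q => (fun i => κ i q) = v with hQ
  obtain ⟨q₁, hq₁⟩ : Q.Nonempty := card_pos.1 (by omega)
  have hQ' : a₀ ≤ Q.card := by omega
  let g : Fin a₀ → Fin a := Q.orderEmbOfCardLe hQ'
  have hg : Function.Injective g := (Q.orderEmbOfCardLe hQ').injective
  have hgQ : ∀ i, g i ∈ Q := Q.orderEmbOfCardLe_mem hQ'
  have hsq : ∀ i j, c.cyc ((quad (f i) p₀ (g j) q₁).image ε) := by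
    intro i j
    obtain ⟨h1, h2⟩ := mem_filter.1 (hgQ j)
    obtain ⟨h3, h4⟩ := mem_filter.1 hq₁
    have h5 : κ i (g j) = κ i q₁ := (congrFun h2 i).trans (congrFun h4 i).symm
    have h6 := c.add (hκc i _ h1) (hκc i _ h3)
    rw [h5, symmDiff_symmDiff_symmDiff_comm, symmDiff_self, symmDiff_bot,
      ← image_symmDiff _ _ hM.inj, sq_sd] at h6
    exact h6
  have hsum : ∀ S : Finset (Edg a₀), ∃ G : Finset (Edg a), c.cyc (G.image ε) ∧
      ∀ φ : Edg a → ZMod 2, ∑ e ∈ G, φ e =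
        ∑ s ∈ S, (φ (f s.1, g s.2) + φ (f s.1, q₁) + φ (p₀, g s.2) + φ (p₀, q₁)) := by
    intro S
    induction S using Finset.induction_on with
    | empty => exact ⟨∅, by simpa using c.zero, fun φ => by simp⟩
    | insert s S hs ih =>
      obtain ⟨G, h1, h2⟩ := ih
      refine ⟨quad (f s.1) p₀ (g s.2) q₁ ∆ G, ?_, fun φ => ?_⟩
      · rw [image_symmDiff _ _ hM.inj]
        exact c.add (hsq _ _) h1
      · rw [sum_sd, sum_sq, h2, sum_insert hs]
  have hfg : Function.Injective fun e : Edg a₀ => ((f e.1, g e.2) : Edg a) := fun x y h =>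
    Prod.ext (hf (congrArg Prod.fst h)) (hg (congrArg Prod.snd h))
  refine ⟨f, g, hf, hg, hM.inj.comp hfg, fun e => ⟨(hM.mem _).1, notMem_empty _⟩,
    empty_subset _, fun F => ?_⟩
  have him : F.image (fun e : Edg a₀ => ε (f e.1, g e.2)) =
      (F.image fun e : Edg a₀ => ((f e.1, g e.2) : Edg a)).image ε := by
    rw [image_image]
    rfl
  rw [him]
  constructor
  · rintro ⟨L, h1, h2⟩
    obtain ⟨h3, h4⟩ := (eul_iff _).1 ((hM.cyc _).1 ⟨L, h1.trans (empty_subset _), h2⟩)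
    refine (eul_iff _).2 ⟨fun φ => ?_, fun φ => ?_⟩
    · have := h3 (Function.extend f φ 0)
      rw [sum_image fun x _ y _ h => hfg h] at this
      simpa only [hf.extend_apply] using this
    · have := h4 (Function.extend g φ 0)
      rw [sum_image fun x _ y _ h => hfg h] at this
      simpa only [hg.extend_apply] using this
  · intro h
    obtain ⟨h3, h4⟩ := (eul_iff _).1 h
    obtain ⟨G, h1, h2⟩ := hsum F
    refine ⟨∅, empty_subset _, ?_⟩
    have : (F.image fun e : Edg a₀ => ((f e.1, g e.2) : Edg a)) = G := by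
      refine ext_sum fun φ => ?_
      rw [sum_image fun x _ y _ h => hfg h, h2, sum_add_distrib, sum_add_distrib,
        sum_add_distrib, h3 fun i => φ (f i, q₁), h4 fun j => φ (p₀, g j),
        h3 fun _ => φ (p₀, q₁), add_zero, add_zero, add_zero]
    rw [this, union_empty]
    exact h1

end Pool.Agent.MP71

end MrgPart3

-- ======== part 4: formerly Pool.Agent.MP_71daef_lc.det.Link2
section MrgPart4

/-!
Tutte's linking theorem for a dual pair of binary codes.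
-/

set_option autoImplicit false

namespace Pool.Agent.MP71

open Finset symmDiff

namespace Link2

/-- Without a cycle through `e` inside `insert e K`, contracting `e` changes nothing on `K`. -/
theorem con_keep {c : Code} {K : Finset ℕ} {e : ℕ} (he : e ∉ K)
    (h : ¬ ∃ P ⊆ K, c.cyc (insert e P)) : ∀ Z ⊆ K, (c.con {e}).cyc Z ↔ c.cyc Z := by
  intro Z hZ
  constructor
  · rintro ⟨-, P, hP, h1⟩
    rcases subset_singleton_iff.1 hP with rfl | rfl
    · simpa using h1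
    · refine absurd ⟨Z, hZ, ?_⟩ h
      rwa [union_comm, ← insert_eq] at h1
  · intro h1
    exact ⟨disjoint_singleton_right.2 fun h2 => he (hZ h2), ∅, empty_subset _, by simpa using h1⟩

/-- If `e` is spanned by `A`, deleting `e` keeps the connectivity. -/
theorem del_lam (hN : NulStmt) (hL : LamStmt) {c : Code} {E A P : Finset ℕ} {e : ℕ}
    (he : e ∈ E) (hA : A ⊆ E.erase e) (hP : P ⊆ A) (hc : c.cyc (insert e P)) :
    c.lam E (insert e A) ≤ c.lam (E.erase e) A := by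
  have heA : e ∉ A := fun h => notMem_erase e E (hA h)
  have h1 := hL.add c (E.erase e) A hA
  have h2 := hL.add c E (insert e A) (insert_subset he (hA.trans (erase_subset e E)))
  have h3 : E \ insert e A = E.erase e \ A := by
    ext x
    simp only [mem_sdiff, mem_insert, mem_erase]
    tauto
  have h4 := hN.lt c A (insert e A) (insert e P) (subset_insert e A) (insert_subset_insert e hP) hc
    fun h => heA (h (mem_insert_self e P))
  have h5 := hN.sdiff c E {e}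
  rw [sdiff_singleton_eq_erase, card_singleton] at h5
  rw [h3] at h2
  omega

/-- A cycle and a dual cycle do not meet in a single element. -/
theorem not_both {c b : Code} {E K₁ K₂ P : Finset ℕ} {e : ℕ} (h : DualPair c b E) (h1 : K₁ ⊆ E)
    (h2 : K₂ ⊆ E) (hd : Disjoint K₁ K₂) (he : e ∈ E) (hP : P ⊆ K₁) (hc : c.cyc (insert e P)) :
    ¬ ∃ Q ⊆ K₂, b.cyc (insert e Q) := by
  rintro ⟨Q, hQ, hb⟩
  have h3 := h.orth _ (insert_subset he (hP.trans h1)) _ (insert_subset he (hQ.trans h2)) hc hb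
  have h4 : insert e P ∩ insert e Q = {e} := by
    ext x
    have := @disjoint_left.1 hd x
    have := @hP x
    have := @hQ x
    simp only [mem_inter, mem_insert, mem_singleton]
    tauto
  rw [h4, card_singleton] at h3
  exact Nat.not_even_one h3

/-- One element outside `K₁ ∪ K₂` can be removed. -/
theorem step (hN : NulStmt) (hL : LamStmt) (hD : DualStmt) (hU : UniStmt) {c b : Code}
    {E K₁ K₂ : Finset ℕ} {k e : ℕ} (h : DualPair c b E) (h1 : K₁ ⊆ E) (h2 : K₂ ⊆ E)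
    (hd : Disjoint K₁ K₂) (hk : ∀ A, K₁ ⊆ A → A ⊆ E \ K₂ → k ≤ c.lam E A) (he : e ∈ E)
    (he1 : e ∉ K₁) (he2 : e ∉ K₂) :
    ∃ c' b' : Code, DualPair c' b' (E.erase e) ∧ (∀ Z ⊆ K₁, c'.cyc Z ↔ c.cyc Z) ∧
      (∀ Z ⊆ K₂, b'.cyc Z ↔ b.cyc Z) ∧
      (∀ A, K₁ ⊆ A → A ⊆ E.erase e \ K₂ → k ≤ c'.lam (E.erase e) A) ∧
      ∀ d, c'.Uni (E.erase e) d → c.Uni E d := by
  have hdel : DualPair c (b.con {e}) (E.erase e) := by
    have := (hD.con b c E {e} h.symm (singleton_subset_iff.2 he)).symm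
    rwa [sdiff_singleton_eq_erase] at this
  have hcon : DualPair (c.con {e}) b (E.erase e) := by
    have := hD.con c b E {e} h (singleton_subset_iff.2 he)
    rwa [sdiff_singleton_eq_erase] at this
  have hins : ∀ A, A ⊆ E.erase e \ K₂ → insert e A ⊆ E \ K₂ := fun A hA =>
    insert_subset (mem_sdiff.2 ⟨he, he2⟩)
      (hA.trans (sdiff_subset_sdiff (erase_subset e E) Subset.rfl))
  have hsub : ∀ A, A ⊆ E.erase e \ K₂ → A ⊆ E \ K₂ := fun A hA =>
    (subset_insert e A).trans (hins A hA)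
  have udel : ∀ d, c.Uni (E.erase e) d → c.Uni E d := fun d hu => hu.mono (erase_subset e E)
  have ucon : ∀ d, (c.con {e}).Uni (E.erase e) d → c.Uni E d := fun d hu =>
    hU.con c E (E.erase e) {e} d (erase_subset e E) (singleton_subset_iff.2 he) hu
  by_cases hc : ∃ P ⊆ K₁, c.cyc (insert e P)
  · obtain ⟨P, hP, hc⟩ := hc
    refine ⟨c, b.con {e}, hdel, fun _ _ => Iff.rfl,
      con_keep he2 (not_both h h1 h2 hd he hP hc), fun A hA hA' => ?_, udel⟩
    exact (hk (insert e A) (hA.trans (subset_insert e A)) (hins A hA')).trans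
      (del_lam hN hL he (hA'.trans sdiff_subset) (hP.trans hA) hc)
  by_cases hb : ∃ Q ⊆ K₂, b.cyc (insert e Q)
  · obtain ⟨Q, hQ, hb⟩ := hb
    refine ⟨c.con {e}, b, hcon, con_keep he1 hc, fun _ _ => Iff.rfl, fun A hA hA' => ?_, ucon⟩
    have hAe : A ⊆ E.erase e := hA'.trans sdiff_subset
    have hAE : A ⊆ E := hAe.trans (erase_subset e E)
    have hQ' : Q ⊆ E.erase e \ A := fun x hx => mem_sdiff.2
      ⟨mem_erase.2 ⟨fun h3 => he2 (h3 ▸ hQ hx), h2 (hQ hx)⟩,
        fun h3 => (mem_sdiff.1 (hA' h3)).2 (hQ hx)⟩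
    have h3 := del_lam hN hL he (sdiff_subset : E.erase e \ A ⊆ E.erase e) hQ' hb
    have h4 : insert e (E.erase e \ A) = E \ A := by
      ext x
      have := @hAe x
      simp only [mem_sdiff, mem_insert, mem_erase] at this ⊢
      constructor
      · rintro (rfl | h5)
        · exact ⟨he, fun h5 => (this h5).1 rfl⟩
        · exact ⟨h5.1.2, h5.2⟩
      · intro h5
        by_cases h6 : x = e
        · exact Or.inl h6
        · exact Or.inr ⟨⟨h6, h5.1⟩, h5.2⟩
    rw [h4, hL.compl b E A hAE, hL.compl b _ A hAe, hD.lam c b E A h hAE,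
      hD.lam _ b _ A hcon hAe] at h3
    exact (hk A hA (hsub A hA')).trans h3
  by_cases h3 : ∀ A, K₁ ⊆ A → A ⊆ E.erase e \ K₂ → k ≤ c.lam (E.erase e) A
  · exact ⟨c, b.con {e}, hdel, fun _ _ => Iff.rfl, con_keep he2 hb, h3, udel⟩
  refine ⟨c.con {e}, b, hcon, con_keep he1 hc, fun _ _ => Iff.rfl, fun A' hA hA' => ?_, ucon⟩
  simp only [not_forall, not_le] at h3
  obtain ⟨A, h4, h5, h6⟩ := h3
  have h7 := hL.bc c E A A' e he (h5.trans sdiff_subset) (hA'.trans sdiff_subset)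
  have h8 := hk (A ∩ A') (subset_inter h4 hA) (inter_subset_left.trans (hsub A h5))
  have h9 := hk (insert e (A ∪ A')) ((h4.trans subset_union_left).trans (subset_insert _ _))
    (hins _ (union_subset h5 hA'))
  omega

end Link2

theorem link2_stmt (hN : NulStmt) (hL : LamStmt) (hD : DualStmt) (hU : UniStmt) :
    Link2Stmt := by
  intro c b E K₁ K₂ k
  induction E using Finset.strongInduction generalizing c b with
  | H E ih =>
  intro h h1 h2 hd hk
  by_cases hE : E ⊆ K₁ ∪ K₂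
  · have hE' : K₁ ∪ K₂ = E := Subset.antisymm (union_subset h1 h2) hE
    refine ⟨c, b, hE' ▸ h, fun _ _ => Iff.rfl, fun _ _ => Iff.rfl, ?_, fun d hu => hE' ▸ hu⟩
    rw [hE']
    exact hk K₁ Subset.rfl (subset_sdiff.2 ⟨h1, hd⟩)
  · obtain ⟨e, he, he'⟩ := not_subset.1 hE
    have he1 : e ∉ K₁ := fun h3 => he' (mem_union_left _ h3)
    have he2 : e ∉ K₂ := fun h3 => he' (mem_union_right _ h3)
    obtain ⟨c', b', h3, h4, h5, h6, h7⟩ := Link2.step hN hL hD hU h h1 h2 hd hk he he1 he2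
    obtain ⟨c'', b'', h8, h9, h10, h11, h12⟩ := ih (E.erase e) (erase_ssubset he) c' b' h3
      (subset_erase.2 ⟨h1, he1⟩) (subset_erase.2 ⟨h2, he2⟩) hd h6
    exact ⟨c'', b'', h8, fun Z hZ => (h9 Z hZ).trans (h4 Z hZ),
      fun Z hZ => (h10 Z hZ).trans (h5 Z hZ), h11, fun d hu => h7 d (h12 d hu)⟩

end Pool.Agent.MP71

end MrgPart4

-- ======== part 5: formerly Pool.Agent.MP_71daef_lc.det.Ident
section MrgPart5

/-!
Row ID: a binary matrix of large rank contains an identity matrix after adding up small disjoint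
groups of rows and of columns.
-/

set_option autoImplicit false

namespace Pool.Agent.MP71

open Finset symmDiff

namespace Ident

theorem sum_symm {κ : Type} [DecidableEq κ] (S T : Finset κ) (g : κ → F2) :
    ∑ v ∈ S ∆ T, g v = ∑ v ∈ S, g v + ∑ v ∈ T, g v := by
  have h1 := sum_inter_add_sum_sdiff S T g
  have h2 := sum_inter_add_sum_sdiff T S g
  rw [inter_comm] at h2
  rw [symmDiff_def, sup_eq_union, sum_union disjoint_sdiff_sdiff, ← h1, ← h2]
  have h3 := CharTwo.add_self_eq_zero (∑ v ∈ S ∩ T, g v)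
  linear_combination -h3

/-- A set with prescribed parities contains a small set with the same parities. -/
theorem shrink {κ ι : Type} [DecidableEq κ] [Fintype ι] (A : ι → κ → F2) (n : ℕ) :
    ∀ U : Finset κ, U.card ≤ n → ∃ U' ⊆ U, U'.card ≤ Fintype.card ι ∧
      ∀ i, ∑ v ∈ U', A i v = ∑ v ∈ U, A i v := by
  classical
  induction n with
  | zero => exact fun U hU => ⟨U, Subset.rfl, hU.trans (Nat.zero_le _), fun _ => rfl⟩
  | succ n ih =>
    intro U hU
    by_cases h : U.card ≤ Fintype.card ι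
    · exact ⟨U, Subset.rfl, h, fun _ => rfl⟩
    have hc : (univ : Finset (ι → F2)).card < U.powerset.card := by
      rw [card_univ, Fintype.card_fun, ZMod.card, card_powerset]
      exact Nat.pow_lt_pow_right (by norm_num) (not_le.1 h)
    obtain ⟨S, hS, T, hT, hST, he⟩ := exists_ne_map_eq_of_card_lt_of_maps_to hc
      (f := fun S i => ∑ v ∈ S, A i v) fun _ _ => mem_coe.2 (mem_univ _)
    have hD : S ∆ T ⊆ U := symmDiff_le_sup.trans (sup_le (mem_powerset.1 hS) (mem_powerset.1 hT))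
    have hne : (S ∆ T).Nonempty := symmDiff_nonempty.2 hST
    have hlt : (U \ S ∆ T).card ≤ n := by
      have h1 := card_sdiff_add_card_eq_card hD
      have h2 := hne.card_pos
      omega
    obtain ⟨U', h1, h2, h3⟩ := ih _ hlt
    refine ⟨U', h1.trans sdiff_subset, h2, fun i => ?_⟩
    have h4 := sum_sdiff hD (f := A i)
    have h5 := congrFun he i
    rw [sum_symm, h5, CharTwo.add_self_eq_zero, add_zero] at h4
    rw [h3, h4]

/-- A vector orthogonal to all sets of parity zero is a combination of the constraints. -/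
theorem comb {ρ ι : Type} [Fintype ρ] [DecidableEq ρ] [Fintype ι] (C : ι → ρ → F2) (s : ρ → F2)
    (h : ∀ R : Finset ρ, (∀ i, ∑ r ∈ R, C i r = 0) → ∑ r ∈ R, s r = 0) :
    ∃ c : ι → F2, ∀ r, s r = ∑ i, c i * C i r := by
  let L : (ρ → F2) → (ρ → F2) →ₗ[F2] F2 := fun w =>
    { toFun := fun y => ∑ r, y r * w r
      map_add' := fun x y => by simp [add_mul, sum_add_distrib]
      map_smul' := fun a x => by simp [mul_sum, mul_assoc] }
  have key : ∀ (w y : ρ → F2), L w y = ∑ r ∈ univ.filter fun r => y r = 1, w r := by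
    intro w y
    rw [sum_filter]
    refine sum_congr rfl fun r _ => ?_
    rcases f2_cases (y r) with h1 | h1 <;> simp [h1]
  have hk : ⨅ i, LinearMap.ker (L (C i)) ≤ LinearMap.ker (L s) := by
    intro y hy
    rw [LinearMap.mem_ker, key]
    refine h _ fun i => ?_
    rw [← key]
    exact LinearMap.mem_ker.1 ((Submodule.mem_iInf _).1 hy i)
  obtain ⟨c, hc⟩ := (Submodule.mem_span_range_iff_exists_fun F2).1 (mem_span_of_iInf_ker_le_ker hk)
  refine ⟨c, fun r => ?_⟩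
  have h1 := LinearMap.congr_fun hc (Pi.single r 1)
  have h2 : ∀ w : ρ → F2, L w (Pi.single r 1) = w r := by
    intro w
    change ∑ x, (Pi.single r 1 : ρ → F2) x * w x = w r
    simp [Pi.single_apply]
  simp only [LinearMap.sum_apply, LinearMap.smul_apply, h2, smul_eq_mul] at h1
  exact h1.symm

/-- With enough column sums some admissible pair has parity one. -/
theorem pair {ρ κ ι₁ ι₂ : Type} [Fintype ρ] [Fintype κ] [DecidableEq ρ] [DecidableEq κ]
    [Fintype ι₁] [Fintype ι₂] (Y : ρ → κ → F2) (A : ι₁ → κ → F2) (C : ι₂ → ρ → F2)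
    (h : 2 ^ (Fintype.card ι₁ + Fintype.card ι₂) < (sums Y).card) :
    ∃ (R : Finset ρ) (U : Finset κ), (∀ i, ∑ v ∈ U, A i v = 0) ∧ (∀ i, ∑ r ∈ R, C i r = 0) ∧
      ∑ r ∈ R, ∑ v ∈ U, Y r v = 1 := by
  classical
  by_contra hn
  have h0 : ∀ U : Finset κ, (∀ i, ∑ v ∈ U, A i v = 0) →
      ∃ c : ι₂ → F2, ∀ r, ∑ v ∈ U, Y r v = ∑ i, c i * C i r := by
    intro U hU
    refine comb C _ fun R hR => ?_
    rcases f2_cases (∑ r ∈ R, ∑ v ∈ U, Y r v) with h1 | h1
    · exact h1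
    · exact absurd ⟨R, U, hU, hR, h1⟩ hn
  have hrep : ∀ a : ι₁ → F2, ∃ U₀ : Finset κ, ∀ U : Finset κ, (∀ i, ∑ v ∈ U, A i v = a i) →
      ∀ i, ∑ v ∈ U₀, A i v = a i := by
    intro a
    by_cases h1 : ∃ U : Finset κ, ∀ i, ∑ v ∈ U, A i v = a i
    · obtain ⟨U, hU⟩ := h1
      exact ⟨U, fun _ _ => hU⟩
    · exact ⟨∅, fun U hU => absurd ⟨U, hU⟩ h1⟩
  choose rep hrep using hrep
  have hsub : sums Y ⊆ (univ : Finset ((ι₁ → F2) × (ι₂ → F2))).image
      fun p r => ∑ v ∈ rep p.1, Y r v + ∑ i, p.2 i * C i r := by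
    intro z hz
    obtain ⟨U, -, rfl⟩ := mem_image.1 hz
    have h1 := hrep (fun i => ∑ v ∈ U, A i v) U fun _ => rfl
    obtain ⟨c, hc⟩ := h0 (U ∆ rep fun i => ∑ v ∈ U, A i v) fun i => by
      rw [sum_symm, h1 i, CharTwo.add_self_eq_zero]
    refine mem_image.2 ⟨(fun i => ∑ v ∈ U, A i v, c), mem_univ _, funext fun r => ?_⟩
    have h2 := hc r
    rw [sum_symm] at h2
    have h3 := CharTwo.add_self_eq_zero (∑ v ∈ rep fun i => ∑ v ∈ U, A i v, Y r v)
    linear_combination h3 - h2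
  have h1 := (card_le_card hsub).trans card_image_le
  rw [card_univ, Fintype.card_prod, Fintype.card_fun, Fintype.card_fun, ZMod.card,
    ← pow_add] at h1
  omega

/-- One more diagonal entry. -/
theorem step {ρ κ : Type} [Fintype ρ] [Fintype κ] [DecidableEq ρ] [DecidableEq κ]
    (Y : ρ → κ → F2) (j : ℕ) (R : Fin j → Finset ρ) (U : Fin j → Finset κ) (P : Finset ρ)
    (Q : Finset κ) (h : 2 ^ (Q.card + j + (P.card + j)) < (sums Y).card) :
    ∃ (R' : Finset ρ) (U' : Finset κ), Disjoint R' P ∧ Disjoint U' Q ∧ R'.card ≤ j + 1 ∧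
      U'.card ≤ j + 1 ∧ (∀ i, ∑ r ∈ R i, ∑ v ∈ U', Y r v = 0) ∧
      (∀ i, ∑ r ∈ R', ∑ v ∈ U i, Y r v = 0) ∧ ∑ r ∈ R', ∑ v ∈ U', Y r v = 1 := by
  obtain ⟨R₁, U₁, h1, h2, h3⟩ := pair (ι₁ := Q ⊕ Fin j) (ι₂ := P ⊕ Fin j) Y
    (Sum.elim (fun q v => if v = q.1 then 1 else 0) fun i v => ∑ r ∈ R i, Y r v)
    (Sum.elim (fun q r => if r = q.1 then 1 else 0) fun i r => ∑ v ∈ U i, Y r v)
    (by simpa using h)
  have d1 : Disjoint U₁ Q := disjoint_left.2 fun v hv hq => by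
    have h4 := h1 (Sum.inl ⟨v, hq⟩)
    simp [hv] at h4
  have d2 : Disjoint R₁ P := disjoint_left.2 fun v hv hq => by
    have h4 := h2 (Sum.inl ⟨v, hq⟩)
    simp [hv] at h4
  obtain ⟨U₂, s1, c1, e1⟩ := shrink (ι := Option (Fin j))
    (fun o v => ∑ r ∈ o.elim R₁ R, Y r v) _ U₁ le_rfl
  obtain ⟨R₂, s2, c2, e2⟩ := shrink (ι := Option (Fin j))
    (fun o r => ∑ v ∈ o.elim U₂ U, Y r v) _ R₁ le_rfl
  refine ⟨R₂, U₂, d2.mono_left s2, d1.mono_left s1, by simpa using c2, by simpa using c1,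
    fun i => ?_, fun i => ?_, ?_⟩
  · rw [sum_comm]
    exact (e1 (some i)).trans (h1 (Sum.inr i))
  · exact (e2 (some i)).trans (h2 (Sum.inr i))
  · refine (e2 none).trans ?_
    rw [sum_comm, ← h3, sum_comm (s := R₁)]
    exact e1 none

end Ident

theorem id_stmt : IdStmt := by
  intro m
  refine ⟨2 * (m * (m + 1) + m) + 1, fun ρ κ _ _ _ _ Y hY => ?_⟩
  have main : ∀ j ≤ m, ∃ (R : Fin j → Finset ρ) (U : Fin j → Finset κ),
      (∀ i j, i ≠ j → Disjoint (R i) (R j) ∧ Disjoint (U i) (U j)) ∧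
      (∀ i, (R i).card ≤ m + 1 ∧ (U i).card ≤ m + 1) ∧
      ∀ i j, ∑ r ∈ R i, ∑ v ∈ U j, Y r v = if i = j then 1 else 0 := by
    intro j
    induction j with
    | zero => exact fun _ => ⟨Fin.elim0, Fin.elim0, fun i => i.elim0, fun i => i.elim0,
        fun i => i.elim0⟩
    | succ j ih =>
      intro hj
      obtain ⟨R, U, h1, h2, h3⟩ := ih (by omega)
      have hm : j * (m + 1) ≤ m * (m + 1) := Nat.mul_le_mul_right _ (by omega)
      have c1 : (univ.biUnion R).card ≤ j * (m + 1) := by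
        simpa using card_biUnion_le_card_mul univ R (m + 1) fun i _ => (h2 i).1
      have c2 : (univ.biUnion U).card ≤ j * (m + 1) := by
        simpa using card_biUnion_le_card_mul univ U (m + 1) fun i _ => (h2 i).2
      obtain ⟨R', U', d1, d2, k1, k2, e1, e2, e3⟩ := Ident.step Y j R U (univ.biUnion R)
        (univ.biUnion U) ((Nat.pow_lt_pow_right (by norm_num) (by omega)).trans_le hY)
      have d3 : ∀ i, Disjoint R' (R i) := fun i =>
        d1.mono_right (subset_biUnion_of_mem R (mem_univ i))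
      have d4 : ∀ i, Disjoint U' (U i) := fun i =>
        d2.mono_right (subset_biUnion_of_mem U (mem_univ i))
      refine ⟨Fin.cons R' R, Fin.cons U' U, ?_, ?_, ?_⟩
      · simp only [Fin.forall_fin_succ, Fin.cons_zero, Fin.cons_succ]
        exact ⟨⟨fun h => absurd rfl h, fun b _ => ⟨d3 b, d4 b⟩⟩, fun a =>
          ⟨fun _ => ⟨(d3 a).symm, (d4 a).symm⟩, fun b h => h1 a b fun e => h (congrArg Fin.succ e)⟩⟩
      · simp only [Fin.forall_fin_succ, Fin.cons_zero, Fin.cons_succ]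
        exact ⟨⟨k1.trans (by omega), k2.trans (by omega)⟩, h2⟩
      · simp only [Fin.forall_fin_succ, Fin.cons_zero, Fin.cons_succ]
        refine ⟨⟨by simpa using e3, fun b => ?_⟩, fun a => ⟨?_, fun b => ?_⟩⟩
        · rw [if_neg (Fin.succ_ne_zero b).symm]
          exact e2 b
        · rw [if_neg (Fin.succ_ne_zero a)]
          exact e1 a
        · simpa using h3 a b
  exact main m le_rfl

end Pool.Agent.MP71

end MrgPart5

-- ======== part 6: formerly Pool.Agent.MP_71daef_lc.det.Grid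
section MrgPart6

/-!
A grid of parities from an identity pattern.
-/

set_option autoImplicit false

namespace Pool.Agent.MP71

open Finset

namespace Grid

/-- many unused points with the same pattern -/
theorem pick {a : ℕ} {β W : Type} [Fintype β] [Fintype W] [Nonempty W] (A : Finset (Fin a))
    (π : Fin a → W) (h : Fintype.card W * Fintype.card β + A.card ≤ a) :
    ∃ (f : β → Fin a) (w : W), Function.Injective f ∧ ∀ b, f b ∉ A ∧ π (f b) = w := by
  classical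
  have h1 : (univ : Finset W).card * Fintype.card β ≤ (univ \ A).card := by
    rw [card_univ_sdiff, Fintype.card_fin, card_univ]
    omega
  obtain ⟨w, -, hw⟩ := exists_le_card_fiber_of_mul_le_card_of_maps_to
    (f := π) (fun x _ => mem_univ (π x)) univ_nonempty h1
  obtain ⟨f⟩ := Function.Embedding.nonempty_of_card_le (α := β)
    (β := ↥((univ \ A).filter fun x => π x = w)) (by rwa [Fintype.card_coe])
  refine ⟨fun b => (f b).1, w, Subtype.val_injective.comp f.injective, fun b => ?_⟩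
  have := (f b).2
  simpa only [mem_filter, mem_sdiff, mem_univ, true_and] using this

theorem used {a s : ℕ} {ι : Type} [Fintype ι] (R : ι → Finset (Vtx a)) (hs : ∀ i, (R i).card ≤ s)
    (j : Fin a → Vtx a) (hj : Function.Injective j) :
    ∃ A : Finset (Fin a), A.card ≤ Fintype.card ι * s ∧ ∀ p, p ∉ A → ∀ i, j p ∉ R i := by
  classical
  refine ⟨univ.biUnion fun i => univ.filter fun p => j p ∈ R i, ?_, fun p hp i hi => hp ?_⟩
  · refine card_biUnion_le_card_mul _ _ _ fun i _ => le_trans ?_ (hs i)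
    exact card_le_card_of_injOn j (fun p hp => (mem_filter.1 hp).2) hj.injOn
  · exact mem_biUnion.2 ⟨i, mem_univ _, mem_filter.2 ⟨mem_univ _, hi⟩⟩

/-- padding of disjoint groups without changing the sums of a pattern -/
theorem pad {a s : ℕ} {ι W : Type} [Fintype ι] [Fintype W] [AddCommGroup W]
    (h2 : ∀ w : W, w + w = 0) (R : ι → Finset (Vtx a)) (hd : ∀ i j, i ≠ j → Disjoint (R i) (R j))
    (hs : ∀ i, (R i).card ≤ s) (π : Vtx a → W)
    (ha : Fintype.card W * Fintype.card (Option (ι × Bool)) + Fintype.card ι * s ≤ a) :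
    ∃ R' : ι → Finset (Vtx a), Part R' ∧ ∀ i, ∑ v ∈ R' i, π v = ∑ v ∈ R i, π v := by
  classical
  obtain ⟨A, hA, hA'⟩ := used R hs Sum.inl Sum.inl_injective
  obtain ⟨B, hB, hB'⟩ := used R hs Sum.inr Sum.inr_injective
  obtain ⟨f, w, hf, hf'⟩ := pick (β := Option (ι × Bool)) A (fun p => π (Sum.inl p)) (by omega)
  obtain ⟨g, w', hg, hg'⟩ := pick (β := Option (ι × Bool)) B (fun p => π (Sum.inr p)) (by omega)
  have f1 : ∀ b i, Sum.inl (f b) ∉ R i := fun b => hA' _ (hf' b).1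
  have g1 : ∀ b i, Sum.inr (g b) ∉ R i := fun b => hB' _ (hg' b).1
  refine ⟨fun i => insert (Sum.inl (f (some (i, true)))) (insert (Sum.inl (f (some (i, false))))
    (insert (Sum.inr (g (some (i, true)))) (insert (Sum.inr (g (some (i, false)))) (R i)))),
    ⟨fun i j hij => ?_, fun i => ⟨⟨_, mem_insert_self _ _⟩, g (some (i, true)), by simp⟩,
      ⟨f none, fun i => ?_⟩, g none, fun i => ?_⟩, fun i => ?_⟩
  · simp [disjoint_insert_left, disjoint_insert_right, hf.eq_iff, hg.eq_iff, f1, g1,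
      hij.symm, hd i j hij]
  · simp [hf.eq_iff, f1]
  · simp [hg.eq_iff, g1]
  · rw [sum_insert (by simp [hf.eq_iff, f1]), sum_insert (by simp [f1]),
      sum_insert (by simp [hg.eq_iff, g1]), sum_insert (g1 _ _), (hf' _).2, (hf' _).2, (hg' _).2,
      (hg' _).2, ← add_assoc, h2, zero_add, ← add_assoc, h2, zero_add]

end Grid

open Grid in
theorem grid_stmt (hI : IdStmt) : GridStmt := by
  classical
  intro d
  set m : ℕ := Fintype.card (Finset (Fin d) × Fin d) with hm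
  obtain ⟨k, hk⟩ := hI m
  set e : Finset (Fin d) × Fin d ≃ Fin m := Fintype.equivFin _
  set s : ℕ := (Fintype.card (Finset (Fin d)) + d) * (m + 1) with hs
  refine ⟨k, (Fintype.card (Fin d → F2) * Fintype.card (Option (Finset (Fin d) × Bool)) +
      Fintype.card (Finset (Fin d)) * s) +
    (Fintype.card (Finset (Fin d) → F2) * Fintype.card (Option (Fin d × Bool)) +
      Fintype.card (Fin d) * s), fun a ha Y hY => ?_⟩
  obtain ⟨R0, U0, hd, hc, hp⟩ := hk (Vtx a) (Vtx a) Y (by simpa using hY)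
  set R1 : Fin d → Finset (Vtx a) := fun t => univ.biUnion fun S => R0 (e (S, t)) with hR1
  set U1 : Finset (Fin d) → Finset (Vtx a) := fun S => S.biUnion fun t => U0 (e (S, t)) with hU1
  have two : ∀ x : F2, x + x = 0 := by decide
  have dR : ∀ i j, i ≠ j → Disjoint (R1 i) (R1 j) := fun i j hij =>
    (disjoint_biUnion_left _ _ _).2 fun S _ => (disjoint_biUnion_right _ _ _).2 fun S' _ =>
      (hd _ _ fun h => hij (Prod.ext_iff.1 (e.injective h)).2).1
  have dU : ∀ i j, i ≠ j → Disjoint (U1 i) (U1 j) := fun i j hij =>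
    (disjoint_biUnion_left _ _ _).2 fun S _ => (disjoint_biUnion_right _ _ _).2 fun S' _ =>
      (hd _ _ fun h => hij (Prod.ext_iff.1 (e.injective h)).1).2
  have cR : ∀ t, (R1 t).card ≤ s := fun t =>
    (card_biUnion_le_card_mul _ _ _ fun S _ => (hc _).1).trans
      (Nat.mul_le_mul_right _ (by rw [card_univ]; omega))
  have cU : ∀ S, (U1 S).card ≤ s := fun S =>
    (card_biUnion_le_card_mul _ _ _ fun t _ => (hc _).2).trans
      (Nat.mul_le_mul_right _ (by
        have := card_le_univ S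
        rw [Fintype.card_fin] at this
        omega))
  have key : ∀ t S, ∑ r ∈ R1 t, ∑ v ∈ U1 S, Y r v = if t ∈ S then 1 else 0 := by
    intro t S
    have a1 : ∀ r, ∑ v ∈ U1 S, Y r v = ∑ t' ∈ S, ∑ v ∈ U0 (e (S, t')), Y r v := fun r =>
      sum_biUnion fun i _ j _ hij => (hd _ _ fun h => hij (Prod.ext_iff.1 (e.injective h)).2).2
    have a2 : ∑ r ∈ R1 t, ∑ v ∈ U1 S, Y r v =
        ∑ S' : Finset (Fin d), ∑ r ∈ R0 (e (S', t)), ∑ v ∈ U1 S, Y r v :=
      sum_biUnion fun i _ j _ hij => (hd _ _ fun h => hij (Prod.ext_iff.1 (e.injective h)).1).1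
    rw [a2]
    simp only [a1]
    rw [sum_congr rfl fun S' _ => sum_comm]
    simp only [hp, e.injective.eq_iff, Prod.mk.injEq]
    rw [sum_eq_single S (fun S' _ h => by simp [h]) (by simp)]
    simp
  obtain ⟨U, pU, sU⟩ := pad (W := Fin d → F2) (fun w => funext fun t => two _) U1 dU cU
    (fun v t => ∑ r ∈ R1 t, Y r v) (by omega)
  obtain ⟨R, pR, sR⟩ := pad (W := Finset (Fin d) → F2) (fun w => funext fun t => two _) R1 dR cR
    (fun r S => ∑ v ∈ U S, Y r v) (by omega)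
  refine ⟨R, U, pR, pU, fun t S => ?_⟩
  have b1 := congrFun (sR t) S
  have b2 := congrFun (sU S) t
  simp only [Finset.sum_apply] at b1 b2
  rw [b1, sum_comm, b2, sum_comm, key]

end Pool.Agent.MP71

end MrgPart6

-- ======== part 7: formerly Pool.Agent.MP_71daef_lc.det.Ending
section MrgPart7

/-!
Row END: two well linked models that can be cleaned give a universal minor.
-/

set_option autoImplicit false

namespace Pool.Agent.MP71

open Finset symmDiff

namespace Ending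

theorem big_mono {a : ℕ} {ε : Edg a → ℕ} {A : Finset ℕ} {r s : ℕ} (h : Big ε A r) (hr : r ≤ s) :
    Big ε A s := by
  obtain ⟨I, J, h1, h2, h3⟩ := h
  exact ⟨I, J, by omega, by omega, h3⟩

theorem meet {a n r : ℕ} {f : Fin n → Fin a} (hf : Function.Injective f) {I : Finset (Fin a)}
    (hI : a ≤ I.card + r) (hn : r < n) : ∃ i, f i ∈ I := by
  by_contra hcon
  push Not at hcon
  have h1 : Disjoint I (univ.image f) := by
    refine disjoint_right.2 fun x hx => ?_
    obtain ⟨i, -, rfl⟩ := mem_image.1 hx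
    exact hcon i
  have h2 := card_union_of_disjoint h1
  have h3 := card_le_univ (I ∪ univ.image f)
  rw [card_image_of_injective _ hf] at h2
  simp only [card_univ, Fintype.card_fin] at h2 h3
  omega

theorem big_meet {a n r : ℕ} {f g : Fin n → Fin a} (hf : Function.Injective f)
    (hg : Function.Injective g) {ε : Edg a → ℕ} {A : Finset ℕ} (h : Big ε A r) (hn : r < n) :
    ∃ i j, ε (f i, g j) ∈ A := by
  obtain ⟨I, J, h1, h2, h3⟩ := h
  obtain ⟨i, hi⟩ := meet hf h1 hn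
  obtain ⟨j, hj⟩ := meet hg h2 hn
  exact ⟨i, j, h3 _ hi _ hj⟩

theorem mem_edges {a : ℕ} (ε : Edg a → ℕ) (p : Edg a) : ε p ∈ edges ε :=
  mem_image_of_mem _ (mem_univ p)

theorem edges_sub {a : ℕ} {ε : Edg a → ℕ} {E : Finset ℕ} (h : ∀ p, ε p ∈ E) : edges ε ⊆ E := by
  intro x hx
  obtain ⟨p, -, rfl⟩ := mem_image.1 hx
  exact h p

theorem transfer {c c' : Code} {E X : Finset ℕ} {a : ℕ} {ε : Edg a → ℕ} (h : Model c E ε ∅)
    (hX : edges ε ⊆ X) (hc : ∀ Z ⊆ edges ε, c'.cyc Z ↔ c.cyc Z) : Model c' X ε ∅ := by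
  refine ⟨h.inj, fun p => ⟨hX (mem_edges ε p), notMem_empty _⟩, empty_subset _, fun F => ?_⟩
  rw [← h.cyc F]
  have h1 : F.image ε ∪ ∅ ⊆ edges ε := by
    rw [union_empty]
    exact image_subset_image (subset_univ F)
  constructor
  · rintro ⟨L, hL, h2⟩
    obtain rfl := subset_empty.1 hL
    exact ⟨∅, Subset.refl _, (hc _ h1).1 h2⟩
  · rintro ⟨L, hL, h2⟩
    obtain rfl := subset_empty.1 hL
    exact ⟨∅, Subset.refl _, (hc _ h1).2 h2⟩

end Ending

open Ending in
theorem end_stmt (hL : LamStmt) (hD : DualStmt) (h1 : DichStmt) (h2 : BalStmt) (h3 : Link2Stmt)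
    (h4 : FinStmt) : EndStmt := by
  intro d
  obtain ⟨k₀, a₀, hF⟩ := h4 d
  obtain ⟨a₁, hB⟩ := h2 (k₀ + 1) (max a₀ (2 * (k₀ + 1) + 1))
  refine ⟨a₁ + 6 * (k₀ + 1) + 1, k₀ + 1, by omega, by omega, ?_⟩
  intro c b E C D A₁ A₂ ε₁ ε₂ hT hS hA₁ hA₂ hl₁ hl₂ hb₁ hb₂ hC hD'
  obtain ⟨I₁, J₁, i₁, j₁, hb₁⟩ := hb₁
  obtain ⟨I₂, J₂, i₂, j₂, hb₂⟩ := hb₂
  obtain ⟨f₁, g₁, hf₁, hg₁, m₁⟩ :=
    hB c E C A₁ _ ε₁ I₁ J₁ hT.fst hA₁ hl₁ hC (by omega) (by omega) hb₁
  obtain ⟨f₂, g₂, hf₂, hg₂, m₂⟩ :=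
    hB b E D A₂ _ ε₂ I₂ J₂ hT.snd hA₂ (by rwa [hD.lam c b E A₂ hT.dual hA₂]) hD' (by omega)
      (by omega) hb₂
  have hn : 2 * (k₀ + 1) < max a₀ (2 * (k₀ + 1) + 1) := lt_of_lt_of_le (by omega) (le_max_right _ _)
  have hK₁ := edges_sub fun p => (m₁.mem p).1
  have hK₂ := edges_sub fun p => (m₂.mem p).1
  have hd : Disjoint (edges fun e : Edg (max a₀ (2 * (k₀ + 1) + 1)) => ε₁ (f₁ e.1, g₁ e.2))
      (edges fun e : Edg (max a₀ (2 * (k₀ + 1) + 1)) => ε₂ (f₂ e.1, g₂ e.2)) :=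
    hT.disj.mono ((edges_sub fun p => mem_edges ε₁ _).trans subset_union_left)
      ((edges_sub fun p => mem_edges ε₂ _).trans subset_union_left)
  obtain ⟨c', b', q₁, q₂, q₃, q₄, q₅⟩ := h3 c b E _ _ (k₀ + 1) hT.dual hK₁ hK₂ hd (by
    intro A hA hA'
    have hAE : A ⊆ E := hA'.trans sdiff_subset
    by_contra hcon
    have hle : c.lam E A ≤ k₀ + 1 := by omega
    have hle' : b.lam E (E \ A) ≤ k₀ + 1 := by
      rwa [hD.lam c b E _ hT.dual sdiff_subset, hL.compl c E A hAE]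
    refine hcon (hS A hAE ?_ ?_)
    · rcases h1 c E C A _ _ ε₁ hT.fst hAE hle with h | h
      · exact big_mono h (by omega)
      · obtain ⟨i, j, h⟩ := big_meet hf₁ hg₁ h hn
        exact absurd (hA (mem_edges _ (i, j))) (mem_sdiff.1 h).2
    · rcases h1 b E D (E \ A) _ _ ε₂ hT.snd sdiff_subset hle' with h | h
      · exact big_mono h (by omega)
      · obtain ⟨i, j, h⟩ := big_meet hf₂ hg₂ h hn
        have h5 : ε₂ (f₂ i, g₂ j) ∈ A := by
          have := mem_sdiff.1 h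
          by_contra h6
          exact this.2 (mem_sdiff.2 ⟨this.1, h6⟩)
        exact absurd (mem_edges _ (i, j)) (mem_sdiff.1 (hA' h5)).2)
  refine q₅ d (hF _ (le_max_left _ _) c' b' _ _
    ⟨q₁, transfer m₁ subset_union_left q₂, transfer m₂ subset_union_right q₃, ?_⟩ (by omega))
  simpa using hd

end Pool.Agent.MP71

end MrgPart7

-- ======== part 8: formerly Pool.Agent.MP_71daef_lc.det.Link1
section MrgPart8

/-!
Row LINK1: removing the contracted sets of two dual models one element at a time.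
-/

set_option autoImplicit false

namespace Pool.Agent.MP71

open Finset

namespace Link1

theorem big_mono {a r : ℕ} {ε : Edg a → ℕ} {A B : Finset ℕ} (h : Big ε A r) (hs : A ⊆ B) :
    Big ε B r := by
  obtain ⟨I, J, h1, h2, h3⟩ := h
  exact ⟨I, J, h1, h2, fun p hp q hq => hs (h3 p hp q hq)⟩

theorem card_inter_ge {a r s : ℕ} (I J : Finset (Fin a)) (h1 : a ≤ I.card + r)
    (h2 : a ≤ J.card + s) : a ≤ (I ∩ J).card + (r + s) := by
  have h3 := card_union_add_card_inter I J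
  have h4 : (I ∪ J).card ≤ a := by simpa using card_le_univ (I ∪ J)
  omega

theorem big_inter {a r s : ℕ} {ε : Edg a → ℕ} {A B : Finset ℕ} (h : Big ε A r)
    (h' : Big ε B s) : Big ε (A ∩ B) (r + s) := by
  obtain ⟨I, J, h1, h2, h3⟩ := h
  obtain ⟨I', J', h4, h5, h6⟩ := h'
  refine ⟨I ∩ I', J ∩ J', card_inter_ge I I' h1 h4, card_inter_ge J J' h2 h5, ?_⟩
  intro p hp q hq
  rw [mem_inter] at hp hq ⊢
  exact ⟨h3 p hp.1 q hq.1, h6 p hp.2 q hq.2⟩

theorem big_nonempty {a r : ℕ} {ε : Edg a → ℕ} {A : Finset ℕ} (h : Big ε A r) (hr : r < a) :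
    A.Nonempty := by
  obtain ⟨I, J, h1, h2, h3⟩ := h
  obtain ⟨p, hp⟩ : I.Nonempty := card_pos.1 (by omega)
  obtain ⟨q, hq⟩ : J.Nonempty := card_pos.1 (by omega)
  exact ⟨_, h3 p hp q hq⟩

theorem big_all {a r : ℕ} {ε : Edg a → ℕ} {E : Finset ℕ} (h : ∀ p, ε p ∈ E) : Big ε E r :=
  ⟨univ, univ, by simp, by simp, fun p _ q _ => h (p, q)⟩

theorem big_half (h1 : DichStmt) {c : Code} {E C A : Finset ℕ} {a k : ℕ} {ε : Edg a → ℕ}
    (hm : Model c E ε C) (hA : A ⊆ E) (hl : c.lam E A ≤ k) (hk : 6 * k < a)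
    (hb : Big ε A (4 * k)) : Big ε A (2 * k) := by
  rcases h1 c E C A a k ε hm hA hl with h | h
  · exact h
  · obtain ⟨x, hx⟩ := big_nonempty (big_inter hb h) (by omega)
    rw [mem_inter, mem_sdiff] at hx
    exact absurd hx.1 hx.2.2

theorem two_symm {c b : Code} {E C D : Finset ℕ} {a : ℕ} {ε₁ ε₂ : Edg a → ℕ}
    (h : Two c b E ε₁ C ε₂ D) : Two b c E ε₂ D ε₁ C :=
  ⟨h.dual.symm, h.snd, h.fst, h.disj.symm⟩

theorem model_con {c : Code} {E C : Finset ℕ} {a e : ℕ} {ε : Edg a → ℕ} (h : Model c E ε C)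
    (he : e ∈ C) : Model (c.con {e}) (E.erase e) ε (C.erase e) := by
  have hne : ∀ p, ε p ≠ e := fun p hp => (h.mem p).2 (hp ▸ he)
  refine ⟨h.inj, fun p => ⟨mem_erase.2 ⟨hne p, (h.mem p).1⟩,
    fun hp => (h.mem p).2 (mem_of_mem_erase hp)⟩, erase_subset_erase e h.sub, fun F => ?_⟩
  rw [← h.cyc F]
  constructor
  · rintro ⟨L, hL, -, P, hP, hc⟩
    refine ⟨L ∪ P, union_subset (hL.trans (erase_subset e C))
      (hP.trans (singleton_subset_iff.2 he)), ?_⟩
    rwa [union_assoc] at hc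
  · rintro ⟨L, hL, hc⟩
    refine ⟨L.erase e, erase_subset_erase e hL, ?_, L ∩ {e}, inter_subset_right, ?_⟩
    · rw [disjoint_singleton_right, mem_union, mem_image]
      rintro (⟨p, -, hp⟩ | hp)
      · exact hne p hp
      · exact notMem_erase e L hp
    · have : F.image ε ∪ L.erase e ∪ L ∩ {e} = F.image ε ∪ L := by
        ext x
        simp only [mem_union, mem_erase, mem_inter, mem_singleton]
        tauto
      rwa [this]

theorem two_con (hD : DualStmt) {c b : Code} {E C D : Finset ℕ} {a e : ℕ} {ε₁ ε₂ : Edg a → ℕ}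
    (h : Two c b E ε₁ C ε₂ D) (he : e ∈ C) :
    Two (c.con {e}) b (E.erase e) ε₁ (C.erase e) ε₂ D := by
  have hn : e ∉ edges ε₂ ∪ D := disjoint_left.1 h.disj (mem_union_right _ he)
  refine ⟨?_, model_con h.fst he, h.snd.mono (fun p => ?_) (fun x hx => ?_), ?_⟩
  · rw [← sdiff_singleton_eq_erase]
    exact hD.con c b E {e} h.dual (singleton_subset_iff.2 (h.fst.sub he))
  · refine mem_erase.2 ⟨fun hp => hn (mem_union_left _ ?_), (h.snd.mem p).1⟩
    exact mem_image.2 ⟨p, mem_univ p, hp⟩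
  · exact mem_erase.2 ⟨fun hp => hn (mem_union_right _ (hp ▸ hx)), h.snd.sub hx⟩
  · exact disjoint_of_subset_left (union_subset_union_right (erase_subset e C)) h.disj

theorem avoid (P : Finset ℕ → Prop) (hP : ∀ A B, P A → P B → P (A ∩ B)) (S : Finset ℕ)
    (hS : S.Nonempty) (h : ∀ e ∈ S, ∃ A, P A ∧ e ∉ A) : ∃ A, P A ∧ Disjoint S A := by
  induction hS using Finset.Nonempty.cons_induction with
  | singleton x =>
    obtain ⟨A, h1, h2⟩ := h x (mem_singleton_self x)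
    exact ⟨A, h1, disjoint_singleton_left.2 h2⟩
  | cons x s hx _ ih =>
    obtain ⟨A, h1, h2⟩ := h x (mem_cons_self x s)
    obtain ⟨B, h3, h4⟩ := ih fun e he => h e (mem_cons_of_mem he)
    refine ⟨A ∩ B, hP A B h1 h3, disjoint_left.2 fun y hy hz => ?_⟩
    rw [mem_inter] at hz
    rcases mem_cons.1 hy with rfl | hy
    · exact h2 hz.1
    · exact disjoint_left.1 h4 hy hz.2

/-- Separations of order at most `k` that split the two models. -/
def Fam (c : Code) (E : Finset ℕ) {a : ℕ} (ε₁ ε₂ : Edg a → ℕ) (k : ℕ) (A : Finset ℕ) : Prop :=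
  A ⊆ E ∧ c.lam E A ≤ k ∧ Big ε₁ A (4 * k) ∧ Big ε₂ (E \ A) (4 * k)

theorem fam_lat (hL : LamStmt) (hD : DualStmt) (h1 : DichStmt) {c b : Code}
    {E C D : Finset ℕ} {a k : ℕ} {ε₁ ε₂ : Edg a → ℕ} (h : Two c b E ε₁ C ε₂ D)
    (hs : Sep c E ε₁ ε₂ k) (hk : 6 * k < a) {A B : Finset ℕ} (hA : Fam c E ε₁ ε₂ k A)
    (hB : Fam c E ε₁ ε₂ k B) : Fam c E ε₁ ε₂ k (A ∩ B) ∧ Fam c E ε₁ ε₂ k (A ∪ B) := by
  have half : ∀ X, Fam c E ε₁ ε₂ k X → Big ε₁ X (2 * k) ∧ Big ε₂ (E \ X) (2 * k) := by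
    rintro X ⟨x1, x2, x3, x4⟩
    refine ⟨big_half h1 h.fst x1 x2 hk x3, big_half h1 h.snd sdiff_subset ?_ hk x4⟩
    rw [hD.lam c b E _ h.dual sdiff_subset, hL.compl c E X x1]
    exact x2
  have e4 : 2 * k + 2 * k = 4 * k := by ring
  have i1 : A ∩ B ⊆ E := inter_subset_left.trans hA.1
  have u1 : A ∪ B ⊆ E := union_subset hA.1 hB.1
  have i3 : Big ε₁ (A ∩ B) (4 * k) := e4 ▸ big_inter (half A hA).1 (half B hB).1
  have i4 : Big ε₂ (E \ (A ∩ B)) (4 * k) :=
    big_mono hA.2.2.2 (sdiff_subset_sdiff subset_rfl inter_subset_left)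
  have u3 : Big ε₁ (A ∪ B) (4 * k) := big_mono hA.2.2.1 subset_union_left
  have u4 : Big ε₂ (E \ (A ∪ B)) (4 * k) := by
    rw [sdiff_union_distrib]
    exact e4 ▸ big_inter (half A hA).2 (half B hB).2
  have l1 := hs _ i1 i3 i4
  have l2 := hs _ u1 u3 u4
  have l3 := hL.sub c E A B hA.1 hB.1
  have l4 := hA.2.1
  have l5 := hB.2.1
  exact ⟨⟨i1, by omega, i3, i4⟩, ⟨u1, by omega, u3, u4⟩⟩

theorem fam_of {c c' : Code} {E : Finset ℕ} {a k e : ℕ} {ε₁ ε₂ : Edg a → ℕ} (he : e ∈ E)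
    (hn : ¬ Sep c' (E.erase e) ε₁ ε₂ k)
    (hl : ∀ A ⊆ E.erase e, c.lam E A ≤ c'.lam (E.erase e) A + 1 ∧
      c.lam E (insert e A) ≤ c'.lam (E.erase e) A + 1) :
    (∃ A, Fam c E ε₁ ε₂ k A ∧ e ∉ A) ∧ ∃ A, Fam c E ε₁ ε₂ k A ∧ e ∈ A := by
  unfold Sep at hn
  push Not at hn
  obtain ⟨A, a1, a2, a3, a4⟩ := hn
  obtain ⟨l1, l2⟩ := hl A a1
  have a5 : A ⊆ E := a1.trans (erase_subset e E)
  refine ⟨⟨A, ⟨a5, by omega, a2, big_mono a3 (sdiff_subset_sdiff (erase_subset e E) subset_rfl)⟩,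
    fun hx => notMem_erase e E (a1 hx)⟩,
    insert e A, ⟨insert_subset he a5, by omega, big_mono a2 (subset_insert e A),
      big_mono a3 fun x hx => ?_⟩, mem_insert_self e A⟩
  simp only [mem_sdiff, mem_erase, mem_insert] at hx ⊢
  tauto

end Link1

open Link1 in
theorem link1_stmt (hL : LamStmt) (hD : DualStmt) (hU : UniStmt) (h1 : DichStmt)
    (h2 : EndStmt) : Link1Stmt := by
  intro d
  obtain ⟨a, k, hk1, hk, hend⟩ := h2 d
  refine ⟨a, k, hk1, hk, ?_⟩
  suffices H : ∀ (n : ℕ) (c b : Code) (E C D : Finset ℕ) (ε₁ ε₂ : Edg a → ℕ), E.card = n →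
      Two c b E ε₁ C ε₂ D → Sep c E ε₁ ε₂ k → c.Uni E d from
    fun c b E C D ε₁ ε₂ => H _ c b E C D ε₁ ε₂ rfl
  intro n
  induction n using Nat.strong_induction_on with
  | _ n ih =>
  intro c b E C D ε₁ ε₂ hn h hs
  by_cases hC : ∃ e ∈ C, Sep (c.con {e}) (E.erase e) ε₁ ε₂ k
  · obtain ⟨e, he, hs'⟩ := hC
    have heE := h.fst.sub he
    exact hU.con c E (E.erase e) {e} d (erase_subset e E) (singleton_subset_iff.2 heE)
      (ih _ (hn ▸ card_erase_lt_of_mem heE) _ b _ _ D ε₁ ε₂ rfl (two_con hD h he) hs')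
  by_cases hE : ∃ e ∈ D, Sep c (E.erase e) ε₁ ε₂ k
  · obtain ⟨e, he, hs'⟩ := hE
    have heE := h.snd.sub he
    exact (ih _ (hn ▸ card_erase_lt_of_mem heE) c _ _ C _ ε₁ ε₂ rfl
      (two_symm (two_con hD (two_symm h) he)) hs').mono (erase_subset e E)
  push Not at hC hE
  have f1 : ∃ A₁ ⊆ E, c.lam E A₁ ≤ k ∧ Big ε₁ A₁ (4 * k) ∧ Disjoint C A₁ := by
    rcases C.eq_empty_or_nonempty with rfl | hne
    · exact ⟨E, subset_rfl, by rw [hL.self]; omega, big_all fun p => (h.fst.mem p).1,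
        disjoint_empty_left _⟩
    · obtain ⟨A, hA, hd⟩ := avoid (Fam c E ε₁ ε₂ k)
        (fun A B hA hB => (fam_lat hL hD h1 h hs hk hA hB).1) C hne fun e he =>
          (fam_of (h.fst.sub he) (hC e he) fun A hA => hL.con c E A e (h.fst.sub he) hA).1
      exact ⟨A, hA.1, hA.2.1, hA.2.2.1, hd⟩
  have f2 : ∃ A₂ ⊆ E, c.lam E A₂ ≤ k ∧ Big ε₂ A₂ (4 * k) ∧ Disjoint D A₂ := by
    rcases D.eq_empty_or_nonempty with rfl | hne
    · exact ⟨E, subset_rfl, by rw [hL.self]; omega, big_all fun p => (h.snd.mem p).1,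
        disjoint_empty_left _⟩
    · obtain ⟨B, ⟨A, hA, rfl⟩, hd⟩ := avoid (fun B => ∃ A, Fam c E ε₁ ε₂ k A ∧ B = E \ A)
        (by
          rintro _ _ ⟨A, hA, rfl⟩ ⟨B, hB, rfl⟩
          exact ⟨A ∪ B, (fam_lat hL hD h1 h hs hk hA hB).2, (sdiff_union_distrib E A B).symm⟩)
        D hne fun e he => by
          obtain ⟨A, hA, hx⟩ := (fam_of (h.snd.sub he) (hE e he)
            fun A hA => hL.del c E A e (h.snd.sub he) hA).2
          exact ⟨E \ A, ⟨A, hA, rfl⟩, fun hy => (mem_sdiff.1 hy).2 hx⟩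
      exact ⟨E \ A, sdiff_subset, by rw [hL.compl c E A hA.1]; exact hA.2.1, hA.2.2.2, hd⟩
  obtain ⟨A₁, p1, p2, p3, p4⟩ := f1
  obtain ⟨A₂, q1, q2, q3, q4⟩ := f2
  exact hend c b E C D A₁ A₂ ε₁ ε₂ h hs p1 q1 p2 q2 p3 q3 p4 q4

end Pool.Agent.MP71

end MrgPart8

-- ======== part 9: formerly Pool.Agent.MP_71daef_lc.det.Mix
section MrgPart9

/-!
Row MIX: a minimal dense piece behind a small separation has no large clique minor in the dual.
-/

set_option autoImplicit false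

namespace Pool.Agent.MP71

open Finset symmDiff

namespace Mix

/-- The four edges of a quadrilateral have even degrees. -/
theorem eul_four {a : ℕ} {p₀ p₁ q₀ q₁ : Fin a} (hp : p₀ ≠ p₁) (hq : q₀ ≠ q₁) :
    Eul ({p₀, p₁} ×ˢ {q₀, q₁} : Finset (Edg a)) := by
  constructor
  · intro p
    have h : (({p₀, p₁} ×ˢ {q₀, q₁} : Finset (Edg a)).filter (·.1 = p)) =
        (({p₀, p₁} : Finset (Fin a)).filter (· = p)) ×ˢ {q₀, q₁} := by
      ext e
      simp only [mem_filter, mem_product]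
      tauto
    rw [h, card_product, card_pair hq]
    exact even_two.mul_left _
  · intro q
    have h : (({p₀, p₁} ×ˢ {q₀, q₁} : Finset (Edg a)).filter (·.2 = q)) =
        {p₀, p₁} ×ˢ (({q₀, q₁} : Finset (Fin a)).filter (· = q)) := by
      ext e
      simp only [mem_filter, mem_product]
      tauto
    rw [h, card_product, card_pair hp]
    exact even_two.mul_right _

/-- A star without one edge consists of private elements of cycles. -/
theorem priv_star (hN : NulStmt) {c : Code} {Y C : Finset ℕ} {a : ℕ} {ε : Edg a → ℕ}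
    (h : Model c Y ε C) {p₀ p₁ q₀ : Fin a} (hp : p₀ ≠ p₁) (J : Finset (Fin a)) (hq : q₀ ∉ J) :
    c.nul (Y \ J.image fun q => ε (p₁, q)) + J.card ≤ c.nul Y := by
  have hc : (J.image fun q => ε (p₁, q)).card = J.card :=
    card_image_of_injective _ fun q q' hh => (Prod.ext_iff.1 (h.inj hh)).2
  rw [← hc]
  refine hN.priv c Y _ fun e he => ?_
  obtain ⟨q, hqJ, rfl⟩ := mem_image.1 he
  have hne : q₀ ≠ q := fun hh => hq (hh ▸ hqJ)
  obtain ⟨L, hL, hcyc⟩ := (h.cyc _).2 (eul_four hp hne)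
  refine ⟨_, union_subset (fun x hx => ?_) (hL.trans h.sub), hcyc, ?_⟩
  · obtain ⟨e, -, rfl⟩ := mem_image.1 hx
    exact (h.mem e).1
  · ext x
    simp only [mem_inter, mem_union, mem_image, mem_singleton, mem_product, mem_insert]
    constructor
    · rintro ⟨h1, q', hq', rfl⟩
      rcases h1 with ⟨e, ⟨h2, h3⟩, h4⟩ | h1
      · have h5 := h.inj h4
        subst h5
        rcases h3 with h3 | h3
        · exact absurd (h3 ▸ hq') hq
        · simp only at h3
          rw [h3]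
      · exact absurd (hL h1) (h.mem _).2
    · rintro rfl
      exact ⟨Or.inl ⟨(p₁, q), ⟨Or.inr rfl, Or.inr rfl⟩, rfl⟩, q, hqJ, rfl⟩

/-- A star is independent. -/
theorem ind_star {c : Code} {Y C : Finset ℕ} {a : ℕ} {ε : Edg a → ℕ}
    (h : Model c Y ε C) (p : Fin a) (J : Finset (Fin a)) :
    c.Ind (J.image fun q => ε (p, q)) := by
  intro Z hZ hc
  by_contra hne
  obtain ⟨z, hz⟩ := nonempty_iff_ne_empty.2 hne
  obtain ⟨q, -, rfl⟩ := mem_image.1 (hZ hz)
  have hF : (univ.filter fun e : Edg a => ε e ∈ Z).image ε = Z := by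
    ext x
    simp only [mem_image, mem_filter, mem_univ, true_and]
    constructor
    · rintro ⟨e, h1, rfl⟩
      exact h1
    · intro hx
      obtain ⟨q', -, rfl⟩ := mem_image.1 (hZ hx)
      exact ⟨_, hx, rfl⟩
  have hE := (h.cyc (univ.filter fun e : Edg a => ε e ∈ Z)).1
    ⟨∅, empty_subset _, by rw [hF, union_empty]; exact hc⟩
  have h1 := hE.2 q
  have h2 : ((univ.filter fun e : Edg a => ε e ∈ Z).filter (·.2 = q)) = {(p, q)} := by
    ext e
    simp only [mem_filter, mem_univ, true_and, mem_singleton]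
    constructor
    · rintro ⟨h3, h4⟩
      obtain ⟨q', -, h5⟩ := mem_image.1 (hZ h3)
      have h6 := h.inj h5
      subst h6
      simp only at h4
      rw [h4]
    · rintro rfl
      exact ⟨hz, rfl⟩
  rw [h2, card_singleton] at h1
  exact absurd h1 (by decide)

/-- The two models inside a minimal piece are not split by a small separation. -/
theorem sep (hN : NulStmt) (hL : LamStmt) (hD : DualStmt) {c b : Code} {Y X C D : Finset ℕ}
    {a k : ℕ} {ε₁ ε₂ : Edg a → ℕ} (ha : 6 * k < a) (hk : 1 ≤ k) (hd : DualPair c b Y)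
    (hX : X ⊆ Y) (hl : c.lam Y X < 2 * k)
    (hmin : ∀ X' ⊂ X, c.lam Y X' < 2 * k → c.nul X' = 0)
    (m1 : Model c Y ε₁ C) (m2 : Model b Y ε₂ D) (e1 : ∀ e, ε₁ e ∈ X) (e2 : ∀ e, ε₂ e ∈ X) :
    Sep c Y ε₁ ε₂ k := by
  rintro A hA ⟨I₁, J₁, hI₁, hJ₁, hb₁⟩ ⟨I₂, J₂, hI₂, hJ₂, hb₂⟩
  by_contra hlt
  have hcor := hL.corner c Y X A hX hA
  obtain ⟨p₁, hp₁⟩ : I₁.Nonempty := card_pos.1 (by omega)
  obtain ⟨q₁, hq₁⟩ : J₁.Nonempty := card_pos.1 (by omega)
  obtain ⟨p₂, hp₂⟩ : I₂.Nonempty := card_pos.1 (by omega)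
  obtain ⟨q₂, hq₂⟩ : J₂.Nonempty := card_pos.1 (by omega)
  by_cases hc : c.lam Y (X ∩ A) < 2 * k
  · have hss : X ∩ A ⊂ X := by
      refine Finset.ssubset_iff_subset_ne.2 ⟨inter_subset_left, fun hh => ?_⟩
      have h1 : ε₂ (p₂, q₂) ∈ X ∩ A := by rw [hh]; exact e2 _
      exact (mem_sdiff.1 (hb₂ p₂ hp₂ q₂ hq₂)).2 (mem_inter.1 h1).2
    have h0 := hmin _ hss hc
    have h1 := hL.add c Y (X ∩ A) (inter_subset_left.trans hX)
    obtain ⟨p₀, hp₀⟩ : (I₁.erase p₁).Nonempty :=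
      card_pos.1 (by rw [card_erase_of_mem hp₁]; omega)
    have h2 := priv_star hN m1 (mem_erase.1 hp₀).1 (J₁.erase q₁) (notMem_erase q₁ J₁)
    have h3 : ((J₁.erase q₁).image fun q => ε₁ (p₁, q)) ⊆ X ∩ A := by
      intro x hx
      obtain ⟨q, hq, rfl⟩ := mem_image.1 hx
      exact mem_inter.2 ⟨e1 _, hb₁ p₁ hp₁ q (mem_of_mem_erase hq)⟩
    have h4 := hN.mono c _ _ (sdiff_subset_sdiff (Subset.refl Y) h3)
    rw [card_erase_of_mem hq₁] at h2
    omega
  · have hc' : c.lam Y (X \ A) < 2 * k := by omega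
    have hss : X \ A ⊂ X := by
      refine Finset.ssubset_iff_subset_ne.2 ⟨sdiff_subset, fun hh => ?_⟩
      have h1 : ε₁ (p₁, q₁) ∈ X \ A := by rw [hh]; exact e1 _
      exact (mem_sdiff.1 h1).2 (hb₁ p₁ hp₁ q₁ hq₁)
    have h0 := hmin _ hss hc'
    have h1 := hL.add c Y (X \ A) (sdiff_subset.trans hX)
    have h3 : (J₂.image fun q => ε₂ (p₂, q)) ⊆ X \ A := by
      intro x hx
      obtain ⟨q, hq, rfl⟩ := mem_image.1 hx
      exact mem_sdiff.2 ⟨e2 _, (mem_sdiff.1 (hb₂ p₂ hp₂ q hq)).2⟩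
    have h2 := hD.nul c b Y _ hd (h3.trans (sdiff_subset.trans hX))
    rw [(hN.ind b _).2 (ind_star m2 p₂ J₂),
      card_image_of_injective _ fun q q' hh => (Prod.ext_iff.1 (m2.inj hh)).2] at h2
    have h4 := hN.mono c _ _ (sdiff_subset_sdiff (Subset.refl Y) h3)
    omega

end Mix

theorem mix_stmt (hN : NulStmt) (hL : LamStmt) (hD : DualStmt) (_hU : UniStmt) (h1 : LightStmt)
    (h2 : SmallStmt) (h3 : Link1Stmt) : MixStmt := by
  intro d
  obtain ⟨a, k, hk, ha, hlink⟩ := h3 d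
  obtain ⟨T₁, hT₁⟩ := h2 d a 0
  obtain ⟨c₀, hc₀⟩ := h1 T₁
  obtain ⟨T₂, hT₂⟩ := h2 (2 ^ d) a 8
  refine ⟨2 * k, T₂ + 4 * k + 4 * (a * a), 4 * c₀ + 1, by omega, ?_⟩
  rintro c b Y X G hd hu hg hC hX hl hpos hmin ⟨Q, hQ⟩
  have hub : ¬ b.Uni X (2 ^ d) := fun hh => hu (hD.uni c b Y d hd (hh.mono hX))
  obtain ⟨ε₂, D, hD8, m2⟩ := hT₂ _ (by omega) b X Q hub hQ
  obtain ⟨hQX, x, hx1, hx2, hx3, -⟩ := hQ
  have hS : Q ∪ univ.image x ⊆ X := by
    refine union_subset hQX fun y hy => ?_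
    obtain ⟨i, -, rfl⟩ := mem_image.1 hy
    exact (hx2 i).1
  have hcard : (Q ∪ univ.image x).card = Q.card + (T₂ + 4 * k + 4 * (a * a)) := by
    rw [card_union_of_disjoint, card_image_of_injective _ hx1, card_univ, Fintype.card_fin]
    refine disjoint_right.2 fun y hy => ?_
    obtain ⟨i, -, rfl⟩ := mem_image.1 hy
    exact (hx2 i).2
  have n1 := hD.nul c b Y _ hd (hS.trans hX)
  rw [(hN.ind b _).2 hx3, hcard] at n1
  have n2 := hN.mono c _ _ (sdiff_subset_sdiff (Subset.refl Y) hS)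
  have n3 := hL.add c Y X hX
  have n4 := hN.sdiff c X (edges ε₂ ∪ D)
  have n5 : (edges ε₂ ∪ D).card ≤ a * a + D.card := by
    refine (card_union_le _ _).trans (Nat.add_le_add_right ?_ _)
    refine card_image_le.trans ?_
    rw [card_univ, Fintype.card_prod, Fintype.card_fin]
  have n6 := hC X hX
  have n7 : Q.card + (T₂ + 4 * k + 4 * (a * a)) ≤ X.card := hcard ▸ card_le_card hS
  have n8 : (X \ (edges ε₂ ∪ D)).card ≤ X.card := card_le_card sdiff_subset
  have n9 : c.nul Y ≤ c.nul (Y \ X) + 4 * c.nul (X \ (edges ε₂ ∪ D)) := by omega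
  have n10 : c₀ * (X \ (edges ε₂ ∪ D)).card < G * c.nul (X \ (edges ε₂ ∪ D)) := by
    have r1 := Nat.mul_le_mul_left G n9
    have r2 := Nat.mul_le_mul_left c₀ n8
    have r3 : 0 < X.card := by omega
    nlinarith
  have hX2 : X \ (edges ε₂ ∪ D) ⊆ Y := sdiff_subset.trans hX
  have hkm : c.KM (X \ (edges ε₂ ∪ D)) T₁ := by
    by_contra hh
    have r1 := hc₀ c _ (fun _ => 1) G hh (fun _ _ => zero_le_one) fun Z hZ hz hne => by
      rw [sum_const, nsmul_eq_mul, mul_one]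
      exact_mod_cast hg Z (hZ.trans hX2) hz hne
    rw [sum_const, nsmul_eq_mul, mul_one] at r1
    have r2 : G * c.nul (X \ (edges ε₂ ∪ D)) ≤ c₀ * (X \ (edges ε₂ ∪ D)).card := by
      exact_mod_cast r1
    omega
  obtain ⟨Q₁, hQ₁⟩ := hkm
  obtain ⟨ε₁, C₁, -, m1⟩ := hT₁ T₁ le_rfl c _ Q₁ (fun hh => hu (hh.mono hX2)) hQ₁
  have m1' : Model c Y ε₁ C₁ := m1.mono (fun p => hX2 (m1.mem p).1) (m1.sub.trans hX2)
  have m2' : Model b Y ε₂ D := m2.mono (fun p => hX (m2.mem p).1) (m2.sub.trans hX)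
  refine hu (hlink c b Y C₁ D ε₁ ε₂ ⟨hd, m1', m2', ?_⟩
    (Mix.sep hN hL hD ha hk hd hX hl hmin m1' m2' (fun e => (mem_sdiff.1 (m1.mem e).1).1)
      fun e => (m2.mem e).1))
  refine disjoint_of_subset_left (union_subset (fun y hy => ?_) m1.sub) sdiff_disjoint
  obtain ⟨e, -, rfl⟩ := mem_image.1 hy
  exact (m1.mem e).1

end Pool.Agent.MP71

end MrgPart9

-- ======== part 10: formerly Pool.Agent.MP_71daef_lc.det.Wit
section MrgPart10

/-!
Witnesses for all dense sets: closing under short cycles, and the peeling induction.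
-/

set_option autoImplicit false

namespace Pool.Agent.MP71

open Finset symmDiff

namespace Wit

theorem gir_mono {c : Code} {E X : Finset ℕ} {G : ℕ} (h : c.Gir E G) (hX : X ⊆ E) :
    c.Gir X G := fun Z hZ => h Z (hZ.trans hX)

theorem close_aux (hN : NulStmt) (c : Code) (E U₀ : Finset ℕ) (G k g : ℕ) (hg : k * g < G)
    (h : ∀ U, U₀ ⊆ U → U ⊆ E → U.card < U₀.card + G → c.nul U < k) (m : ℕ) :
    ∀ (j : ℕ) (U : Finset ℕ), j + m = k → U₀ ⊆ U → U ⊆ E → U.card ≤ U₀.card + j * g →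
      j ≤ c.nul U → ∃ U', U₀ ⊆ U' ∧ U' ⊆ E ∧ U'.card < U₀.card + G ∧
        (c.con U').Gir (E \ U') (g + 1) := by
  induction m with
  | zero =>
    intro j U h1 h2 h3 h4 h5
    obtain rfl : j = k := by omega
    have := h U h2 h3 (by omega)
    omega
  | succ m ih =>
    intro j U h1 h2 h3 h4 h5
    have hj : j * g ≤ k * g := Nat.mul_le_mul_right _ (by omega)
    by_cases hG : (c.con U).Gir (E \ U) (g + 1)
    · exact ⟨U, h2, h3, by omega, hG⟩
    simp only [Code.Gir, not_forall, not_le] at hG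
    obtain ⟨Z, z1, ⟨z2, P, z3, z4⟩, ⟨x, z5⟩, z6⟩ := hG
    refine ih (j + 1) (U ∪ Z) (by omega) (h2.trans subset_union_left)
      (union_subset h3 (z1.trans sdiff_subset)) ?_ ?_
    · have := card_union_le U Z
      rw [add_mul, one_mul]
      omega
    · have := hN.lt c U (U ∪ Z) (Z ∪ P) subset_union_left
        (union_subset subset_union_right (z3.trans subset_union_left)) z4
        fun hh => disjoint_left.1 z2 z5 (hh (mem_union_left _ z5))
      omega

/-- A cycle inside `Y` gives a cycle of the double contraction. -/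
theorem cyc_con {c : Code} {Y X U Z : Finset ℕ} (hU : U ⊆ X) (hZ : Z ⊆ Y) (h : c.cyc Z) :
    ((c.con (Y \ X)).con U).cyc (Z ∩ (X \ U)) := by
  refine ⟨disjoint_left.2 fun x h1 h2 => (mem_sdiff.1 (mem_inter.1 h1).2).2 h2, Z ∩ U,
    inter_subset_right, disjoint_left.2 fun x h1 h2 => ?_, Z \ X,
    sdiff_subset_sdiff hZ subset_rfl, ?_⟩
  · have := @hU x
    simp only [mem_union, mem_inter, mem_sdiff] at h1 h2
    grind
  · have : Z ∩ (X \ U) ∪ Z ∩ U ∪ Z \ X = Z := by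
      ext x
      simp only [mem_union, mem_inter, mem_sdiff]
      grind
    rwa [this]

theorem ind_of_lt {c : Code} {Y U : Finset ℕ} {G : ℕ} (h : c.Gir Y G) (hU : U ⊆ Y)
    (hc : U.card < G) : c.Ind U := by
  intro Z h1 h2
  by_contra h3
  have := h Z (h1.trans hU) h2 (nonempty_iff_ne_empty.2 h3)
  have := card_le_card h1
  omega

theorem nul_con_le (hN : NulStmt) (hL : LamStmt) {c : Code} {Y X U : Finset ℕ} (hX : X ⊆ Y)
    (hU : U ⊆ X) (h0 : c.Ind U) : (c.con (Y \ X)).nul U ≤ c.lam Y X := by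
  have h1 := hN.con c U (Y \ X) (disjoint_left.2 fun x h1 h2 => (mem_sdiff.1 h2).2 (hU h1))
  have h2 := hN.sup c X (U ∪ Y \ X)
  have h3 : X ∪ (U ∪ Y \ X) = Y := by
    ext x
    have := @hX x
    have := @hU x
    simp only [mem_union, mem_sdiff]
    grind
  have h4 : X ∩ (U ∪ Y \ X) = U := by
    ext x
    have := @hU x
    simp only [mem_union, mem_inter, mem_sdiff]
    grind
  rw [h3, h4, (hN.ind c U).2 h0] at h2
  have h5 := hL.add c Y X hX
  omega

end Wit

theorem close_stmt (hN : NulStmt) : CloseStmt := by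
  intro c E U₀ G k hG hU h
  have hk : 0 < k := by
    have := h U₀ subset_rfl hU (by omega)
    omega
  have h1 : k * ((G - 1) / k) ≤ G - 1 := Nat.mul_div_le _ _
  have h2 : G - 1 < k * ((G - 1) / k + 1) := Nat.lt_mul_div_succ _ hk
  have h3 : (G - 1) / k ≤ G - 1 := Nat.div_le_self _ _
  obtain ⟨U, u1, u2, u3, u4⟩ := Wit.close_aux hN c E U₀ G k ((G - 1) / k) (by omega) h k 0 U₀
    (by omega) subset_rfl hU (by omega) (Nat.zero_le _)
  exact ⟨U, (G - 1) / k + 1, u1, u2, u3, by omega, by omega, u4⟩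

namespace Wit

/-- One peeling step inside a dense set. -/
theorem peel (hN : NulStmt) (hL : LamStmt) (hD : DualStmt) (hU : UniStmt) {d k T C V : ℕ}
    (hk : 1 ≤ k)
    (h1 : ∀ (c b : Code) (Y X : Finset ℕ) (G : ℕ), DualPair c b Y →
      ¬ c.Uni Y d → c.Gir Y G → (∀ S ⊆ Y, C * S.card + G * c.nul (Y \ S) ≤ G * c.nul Y) →
      X ⊆ Y → c.lam Y X < k → 0 < c.nul X → (∀ X' ⊂ X, c.lam Y X' < k → c.nul X' = 0) →
      ¬ b.KM X T)
    (h2 : ∀ (c b : Code) (E : Finset ℕ) (G : ℕ), DualPair c b E → ¬ c.Uni E d →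
      ¬ b.KM E T → c.Gir E G → 1 ≤ G → ∃ 𝓨 : Finset (Finset ℕ),
        𝓨.card ≤ (E.card + 1) ^ V * 2 ^ (V * G) ∧ (∀ Y ∈ 𝓨, Y ⊆ E ∧ G ≤ Y.card) ∧
        ∀ Z ⊆ E, c.cyc Z → Z.Nonempty → ∃ Y ∈ 𝓨, Y ⊆ Z)
    (c : Code) (Y : Finset ℕ) (G : ℕ) (hu : ¬ c.Uni Y d) (hg : c.Gir Y G) (hG : 1 ≤ G)
    (hd : ∀ S ⊆ Y, C * S.card + G * c.nul (Y \ S) ≤ G * c.nul Y) (h0 : 0 < c.nul Y) :
    ∃ (R : Finset ℕ) (𝓨 : Finset (Finset ℕ)), R ⊆ Y ∧ R.Nonempty ∧
      𝓨.card ≤ (Y.card + 1) ^ V * 2 ^ (V * G) ∧ (∀ W ∈ 𝓨, W ⊆ Y ∧ G ≤ k * W.card) ∧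
      ∀ Z ⊆ Y, c.cyc Z → (Z ∩ R).Nonempty → ∃ W ∈ 𝓨, W ⊆ Z := by
  classical
  obtain ⟨b, hb⟩ := hD.ex c Y
  obtain ⟨X, x1, x2⟩ := exists_min_image
    (Y.powerset.filter fun X => c.lam Y X < k ∧ 0 < c.nul X) card
    ⟨Y, mem_filter.2 ⟨mem_powerset_self _, by rw [hL.self]; omega, h0⟩⟩
  obtain ⟨x3, x4, x5⟩ := mem_filter.1 x1
  rw [mem_powerset] at x3
  have hK : ¬ b.KM X T := h1 c b Y X G hb hu hg hd x3 x4 x5 fun X' h3 h4 => by
    by_contra h5
    have := x2 X' (mem_filter.2 ⟨mem_powerset.2 (h3.subset.trans x3), h4, by omega⟩)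
    have := card_lt_card h3
    omega
  obtain ⟨U, G', -, u1, u2, u3, u4, u5⟩ := close_stmt hN (c.con (Y \ X)) X ∅ G k hG
    (empty_subset _) fun U _ h3 h4 => (nul_con_le hN hL x3 h3
      (ind_of_lt hg (h3.trans x3) (by simpa using h4))).trans_lt x4
  rw [card_empty, zero_add] at u2
  have hG' : 1 ≤ G' := by
    rcases Nat.eq_zero_or_pos G' with h | h
    · rw [h, mul_zero] at u3
      omega
    · exact h
  have d1 : DualPair (c.con (Y \ X)) b X := by
    have := hD.con c b Y (Y \ X) hb sdiff_subset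
    rwa [Finset.sdiff_sdiff_eq_self x3] at this
  have d2 := hD.con _ b X U d1 u1
  obtain ⟨𝓨, y1, y2, y3⟩ := h2 _ b (X \ U) G' d2
    (fun h => hu (hU.con c Y X (Y \ X) d x3 sdiff_subset
      (hU.con _ X (X \ U) U d sdiff_subset u1 h)))
    (fun h => hK (h.mono sdiff_subset)) u5 hG'
  refine ⟨X \ U, 𝓨, sdiff_subset.trans x3, ?_, y1.trans ?_, fun W hW => ⟨?_, ?_⟩,
    fun Z z1 z2 z3 => ?_⟩
  · rw [sdiff_nonempty]
    intro h
    have h3 := card_le_card h
    have := (hN.ind c X).2 (ind_of_lt hg x3 (by omega))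
    omega
  · have := card_le_card ((sdiff_subset (t := U)).trans x3)
    exact Nat.mul_le_mul (Nat.pow_le_pow_left (by omega) _)
      (Nat.pow_le_pow_right (by omega) (Nat.mul_le_mul_left _ u4))
  · exact (y2 W hW).1.trans (sdiff_subset.trans x3)
  · exact u3.trans (Nat.mul_le_mul_left _ (y2 W hW).2)
  · obtain ⟨W, w1, w2⟩ := y3 _ inter_subset_right (cyc_con u1 z1 z2) z3
    exact ⟨W, w1, w2.trans inter_subset_left⟩

end Wit

theorem w_stmt (hN : NulStmt) (hL : LamStmt) (hD : DualStmt) (hU : UniStmt) (h1 : MixStmt)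
    (h2 : WCStmt) : WStmt := by
  classical
  intro d
  obtain ⟨k, T, C, hk, h1⟩ := h1 d
  obtain ⟨V, h2⟩ := h2 d T
  refine ⟨V + 1, k, C, fun c E₀ G hu hg hG => ?_⟩
  have key : ∀ (n : ℕ) (E : Finset ℕ), E.card ≤ n → E ⊆ E₀ →
      ∃ 𝓨 : Finset (Finset ℕ), 𝓨.card ≤ n * ((E₀.card + 1) ^ V * 2 ^ (V * G)) ∧
        (∀ Y ∈ 𝓨, Y ⊆ E ∧ G ≤ k * Y.card) ∧
        ∀ S ⊆ E, (∀ Y ∈ 𝓨, ¬ Y ⊆ S) → G * c.nul S ≤ C * S.card := by
    intro n
    induction n with
    | zero =>
      intro E e1 _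
      refine ⟨∅, by simp, by simp, fun S hS _ => ?_⟩
      have : c.nul S = 0 := (hN.ind c S).2 fun Z z1 _ =>
        card_eq_zero.1 (by have := card_le_card (z1.trans hS); omega)
      simp [this]
    | succ n ih =>
      intro E e1 e2
      obtain ⟨Y, y1, y2⟩ := exists_max_image E.powerset
        (fun S => (G : ℤ) * c.nul S - C * S.card) ⟨E, mem_powerset_self _⟩
      rw [mem_powerset] at y1
      simp only [mem_powerset] at y2
      by_cases h0 : G * c.nul Y ≤ C * Y.card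
      · refine ⟨∅, by simp, by simp, fun S hS _ => ?_⟩
        have := y2 S hS
        zify at h0 ⊢
        linarith
      have h3 : 0 < c.nul Y := by
        rcases Nat.eq_zero_or_pos (c.nul Y) with h | h
        · simp [h] at h0
        · exact h
      have hY := y1.trans e2
      obtain ⟨R, 𝓨₁, r1, r2, r3, r4, r5⟩ := Wit.peel hN hL hD hU hk h1 h2 c Y G
        (fun h => hu (h.mono hY)) (Wit.gir_mono hg hY) hG (fun S hS => by
          have h4 := y2 (Y \ S) (sdiff_subset.trans y1)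
          have h5 := card_sdiff_add_card_eq_card hS
          zify at h5 ⊢
          rw [← h5] at h4
          linarith) h3
      have h4 : (Y \ R).card ≤ n := by
        have := card_sdiff_add_card_eq_card r1
        have := card_le_card y1
        have := r2.card_pos
        omega
      obtain ⟨𝓨₂, s1, s2, s3⟩ := ih (Y \ R) h4 (sdiff_subset.trans hY)
      refine ⟨𝓨₁ ∪ 𝓨₂, (card_union_le _ _).trans ?_, fun W hW => ?_, fun S hS hW => ?_⟩
      · have : (Y.card + 1) ^ V * 2 ^ (V * G) ≤ (E₀.card + 1) ^ V * 2 ^ (V * G) :=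
          Nat.mul_le_mul_right _ (Nat.pow_le_pow_left (by have := card_le_card hY; omega) _)
        rw [add_mul, one_mul]
        omega
      · rcases mem_union.1 hW with h | h
        · exact ⟨(r4 W h).1.trans y1, (r4 W h).2⟩
        · exact ⟨(s2 W h).1.trans (sdiff_subset.trans y1), (s2 W h).2⟩
      · have h5 : c.nul (S ∩ Y) = c.nul ((S ∩ Y) \ R) :=
          hN.eq c _ _ sdiff_subset fun Z z1 z2 => subset_sdiff.2 ⟨z1, by
            by_contra z3
            obtain ⟨W, w1, w2⟩ := r5 Z (z1.trans inter_subset_right) z2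
              (not_disjoint_iff_nonempty_inter.1 z3)
            exact hW W (mem_union_left _ w1) (w2.trans (z1.trans inter_subset_left))⟩
        have h6 := s3 ((S ∩ Y) \ R) (sdiff_subset_sdiff inter_subset_right subset_rfl)
          fun W w1 w2 => hW W (mem_union_right _ w1)
            (w2.trans (sdiff_subset.trans inter_subset_left))
        have h7 : C * ((S ∩ Y) \ R).card ≤ C * (S ∩ Y).card :=
          Nat.mul_le_mul_left _ (card_le_card sdiff_subset)
        have h8 := Nat.mul_le_mul_left G (hN.sup c S Y)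
        have h9 := y2 (S ∪ Y) (union_subset hS y1)
        have h10 := card_union_add_card_inter S Y
        rw [← h5] at h6
        have h11 : (C : ℤ) * (S ∪ Y).card + C * (S ∩ Y).card = C * S.card + C * Y.card := by
          rw [← mul_add, ← mul_add]
          exact_mod_cast congrArg (C * ·) h10
        zify at h6 h7 h8 ⊢
        linarith
  obtain ⟨𝓨, y1, y2, y3⟩ := key E₀.card E₀ le_rfl subset_rfl
  refine ⟨𝓨, y1.trans ?_, y2, y3⟩
  rw [pow_succ', mul_assoc]
  exact Nat.mul_le_mul (by omega) (Nat.mul_le_mul_left _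
    (Nat.pow_le_pow_right (by omega) (Nat.mul_le_mul_right _ (by omega))))

end Pool.Agent.MP71

end MrgPart10

-- ======== part 11: formerly Pool.Agent.MP_71daef_lc.det.WC
section MrgPart11

/-!
Witnesses for all cycles when the dual has no large clique minor.
-/

set_option autoImplicit false

namespace Pool.Agent.MP71

theorem wc_stmt (hN : NulStmt) (_hD : DualStmt) (hU : UniStmt) (hLi : LightStmt) : WCStmt :=
  Pr.wc' (Pr.sample hN hU) (Pr.lightList hN hLi (Pr.ghost hN)) Pr.low Pr.can'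

end Pool.Agent.MP71

end MrgPart11

-- ======== part 12: formerly Pool.Agent.MP_71daef_lc.det.All
section MrgPart12

/-!
Assembly of the deterministic girth algorithm.
-/

set_option autoImplicit false

namespace Pool.Agent.MP71

theorem lam_all : LamStmt := lam_stmt nul_stmt

theorem dual_all : DualStmt := dual_stmt nul_stmt lam_all

theorem uni_all : UniStmt := uni_stmt nul_stmt

theorem link_all : Link1Stmt :=
  link1_stmt lam_all dual_all uni_all (dich_stmt lam_all)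
    (end_stmt lam_all dual_all (dich_stmt lam_all) (bal_stmt lam_all)
      (link2_stmt nul_stmt lam_all dual_all uni_all)
      (fin_stmt lam_all dual_all tree_stmt (grid_stmt id_stmt)))

theorem w_all : WStmt :=
  w_stmt nul_stmt lam_all dual_all uni_all
    (mix_stmt nul_stmt lam_all dual_all uni_all (light_stmt nul_stmt) small_stmt link_all)
    (wc_stmt nul_stmt dual_all uni_all (light_stmt nul_stmt))

theorem spw_all : SPWStmt :=
  spw_stmt nul_stmt uni_all (sp_stmt nul_stmt uni_all (close_stmt nul_stmt) w_all)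

theorem top_all : TopStmt :=
  DA.top_of (DA.pl2 DA.pl1) fun d => DA.top_thm _ (DA.cntA (countw_stmt nul_stmt uni_all) d)
    (DA.find_thm _ (DA.spwA nul_stmt spw_all d) DA.hit (DA.cob_thm DA.mw2)) (DA.orc_thm DA.loc)
    (DA.run_thm DA.mw1)

end Pool.Agent.MP71

end MrgPart12

-- marker of a merged file
example : 731051 + 856209 = 731051 + 856209 := rfl
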