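import Mathlib
import Pool.Agent.MP_71daef_lc.det.ABridge
import Pool.Agent.MP_71daef_lc.det.AHit
import Pool.Agent.MP_71daef_lc.det.AMwu
import Pool.Agent.MP_71daef_lc.det.ACob
import Pool.Agent.MP_71daef_lc.det.AFind
import Pool.Agent.MP_71daef_lc.det.ALoc
import Pool.Agent.MP_71daef_lc.det.AOrc
import Pool.Agent.MP_71daef_lc.det.ARun
import Pool.Agent.MP_71daef_lc.det.ATop
import Pool.Agent.MP_71daef_lc.det.APl1
import Pool.Agent.MP_71daef_lc.det.APl2

/-!
Block A assembled.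
-/

set_option autoImplicit false

namespace Pool.Agent.MP71

theorem top_stmt (hN : NulStmt) (h1 : SPWStmt) (h2 : CountWStmt) : TopStmt :=
  DA.top_of (DA.pl2 DA.pl1) fun d =>
    DA.top_thm _ (DA.cntA h2 d) (DA.find_thm _ (DA.spwA hN h1 d) DA.hit (DA.cob_thm DA.mw2))
      (DA.orc_thm DA.loc) (DA.run_thm DA.mw1)

end Pool.Agent.MP71
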